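import Mathlib

/-!
MP_ae5b4e_an, theorem on leaves of `3`-periodic triangles (the involutions of the ordinary
billiard): common definitions.
-/

noncomputable section

namespace Pool.Agent.MP_ae5b4e_an.Birk

open Real Set Filter Topology MeasureTheory ComplexConjugate

/-- The area form `Im (conj a * b)` of the plane `ℂ`. -/
def om (a b : ℂ) : ℝ := (conj a * b).im

lemma om_def (a b : ℂ) : om a b = a.re * b.im - a.im * b.re := by
  simp [om, Complex.mul_im]
  ring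

/-- `A' d = (4 d - sin 4 d) / 16`, the primitive of `2 sin² cos²` vanishing at `0`. -/
def Ap (d : ℝ) : ℝ := (4 * d - sin (4 * d)) / 16

/-- The data of the theorem in analytic form.  `h` is the reciprocal of the polar radius of
the curve `γ` (the support function of the dual table), `h1`, `h2` are its derivatives; the leaf
`c` has polar radius `1 / P c`, and it meets the tangent line of `γ` at the angle `t` in the two
points which are seen under the angles `t ± D c t`.  No positivity of `h` and `P` is assumed. -/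
structure Bir (h h1 h2 : ℝ → ℝ) (P D : ℝ → ℝ → ℝ) : Prop where
  h_deriv : ∀ t, HasDerivAt h (h1 t) t
  h1_deriv : ∀ t, HasDerivAt h1 (h2 t) t
  h2_cont : Continuous h2
  h_per : ∀ t, h (t + 2 * π) = h t
  rho_pos : ∀ t, 0 < h t + h2 t
  P_smooth : ContDiffOn ℝ 1 (fun q : ℝ × ℝ => P q.1 q.2) (Ioo 0 1 ×ˢ univ)
  D_smooth : ContDiffOn ℝ 1 (fun q : ℝ × ℝ => D q.1 q.2) (Ioo 0 1 ×ˢ univ)
  P_per : ∀ c ∈ Ioo (0:ℝ) 1, ∀ t, P c (t + 2 * π) = P c t
  D_per : ∀ c ∈ Ioo (0:ℝ) 1, ∀ t, D c (t + 2 * π) = D c t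
  D_mem : ∀ c ∈ Ioo (0:ℝ) 1, ∀ t, D c t ∈ Ioo 0 (π / 2)
  D_mono : ∀ c ∈ Ioo (0:ℝ) 1, ∀ t, 0 < deriv (fun x => D x t) c
  D_lim : ∀ t, Tendsto (fun c => D c t) (𝓝[>] 0) (𝓝 0)
  eq_plus : ∀ c ∈ Ioo (0:ℝ) 1, ∀ t,
    P c (t + D c t) = h t * cos (D c t) + h1 t * sin (D c t)
  eq_minus : ∀ c ∈ Ioo (0:ℝ) 1, ∀ t,
    P c (t - D c t) = h t * cos (D c t) - h1 t * sin (D c t)

end Pool.Agent.MP_ae5b4e_an.Birk
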