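import Mathlib
import Pool.Agent.Lib.MP_ae5b4e_an.Birk.Defs

/-!
MP_ae5b4e_an, module L: the elementary inequality `Ap t ≥ π / 16 sin⁴ t (2 + 3 cos² t)`.
-/

noncomputable section

namespace Pool.Agent.MP_ae5b4e_an.Birk

open Real Set Filter Topology MeasureTheory ComplexConjugate

namespace ApL

/-- The function `16 (Ap t - π / 16 sin⁴ t (2 + 3 cos² t))`. -/
def g (t : ℝ) : ℝ := 4 * t - sin (4 * t) - π * (sin t ^ 4 * (2 + 3 * cos t ^ 2))

/-- The relevant factor of `g'`. -/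
def b (t : ℝ) : ℝ := 32 * cos t - π * (sin t * (2 + 18 * cos t ^ 2))

lemma hasDerivAt_g (t : ℝ) : HasDerivAt g (sin t ^ 2 * cos t * b t) t := by
  have h1 : HasDerivAt (fun t : ℝ => 4 * t) 4 t := by
    simpa using (hasDerivAt_id t).const_mul (4:ℝ)
  have h2 : HasDerivAt (fun t : ℝ => sin (4 * t)) (cos (4 * t) * 4) t := h1.sin
  have h3 : HasDerivAt (fun t : ℝ => sin t ^ 4 * (2 + 3 * cos t ^ 2))
      ((4 * sin t ^ 3 * cos t) * (2 + 3 * cos t ^ 2) +
        sin t ^ 4 * (3 * (2 * cos t * (-sin t)))) t := by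
    have ha : HasDerivAt (fun t : ℝ => sin t ^ 4) (4 * sin t ^ 3 * cos t) t := by
      have := (Real.hasDerivAt_sin t).pow 4
      exact this.congr_deriv (by norm_num)
    have hb : HasDerivAt (fun t : ℝ => 2 + 3 * cos t ^ 2) (3 * (2 * cos t * (-sin t))) t := by
      have := (((Real.hasDerivAt_cos t).pow 2).const_mul (3:ℝ)).const_add (2:ℝ)
      simpa using this
    exact ha.mul hb
  have h4 : HasDerivAt g _ t := (h1.sub h2).sub (h3.const_mul π)
  refine h4.congr_deriv ?_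
  symm
  have e4 : cos (4 * t) = 1 - 8 * sin t ^ 2 * cos t ^ 2 := by
    have e : 4 * t = 2 * (2 * t) := by ring
    rw [e, Real.cos_two_mul, Real.cos_two_mul]
    have := Real.sin_sq_add_cos_sq t
    have hs : sin t ^ 2 = 1 - cos t ^ 2 := by linarith
    rw [hs]
    ring
  rw [e4, b]
  have := Real.sin_sq_add_cos_sq t
  have hc : cos t ^ 2 = 1 - sin t ^ 2 := by linarith
  have hc3 : cos t ^ 3 = cos t * (1 - sin t ^ 2) := by rw [← hc]; ring
  ring_nf
  rw [hc3]
  ring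

lemma hasDerivAt_b (t : ℝ) :
    HasDerivAt b (-(32 * sin t + π * (cos t * (20 - 54 * sin t ^ 2)))) t := by
  have h1 := (Real.hasDerivAt_cos t).const_mul (32:ℝ)
  have h2 : HasDerivAt (fun t : ℝ => 2 + 18 * cos t ^ 2) (18 * (2 * cos t * (-sin t))) t := by
    have := (((Real.hasDerivAt_cos t).pow 2).const_mul (18:ℝ)).const_add (2:ℝ)
    simpa using this
  have h3 := ((Real.hasDerivAt_sin t).mul h2).const_mul π
  have h4 : HasDerivAt b _ t := h1.sub h3
  refine h4.congr_deriv ?_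
  symm
  have := Real.sin_sq_add_cos_sq t
  have hc : cos t ^ 2 = 1 - sin t ^ 2 := by linarith
  rw [hc]
  ring

lemma continuous_g : Continuous g :=
  continuous_iff_continuousAt.2 fun t => (hasDerivAt_g t).continuousAt

lemma continuous_b : Continuous b :=
  continuous_iff_continuousAt.2 fun t => (hasDerivAt_b t).continuousAt

lemma sin_le_cos {t : ℝ} (h0 : 0 ≤ t) (h1 : t ≤ π / 4) : sin t ≤ cos t := by
  have := Real.pi_pos
  rw [← Real.sin_pi_div_two_sub]
  exact Real.sin_le_sin_of_le_of_le_pi_div_two (by linarith) (by linarith) (by linarith)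

lemma cos_le_sin {t : ℝ} (h0 : π / 4 ≤ t) (h1 : t ≤ π / 2) : cos t ≤ sin t := by
  have := Real.pi_pos
  rw [← Real.sin_pi_div_two_sub]
  exact Real.sin_le_sin_of_le_of_le_pi_div_two (by linarith) (by linarith) (by linarith)

lemma db_nonpos {t : ℝ} (h0 : 0 ≤ t) (h1 : t ≤ π / 4) :
    -(32 * sin t + π * (cos t * (20 - 54 * sin t ^ 2))) ≤ 0 := by
  have hp := Real.pi_pos
  have hs : 0 ≤ sin t := Real.sin_nonneg_of_nonneg_of_le_pi h0 (by linarith)
  have hc : 0 ≤ cos t := Real.cos_nonneg_of_mem_Icc ⟨by linarith, by linarith⟩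
  have hsc := sin_le_cos h0 h1
  have h2 := Real.sin_sq_add_cos_sq t
  set s := sin t
  set c := cos t
  have hhom : 0 ≤ 32 * s * (s ^ 2 + c ^ 2) + π * (c * (20 * (s ^ 2 + c ^ 2) - 54 * s ^ 2)) := by
    have hpi : π ≤ 3.15 := Real.pi_lt_d2.le
    have hpi0 : 0 ≤ π := hp.le
    obtain ⟨v, hv, hv'⟩ : ∃ v, 0 ≤ v ∧ c = s + v := ⟨c - s, by linarith, by ring⟩
    by_cases hcase : 0 ≤ 20 * (s ^ 2 + c ^ 2) - 54 * s ^ 2
    · positivity
    · push Not at hcase
      have h3 : 0 ≤ (3.15 - π) * (c * (-(20 * (s ^ 2 + c ^ 2) - 54 * s ^ 2))) :=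
        mul_nonneg (by linarith) (mul_nonneg hc (by linarith))
      have h4 : 0 ≤ 32 * s * (s ^ 2 + c ^ 2) +
          3.15 * (c * (20 * (s ^ 2 + c ^ 2) - 54 * s ^ 2)) := by
        rw [hv']
        have e : 32 * s * (s ^ 2 + (s + v) ^ 2) +
            3.15 * ((s + v) * (20 * (s ^ 2 + (s + v) ^ 2) - 54 * s ^ 2)) =
            19.9 * s ^ 3 + 145.9 * (s ^ 2 * v) + 221 * (s * v ^ 2) + 63 * v ^ 3 := by ring
        rw [e]
        positivity
      linarith
  rw [h2] at hhom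
  linarith

lemma b_nonpos {t : ℝ} (h0 : π / 4 ≤ t) (h1 : t ≤ π / 2) : b t ≤ 0 := by
  have hp := Real.pi_pos
  have hs : 0 ≤ sin t := Real.sin_nonneg_of_nonneg_of_le_pi (by linarith) (by linarith)
  have hc : 0 ≤ cos t := Real.cos_nonneg_of_mem_Icc ⟨by linarith, by linarith⟩
  have hsc := cos_le_sin h0 h1
  have h2 := Real.sin_sq_add_cos_sq t
  unfold b
  set s := sin t
  set c := cos t
  have hhom : 32 * c * (s ^ 2 + c ^ 2) - π * (s * (2 * (s ^ 2 + c ^ 2) + 18 * c ^ 2)) ≤ 0 := by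
    have hpi : 3.14 ≤ π := Real.pi_gt_d2.le
    obtain ⟨v, hv, hv'⟩ : ∃ v, 0 ≤ v ∧ s = c + v := ⟨s - c, by linarith, by ring⟩
    have h3 : 0 ≤ (π - 3.14) * (s * (2 * (s ^ 2 + c ^ 2) + 18 * c ^ 2)) :=
      mul_nonneg (by linarith) (by positivity)
    have h4 : 0 ≤ 3.14 * (s * (2 * (s ^ 2 + c ^ 2) + 18 * c ^ 2)) -
        32 * c * (s ^ 2 + c ^ 2) := by
      rw [hv']
      have e : 3.14 * ((c + v) * (2 * ((c + v) ^ 2 + c ^ 2) + 18 * c ^ 2)) -
          32 * c * ((c + v) ^ 2 + c ^ 2) =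
          5.08 * c ^ 3 + v * (17.64 * c ^ 2 - 13.16 * (c * v) + 6.28 * v ^ 2) := by ring
      rw [e]
      have h5 : 0 ≤ 17.64 * c ^ 2 - 13.16 * (c * v) + 6.28 * v ^ 2 := by
        nlinarith [sq_nonneg (c - v), sq_nonneg (2 * c - v), sq_nonneg c, sq_nonneg v]
      have := mul_nonneg hv h5
      positivity
    linarith
  rw [h2] at hhom
  linarith

lemma g_zero : g 0 = 0 := by simp [g]

lemma g_end : g (π / 2) = 0 := by
  have : 4 * (π / 2) = 2 * π := by ring
  rw [g, this, Real.sin_two_pi, Real.sin_pi_div_two, Real.cos_pi_div_two]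
  ring

lemma antitoneOn_b : AntitoneOn b (Icc 0 (π / 4)) := by
  apply antitoneOn_of_deriv_nonpos (convex_Icc _ _) continuous_b.continuousOn
    (fun t _ => (hasDerivAt_b t).differentiableAt.differentiableWithinAt)
  intro t ht
  rw [interior_Icc] at ht
  rw [(hasDerivAt_b t).deriv]
  exact db_nonpos ht.1.le ht.2.le

lemma exists_zero : ∃ t₀ ∈ Icc 0 (π / 4), b t₀ = 0 := by
  have hp := Real.pi_pos
  have h := intermediate_value_Icc' (show (0:ℝ) ≤ π / 4 by positivity)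
    (continuous_b.continuousOn (s := Icc 0 (π / 4)))
  have h0 : (0:ℝ) ∈ Icc (b (π / 4)) (b 0) := by
    constructor
    · exact b_nonpos le_rfl (by linarith)
    · simp [b]
  obtain ⟨t, ht, hb⟩ := h h0
  exact ⟨t, ht, hb⟩

lemma g_nonneg {t : ℝ} (ht : t ∈ Icc 0 (π / 2)) : 0 ≤ g t := by
  have hp := Real.pi_pos
  obtain ⟨t₀, ⟨ht0, ht1⟩, hb⟩ := exists_zero
  have hfac : ∀ x, 0 ≤ x → x ≤ π / 2 → 0 ≤ sin x ^ 2 * cos x := fun x h0 h1 =>
    mul_nonneg (sq_nonneg _) (Real.cos_nonneg_of_mem_Icc ⟨by linarith, by linarith⟩)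
  have hmono : MonotoneOn g (Icc 0 t₀) := by
    apply monotoneOn_of_deriv_nonneg (convex_Icc _ _) continuous_g.continuousOn
      (fun t _ => (hasDerivAt_g t).differentiableAt.differentiableWithinAt)
    intro x hx
    rw [interior_Icc] at hx
    rw [(hasDerivAt_g x).deriv]
    have h1 : b t₀ ≤ b x :=
      antitoneOn_b ⟨hx.1.le, by linarith [hx.2]⟩ ⟨ht0, ht1⟩ hx.2.le
    exact mul_nonneg (hfac x hx.1.le (by linarith [hx.2])) (by linarith)
  have hanti : AntitoneOn g (Icc t₀ (π / 2)) := by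
    apply antitoneOn_of_deriv_nonpos (convex_Icc _ _) continuous_g.continuousOn
      (fun t _ => (hasDerivAt_g t).differentiableAt.differentiableWithinAt)
    intro x hx
    rw [interior_Icc] at hx
    rw [(hasDerivAt_g x).deriv]
    have h1 : b x ≤ 0 := by
      rcases le_total x (π / 4) with hx4 | hx4
      · have := antitoneOn_b ⟨ht0, ht1⟩ ⟨by linarith [hx.1], hx4⟩ hx.1.le
        linarith
      · exact b_nonpos hx4 hx.2.le
    exact mul_nonpos_of_nonneg_of_nonpos (hfac x (by linarith [hx.1]) hx.2.le) h1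
  rcases le_total t t₀ with h | h
  · have := hmono ⟨le_rfl, ht0⟩ ⟨ht.1, h⟩ ht.1
    rw [g_zero] at this
    exact this
  · have := hanti ⟨h, ht.2⟩ ⟨by linarith, le_rfl⟩ ht.2
    rw [g_end] at this
    exact this

end ApL

/-- **Module L.** -/
theorem Ap_ge {t : ℝ} (ht : t ∈ Icc 0 (π / 2)) :
    π / 16 * (sin t ^ 4 * (2 + 3 * cos t ^ 2)) ≤ Ap t := by
  have := ApL.g_nonneg ht
  unfold ApL.g at this
  unfold Ap
  linarith

end Pool.Agent.MP_ae5b4e_an.Birk
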