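import Mathlib
import Pool.Agent.Lib.MP_ae5b4e_an.Birk.Defs

/-!
MP_ae5b4e_an, theorem on `3`-periodic leaves: from the coefficient `ζ` to the symmetric gauge
`b ↦ (b + ζ * conj b) / √(1 - |ζ|²)`.
-/

noncomputable section

namespace Pool.Agent.MP_ae5b4e_an.Birk

open Real Set Filter Topology MeasureTheory ComplexConjugate

lemma om_add_right (a b c : ℂ) : om a (b + c) = om a b + om a c := by
  simp only [om_def, Complex.add_re, Complex.add_im]; ring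

lemma om_real_mul_self (a : ℂ) (t : ℝ) : om a (t * a) = 0 := by
  simp only [om_def, Complex.re_ofReal_mul, Complex.im_ofReal_mul]; ring

lemma gauge_alg {ζ ζ' b : ℂ} {β β' : ℝ} (hβ : β ≠ 0) (hN : β ^ 2 * (1 - ‖ζ‖ ^ 2) = 1) :
    ‖(β * b + β * ζ * conj b) - ζ * conj (β * b + β * ζ * conj b)‖ ^ 2 =
        (1 - ‖ζ‖ ^ 2) * ‖b‖ ^ 2 ∧
      (ζ' * conj (β * b + β * ζ * conj b) ^ 2).im -
          (conj ζ * ζ').im * ‖(β * b + β * ζ * conj b : ℂ)‖ ^ 2 =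
        (1 - ‖ζ‖ ^ 2) * om (β * b + β * ζ * conj b)
          (β' * b + (β' * ζ + β * ζ') * conj b) := by
  have hz : (ζ * conj ζ : ℂ) = ((‖ζ‖ ^ 2 : ℝ) : ℂ) := by
    rw [Complex.mul_conj, Complex.normSq_eq_norm_sq]
  have h1 : (β * b + β * ζ * conj b) - ζ * conj (β * b + β * ζ * conj b) =
      ((β * (1 - ‖ζ‖ ^ 2) : ℝ) : ℂ) * b := by
    simp only [map_add, map_mul, Complex.conj_ofReal, Complex.conj_conj]
    push_cast
    push_cast at hz
    linear_combination (-(β * b : ℂ)) * hz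
  constructor
  · rw [h1, norm_mul, mul_pow, Complex.norm_real, Real.norm_eq_abs, sq_abs]
    have : (β * (1 - ‖ζ‖ ^ 2)) ^ 2 = (β ^ 2 * (1 - ‖ζ‖ ^ 2)) * (1 - ‖ζ‖ ^ 2) := by ring
    rw [this, hN]
    ring
  · set a : ℂ := β * b + β * ζ * conj b with ha
    have h2 : conj a - conj ζ * a = ((β * (1 - ‖ζ‖ ^ 2) : ℝ) : ℂ) * conj b := by
      have := congrArg conj h1
      simpa only [map_sub, map_mul, Complex.conj_ofReal, Complex.conj_conj] using this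
    have haa : (a * conj a : ℂ) = ((‖a‖ ^ 2 : ℝ) : ℂ) := by
      rw [Complex.mul_conj, Complex.normSq_eq_norm_sq]
    have h3 : (ζ' * conj a ^ 2).im - (conj ζ * ζ').im * ‖a‖ ^ 2 =
        (β * (1 - ‖ζ‖ ^ 2)) * (ζ' * conj a * conj b).im := by
      have e1 : (conj ζ * ζ').im * ‖a‖ ^ 2 = (conj ζ * ζ' * (a * conj a)).im := by
        rw [haa, Complex.im_mul_ofReal]
      have e2 : (β * (1 - ‖ζ‖ ^ 2)) * (ζ' * conj a * conj b).im =
          (ζ' * conj a * (((β * (1 - ‖ζ‖ ^ 2) : ℝ) : ℂ) * conj b)).im := by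
        have : ζ' * conj a * (((β * (1 - ‖ζ‖ ^ 2) : ℝ) : ℂ) * conj b) =
          ((β * (1 - ‖ζ‖ ^ 2) : ℝ) : ℂ) * (ζ' * conj a * conj b) := by ring
        rw [this, Complex.im_ofReal_mul]
      rw [e1, e2, ← h2, ← Complex.sub_im]
      congr 1
      ring
    have h4 : (β' * b + (β' * ζ + β * ζ') * conj b : ℂ) =
        ((β' / β : ℝ) : ℂ) * a + ((β : ℝ) : ℂ) * (ζ' * conj b) := by
      rw [ha]
      have hβc : (β : ℂ) ≠ 0 := by exact_mod_cast hβ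
      push_cast
      field_simp
      ring
    rw [h3, h4, om_add_right, om_real_mul_self, zero_add]
    have h5 : om a (β * (ζ' * conj b)) = β * (ζ' * conj a * conj b).im := by
      unfold om
      have : conj a * ((β : ℂ) * (ζ' * conj b)) = (β : ℂ) * (ζ' * conj a * conj b) := by ring
      rw [this, Complex.im_ofReal_mul]
    rw [h5]
    ring

lemma hasDerivAt_sq_norm {ζ : ℝ → ℂ} {ζ' : ℂ} {s : ℝ} (h : HasDerivAt ζ ζ' s) :
    HasDerivAt (fun s => ‖ζ s‖ ^ 2) (2 * (conj (ζ s) * ζ').re) s := by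
  have h1 : HasDerivAt (fun s => (ζ s).re) ζ'.re s :=
    (Complex.reCLM.hasFDerivAt (x := ζ s)).comp_hasDerivAt s h
  have h2 : HasDerivAt (fun s => (ζ s).im) ζ'.im s :=
    (Complex.imCLM.hasFDerivAt (x := ζ s)).comp_hasDerivAt s h
  have h3 : HasDerivAt (fun s => (ζ s).re * (ζ s).re + (ζ s).im * (ζ s).im)
      (ζ'.re * (ζ s).re + (ζ s).re * ζ'.re + (ζ'.im * (ζ s).im + (ζ s).im * ζ'.im)) s :=
    (h1.mul h1).add (h2.mul h2)
  have e : (fun s => ‖ζ s‖ ^ 2) = (fun s => (ζ s).re * (ζ s).re + (ζ s).im * (ζ s).im) := by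
    funext s
    rw [Complex.sq_norm, Complex.normSq_apply]
  rw [e]
  refine h3.congr_deriv ?_
  simp only [Complex.mul_re, Complex.conj_re, Complex.conj_im]
  ring

/-- From the coefficient `ζ` to the symmetric gauge of determinant one. -/
theorem gauge_of_zeta {ζ ζ' : ℝ → ℂ} (hζ : ∀ s, HasDerivAt ζ (ζ' s) s) (hc : Continuous ζ')
    (hper : ∀ s, ζ (s + 2 * π) = ζ s) (hlt : ∀ s, 0 < 1 - ‖ζ s‖ ^ 2) (K : ℝ → ℂ → ℝ) (r : ℝ)
    (hI : ∀ (s : ℝ) (a V : ℂ), π * om a V * (1 - ‖ζ s‖ ^ 2) ≤ (1 - ‖ζ s‖ ^ 2) * K s V +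
      π / 2 * (r * ‖a - ζ s * conj a‖ ^ 2 + (ζ' s * conj a ^ 2).im -
        (conj (ζ s) * ζ' s).im * ‖a‖ ^ 2)) :
    ∃ (β : ℝ → ℝ) (κ : ℝ → ℂ) (β' : ℝ → ℝ) (κ' : ℝ → ℂ),
      (∀ s, HasDerivAt β (β' s) s) ∧ (∀ s, HasDerivAt κ (κ' s) s) ∧ Continuous β' ∧
      Continuous κ' ∧ (∀ s, β (s + 2 * π) = β s) ∧ (∀ s, κ (s + 2 * π) = κ s) ∧
      (∀ s, 0 < β s) ∧ (∀ s, β s ^ 2 - ‖κ s‖ ^ 2 = 1) ∧
      ∀ (s : ℝ) (b V : ℂ), π * om (β s * b + κ s * conj b) V ≤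
        K s V + π / 2 * (r * ‖b‖ ^ 2 +
          om (β s * b + κ s * conj b) (β' s * b + κ' s * conj b)) := by
  obtain ⟨N, hN⟩ : ∃ N : ℝ → ℝ, ∀ s, N s = 1 - ‖ζ s‖ ^ 2 := ⟨_, fun _ => rfl⟩
  have hNpos : ∀ s, 0 < N s := fun s => by rw [hN]; exact hlt s
  have hNd : ∀ s, HasDerivAt N (-(2 * (conj (ζ s) * ζ' s).re)) s := fun s => by
    have : N = fun s => 1 - ‖ζ s‖ ^ 2 := funext hN
    rw [this]
    exact (hasDerivAt_sq_norm (hζ s)).const_sub 1
  have hζc : Continuous ζ := continuous_iff_continuousAt.2 fun s => (hζ s).continuousAt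
  have hNc : Continuous N := continuous_iff_continuousAt.2 fun s => (hNd s).continuousAt
  have hsq : ∀ s, 0 < √(N s) := fun s => sqrt_pos.2 (hNpos s)
  obtain ⟨β, hβ⟩ : ∃ β : ℝ → ℝ, ∀ s, β s = (√(N s))⁻¹ := ⟨_, fun _ => rfl⟩
  obtain ⟨β', hβ'⟩ : ∃ β' : ℝ → ℝ, ∀ s, β' s = (conj (ζ s) * ζ' s).re / (√(N s) * N s) :=
    ⟨_, fun _ => rfl⟩
  have hβpos : ∀ s, 0 < β s := fun s => by rw [hβ]; exact inv_pos.2 (hsq s)
  have hβd : ∀ s, HasDerivAt β (β' s) s := fun s => by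
    have e : β = fun s => (√(N s))⁻¹ := funext hβ
    rw [e]
    have h1 : HasDerivAt (fun s => (√(N s))⁻¹)
        (-(-(2 * (conj (ζ s) * ζ' s).re) / (2 * √(N s))) / √(N s) ^ 2) s :=
      ((hNd s).sqrt (hNpos s).ne').inv (hsq s).ne'
    refine h1.congr_deriv ?_
    rw [hβ', sq_sqrt (hNpos s).le]
    have := (hsq s).ne'
    have := (hNpos s).ne'
    field_simp
  have hβ2 : ∀ s, β s ^ 2 * (1 - ‖ζ s‖ ^ 2) = 1 := fun s => by
    rw [← hN, hβ, inv_pow, sq_sqrt (hNpos s).le]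
    exact inv_mul_cancel₀ (hNpos s).ne'
  have hβc : Continuous β := continuous_iff_continuousAt.2 fun s => (hβd s).continuousAt
  have hβ'c : Continuous β' := by
    have e : β' = fun s => (conj (ζ s) * ζ' s).re / (√(N s) * N s) := funext hβ'
    rw [e]
    refine Continuous.div ?_ ?_ fun s => (mul_pos (hsq s) (hNpos s)).ne'
    · exact Complex.continuous_re.comp ((Complex.continuous_conj.comp hζc).mul hc)
    · exact (Real.continuous_sqrt.comp hNc).mul hNc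
  have hNper : ∀ s, N (s + 2 * π) = N s := fun s => by rw [hN, hN, hper]
  refine ⟨β, fun s => β s * ζ s, β', fun s => β' s * ζ s + β s * ζ' s, hβd, ?_, hβ'c, ?_, ?_, ?_,
    hβpos, ?_, ?_⟩
  · intro s
    exact ((hβd s).ofReal_comp).mul (hζ s)
  · exact ((Complex.continuous_ofReal.comp hβ'c).mul hζc).add
      ((Complex.continuous_ofReal.comp hβc).mul hc)
  · intro s
    rw [hβ, hβ, hNper]
  · intro s
    simp only [hβ, hNper, hper]
  · intro s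
    rw [norm_mul, Complex.norm_real, Real.norm_eq_abs, mul_pow, sq_abs]
    linarith [hβ2 s]
  · intro s b V
    have h1 := hI s (β s * b + β s * ζ s * conj b) V
    obtain ⟨g1, g2⟩ := gauge_alg (ζ := ζ s) (ζ' := ζ' s) (b := b) (β := β s) (β' := β' s)
      (hβpos s).ne' (hβ2 s)
    have e1 : r * ‖(β s * b + β s * ζ s * conj b) -
        ζ s * conj (β s * b + β s * ζ s * conj b)‖ ^ 2 +
        (ζ' s * conj (β s * b + β s * ζ s * conj b) ^ 2).im -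
        (conj (ζ s) * ζ' s).im * ‖(β s * b + β s * ζ s * conj b : ℂ)‖ ^ 2 =
        (1 - ‖ζ s‖ ^ 2) * (r * ‖b‖ ^ 2 + om (β s * b + β s * ζ s * conj b)
          (β' s * b + (β' s * ζ s + β s * ζ' s) * conj b)) := by
      rw [g1, add_sub_assoc, g2]
      ring
    rw [e1] at h1
    have h2 := hlt s
    have h3 : (1 - ‖ζ s‖ ^ 2) * (π * om (β s * b + β s * ζ s * conj b) V) ≤
        (1 - ‖ζ s‖ ^ 2) * (K s V + π / 2 * (r * ‖b‖ ^ 2 + om (β s * b + β s * ζ s * conj b)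
          (β' s * b + (β' s * ζ s + β s * ζ' s) * conj b))) := by linarith
    exact le_of_mul_le_mul_left h3 h2

end Pool.Agent.MP_ae5b4e_an.Birk
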