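import Mathlib

/-!
MP_ae5b4e_an, theorem on `3`-periodic leaves: polynomials in the cotangents `x, y, z` of the half
angles of a triangle.
-/

noncomputable section

namespace Pool.Agent.MP_ae5b4e_an.Birk

/-- Evaluation of a polynomial given by its list of coefficients and exponents. -/
def ev (a b c : ℝ) : List (ℤ × ℕ × ℕ × ℕ) → ℝ
  | [] => 0
  | (n, i, j, k) :: l => n * a ^ i * b ^ j * c ^ k + ev a b c l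

lemma ev_nonneg {a b c : ℝ} (ha : 0 < a) (hb : 0 < b) (hc : 0 < c)
    (l : List (ℤ × ℕ × ℕ × ℕ)) (hl : ∀ t ∈ l, 0 ≤ t.1) : 0 ≤ ev a b c l := by
  induction l with
  | nil => exact le_refl _
  | cons t l ih =>
    obtain ⟨n, i, j, k⟩ := t
    have h1 : (0:ℝ) ≤ n := by exact_mod_cast hl (n, i, j, k) (List.mem_cons_self)
    have h2 := ih fun t ht => hl t (List.mem_cons_of_mem _ ht)
    simp only [ev]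
    positivity

lemma ev_pos {a b c : ℝ} (ha : 0 < a) (hb : 0 < b) (hc : 0 < c) (t : ℤ × ℕ × ℕ × ℕ)
    (l : List (ℤ × ℕ × ℕ × ℕ)) (ht : 0 < t.1) (hl : ∀ t ∈ l, 0 ≤ t.1) :
    0 < ev a b c (t :: l) := by
  obtain ⟨n, i, j, k⟩ := t
  have h1 : (0:ℝ) < n := by exact_mod_cast ht
  have h2 := ev_nonneg ha hb hc l hl
  simp only [ev]
  positivity

/-- The coefficient of `p ^ 2` of the form of the gauge (up to a factor). -/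
def RA (x y z n1 n2 n3 : ℝ) : ℝ :=
  (15 * x ^ 2 * y ^ 2 + 2 * x ^ 2 * y * z + 15 * x ^ 2 * z ^ 2 + 7 * x * y ^ 3 +
    37 * x * y ^ 2 * z + 37 * x * y * z ^ 2 + 7 * x * z ^ 3 + 7 * y ^ 3 * z +
    14 * y ^ 2 * z ^ 2 + 7 * y * z ^ 3) * n1 +
  (7 * x ^ 2 * y ^ 2 - 14 * x ^ 2 * y * z + 23 * x ^ 2 * z ^ 2 + 15 * x * y ^ 3 +
    29 * x * y ^ 2 * z + 37 * x * y * z ^ 2 + 23 * x * z ^ 3 + 15 * y ^ 3 * z +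
    38 * y ^ 2 * z ^ 2 + 23 * y * z ^ 3) * n2 +
  (23 * x ^ 2 * y ^ 2 - 14 * x ^ 2 * y * z + 7 * x ^ 2 * z ^ 2 + 23 * x * y ^ 3 +
    37 * x * y ^ 2 * z + 29 * x * y * z ^ 2 + 15 * x * z ^ 3 + 23 * y ^ 3 * z +
    38 * y ^ 2 * z ^ 2 + 15 * y * z ^ 3) * n3

/-- The coefficient of `2 * p * q` of the form of the gauge (up to a factor). -/
def RB (x y z n1 n2 n3 : ℝ) : ℝ :=
  (7 * x ^ 3 * y ^ 2 - 7 * x ^ 3 * z ^ 2 - 4 * x ^ 2 * y ^ 3 + 10 * x ^ 2 * y ^ 2 * z -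
    10 * x ^ 2 * y * z ^ 2 + 4 * x ^ 2 * z ^ 3 - 7 * x * y ^ 4 - 19 * x * y ^ 3 * z +
    19 * x * y * z ^ 3 + 7 * x * z ^ 4 - 7 * y ^ 4 * z - 7 * y ^ 3 * z ^ 2 + 7 * y ^ 2 * z ^ 3 +
    7 * y * z ^ 4) * n1 +
  (7 * x ^ 3 * y ^ 2 - 8 * x ^ 3 * y * z - 15 * x ^ 3 * z ^ 2 + 4 * x ^ 2 * y ^ 3 +
    6 * x ^ 2 * y ^ 2 * z - 42 * x ^ 2 * y * z ^ 2 - 7 * x * y ^ 4 - 7 * x * y ^ 3 * z -
    12 * x * y ^ 2 * z ^ 2 + 3 * x * y * z ^ 3 + 15 * x * z ^ 4 - 7 * y ^ 4 * z -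
    11 * y ^ 3 * z ^ 2 + 11 * y ^ 2 * z ^ 3 + 15 * y * z ^ 4) * n2 +
  (15 * x ^ 3 * y ^ 2 + 8 * x ^ 3 * y * z - 7 * x ^ 3 * z ^ 2 + 42 * x ^ 2 * y ^ 2 * z -
    6 * x ^ 2 * y * z ^ 2 - 4 * x ^ 2 * z ^ 3 - 15 * x * y ^ 4 - 3 * x * y ^ 3 * z +
    12 * x * y ^ 2 * z ^ 2 + 7 * x * y * z ^ 3 + 7 * x * z ^ 4 - 15 * y ^ 4 * z -
    11 * y ^ 3 * z ^ 2 + 11 * y ^ 2 * z ^ 3 + 7 * y * z ^ 4) * n3

/-- The coefficient of `q ^ 2` of the form of the gauge (up to a factor). -/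
def RC (x y z n1 n2 n3 : ℝ) : ℝ :=
  (7 * x ^ 4 * y ^ 2 + 14 * x ^ 4 * y * z + 7 * x ^ 4 * z ^ 2 + 8 * x ^ 3 * y ^ 3 +
    52 * x ^ 3 * y ^ 2 * z + 52 * x ^ 3 * y * z ^ 2 + 8 * x ^ 3 * z ^ 3 + 12 * x ^ 2 * y ^ 4 +
    46 * x ^ 2 * y ^ 3 * z + 96 * x ^ 2 * y ^ 2 * z ^ 2 + 46 * x ^ 2 * y * z ^ 3 +
    12 * x ^ 2 * z ^ 4 + 11 * x * y ^ 5 + 35 * x * y ^ 4 * z + 46 * x * y ^ 3 * z ^ 2 +
    46 * x * y ^ 2 * z ^ 3 + 35 * x * y * z ^ 4 + 11 * x * z ^ 5 + 11 * y ^ 5 * z +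
    23 * y ^ 4 * z ^ 2 + 24 * y ^ 3 * z ^ 3 + 23 * y ^ 2 * z ^ 4 + 11 * y * z ^ 5) * n1 +
  (11 * x ^ 4 * y ^ 2 + 22 * x ^ 4 * y * z + 11 * x ^ 4 * z ^ 2 + 12 * x ^ 3 * y ^ 3 +
    64 * x ^ 3 * y ^ 2 * z + 48 * x ^ 3 * y * z ^ 2 - 4 * x ^ 3 * z ^ 3 + 8 * x ^ 2 * y ^ 4 +
    58 * x ^ 2 * y ^ 3 * z + 100 * x ^ 2 * y ^ 2 * z ^ 2 + 2 * x ^ 2 * y * z ^ 3 -
    4 * x ^ 2 * z ^ 4 + 7 * x * y ^ 5 + 23 * x * y ^ 4 * z + 50 * x * y ^ 3 * z ^ 2 +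
    26 * x * y ^ 2 * z ^ 3 + 3 * x * y * z ^ 4 + 11 * x * z ^ 5 + 7 * y ^ 5 * z +
    15 * y ^ 4 * z ^ 2 + 4 * y ^ 3 * z ^ 3 + 7 * y ^ 2 * z ^ 4 + 11 * y * z ^ 5) * n2 +
  (11 * x ^ 4 * y ^ 2 + 22 * x ^ 4 * y * z + 11 * x ^ 4 * z ^ 2 - 4 * x ^ 3 * y ^ 3 +
    48 * x ^ 3 * y ^ 2 * z + 64 * x ^ 3 * y * z ^ 2 + 12 * x ^ 3 * z ^ 3 - 4 * x ^ 2 * y ^ 4 +
    2 * x ^ 2 * y ^ 3 * z + 100 * x ^ 2 * y ^ 2 * z ^ 2 + 58 * x ^ 2 * y * z ^ 3 +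
    8 * x ^ 2 * z ^ 4 + 11 * x * y ^ 5 + 3 * x * y ^ 4 * z + 26 * x * y ^ 3 * z ^ 2 +
    50 * x * y ^ 2 * z ^ 3 + 23 * x * y * z ^ 4 + 7 * x * z ^ 5 + 11 * y ^ 5 * z +
    7 * y ^ 4 * z ^ 2 + 4 * y ^ 3 * z ^ 3 + 15 * y ^ 2 * z ^ 4 + 7 * y * z ^ 5) * n3

/-- The determinant of the energy form (up to a factor). -/
def DD (x y z n1 n2 n3 : ℝ) : ℝ :=
  (2 * (x * y + y * z + z * x) + 5 * y ^ 2) * (2 * (x * y + y * z + z * x) + 5 * z ^ 2) * x ^ 2 *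
      (x + z) * (x + y) * (n2 + n3) +
    (2 * (x * y + y * z + z * x) + 5 * z ^ 2) * (2 * (x * y + y * z + z * x) + 5 * x ^ 2) * y ^ 2 *
      (x + y) * (y + z) * (n1 + n3) +
    (2 * (x * y + y * z + z * x) + 5 * x ^ 2) * (2 * (x * y + y * z + z * x) + 5 * y ^ 2) * z ^ 2 *
      (y + z) * (x + z) * (n1 + n2)

/-- `e1 * e2 - 3 * e3`. -/
def EE (x y z : ℝ) : ℝ := (x + y + z) * (x * y + y * z + z * x) - 3 * x * y * z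

/-- The polarised form of the inequality. -/
def Phi (x y z n1 n2 n3 m1 m2 m3 p q : ℝ) : ℝ :=
  (x * y + y * z + z * x) ^ 2 *
    (((x * y + y * z + z * x) ^ 2 * RA x y z n1 n2 n3 * p ^ 2 +
      2 * (x * y + y * z + z * x) * RB x y z n1 n2 n3 * p * q + RC x y z n1 n2 n3 * q ^ 2) *
        DD x y z m1 m2 m3 +
     ((x * y + y * z + z * x) ^ 2 * RA x y z m1 m2 m3 * p ^ 2 +
      2 * (x * y + y * z + z * x) * RB x y z m1 m2 m3 * p * q + RC x y z m1 m2 m3 * q ^ 2) *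
        DD x y z n1 n2 n3) -
  8 * EE x y z * (y + z) * ((y + z) * (x + z) * (x + y)) *
    (((y + z) * (x + z) * (x + y)) ^ 2 * (2 * (x * y + y * z + z * x) + 5 * x ^ 2) * (y + z) ^ 3 *
        ((n1 + n3) * (m1 + m2) + (m1 + m3) * (n1 + n2)) * q ^ 2 +
     (2 * (x * y + y * z + z * x) + 5 * y ^ 2) * (x + z) ^ 3 * (x + y) ^ 2 *
        ((n1 + n2) * (m2 + m3) + (m1 + m2) * (n2 + n3)) *
        (2 * z * (x * y + y * z + z * x) * p + (z ^ 2 - (x * y + y * z + z * x)) * q) ^ 2 +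
     (2 * (x * y + y * z + z * x) + 5 * z ^ 2) * (x + y) ^ 3 * (x + z) ^ 2 *
        ((n2 + n3) * (m1 + m3) + (m2 + m3) * (n1 + n3)) *
        (-2 * y * (x * y + y * z + z * x) * p + (y ^ 2 - (x * y + y * z + z * x)) * q) ^ 2)

end Pool.Agent.MP_ae5b4e_an.Birk
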