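import Mathlib
import Pool.Agent.Lib.MP_ae5b4e_an.Birk.PolyDefs

/-!
MP_ae5b4e_an, theorem on `3`-periodic leaves: multiplication of the coefficient lists, for
certificates checked by evaluation.
-/

noncomputable section

namespace Pool.Agent.MP_ae5b4e_an.Birk

/-- Do the monomials agree? -/
def eqM (a b : ℤ × ℕ × ℕ × ℕ) : Bool :=
  Nat.beq a.2.1 b.2.1 && (Nat.beq a.2.2.1 b.2.2.1 && Nat.beq a.2.2.2 b.2.2.2)

/-- The order of the monomials (only used for the efficiency of the merging). -/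
def ltM (a b : ℤ × ℕ × ℕ × ℕ) : Bool :=
  Nat.blt ((a.2.1 * 64 + a.2.2.1) * 64 + a.2.2.2) ((b.2.1 * 64 + b.2.2.1) * 64 + b.2.2.2)

/-- Merging step. -/
def addGo (a : ℤ × ℕ × ℕ × ℕ) (f : List (ℤ × ℕ × ℕ × ℕ) → List (ℤ × ℕ × ℕ × ℕ)) :
    List (ℤ × ℕ × ℕ × ℕ) → List (ℤ × ℕ × ℕ × ℕ)
  | [] => a :: f []
  | b :: l => bif eqM a b then (a.1 + b.1, a.2) :: f l
      else bif ltM a b then a :: f (b :: l) else b :: addGo a f l

/-- Sum of two coefficient lists. -/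
def addL : List (ℤ × ℕ × ℕ × ℕ) → List (ℤ × ℕ × ℕ × ℕ) → List (ℤ × ℕ × ℕ × ℕ)
  | [] => fun l => l
  | a :: l1 => addGo a (addL l1)

/-- Product with a monomial. -/
def mulT (t : ℤ × ℕ × ℕ × ℕ) : List (ℤ × ℕ × ℕ × ℕ) → List (ℤ × ℕ × ℕ × ℕ)
  | [] => []
  | b :: l => (t.1 * b.1, t.2.1 + b.2.1, t.2.2.1 + b.2.2.1, t.2.2.2 + b.2.2.2) :: mulT t l

/-- Product of two coefficient lists. -/
def mulL : List (ℤ × ℕ × ℕ × ℕ) → List (ℤ × ℕ × ℕ × ℕ) → List (ℤ × ℕ × ℕ × ℕ)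
  | [], _ => []
  | t :: l, m => addL (mulT t m) (mulL l m)

/-- Are all coefficients equal to `0`? -/
def zeroL : List (ℤ × ℕ × ℕ × ℕ) → Bool
  | [] => true
  | t :: l => (t.1 == 0) && zeroL l

lemma ev_cons (a b c : ℝ) (t : ℤ × ℕ × ℕ × ℕ) (l : List (ℤ × ℕ × ℕ × ℕ)) :
    ev a b c (t :: l) = t.1 * a ^ t.2.1 * b ^ t.2.2.1 * c ^ t.2.2.2 + ev a b c l := by
  obtain ⟨n, i, j, k⟩ := t
  rfl

lemma ev_addGo (a b c : ℝ) (t : ℤ × ℕ × ℕ × ℕ)
    (f : List (ℤ × ℕ × ℕ × ℕ) → List (ℤ × ℕ × ℕ × ℕ)) (s : ℝ)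
    (hf : ∀ l, ev a b c (f l) = s + ev a b c l) (l : List (ℤ × ℕ × ℕ × ℕ)) :
    ev a b c (addGo t f l) = t.1 * a ^ t.2.1 * b ^ t.2.2.1 * c ^ t.2.2.2 + s + ev a b c l := by
  induction l with
  | nil => rw [addGo, ev_cons, hf]; ring
  | cons u l ih =>
    rw [addGo]
    rcases h1 : eqM t u with _ | _
    · rw [cond_false]
      rcases h2 : ltM t u with _ | _
      · rw [cond_false, ev_cons, ih, ev_cons]; ring
      · rw [cond_true, ev_cons, hf, ev_cons]; ring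
    · rw [cond_true, ev_cons, hf, ev_cons]
      simp only [eqM, Bool.and_eq_true, Nat.beq_eq] at h1
      obtain ⟨e1, e2, e3⟩ := h1
      simp only [e1, e2, e3]
      push_cast
      ring

lemma ev_addL (a b c : ℝ) (l m : List (ℤ × ℕ × ℕ × ℕ)) :
    ev a b c (addL l m) = ev a b c l + ev a b c m := by
  induction l generalizing m with
  | nil => simp [addL, ev]
  | cons t l ih => rw [addL, ev_addGo a b c t (addL l) (ev a b c l) ih, ev_cons]

lemma ev_mulT (a b c : ℝ) (t : ℤ × ℕ × ℕ × ℕ) (l : List (ℤ × ℕ × ℕ × ℕ)) :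
    ev a b c (mulT t l) = t.1 * a ^ t.2.1 * b ^ t.2.2.1 * c ^ t.2.2.2 * ev a b c l := by
  induction l with
  | nil => simp [mulT, ev]
  | cons u l ih =>
    rw [mulT, ev_cons, ih, ev_cons]
    push_cast
    ring

lemma ev_mulL (a b c : ℝ) (l m : List (ℤ × ℕ × ℕ × ℕ)) :
    ev a b c (mulL l m) = ev a b c l * ev a b c m := by
  induction l with
  | nil => simp [mulL, ev]
  | cons t l ih => rw [mulL, ev_addL, ih, ev_mulT, ev_cons]; ring

lemma ev_zeroL (a b c : ℝ) (l : List (ℤ × ℕ × ℕ × ℕ)) (h : zeroL l = true) :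
    ev a b c l = 0 := by
  induction l with
  | nil => rfl
  | cons t l ih =>
    rw [zeroL, Bool.and_eq_true, beq_iff_eq] at h
    rw [ev_cons, ih h.2, h.1]
    simp

/-- The determinant identity `X Z - Y² = F W` from its check on the lists of coefficients. -/
lemma det_of_check (X Y Z W F : List (ℤ × ℕ × ℕ × ℕ))
    (h : zeroL (addL (mulL X Z) (mulT (-1, 0, 0, 0) (addL (mulL Y Y) (mulL F W)))) = true)
    (a b c : ℝ) :
    ev a b c X * ev a b c Z - ev a b c Y ^ 2 = ev a b c F * ev a b c W := by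
  have := ev_zeroL a b c _ h
  rw [ev_addL, ev_mulL, ev_mulT, ev_addL, ev_mulL, ev_mulL] at this
  simp only [Int.cast_neg, Int.cast_one, pow_zero, mul_one, neg_one_mul] at this
  linarith

end Pool.Agent.MP_ae5b4e_an.Birk
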