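import Mathlib
import Pool.Agent.Lib.MP_ae5b4e_an.Birk.CertL11

/-!
MP_ae5b4e_an, theorem on `3`-periodic leaves: polynomial certificate (the form of the gauge in terms of the lists).
-/

noncomputable section

namespace Pool.Agent.MP_ae5b4e_an.Birk

set_option maxRecDepth 100000
set_option linter.all false

lemma Phi_eq11 (x y z p q : ℝ) :
    Phi x y z 0 (z * (x + y)) (y * (x + z)) 0 (z * (x + y)) (y * (x + z)) p q =
      2 * (x + z) * (x + y) * ((x * y + y * z + z * x) ^ 2 * ev x y z X11 * p ^ 2 +
        2 * (x * y + y * z + z * x) * ev x y z Y11 * p * q + ev x y z Z11 * q ^ 2) := by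
  simp only [Phi, RA, RB, RC, DD, EE, X11, Y11, Z11, ev]
  push_cast
  ring

end Pool.Agent.MP_ae5b4e_an.Birk
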