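import Mathlib
import Pool.Agent.Lib.MP_ae5b4e_an.Birk.CertL12
import Pool.Agent.Lib.MP_ae5b4e_an.Birk.PolyAlg

/-!
MP_ae5b4e_an, theorem on `3`-periodic leaves: polynomial certificate (the determinant, checked by evaluation).
-/

noncomputable section

namespace Pool.Agent.MP_ae5b4e_an.Birk

set_option maxRecDepth 100000
set_option linter.all false

/-- The factor of the determinant. -/
def F12 : List (ℤ × ℕ × ℕ × ℕ) :=
  mulL [(1, 0, 0, 2), (2, 0, 1, 1), (1, 0, 2, 0)] [(1, 0, 1, 1), (1, 1, 0, 1), (1, 1, 1, 0)]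

lemma check12 : zeroL (addL (mulL X12 Z12)
    (mulT (-1, 0, 0, 0) (addL (mulL Y12 Y12) (mulL F12 W12)))) = true := by
  decide +kernel

lemma det_eq12 (x y z : ℝ) :
    ev x y z X12 * ev x y z Z12 - ev x y z Y12 ^ 2 = ((y + z) ^ 2 * (x * y + y * z + z * x)) * ev x y z W12 := by
  rw [det_of_check _ _ _ _ _ check12, F12, ev_mulL]
  simp only [ev]
  push_cast
  ring

end Pool.Agent.MP_ae5b4e_an.Birk
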