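import Mathlib
import Pool.Agent.Lib.MP_ae5b4e_an.Birk.CertPhi12
import Pool.Agent.Lib.MP_ae5b4e_an.Birk.CertDet12

/-!
MP_ae5b4e_an, theorem on `3`-periodic leaves: polynomial certificate (positivity).
-/

noncomputable section

namespace Pool.Agent.MP_ae5b4e_an.Birk

set_option maxRecDepth 100000
set_option linter.all false

lemma Z12_pos {x y z : ℝ} (hx : 0 < x) (hy : 0 < y) (hz : 0 < z) : 0 < ev x y z Z12 := by
  unfold Z12
  refine ev_pos hx hy hz _ _ (by norm_num) ?_
  decide +kernel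

lemma W12_nonneg {x y z : ℝ} (hx : 0 < x) (hy : 0 < y) (hz : 0 < z) : 0 ≤ ev x y z W12 := by
  unfold W12
  refine ev_nonneg hx hy hz _ ?_
  decide +kernel

theorem cert12 {x y z : ℝ} (hx : 0 < x) (hy : 0 < y) (hz : 0 < z) (p q : ℝ) :
    0 ≤ Phi x y z 0 (z * (x + y)) (y * (x + z)) (z * (x + y)) 0 (x * (y + z)) p q := by
  rw [Phi_eq12]
  have hZ := Z12_pos hx hy hz
  have hW := W12_nonneg hx hy hz
  have hd := det_eq12 x y z
  set X := ev x y z X12
  set Y := ev x y z Y12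
  set Z := ev x y z Z12
  set e := x * y + y * z + z * x with he
  have he0 : 0 < e := by positivity
  have key : 0 ≤ Z * (e ^ 2 * X * p ^ 2 + 2 * e * Y * p * q + Z * q ^ 2) := by
    have : Z * (e ^ 2 * X * p ^ 2 + 2 * e * Y * p * q + Z * q ^ 2) =
        (Z * q + e * Y * p) ^ 2 + e ^ 2 * p ^ 2 * (X * Z - Y ^ 2) := by ring
    rw [this, hd]
    positivity
  have h2 := nonneg_of_mul_nonneg_right key hZ
  positivity

end Pool.Agent.MP_ae5b4e_an.Birk
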