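import Mathlib
import Pool.Agent.Lib.MP_ae5b4e_an.Birk.PolyDefs

/-!
MP_ae5b4e_an, theorem on `3`-periodic leaves: the quadratic form of the gauge in real
coordinates.
-/

noncomputable section

namespace Pool.Agent.MP_ae5b4e_an.Birk

set_option linter.all false

lemma one_add_sq_eq {x y z : ℝ} (he : x * y + y * z + z * x = 1) :
    1 + z ^ 2 = (x + z) * (y + z) := by linear_combination (-1) * he

/-- The quadratic form of the gauge. -/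
theorem Rform {x y z n1 n2 n3 p q : ℝ} (hx : 0 < x) (hy : 0 < y) (hz : 0 < z)
    (he : x * y + y * z + z * x = 1)
    {c2 σ2 c3 σ3 Zx Zy Dx Dy ud1 ud2 ud3 : ℝ}
    (hc2 : c2 = (y ^ 2 - 1) / (1 + y ^ 2)) (hs2 : σ2 = 2 * y / (1 + y ^ 2))
    (hc3 : c3 = (z ^ 2 - 1) / (1 + z ^ 2)) (hs3 : σ3 = 2 * z / (1 + z ^ 2))
    (hZx : Zx = (x * (c3 * c2 + σ3 * σ2) + y * c2 + z * c3) / (x + y + z))
    (hZy : Zy = (x * (c3 * σ2 - σ3 * c2) + y * σ2 - z * σ3) / (x + y + z))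
    (hu1 : ud1 = -(1 + x ^ 2) * (n3 - n2) / 2) (hu2 : ud2 = -(1 + y ^ 2) * (n1 - n3) / 2)
    (hu3 : ud3 = -(1 + z ^ 2) * (n2 - n1) / 2)
    (hDx : Dx = (ud1 * (c3 * c2 + σ3 * σ2) - x * (n1 + n2 + n3 + n1) * (c3 * σ2 - σ3 * c2) +
      ud2 * c2 - y * (n1 + n2 + n3 + n2) * σ2 + ud3 * c3 + z * (n1 + n2 + n3 + n3) * σ3 -
      Zx * (ud1 + ud2 + ud3)) / (x + y + z))
    (hDy : Dy = (ud1 * (c3 * σ2 - σ3 * c2) + x * (n1 + n2 + n3 + n1) * (c3 * c2 + σ3 * σ2) +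
      ud2 * σ2 + y * (n1 + n2 + n3 + n2) * c2 - ud3 * σ3 + z * (n1 + n2 + n3 + n3) * c3 -
      Zy * (ud1 + ud2 + ud3)) / (x + y + z)) :
    15 / 8 * (n1 + n2 + n3) * ((p - Zx * p - Zy * q) ^ 2 + (q + Zx * q - Zy * p) ^ 2) +
      (Dy * (p ^ 2 - q ^ 2) - 2 * Dx * p * q) - (Zx * Dy - Zy * Dx) * (p ^ 2 + q ^ 2) =
    (RA x y z n1 n2 n3 * p ^ 2 + 2 * RB x y z n1 n2 n3 * p * q + RC x y z n1 n2 n3 * q ^ 2) /
      (2 * (y + z) ^ 2 * (x + z) * (x + y) * (x + y + z) ^ 2) := by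
  have hz' : z = (1 - x * y) / (x + y) := by field_simp; linarith
  have h1 : x + y ≠ 0 := by positivity
  have h2 : (x ^ 2 + 1) ≠ 0 := by positivity
  have h3 : (y ^ 2 + 1) ≠ 0 := by positivity
  have h8 : x ^ 2 + x * y + y ^ 2 + 1 ≠ 0 := by positivity
  have h4 : 1 + z ^ 2 = (x ^ 2 + 1) * (y ^ 2 + 1) / (x + y) ^ 2 := by rw [hz']; field_simp; ring
  have h5 : x + z = (x ^ 2 + 1) / (x + y) := by rw [hz']; field_simp; ring
  have h6 : y + z = (y ^ 2 + 1) / (x + y) := by rw [hz']; field_simp; ring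
  have h7 : x + y + z = (x ^ 2 + x * y + y ^ 2 + 1) / (x + y) := by rw [hz']; field_simp; ring
  rw [h7] at hZx hZy hDx hDy
  rw [h4] at hc3 hs3 hu3
  rw [h5, h6, h7]
  have hy2 : 1 + y ^ 2 = y ^ 2 + 1 := by ring
  rw [hy2] at hc2 hs2 hu2
  unfold RA RB RC
  subst hDx hDy hZx hZy hu1 hu2 hu3 hc2 hs2 hc3 hs3
  subst hz'
  field_simp
  ring

/-- The norm of the gauge. -/
theorem Znorm {x y z : ℝ} (hx : 0 < x) (hy : 0 < y) (hz : 0 < z)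
    (he : x * y + y * z + z * x = 1) {c2 σ2 c3 σ3 Zx Zy : ℝ}
    (hc2 : c2 = (y ^ 2 - 1) / (1 + y ^ 2)) (hs2 : σ2 = 2 * y / (1 + y ^ 2))
    (hc3 : c3 = (z ^ 2 - 1) / (1 + z ^ 2)) (hs3 : σ3 = 2 * z / (1 + z ^ 2))
    (hZx : Zx = (x * (c3 * c2 + σ3 * σ2) + y * c2 + z * c3) / (x + y + z))
    (hZy : Zy = (x * (c3 * σ2 - σ3 * c2) + y * σ2 - z * σ3) / (x + y + z)) :
    1 - (Zx ^ 2 + Zy ^ 2) =
      4 * EE x y z / ((y + z) * (x + z) * (x + y) * (x + y + z) ^ 2) := by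
  have hz' : z = (1 - x * y) / (x + y) := by field_simp; linarith
  have h1 : x + y ≠ 0 := by positivity
  have h2 : (x ^ 2 + 1) ≠ 0 := by positivity
  have h3 : (y ^ 2 + 1) ≠ 0 := by positivity
  have h8 : x ^ 2 + x * y + y ^ 2 + 1 ≠ 0 := by positivity
  have h4 : 1 + z ^ 2 = (x ^ 2 + 1) * (y ^ 2 + 1) / (x + y) ^ 2 := by rw [hz']; field_simp; ring
  have h5 : x + z = (x ^ 2 + 1) / (x + y) := by rw [hz']; field_simp; ring
  have h6 : y + z = (y ^ 2 + 1) / (x + y) := by rw [hz']; field_simp; ring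
  have h7 : x + y + z = (x ^ 2 + x * y + y ^ 2 + 1) / (x + y) := by rw [hz']; field_simp; ring
  have h9 : EE x y z = (x + y + z) - 3 * x * y * z := by
    unfold EE; rw [he]; ring
  rw [h9]
  rw [h7] at hZx hZy ⊢
  rw [h4] at hc3 hs3
  rw [h5, h6]
  have hy2 : 1 + y ^ 2 = y ^ 2 + 1 := by ring
  rw [hy2] at hc2 hs2
  subst hZx hZy hc2 hs2 hc3 hs3
  subst hz'
  field_simp
  ring

lemma EE_pos {x y z : ℝ} (hx : 0 < x) (hy : 0 < y) (hz : 0 < z) : 0 < EE x y z := by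
  have : EE x y z = x ^ 2 * y + x ^ 2 * z + y ^ 2 * x + y ^ 2 * z + z ^ 2 * x + z ^ 2 * y := by
    unfold EE; ring
  rw [this]
  positivity

end Pool.Agent.MP_ae5b4e_an.Birk
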