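import Mathlib
import Pool.Agent.Lib.MP_ae5b4e_an.Birk.Defs
import Pool.Agent.Lib.MP_ae5b4e_an.Birk.PolyDefs
import Pool.Agent.Lib.MP_ae5b4e_an.Birk.RForm

/-!
MP_ae5b4e_an, theorem on `3`-periodic leaves: the gauge `zeta` and its quadratic form.
-/

noncomputable section

namespace Pool.Agent.MP_ae5b4e_an.Birk

open Complex ComplexConjugate

/-- `exp (2 i d)` for `cot d = t`. -/
def fz (t : ℝ) : ℂ := (((t ^ 2 - 1) / (1 + t ^ 2) : ℝ) : ℂ) + ((2 * t / (1 + t ^ 2) : ℝ) : ℂ) * I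

lemma conj_fz (t : ℝ) : conj (fz t) =
    (((t ^ 2 - 1) / (1 + t ^ 2) : ℝ) : ℂ) - ((2 * t / (1 + t ^ 2) : ℝ) : ℂ) * I := by
  unfold fz
  simp only [map_add, map_mul, conj_ofReal, conj_I]
  ring

lemma fz_mul_conj (t : ℝ) : fz t * conj (fz t) = 1 := by
  rw [conj_fz]
  unfold fz
  have h : ((t ^ 2 - 1) / (1 + t ^ 2)) ^ 2 + (2 * t / (1 + t ^ 2)) ^ 2 = 1 := by
    have : (0:ℝ) < 1 + t ^ 2 := by positivity
    field_simp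
    ring
  have h' : ((((t ^ 2 - 1) / (1 + t ^ 2) : ℝ) : ℂ)) ^ 2 + (((2 * t / (1 + t ^ 2) : ℝ) : ℂ)) ^ 2 = 1 := by
    exact_mod_cast h
  linear_combination h' - (((2 * t / (1 + t ^ 2) : ℝ) : ℂ)) ^ 2 * I_sq

/-- The shape of a triangle: `x, y, z` are the cotangents of the half angles `d i`, and
`E i = exp (2 i ψ i)`. -/
structure Shape (x y z : ℝ) (E1 E2 E3 : ℂ) : Prop where
  hx : 0 < x
  hy : 0 < y
  hz : 0 < z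
  he : x * y + y * z + z * x = 1
  n1 : E1 * conj E1 = 1
  e12 : E1 = E2 * fz z
  e23 : E2 = E3 * fz x
  e31 : E3 = E1 * fz y

variable {x y z : ℝ} {E1 E2 E3 : ℂ}

lemma Shape.n3 (S : Shape x y z E1 E2 E3) : E3 * conj E3 = 1 := by
  have h := fz_mul_conj y
  rw [S.e31, map_mul]
  linear_combination (fz y * conj (fz y)) * S.n1 + h

lemma Shape.n2 (S : Shape x y z E1 E2 E3) : E2 * conj E2 = 1 := by
  have h := fz_mul_conj x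
  rw [S.e23, map_mul]
  linear_combination (fz x * conj (fz x)) * S.n3 + h

lemma Shape.cyc (S : Shape x y z E1 E2 E3) : Shape y z x E2 E3 E1 where
  hx := S.hy
  hy := S.hz
  hz := S.hx
  he := by linarith [S.he]
  n1 := S.n2
  e12 := S.e23
  e23 := S.e31
  e31 := S.e12

lemma Shape.e21 (S : Shape x y z E1 E2 E3) : E2 = E1 * conj (fz z) := by
  have h := fz_mul_conj z
  rw [S.e12]
  linear_combination (-E2) * h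

/-- The gauge. -/
def zeta (x y z : ℝ) (E1 E2 E3 : ℂ) : ℂ :=
  (x * (E2 * E3) + y * (E3 * E1) + z * (E1 * E2)) / (x + y + z)

/-- The derivative of the gauge. -/
def zetad (x y z n1 n2 n3 : ℝ) (E1 E2 E3 : ℂ) : ℂ :=
  ((((-(1 + x ^ 2) * (n3 - n2) / 2 : ℝ) : ℂ) + (x * (n1 + n2 + n3 + n1) : ℝ) * I) * (E2 * E3) +
    (((-(1 + y ^ 2) * (n1 - n3) / 2 : ℝ) : ℂ) + (y * (n1 + n2 + n3 + n2) : ℝ) * I) * (E3 * E1) +
    (((-(1 + z ^ 2) * (n2 - n1) / 2 : ℝ) : ℂ) + (z * (n1 + n2 + n3 + n3) : ℝ) * I) * (E1 * E2) -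
    zeta x y z E1 E2 E3 * ((-(1 + x ^ 2) * (n3 - n2) / 2 + -(1 + y ^ 2) * (n1 - n3) / 2 +
      -(1 + z ^ 2) * (n2 - n1) / 2 : ℝ) : ℂ)) / (x + y + z)

lemma zeta_cyc (x y z : ℝ) (E1 E2 E3 : ℂ) : zeta y z x E2 E3 E1 = zeta x y z E1 E2 E3 := by
  unfold zeta
  congr 1 <;> ring

lemma zetad_cyc (x y z n1 n2 n3 : ℝ) (E1 E2 E3 : ℂ) :
    zetad y z x n2 n3 n1 E2 E3 E1 = zetad x y z n1 n2 n3 E1 E2 E3 := by
  unfold zetad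
  rw [zeta_cyc]
  push_cast
  congr 1 <;> ring

/-- The quadratic form of the gauge. -/
def Rf (x y z n1 n2 n3 : ℝ) (E1 E2 E3 a : ℂ) : ℝ :=
  15 / 8 * (n1 + n2 + n3) * ‖a - zeta x y z E1 E2 E3 * conj a‖ ^ 2 +
    (zetad x y z n1 n2 n3 E1 E2 E3 * conj a ^ 2).im -
    (conj (zeta x y z E1 E2 E3) * zetad x y z n1 n2 n3 E1 E2 E3).im * ‖a‖ ^ 2

lemma Rf_cyc (x y z n1 n2 n3 : ℝ) (E1 E2 E3 a : ℂ) :
    Rf y z x n2 n3 n1 E2 E3 E1 a = Rf x y z n1 n2 n3 E1 E2 E3 a := by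
  unfold Rf
  rw [zeta_cyc, zetad_cyc]
  ring

lemma Rf_pivot_aux (S : Shape x y z E1 E2 E3) (n1 n2 n3 : ℝ) :
    ∃ Zx Zy Dx Dy : ℝ, zeta x y z E1 E2 E3 = E1 ^ 2 * (Zx + Zy * I) ∧
      zetad x y z n1 n2 n3 E1 E2 E3 = E1 ^ 2 * (Dx + Dy * I) ∧
      1 - (Zx ^ 2 + Zy ^ 2) = 4 * EE x y z / ((y + z) * (x + z) * (x + y) * (x + y + z) ^ 2) ∧
      ∀ p q : ℝ, 15 / 8 * (n1 + n2 + n3) *
        ((p - Zx * p - Zy * q) ^ 2 + (q + Zx * q - Zy * p) ^ 2) +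
        (Dy * (p ^ 2 - q ^ 2) - 2 * Dx * p * q) - (Zx * Dy - Zy * Dx) * (p ^ 2 + q ^ 2) =
      (RA x y z n1 n2 n3 * p ^ 2 + 2 * RB x y z n1 n2 n3 * p * q + RC x y z n1 n2 n3 * q ^ 2) /
        (2 * (y + z) ^ 2 * (x + z) * (x + y) * (x + y + z) ^ 2) := by
  obtain ⟨c2, hc2⟩ : ∃ c2, c2 = (y ^ 2 - 1) / (1 + y ^ 2) := ⟨_, rfl⟩
  obtain ⟨σ2, hs2⟩ : ∃ σ2, σ2 = 2 * y / (1 + y ^ 2) := ⟨_, rfl⟩
  obtain ⟨c3, hc3⟩ : ∃ c3, c3 = (z ^ 2 - 1) / (1 + z ^ 2) := ⟨_, rfl⟩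
  obtain ⟨σ3, hs3⟩ : ∃ σ3, σ3 = 2 * z / (1 + z ^ 2) := ⟨_, rfl⟩
  obtain ⟨Zx, hZx⟩ : ∃ Zx, Zx = (x * (c3 * c2 + σ3 * σ2) + y * c2 + z * c3) / (x + y + z) :=
    ⟨_, rfl⟩
  obtain ⟨Zy, hZy⟩ : ∃ Zy, Zy = (x * (c3 * σ2 - σ3 * c2) + y * σ2 - z * σ3) / (x + y + z) :=
    ⟨_, rfl⟩
  obtain ⟨ud1, hu1⟩ : ∃ ud1, ud1 = -(1 + x ^ 2) * (n3 - n2) / 2 := ⟨_, rfl⟩
  obtain ⟨ud2, hu2⟩ : ∃ ud2, ud2 = -(1 + y ^ 2) * (n1 - n3) / 2 := ⟨_, rfl⟩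
  obtain ⟨ud3, hu3⟩ : ∃ ud3, ud3 = -(1 + z ^ 2) * (n2 - n1) / 2 := ⟨_, rfl⟩
  obtain ⟨Dx, hDx⟩ : ∃ Dx, Dx = (ud1 * (c3 * c2 + σ3 * σ2) -
      x * (n1 + n2 + n3 + n1) * (c3 * σ2 - σ3 * c2) +
      ud2 * c2 - y * (n1 + n2 + n3 + n2) * σ2 + ud3 * c3 + z * (n1 + n2 + n3 + n3) * σ3 -
      Zx * (ud1 + ud2 + ud3)) / (x + y + z) := ⟨_, rfl⟩
  obtain ⟨Dy, hDy⟩ : ∃ Dy, Dy = (ud1 * (c3 * σ2 - σ3 * c2) +
      x * (n1 + n2 + n3 + n1) * (c3 * c2 + σ3 * σ2) +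
      ud2 * σ2 + y * (n1 + n2 + n3 + n2) * c2 - ud3 * σ3 + z * (n1 + n2 + n3 + n3) * c3 -
      Zy * (ud1 + ud2 + ud3)) / (x + y + z) := ⟨_, rfl⟩
  have hfy : fz y = (c2 : ℂ) + (σ2 : ℂ) * I := by rw [fz, ← hc2, ← hs2]
  have hfz : conj (fz z) = (c3 : ℂ) - (σ3 : ℂ) * I := by rw [conj_fz, ← hc3, ← hs3]
  have h2 : E2 = E1 * ((c3 : ℂ) - (σ3 : ℂ) * I) := by rw [← hfz]; exact S.e21
  have h3 : E3 = E1 * ((c2 : ℂ) + (σ2 : ℂ) * I) := by rw [← hfy]; exact S.e31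
  have hsum : ((x : ℂ) + y + z) ≠ 0 := by
    have : (x + y + z : ℝ) ≠ 0 := by have := S.hx; have := S.hy; have := S.hz; positivity
    exact_mod_cast this
  have hζ : zeta x y z E1 E2 E3 = E1 ^ 2 * (Zx + Zy * I) := by
    rw [zeta, h2, h3, hZx, hZy]
    push_cast
    field_simp
    linear_combination (-(E1 ^ 2 * (x * σ3 * σ2) : ℂ)) * I_sq
  refine ⟨Zx, Zy, Dx, Dy, hζ, ?_, Znorm S.hx S.hy S.hz S.he hc2 hs2 hc3 hs3 hZx hZy,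
    fun p q => Rform S.hx S.hy S.hz S.he hc2 hs2 hc3 hs3 hZx hZy hu1 hu2 hu3 hDx hDy⟩
  rw [zetad, hζ, h2, h3, ← hu1, ← hu2, ← hu3, hDx, hDy]
  push_cast
  field_simp
  linear_combination E1 ^ 2 * (-(ud1 * σ3 * σ2 : ℂ) + x * (n1 + n2 + n3 + n1) * (c3 * σ2 - σ3 * c2) +
    y * (n1 + n2 + n3 + n2) * σ2 - z * (n1 + n2 + n3 + n3) * σ3 -
    x * (n1 + n2 + n3 + n1) * σ3 * σ2 * I) * I_sq

/-- The gauge has norm less than one. -/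
lemma zeta_norm (S : Shape x y z E1 E2 E3) :
    1 - ‖zeta x y z E1 E2 E3‖ ^ 2 =
      4 * EE x y z / ((y + z) * (x + z) * (x + y) * (x + y + z) ^ 2) := by
  obtain ⟨Zx, Zy, Dx, Dy, h1, -, h2, -⟩ := Rf_pivot_aux S 0 0 0
  have hE : ‖E1‖ = 1 := by
    have := S.n1
    rw [mul_conj, normSq_eq_norm_sq] at this
    have h3 : ‖E1‖ ^ 2 = 1 := by exact_mod_cast this
    nlinarith [norm_nonneg E1]
  rw [← h2, h1, norm_mul, norm_pow, hE, one_pow, one_mul, Complex.sq_norm, normSq_add_mul_I]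

/-- The quadratic form of the gauge in coordinates. -/
lemma Rf_pivot (S : Shape x y z E1 E2 E3) (n1 n2 n3 p q : ℝ) :
    Rf x y z n1 n2 n3 E1 E2 E3 (E1 * (p + q * I)) =
      (RA x y z n1 n2 n3 * p ^ 2 + 2 * RB x y z n1 n2 n3 * p * q + RC x y z n1 n2 n3 * q ^ 2) /
        (2 * (y + z) ^ 2 * (x + z) * (x + y) * (x + y + z) ^ 2) := by
  obtain ⟨Zx, Zy, Dx, Dy, h1, h2, -, h4⟩ := Rf_pivot_aux S n1 n2 n3
  rw [← h4 p q]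
  have hE : ‖E1‖ = 1 := by
    have := S.n1
    rw [mul_conj, normSq_eq_norm_sq] at this
    have h3 : ‖E1‖ ^ 2 = 1 := by exact_mod_cast this
    nlinarith [norm_nonneg E1]
  have hEc := S.n1
  unfold Rf
  rw [h1, h2]
  have e1 : E1 * (p + q * I) - E1 ^ 2 * (Zx + Zy * I) * conj (E1 * (p + q * I)) =
      E1 * (((p - Zx * p - Zy * q : ℝ) : ℂ) + ((q + Zx * q - Zy * p : ℝ) : ℂ) * I) := by
    simp only [map_mul, map_add, conj_ofReal, conj_I]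
    push_cast
    linear_combination (-(E1 * (Zx + Zy * I) * (p - q * I))) * hEc +
      (E1 * Zy * q) * I_sq
  have e2 : E1 ^ 2 * (Dx + Dy * I) * conj (E1 * (p + q * I)) ^ 2 =
      (((Dx * (p ^ 2 - q ^ 2) + 2 * Dy * p * q : ℝ) : ℂ) +
        ((Dy * (p ^ 2 - q ^ 2) - 2 * Dx * p * q : ℝ) : ℂ) * I) := by
    simp only [map_mul, map_add, conj_ofReal, conj_I]
    push_cast
    linear_combination ((Dx + Dy * I) * (p - q * I) ^ 2 * (E1 * conj E1 + 1)) * hEc +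
      (-2 * Dy * p * q + Dx * q ^ 2 + Dy * I * q ^ 2) * I_sq
  have e3 : conj (E1 ^ 2 * (Zx + Zy * I)) * (E1 ^ 2 * (Dx + Dy * I)) =
      (((Zx * Dx + Zy * Dy : ℝ) : ℂ) + ((Zx * Dy - Zy * Dx : ℝ) : ℂ) * I) := by
    simp only [map_mul, map_add, map_pow, conj_ofReal, conj_I]
    push_cast
    linear_combination ((Zx - Zy * I) * (Dx + Dy * I) * (E1 * conj E1 + 1)) * hEc +
      (-Zy * Dy) * I_sq
  have e4 : ‖E1 * (p + q * I)‖ ^ 2 = p ^ 2 + q ^ 2 := by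
    rw [norm_mul, hE, one_mul, Complex.sq_norm, normSq_add_mul_I]
  rw [e1, e2, e3, e4, norm_mul, hE, one_mul, Complex.sq_norm, normSq_add_mul_I]
  simp only [add_im, ofReal_im, mul_im, ofReal_re, I_im, I_re, mul_one, mul_zero, add_zero,
    zero_add]

end Pool.Agent.MP_ae5b4e_an.Birk
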