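import Mathlib
import Pool.Agent.Lib.MP_ae5b4e_an.Birk.Gauge
import Pool.Agent.Lib.MP_ae5b4e_an.Birk.Cert11
import Pool.Agent.Lib.MP_ae5b4e_an.Birk.Cert12

/-!
MP_ae5b4e_an, theorem on `3`-periodic leaves: the gauge inequality on the cone of velocities.
-/

noncomputable section

namespace Pool.Agent.MP_ae5b4e_an.Birk

open Complex ComplexConjugate

variable {x y z : ℝ} {E1 E2 E3 : ℂ}

/-- Lower bound for the energy weight of the vertex with `cot d = x`. -/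
def al (x y z : ℝ) : ℝ :=
  (2 * (x * y + y * z + z * x) + 5 * x ^ 2) * (y + z) ^ 3 /
    (4 * ((y + z) * (x + z) * (x + y)) ^ 3)

/-- Determinant of the energy form. -/
def SS (x y z n1 n2 n3 : ℝ) : ℝ :=
  DD x y z n1 n2 n3 / (8 * ((y + z) * (x + z) * (x + y)) ^ 6)

/-- The square of the norming factor of the gauge. -/
def kap (x y z : ℝ) : ℝ :=
  4 * EE x y z / ((y + z) * (x + z) * (x + y) * (x + y + z) ^ 2)

/-- The polarised difference of the two sides of the gauge inequality. -/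
def Bf (x y z n1 n2 n3 m1 m2 m3 : ℝ) (E1 E2 E3 a : ℂ) : ℝ :=
  Rf x y z n1 n2 n3 E1 E2 E3 a * SS x y z m1 m2 m3 +
    Rf x y z m1 m2 m3 E1 E2 E3 a * SS x y z n1 n2 n3 -
    2 * kap x y z *
      (al x y z * ((n1 + n3) / 2 * ((m1 + m2) / 2) + (m1 + m3) / 2 * ((n1 + n2) / 2)) *
          (a * conj E1).im ^ 2 +
       al y z x * ((n1 + n2) / 2 * ((m2 + m3) / 2) + (m1 + m2) / 2 * ((n2 + n3) / 2)) *
          (a * conj E2).im ^ 2 +
       al z x y * ((n2 + n3) / 2 * ((m1 + m3) / 2) + (m2 + m3) / 2 * ((n1 + n3) / 2)) *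
          (a * conj E3).im ^ 2)

lemma DD_cyc (x y z n1 n2 n3 : ℝ) : DD y z x n2 n3 n1 = DD x y z n1 n2 n3 := by
  unfold DD; ring

lemma EE_cyc (x y z : ℝ) : EE y z x = EE x y z := by
  unfold EE; ring

lemma SS_cyc (x y z n1 n2 n3 : ℝ) : SS y z x n2 n3 n1 = SS x y z n1 n2 n3 := by
  unfold SS
  rw [DD_cyc]
  congr 1
  ring

lemma kap_cyc (x y z : ℝ) : kap y z x = kap x y z := by
  unfold kap
  rw [EE_cyc]
  congr 1
  ring

lemma Bf_cyc (x y z n1 n2 n3 m1 m2 m3 : ℝ) (E1 E2 E3 a : ℂ) :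
    Bf y z x n2 n3 n1 m2 m3 m1 E2 E3 E1 a = Bf x y z n1 n2 n3 m1 m2 m3 E1 E2 E3 a := by
  unfold Bf
  rw [Rf_cyc x y z n1 n2 n3, Rf_cyc x y z m1 m2 m3, SS_cyc x y z n1 n2 n3,
    SS_cyc x y z m1 m2 m3, kap_cyc x y z]
  ring

lemma Bf_pivot (S : Shape x y z E1 E2 E3) (n1 n2 n3 m1 m2 m3 p q : ℝ) :
    Bf x y z n1 n2 n3 m1 m2 m3 E1 E2 E3 (E1 * (p + q * I)) =
      Phi x y z n1 n2 n3 m1 m2 m3 p q /
        (16 * (y + z) * ((y + z) * (x + z) * (x + y)) ^ 7 * (x + y + z) ^ 2) := by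
  have hx := S.hx
  have hy := S.hy
  have hz := S.hz
  have he := S.he
  have h1z : 1 + z ^ 2 = (x + z) * (y + z) := by linear_combination (-1) * he
  have h1y : 1 + y ^ 2 = (x + y) * (y + z) := by linear_combination (-1) * he
  have hx1 : (E1 * (p + q * I) * conj E1).im = q := by
    have : E1 * (p + q * I) * conj E1 = p + q * I := by linear_combination (p + q * I) * S.n1
    rw [this]
    simp
  have hx2 : (E1 * (p + q * I) * conj E2).im = (2 * z * p + (z ^ 2 - 1) * q) /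
      ((x + z) * (y + z)) := by
    have : E1 * (p + q * I) * conj E2 = fz z * (p + q * I) := by
      have h := S.e12
      have h2 := S.n2
      linear_combination ((p + q * I) * conj E2) * h + (fz z * (p + q * I)) * h2
    rw [this, fz, h1z]
    simp only [add_im, mul_im, add_re, mul_re, ofReal_re, ofReal_im, I_re, I_im]
    field_simp
    ring
  have hx3 : (E1 * (p + q * I) * conj E3).im = (-2 * y * p + (y ^ 2 - 1) * q) /
      ((x + y) * (y + z)) := by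
    have : E1 * (p + q * I) * conj E3 = conj (fz y) * (p + q * I) := by
      rw [S.e31, map_mul]
      linear_combination (conj (fz y) * (p + q * I)) * S.n1
    rw [this, conj_fz, h1y]
    simp only [add_im, mul_im, add_re, mul_re, ofReal_re, ofReal_im, I_re, I_im, sub_im, sub_re]
    field_simp
    ring
  unfold Bf
  rw [Rf_pivot S, Rf_pivot S, hx1, hx2, hx3]
  simp only [SS, kap, al, Phi]
  have he2 : y * z + z * x + x * y = 1 := by linarith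
  have he3 : z * x + x * y + y * z = 1 := by linarith
  rw [he, he2, he3]
  generalize RA x y z n1 n2 n3 = An
  generalize RB x y z n1 n2 n3 = Bn
  generalize RC x y z n1 n2 n3 = Cn
  generalize RA x y z m1 m2 m3 = Am
  generalize RB x y z m1 m2 m3 = Bm
  generalize RC x y z m1 m2 m3 = Cm
  generalize DD x y z n1 n2 n3 = Dn
  generalize DD x y z m1 m2 m3 = Dm
  generalize EE x y z = E
  obtain ⟨s1, hs1⟩ : ∃ s, s = y + z := ⟨_, rfl⟩
  obtain ⟨s2, hs2⟩ : ∃ s, s = x + z := ⟨_, rfl⟩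
  obtain ⟨s3, hs3⟩ : ∃ s, s = x + y := ⟨_, rfl⟩
  have hc1 : z + x = s2 := by rw [hs2]; ring
  have hc2 : y + x = s3 := by rw [hs3]; ring
  have hc3 : z + y = s1 := by rw [hs1]; ring
  obtain ⟨e, hee⟩ : ∃ e, e = s3 + z := ⟨_, rfl⟩
  rw [hc1, hc2, hc3, ← hs1, ← hs2, ← hs3, ← hee]
  have p1 : s1 ≠ 0 := by rw [hs1]; positivity
  have p2 : s2 ≠ 0 := by rw [hs2]; positivity
  have p3 : s3 ≠ 0 := by rw [hs3]; positivity
  have p4 : e ≠ 0 := by rw [hee, hs3]; positivity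
  clear hs1 hs2 hs3 hee hc1 hc2 hc3
  field_simp
  ring

lemma exists_coord (S : Shape x y z E1 E2 E3) (a : ℂ) : ∃ p q : ℝ, a = E1 * (p + q * I) := by
  refine ⟨(a * conj E1).re, (a * conj E1).im, ?_⟩
  rw [re_add_im]
  linear_combination (-a) * S.n1

lemma Bf_nonneg11 (S : Shape x y z E1 E2 E3) (a : ℂ) :
    0 ≤ Bf x y z 0 (z * (x + y)) (y * (x + z)) 0 (z * (x + y)) (y * (x + z)) E1 E2 E3 a := by
  obtain ⟨p, q, rfl⟩ := exists_coord S a
  rw [Bf_pivot S]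
  have h := cert11 S.hx S.hy S.hz p q
  have hx := S.hx
  have hy := S.hy
  have hz := S.hz
  positivity

lemma Bf_nonneg12 (S : Shape x y z E1 E2 E3) (a : ℂ) :
    0 ≤ Bf x y z 0 (z * (x + y)) (y * (x + z)) (z * (x + y)) 0 (x * (y + z)) E1 E2 E3 a := by
  obtain ⟨p, q, rfl⟩ := exists_coord S a
  rw [Bf_pivot S]
  have h := cert12 S.hx S.hy S.hz p q
  have hx := S.hx
  have hy := S.hy
  have hz := S.hz
  positivity

lemma Rf_lin (x y z : ℝ) (E1 E2 E3 a : ℂ) : ∃ r1 r2 r3 : ℝ, ∀ n1 n2 n3 : ℝ,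
    Rf x y z n1 n2 n3 E1 E2 E3 a = n1 * r1 + n2 * r2 + n3 * r3 := by
  refine ⟨Rf x y z 1 0 0 E1 E2 E3 a, Rf x y z 0 1 0 E1 E2 E3 a, Rf x y z 0 0 1 E1 E2 E3 a,
    fun n1 n2 n3 => ?_⟩
  have h : zetad x y z n1 n2 n3 E1 E2 E3 = (n1 : ℂ) * zetad x y z 1 0 0 E1 E2 E3 +
      n2 * zetad x y z 0 1 0 E1 E2 E3 + n3 * zetad x y z 0 0 1 E1 E2 E3 := by
    unfold zetad
    push_cast
    ring
  unfold Rf
  rw [h]
  generalize zetad x y z 1 0 0 E1 E2 E3 = Z1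
  generalize zetad x y z 0 1 0 E1 E2 E3 = Z2
  generalize zetad x y z 0 0 1 E1 E2 E3 = Z3
  generalize zeta x y z E1 E2 E3 = Z
  have e1 : (((n1 : ℂ) * Z1 + n2 * Z2 + n3 * Z3) * conj a ^ 2).im =
      n1 * (Z1 * conj a ^ 2).im + n2 * (Z2 * conj a ^ 2).im + n3 * (Z3 * conj a ^ 2).im := by
    have : ((n1 : ℂ) * Z1 + n2 * Z2 + n3 * Z3) * conj a ^ 2 =
      n1 * (Z1 * conj a ^ 2) + n2 * (Z2 * conj a ^ 2) + n3 * (Z3 * conj a ^ 2) := by ring
    rw [this]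
    simp only [add_im, im_ofReal_mul]
  have e2 : (conj Z * ((n1 : ℂ) * Z1 + n2 * Z2 + n3 * Z3)).im =
      n1 * (conj Z * Z1).im + n2 * (conj Z * Z2).im + n3 * (conj Z * Z3).im := by
    have : conj Z * ((n1 : ℂ) * Z1 + n2 * Z2 + n3 * Z3) =
      n1 * (conj Z * Z1) + n2 * (conj Z * Z2) + n3 * (conj Z * Z3) := by ring
    rw [this]
    simp only [add_im, im_ofReal_mul]
  rw [e1, e2]
  ring

lemma SS_lin (x y z : ℝ) : ∃ r1 r2 r3 : ℝ, ∀ n1 n2 n3 : ℝ,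
    SS x y z n1 n2 n3 = n1 * r1 + n2 * r2 + n3 * r3 := by
  refine ⟨SS x y z 1 0 0, SS x y z 0 1 0, SS x y z 0 0 1, fun n1 n2 n3 => ?_⟩
  unfold SS DD
  ring

/-- The gauge inequality on the cone of velocities. -/
lemma Bf_nonneg (S : Shape x y z E1 E2 E3) {w1 w2 w3 : ℝ} (h1 : 0 ≤ w1) (h2 : 0 ≤ w2)
    (h3 : 0 ≤ w3) {n1 n2 n3 : ℝ} (hn1 : n1 = w2 * (z * (x + y)) + w3 * (y * (x + z)))
    (hn2 : n2 = w1 * (z * (x + y)) + w3 * (x * (y + z)))
    (hn3 : n3 = w1 * (y * (x + z)) + w2 * (x * (y + z))) (a : ℂ) :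
    0 ≤ Bf x y z n1 n2 n3 n1 n2 n3 E1 E2 E3 a := by
  have b11 := Bf_nonneg11 S a
  have b12 := Bf_nonneg12 S a
  have b22 := Bf_nonneg11 S.cyc a
  have b23 := Bf_nonneg12 S.cyc a
  have b33 := Bf_nonneg11 S.cyc.cyc a
  have b31 := Bf_nonneg12 S.cyc.cyc a
  rw [show Bf y z x 0 (x * (y + z)) (z * (y + x)) 0 (x * (y + z)) (z * (y + x)) E2 E3 E1 a =
    Bf x y z (z * (y + x)) 0 (x * (y + z)) (z * (y + x)) 0 (x * (y + z)) E1 E2 E3 a from
    Bf_cyc x y z (z * (y + x)) 0 (x * (y + z)) (z * (y + x)) 0 (x * (y + z)) E1 E2 E3 a] at b22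
  rw [show Bf y z x 0 (x * (y + z)) (z * (y + x)) (x * (y + z)) 0 (y * (z + x)) E2 E3 E1 a =
    Bf x y z (z * (y + x)) 0 (x * (y + z)) (y * (z + x)) (x * (y + z)) 0 E1 E2 E3 a from
    Bf_cyc x y z (z * (y + x)) 0 (x * (y + z)) (y * (z + x)) (x * (y + z)) 0 E1 E2 E3 a] at b23
  rw [show Bf z x y 0 (y * (z + x)) (x * (z + y)) 0 (y * (z + x)) (x * (z + y)) E3 E1 E2 a =
    Bf x y z (y * (z + x)) (x * (z + y)) 0 (y * (z + x)) (x * (z + y)) 0 E1 E2 E3 a from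
    (Bf_cyc y z x (x * (z + y)) 0 (y * (z + x)) (x * (z + y)) 0 (y * (z + x)) E2 E3 E1 a).trans
      (Bf_cyc x y z (y * (z + x)) (x * (z + y)) 0 (y * (z + x)) (x * (z + y)) 0 E1 E2 E3 a)]
    at b33
  rw [show Bf z x y 0 (y * (z + x)) (x * (z + y)) (y * (z + x)) 0 (z * (x + y)) E3 E1 E2 a =
    Bf x y z (y * (z + x)) (x * (z + y)) 0 0 (z * (x + y)) (y * (z + x)) E1 E2 E3 a from
    (Bf_cyc y z x (x * (z + y)) 0 (y * (z + x)) (z * (x + y)) (y * (z + x)) 0 E2 E3 E1 a).trans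
      (Bf_cyc x y z (y * (z + x)) (x * (z + y)) 0 0 (z * (x + y)) (y * (z + x)) E1 E2 E3 a)]
    at b31
  have key : Bf x y z n1 n2 n3 n1 n2 n3 E1 E2 E3 a =
      w1 ^ 2 * Bf x y z 0 (z * (x + y)) (y * (x + z)) 0 (z * (x + y)) (y * (x + z)) E1 E2 E3 a +
      w2 ^ 2 * Bf x y z (z * (y + x)) 0 (x * (y + z)) (z * (y + x)) 0 (x * (y + z)) E1 E2 E3 a +
      w3 ^ 2 * Bf x y z (y * (z + x)) (x * (z + y)) 0 (y * (z + x)) (x * (z + y)) 0 E1 E2 E3 a +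
      2 * w1 * w2 *
        Bf x y z 0 (z * (x + y)) (y * (x + z)) (z * (x + y)) 0 (x * (y + z)) E1 E2 E3 a +
      2 * w2 * w3 *
        Bf x y z (z * (y + x)) 0 (x * (y + z)) (y * (z + x)) (x * (y + z)) 0 E1 E2 E3 a +
      2 * w3 * w1 *
        Bf x y z (y * (z + x)) (x * (z + y)) 0 0 (z * (x + y)) (y * (z + x)) E1 E2 E3 a := by
    obtain ⟨r1, r2, r3, hr⟩ := Rf_lin x y z E1 E2 E3 a
    obtain ⟨t1, t2, t3, ht⟩ := SS_lin x y z
    simp only [Bf, hr, ht]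
    rw [hn1, hn2, hn3]
    ring
  rw [key]
  positivity

end Pool.Agent.MP_ae5b4e_an.Birk
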