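import Mathlib
import Pool.Agent.Lib.MP_ae5b4e_an.Birk.Defs

/-!
The Hopf inequality for the family of leaves (billiard case).
-/

noncomputable section

namespace Pool.Agent.MP_ae5b4e_an.Birk

open Real Set Filter Topology MeasureTheory ComplexConjugate

namespace Hopf

/-- partial derivative in the first variable -/
def pd1 (F : ℝ → ℝ → ℝ) (q : ℝ × ℝ) : ℝ := fderiv ℝ (fun q : ℝ × ℝ => F q.1 q.2) q (1, 0)

/-- partial derivative in the second variable -/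
def pd2 (F : ℝ → ℝ → ℝ) (q : ℝ × ℝ) : ℝ := fderiv ℝ (fun q : ℝ × ℝ => F q.1 q.2) q (0, 1)

lemma isOpen_dom : IsOpen (Ioo (0:ℝ) 1 ×ˢ (univ : Set ℝ)) := isOpen_Ioo.prod isOpen_univ

lemma contOn_pd1 {F : ℝ → ℝ → ℝ}
    (hF : ContDiffOn ℝ 1 (fun q : ℝ × ℝ => F q.1 q.2) (Ioo 0 1 ×ˢ univ)) :
    ContinuousOn (pd1 F) (Ioo 0 1 ×ˢ univ) :=
  (hF.continuousOn_fderiv_of_isOpen isOpen_dom le_rfl).clm_apply continuousOn_const

lemma contOn_pd2 {F : ℝ → ℝ → ℝ}
    (hF : ContDiffOn ℝ 1 (fun q : ℝ × ℝ => F q.1 q.2) (Ioo 0 1 ×ˢ univ)) :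
    ContinuousOn (pd2 F) (Ioo 0 1 ×ˢ univ) :=
  (hF.continuousOn_fderiv_of_isOpen isOpen_dom le_rfl).clm_apply continuousOn_const

lemma slice {G : ℝ × ℝ → ℝ} (hG : ContinuousOn G (Ioo 0 1 ×ˢ univ)) {c : ℝ}
    (hc : c ∈ Ioo (0:ℝ) 1) : Continuous fun t => G (c, t) :=
  hG.comp_continuous (by fun_prop) fun t => ⟨hc, mem_univ _⟩

/-- chain rule along a curve -/
lemma curve {F : ℝ → ℝ → ℝ}
    (hF : ContDiffOn ℝ 1 (fun q : ℝ × ℝ => F q.1 q.2) (Ioo 0 1 ×ˢ univ))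
    {γ₁ γ₂ : ℝ → ℝ} {a b t : ℝ} (h1 : HasDerivAt γ₁ a t)
    (h2 : HasDerivAt γ₂ b t) (hm : γ₁ t ∈ Ioo (0:ℝ) 1) :
    HasDerivAt (fun s => F (γ₁ s) (γ₂ s)) (a * pd1 F (γ₁ t, γ₂ t) + b * pd2 F (γ₁ t, γ₂ t)) t := by
  have h0 : HasFDerivAt (fun q : ℝ × ℝ => F q.1 q.2)
      (fderiv ℝ (fun q : ℝ × ℝ => F q.1 q.2) (γ₁ t, γ₂ t)) (γ₁ t, γ₂ t) :=
    ((hF.contDiffAt (isOpen_dom.mem_nhds ⟨hm, mem_univ _⟩)).differentiableAt
      one_ne_zero).hasFDerivAt
  have h3 := h0.comp_hasDerivAt t (h1.prodMk h2)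
  refine h3.congr_deriv ?_
  have e : ((a, b) : ℝ × ℝ) = a • ((1, 0) : ℝ × ℝ) + b • ((0, 1) : ℝ × ℝ) := by
    ext <;> simp
  rw [e, map_add, map_smul, map_smul]
  rfl

lemma der1 {F : ℝ → ℝ → ℝ}
    (hF : ContDiffOn ℝ 1 (fun q : ℝ × ℝ => F q.1 q.2) (Ioo 0 1 ×ˢ univ)) {c : ℝ}
    (hc : c ∈ Ioo (0:ℝ) 1) (t : ℝ) : HasDerivAt (fun x => F x t) (pd1 F (c, t)) c := by
  have := curve hF (hasDerivAt_id' c) (hasDerivAt_const c t) hc
  simpa using this

lemma der2 {F : ℝ → ℝ → ℝ}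
    (hF : ContDiffOn ℝ 1 (fun q : ℝ × ℝ => F q.1 q.2) (Ioo 0 1 ×ˢ univ)) {c : ℝ}
    (hc : c ∈ Ioo (0:ℝ) 1) (t : ℝ) : HasDerivAt (fun x => F c x) (pd2 F (c, t)) t := by
  have := curve hF (hasDerivAt_const t c) (hasDerivAt_id' t) hc
  simpa using this

lemma pd1_per {F : ℝ → ℝ → ℝ}
    (hF : ContDiffOn ℝ 1 (fun q : ℝ × ℝ => F q.1 q.2) (Ioo 0 1 ×ˢ univ))
    (hp : ∀ c ∈ Ioo (0:ℝ) 1, ∀ t, F c (t + 2 * π) = F c t) {c : ℝ}
    (hc : c ∈ Ioo (0:ℝ) 1) (t : ℝ) : pd1 F (c, t + 2 * π) = pd1 F (c, t) := by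
  have h1 := der1 hF hc (t + 2 * π)
  have h2 := der1 hF hc t
  refine h1.unique (h2.congr_of_eventuallyEq ?_)
  filter_upwards [isOpen_Ioo.mem_nhds hc] with x hx
  exact hp x hx t

lemma pd2_per {F : ℝ → ℝ → ℝ}
    (hF : ContDiffOn ℝ 1 (fun q : ℝ × ℝ => F q.1 q.2) (Ioo 0 1 ×ˢ univ))
    (hp : ∀ c ∈ Ioo (0:ℝ) 1, ∀ t, F c (t + 2 * π) = F c t) {c : ℝ}
    (hc : c ∈ Ioo (0:ℝ) 1) (t : ℝ) : pd2 F (c, t + 2 * π) = pd2 F (c, t) := by
  have h1 := (der2 hF hc (t + 2 * π)).comp_add_const t (2 * π)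
  have h2 := der2 hF hc t
  refine h1.unique (h2.congr_of_eventuallyEq ?_)
  exact Filter.Eventually.of_forall fun x => hp c hc x

lemma integral_comp_shift {G φ φ' : ℝ → ℝ} (hφ : ∀ t, HasDerivAt φ (φ' t) t)
    (hφ' : Continuous φ') (hφs : φ (2 * π) = φ 0 + 2 * π) (hG : Continuous G)
    (hGp : ∀ t, G (t + 2 * π) = G t) :
    ∫ t in (0:ℝ)..(2 * π), G (φ t) * φ' t = ∫ t in (0:ℝ)..(2 * π), G t := by
  have h1 := intervalIntegral.integral_comp_mul_deriv (a := 0) (b := 2 * π) (f := φ) (f' := φ')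
    (g := G) (fun t _ => hφ t) hφ'.continuousOn hG
  simp only [Function.comp] at h1
  rw [h1, hφs]
  have h2 : Function.Periodic G (2 * π) := hGp
  have := h2.intervalIntegral_add_eq (φ 0) 0
  rw [this, zero_add]

end Hopf

open Hopf

namespace Bir

variable {h h1 h2 : ℝ → ℝ} {P D : ℝ → ℝ → ℝ}

lemma hDc (B : Bir h h1 h2 P D) {c : ℝ} (hc : c ∈ Ioo (0:ℝ) 1) (t : ℝ) :
    HasDerivAt (fun x => D x t) (pd1 D (c, t)) c := der1 B.D_smooth hc t

lemma hDt (B : Bir h h1 h2 P D) {c : ℝ} (hc : c ∈ Ioo (0:ℝ) 1) (t : ℝ) :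
    HasDerivAt (D c) (pd2 D (c, t)) t := der2 B.D_smooth hc t

lemma pd1_D_pos (B : Bir h h1 h2 P D) {c : ℝ} (hc : c ∈ Ioo (0:ℝ) 1) (t : ℝ) :
    0 < pd1 D (c, t) := by
  have := B.D_mono c hc t
  rwa [(B.hDc hc t).deriv] at this

lemma sin_pos' (B : Bir h h1 h2 P D) {c : ℝ} (hc : c ∈ Ioo (0:ℝ) 1) (t : ℝ) :
    0 < sin (D c t) := by
  have := B.D_mem c hc t
  exact Real.sin_pos_of_pos_of_lt_pi this.1 (by linarith [this.2, pi_pos])

lemma plus_t (B : Bir h h1 h2 P D) {c : ℝ} (hc : c ∈ Ioo (0:ℝ) 1) (t : ℝ) :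
    pd2 P (c, t + D c t) * (1 + pd2 D (c, t)) = h1 t * cos (D c t) + h2 t * sin (D c t) +
      (-h t * sin (D c t) + h1 t * cos (D c t)) * pd2 D (c, t) := by
  have e1 : HasDerivAt (fun s => s + D c s) (1 + pd2 D (c, t)) t :=
    (hasDerivAt_id' t).add (B.hDt hc t)
  have e2 := curve B.P_smooth (hasDerivAt_const t c) e1 hc
  have e3 := ((B.h_deriv t).mul (B.hDt hc t).cos).add ((B.h1_deriv t).mul (B.hDt hc t).sin)
  have e4 := e2.unique (e3.congr_of_eventuallyEq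
    (Filter.Eventually.of_forall fun s => B.eq_plus c hc s))
  linarith

lemma plus_c (B : Bir h h1 h2 P D) {c : ℝ} (hc : c ∈ Ioo (0:ℝ) 1) (t : ℝ) :
    pd1 P (c, t + D c t) * (1 + pd2 D (c, t)) =
      -((h t + h2 t) * sin (D c t) * pd1 D (c, t)) := by
  have e1 : HasDerivAt (fun s => t + D s t) (pd1 D (c, t)) c := (B.hDc hc t).const_add t
  have e2 := curve B.P_smooth (hasDerivAt_id' c) e1 hc
  have e3 := ((B.hDc hc t).cos.const_mul (h t)).add ((B.hDc hc t).sin.const_mul (h1 t))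
  have e4 := e2.unique (e3.congr_of_eventuallyEq (by
    filter_upwards [isOpen_Ioo.mem_nhds hc] with x hx
    exact B.eq_plus x hx t))
  have e5 := B.plus_t hc t
  have e6 : pd1 P (c, t + D c t) = (-h t * sin (D c t) + h1 t * cos (D c t)) * pd1 D (c, t) -
      pd1 D (c, t) * pd2 P (c, t + D c t) := by linarith
  rw [e6]
  linear_combination (-pd1 D (c, t)) * e5

lemma minus_t (B : Bir h h1 h2 P D) {c : ℝ} (hc : c ∈ Ioo (0:ℝ) 1) (t : ℝ) :
    pd2 P (c, t - D c t) * (1 - pd2 D (c, t)) = h1 t * cos (D c t) - h2 t * sin (D c t) +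
      (-h t * sin (D c t) - h1 t * cos (D c t)) * pd2 D (c, t) := by
  have e1 : HasDerivAt (fun s => s - D c s) (1 - pd2 D (c, t)) t :=
    (hasDerivAt_id' t).sub (B.hDt hc t)
  have e2 := curve B.P_smooth (hasDerivAt_const t c) e1 hc
  have e3 := ((B.h_deriv t).mul (B.hDt hc t).cos).sub ((B.h1_deriv t).mul (B.hDt hc t).sin)
  have e4 := e2.unique (e3.congr_of_eventuallyEq
    (Filter.Eventually.of_forall fun s => B.eq_minus c hc s))
  linarith

lemma minus_c (B : Bir h h1 h2 P D) {c : ℝ} (hc : c ∈ Ioo (0:ℝ) 1) (t : ℝ) :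
    pd1 P (c, t - D c t) * (1 - pd2 D (c, t)) =
      -((h t + h2 t) * sin (D c t) * pd1 D (c, t)) := by
  have e1 : HasDerivAt (fun s => t - D s t) (-pd1 D (c, t)) c := by
    simpa using (B.hDc hc t).const_sub t
  have e2 := curve B.P_smooth (hasDerivAt_id' c) e1 hc
  have e3 := ((B.hDc hc t).cos.const_mul (h t)).sub ((B.hDc hc t).sin.const_mul (h1 t))
  have e4 := e2.unique (e3.congr_of_eventuallyEq (by
    filter_upwards [isOpen_Ioo.mem_nhds hc] with x hx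
    exact B.eq_minus x hx t))
  have e5 := B.minus_t hc t
  have e6 : pd1 P (c, t - D c t) = (-h t * sin (D c t) - h1 t * cos (D c t)) * pd1 D (c, t) +
      pd1 D (c, t) * pd2 P (c, t - D c t) := by linarith
  rw [e6]
  linear_combination (pd1 D (c, t)) * e5

lemma slopes (B : Bir h h1 h2 P D) {c : ℝ} (hc : c ∈ Ioo (0:ℝ) 1) (t : ℝ) :
    0 < 1 + pd2 D (c, t) ∧ 0 < 1 - pd2 D (c, t) := by
  have hcont : Continuous fun s => pd2 D (c, s) := slice (contOn_pd2 B.D_smooth) hc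
  -- a critical point
  obtain ⟨t0, -, ht0⟩ : ∃ x ∈ Ioo (0:ℝ) (2 * π), pd2 D (c, x) = 0 := by
    refine exists_hasDerivAt_eq_zero (f := D c) (by positivity) ?_ ?_ ?_
    · exact fun s _ => (B.hDt hc s).continuousAt.continuousWithinAt
    · have := B.D_per c hc 0
      rw [zero_add] at this
      exact this.symm
    · exact fun x _ => B.hDt hc x
  have hpos : ∀ s, 0 < (h s + h2 s) * sin (D c s) * pd1 D (c, s) := fun s =>
    mul_pos (mul_pos (B.rho_pos s) (B.sin_pos' hc s)) (B.pd1_D_pos hc s)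
  have n1 : ∀ s, 1 + pd2 D (c, s) ≠ 0 := by
    intro s hs
    have := B.plus_c hc s
    rw [hs, mul_zero] at this
    have := hpos s
    linarith
  have n2 : ∀ s, 1 - pd2 D (c, s) ≠ 0 := by
    intro s hs
    have := B.minus_c hc s
    rw [hs, mul_zero] at this
    have := hpos s
    linarith
  constructor
  · by_contra hneg
    push Not at hneg
    obtain ⟨s, hs⟩ := mem_range_of_exists_le_of_exists_ge
      (f := fun s => 1 + pd2 D (c, s)) (c := 0) (continuous_const.add hcont) ⟨t, hneg⟩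
      ⟨t0, by simp only [ht0]; norm_num⟩
    exact n1 s hs
  · by_contra hneg
    push Not at hneg
    obtain ⟨s, hs⟩ := mem_range_of_exists_le_of_exists_ge
      (f := fun s => 1 - pd2 D (c, s)) (c := 0) (continuous_const.sub hcont) ⟨t, hneg⟩
      ⟨t0, by simp only [ht0]; norm_num⟩
    exact n2 s hs

theorem abs_deriv_lt_one (B : Bir h h1 h2 P D) {c : ℝ} (hc : c ∈ Ioo (0:ℝ) 1) (t : ℝ) :
    |deriv (D c) t| < 1 := by
  rw [(B.hDt hc t).deriv, abs_lt]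
  have := B.slopes hc t
  constructor <;> linarith [this.1, this.2]

end Bir

namespace Hopf

/-- the integrand of the functional -/
def GG (h h1 h2 : ℝ → ℝ) (δ t : ℝ) : ℝ :=
  h t * (h t + h2 t) * (Ap δ * (h1 t ^ 2 - h t * h2 t) - 2 * sin δ ^ 3 * cos δ * h1 t ^ 2)

/-- its derivative -/
def gg (h h1 h2 : ℝ → ℝ) (δ t : ℝ) : ℝ :=
  2 * h t * (h t + h2 t) * sin δ ^ 2 * (-h t * h2 t * cos δ ^ 2 + h1 t ^ 2 * sin δ ^ 2 -
    2 * h1 t ^ 2 * cos δ ^ 2)

lemma hasDerivAt_Ap (δ : ℝ) : HasDerivAt Ap (2 * sin δ ^ 2 * cos δ ^ 2) δ := by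
  have e1 : HasDerivAt (fun d : ℝ => 4 * d) 4 δ := by simpa using (hasDerivAt_id' δ).const_mul 4
  have e2 := (e1.sub e1.sin).div_const 16
  refine HasDerivAt.congr_deriv e2 ?_
  have e3 : cos (4 * δ) = 1 - 8 * sin δ ^ 2 * cos δ ^ 2 := by
    have : 4 * δ = 2 * (2 * δ) := by ring
    rw [this, cos_two_mul, cos_two_mul]
    have := sin_sq_add_cos_sq δ
    have e4 : sin δ ^ 2 = 1 - cos δ ^ 2 := by linarith
    rw [e4]
    ring
  rw [e3]
  ring

lemma hasDerivAt_GG (h h1 h2 : ℝ → ℝ) (δ t : ℝ) :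
    HasDerivAt (fun δ => GG h h1 h2 δ t) (gg h h1 h2 δ t) δ := by
  have e1 := (hasDerivAt_Ap δ).mul_const (h1 t ^ 2 - h t * h2 t)
  have e2 := (((hasDerivAt_sin δ).pow 3).const_mul 2).mul (hasDerivAt_cos δ)
  have e3 := (e1.sub (e2.mul_const (h1 t ^ 2))).const_mul (h t * (h t + h2 t))
  refine HasDerivAt.congr_deriv e3 ?_
  unfold gg
  simp only [Pi.pow_apply]
  push_cast
  have e4 : cos δ ^ 2 = 1 - sin δ ^ 2 := by
    have := sin_sq_add_cos_sq δ
    linarith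
  have e5 : cos δ * cos δ = 1 - sin δ ^ 2 := by rw [← e4]; ring
  ring_nf

lemma continuous_Ap : Continuous Ap := by
  unfold Ap
  fun_prop

end Hopf

namespace Bir

variable {h h1 h2 : ℝ → ℝ} {P D : ℝ → ℝ → ℝ}

/-- the periodic density -/
def Ga (P : ℝ → ℝ → ℝ) (c φ : ℝ) : ℝ := pd1 P (c, φ) * P c φ ^ 2 * pd2 P (c, φ)

/-- the defect -/
def dfct (h h1 h2 : ℝ → ℝ) (D : ℝ → ℝ → ℝ) (c t : ℝ) : ℝ :=
  2 * (h t + h2 t) ^ 2 * sin (D c t) ^ 2 * pd1 D (c, t) *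
    (h t * cos (D c t) * pd2 D (c, t) - h1 t * sin (D c t)) ^ 2 /
      ((1 - pd2 D (c, t)) * (1 + pd2 D (c, t)))

lemma pointwise (B : Bir h h1 h2 P D) {c : ℝ} (hc : c ∈ Ioo (0:ℝ) 1) (t : ℝ) :
    gg h h1 h2 (D c t) t * pd1 D (c, t) =
      dfct h h1 h2 D c t + (Ga P c (t + D c t) * (1 + pd2 D (c, t)) -
        Ga P c (t - D c t) * (1 - pd2 D (c, t))) := by
  have e1 := B.plus_t hc t
  have e2 := B.plus_c hc t
  have e3 := B.minus_t hc t
  have e4 := B.minus_c hc t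
  have e5 := B.eq_plus c hc t
  have e6 := B.eq_minus c hc t
  obtain ⟨p1, p2⟩ := B.slopes hc t
  have q1 : Ga P c (t + D c t) * (1 + pd2 D (c, t)) =
      -((h t + h2 t) * sin (D c t) * pd1 D (c, t)) *
        (h t * cos (D c t) + h1 t * sin (D c t)) ^ 2 *
        ((h1 t * cos (D c t) + h2 t * sin (D c t) +
      (-h t * sin (D c t) + h1 t * cos (D c t)) * pd2 D (c, t)) / (1 + pd2 D (c, t))) := by
    unfold Ga
    rw [← e1, ← e2, e5]
    field_simp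
  have q2 : Ga P c (t - D c t) * (1 - pd2 D (c, t)) =
      -((h t + h2 t) * sin (D c t) * pd1 D (c, t)) *
        (h t * cos (D c t) - h1 t * sin (D c t)) ^ 2 *
        ((h1 t * cos (D c t) - h2 t * sin (D c t) +
      (-h t * sin (D c t) - h1 t * cos (D c t)) * pd2 D (c, t)) / (1 - pd2 D (c, t))) := by
    unfold Ga
    rw [← e3, ← e4, e6]
    field_simp
  rw [q1, q2]
  unfold gg dfct
  field_simp
  ring

lemma h1_per (B : Bir h h1 h2 P D) (t : ℝ) : h1 (t + 2 * π) = h1 t := by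
  have e1 := (B.h_deriv (t + 2 * π)).comp_add_const t (2 * π)
  refine e1.unique ((B.h_deriv t).congr_of_eventuallyEq ?_)
  exact Filter.Eventually.of_forall fun x => B.h_per x

lemma h2_per (B : Bir h h1 h2 P D) (t : ℝ) : h2 (t + 2 * π) = h2 t := by
  have e1 := (B.h1_deriv (t + 2 * π)).comp_add_const t (2 * π)
  refine e1.unique ((B.h1_deriv t).congr_of_eventuallyEq ?_)
  exact Filter.Eventually.of_forall fun x => B.h1_per x

lemma continuous_h (B : Bir h h1 h2 P D) : Continuous h :=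
  continuous_iff_continuousAt.2 fun t => (B.h_deriv t).continuousAt

lemma continuous_h1 (B : Bir h h1 h2 P D) : Continuous h1 :=
  continuous_iff_continuousAt.2 fun t => (B.h1_deriv t).continuousAt

lemma continuous_D (B : Bir h h1 h2 P D) {c : ℝ} (hc : c ∈ Ioo (0:ℝ) 1) : Continuous (D c) :=
  continuous_iff_continuousAt.2 fun t => (B.hDt hc t).continuousAt

lemma continuous_Ga (B : Bir h h1 h2 P D) {c : ℝ} (hc : c ∈ Ioo (0:ℝ) 1) :
    Continuous (Ga P c) := by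
  unfold Ga
  have a1 : Continuous fun t => pd1 P (c, t) := slice (contOn_pd1 B.P_smooth) hc
  have a2 : Continuous fun t => pd2 P (c, t) := slice (contOn_pd2 B.P_smooth) hc
  have a3 : Continuous (P c) :=
    continuous_iff_continuousAt.2 fun t => (der2 B.P_smooth hc t).continuousAt
  exact (a1.mul (a3.pow 2)).mul a2

lemma Ga_per (B : Bir h h1 h2 P D) {c : ℝ} (hc : c ∈ Ioo (0:ℝ) 1) (t : ℝ) :
    Ga P c (t + 2 * π) = Ga P c t := by
  unfold Ga
  rw [pd1_per B.P_smooth B.P_per hc, pd2_per B.P_smooth B.P_per hc, B.P_per c hc]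

lemma continuous_dfct (B : Bir h h1 h2 P D) {c : ℝ} (hc : c ∈ Ioo (0:ℝ) 1) :
    Continuous (dfct h h1 h2 D c) := by
  have a1 : Continuous fun t => pd1 D (c, t) := slice (contOn_pd1 B.D_smooth) hc
  have a2 : Continuous fun t => pd2 D (c, t) := slice (contOn_pd2 B.D_smooth) hc
  have a3 := B.continuous_D hc
  have a4 := B.continuous_h
  have a5 := B.continuous_h1
  have a6 := B.h2_cont
  unfold dfct
  refine Continuous.div₀ (by fun_prop) (by fun_prop) fun t => ?_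
  obtain ⟨p1, p2⟩ := B.slopes hc t
  exact (mul_pos p2 p1).ne'

lemma dfct_nonneg (B : Bir h h1 h2 P D) {c : ℝ} (hc : c ∈ Ioo (0:ℝ) 1) (t : ℝ) :
    0 ≤ dfct h h1 h2 D c t := by
  obtain ⟨p1, p2⟩ := B.slopes hc t
  have := B.pd1_D_pos hc t
  unfold dfct
  positivity

lemma dfct_per (B : Bir h h1 h2 P D) {c : ℝ} (hc : c ∈ Ioo (0:ℝ) 1) (t : ℝ) :
    dfct h h1 h2 D c (t + 2 * π) = dfct h h1 h2 D c t := by
  unfold dfct
  rw [pd1_per B.D_smooth B.D_per hc, pd2_per B.D_smooth B.D_per hc, B.D_per c hc, B.h_per,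
    B.h1_per, B.h2_per]

lemma leaf_integral (B : Bir h h1 h2 P D) {c : ℝ} (hc : c ∈ Ioo (0:ℝ) 1) :
    ∫ t in (0:ℝ)..(2 * π), gg h h1 h2 (D c t) t * pd1 D (c, t) =
      ∫ t in (0:ℝ)..(2 * π), dfct h h1 h2 D c t := by
  have a1 : Continuous fun t => pd1 D (c, t) := slice (contOn_pd1 B.D_smooth) hc
  have a2 : Continuous fun t => pd2 D (c, t) := slice (contOn_pd2 B.D_smooth) hc
  have a3 := B.continuous_D hc
  have a4 := B.continuous_Ga hc
  have a5 := B.continuous_dfct hc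
  have b1 : ∫ t in (0:ℝ)..(2 * π), Ga P c (t + D c t) * (1 + pd2 D (c, t)) =
      ∫ t in (0:ℝ)..(2 * π), Ga P c t := by
    refine integral_comp_shift (φ := fun t => t + D c t) ?_ (by fun_prop) ?_ a4 (B.Ga_per hc)
    · exact fun t => (hasDerivAt_id' t).add (B.hDt hc t)
    · have := B.D_per c hc 0
      rw [zero_add] at this
      simp only [this]
      ring
  have b2 : ∫ t in (0:ℝ)..(2 * π), Ga P c (t - D c t) * (1 - pd2 D (c, t)) =
      ∫ t in (0:ℝ)..(2 * π), Ga P c t := by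
    refine integral_comp_shift (φ := fun t => t - D c t) ?_ (by fun_prop) ?_ a4 (B.Ga_per hc)
    · exact fun t => (hasDerivAt_id' t).sub (B.hDt hc t)
    · have := B.D_per c hc 0
      rw [zero_add] at this
      simp only [this]
      ring
  have b3 : ∫ t in (0:ℝ)..(2 * π), gg h h1 h2 (D c t) t * pd1 D (c, t) =
      ∫ t in (0:ℝ)..(2 * π), (dfct h h1 h2 D c t + (Ga P c (t + D c t) * (1 + pd2 D (c, t)) -
        Ga P c (t - D c t) * (1 - pd2 D (c, t)))) :=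
    intervalIntegral.integral_congr fun t _ => B.pointwise hc t
  have c1 : Continuous fun t => Ga P c (t + D c t) * (1 + pd2 D (c, t)) :=
    (a4.comp (by fun_prop)).mul (by fun_prop)
  have c2 : Continuous fun t => Ga P c (t - D c t) * (1 - pd2 D (c, t)) :=
    (a4.comp (by fun_prop)).mul (by fun_prop)
  have c3 : Continuous fun t => Ga P c (t + D c t) * (1 + pd2 D (c, t)) -
      Ga P c (t - D c t) * (1 - pd2 D (c, t)) := c1.sub c2
  rw [b3, intervalIntegral.integral_add (a5.intervalIntegrable _ _)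
    (c3.intervalIntegrable _ _), intervalIntegral.integral_sub
    (c1.intervalIntegrable _ _) (c2.intervalIntegrable _ _), b1, b2]
  ring

lemma leaf_integral_nonneg (B : Bir h h1 h2 P D) {c : ℝ} (hc : c ∈ Ioo (0:ℝ) 1) :
    0 ≤ ∫ t in (0:ℝ)..(2 * π), gg h h1 h2 (D c t) t * pd1 D (c, t) := by
  rw [B.leaf_integral hc]
  exact intervalIntegral.integral_nonneg (by positivity) fun t _ => B.dfct_nonneg hc t

lemma continuousOn_integrand (B : Bir h h1 h2 P D) :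
    ContinuousOn (fun q : ℝ × ℝ => gg h h1 h2 (D q.1 q.2) q.2 * pd1 D q)
      (Ioo (0:ℝ) 1 ×ˢ univ) := by
  have a1 := contOn_pd1 B.D_smooth
  have a3 := B.D_smooth.continuousOn
  have a4 : ContinuousOn (fun q : ℝ × ℝ => h q.2) (Ioo (0:ℝ) 1 ×ˢ univ) :=
    (B.continuous_h.comp continuous_snd).continuousOn
  have a5 : ContinuousOn (fun q : ℝ × ℝ => h1 q.2) (Ioo (0:ℝ) 1 ×ˢ univ) :=
    (B.continuous_h1.comp continuous_snd).continuousOn
  have a6 : ContinuousOn (fun q : ℝ × ℝ => h2 q.2) (Ioo (0:ℝ) 1 ×ˢ univ) :=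
    (B.h2_cont.comp continuous_snd).continuousOn
  have a7 : ContinuousOn (fun q : ℝ × ℝ => sin (D q.1 q.2)) (Ioo (0:ℝ) 1 ×ˢ univ) :=
    Real.continuous_sin.comp_continuousOn a3
  have a8 : ContinuousOn (fun q : ℝ × ℝ => cos (D q.1 q.2)) (Ioo (0:ℝ) 1 ×ˢ univ) :=
    Real.continuous_cos.comp_continuousOn a3
  unfold gg
  refine ContinuousOn.mul ?_ a1
  exact (((continuousOn_const.mul a4).mul (a4.add a6)).mul (a7.pow 2)).mul
    ((((a4.neg.mul a6).mul (a8.pow 2)).add ((a5.pow 2).mul (a7.pow 2))).sub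
      ((continuousOn_const.mul (a5.pow 2)).mul (a8.pow 2)))

/-- Fubini and the fundamental theorem of calculus. -/
lemma double_integral (B : Bir h h1 h2 P D) {c₁ c₂ : ℝ} (k1 : 0 < c₁) (k12 : c₁ ≤ c₂)
    (k2 : c₂ < 1) :
    ∫ c in c₁..c₂, (∫ t in (0:ℝ)..(2 * π), gg h h1 h2 (D c t) t * pd1 D (c, t)) =
      ∫ t in (0:ℝ)..(2 * π), (GG h h1 h2 (D c₂ t) t - GG h h1 h2 (D c₁ t) t) := by
  have hp : (0:ℝ) ≤ 2 * π := by positivity
  have hsub : Icc c₁ c₂ ×ˢ Icc 0 (2 * π) ⊆ Ioo (0:ℝ) 1 ×ˢ univ := by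
    intro q hq
    exact ⟨⟨by linarith [hq.1.1], by linarith [hq.1.2]⟩, mem_univ _⟩
  have hint : IntegrableOn (Function.uncurry fun c t =>
      gg h h1 h2 (D c t) t * pd1 D (c, t)) (uIoc c₁ c₂ ×ˢ uIoc 0 (2 * π)) := by
    have h3 : IntegrableOn (Function.uncurry fun c t =>
      gg h h1 h2 (D c t) t * pd1 D (c, t)) (Icc c₁ c₂ ×ˢ Icc 0 (2 * π)) := by
      refine ContinuousOn.integrableOn_compact (isCompact_Icc.prod isCompact_Icc) ?_
      exact B.continuousOn_integrand.mono hsub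
    refine h3.mono_set ?_
    rw [uIoc_of_le k12, uIoc_of_le hp]
    exact prod_mono Ioc_subset_Icc_self Ioc_subset_Icc_self
  rw [MeasureTheory.intervalIntegral_intervalIntegral_swap hint]
  refine intervalIntegral.integral_congr fun θ _ => ?_
  have hd : ∀ c ∈ uIcc c₁ c₂, HasDerivAt (fun c => GG h h1 h2 (D c θ) θ)
      (gg h h1 h2 (D c θ) θ * pd1 D (c, θ)) c := by
    intro c hc
    rw [uIcc_of_le k12] at hc
    have hc' : c ∈ Ioo (0:ℝ) 1 := ⟨by linarith [hc.1], by linarith [hc.2]⟩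
    exact HasDerivAt.comp (h₂ := fun δ => GG h h1 h2 δ θ) (h := fun x => D x θ) c
      (hasDerivAt_GG h h1 h2 (D c θ) θ) (B.hDc hc' θ)
  have hcont : ContinuousOn (fun c => gg h h1 h2 (D c θ) θ * pd1 D (c, θ))
      (uIcc c₁ c₂) := by
    rw [uIcc_of_le k12]
    refine B.continuousOn_integrand.comp (f := fun c : ℝ => (c, θ)) (by fun_prop) ?_
    intro c hc
    exact ⟨⟨by linarith [hc.1], by linarith [hc.2]⟩, mem_univ _⟩
  exact intervalIntegral.integral_eq_sub_of_hasDerivAt hd hcont.intervalIntegrable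

/-- the integral over one leaf is continuous in the leaf -/
lemma exists_continuous_extension (B : Bir h h1 h2 P D) {c₁ c₀ : ℝ} (k1 : 0 < c₁)
    (k12 : c₁ ≤ c₀) (k0 : c₀ < 1) :
    ∃ f : ℝ → ℝ, Continuous f ∧ ∀ c ∈ Icc c₁ c₀,
      f c = ∫ t in (0:ℝ)..(2 * π), gg h h1 h2 (D c t) t * pd1 D (c, t) := by
  obtain ⟨pr, hpr⟩ : ∃ pr : ℝ → ℝ, pr = fun c => max c₁ (min c c₀) := ⟨_, rfl⟩
  have hprc : Continuous pr := by simp only [hpr]; fun_prop
  have hprm : ∀ c, pr c ∈ Ioo (0:ℝ) 1 := by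
    intro c
    simp only [hpr]
    constructor
    · exact lt_max_of_lt_left k1
    · exact max_lt (by linarith) ((min_le_right _ _).trans_lt k0)
  refine ⟨fun c => ∫ t in (0:ℝ)..(2 * π), gg h h1 h2 (D (pr c) t) t * pd1 D (pr c, t), ?_, ?_⟩
  · refine intervalIntegral.continuous_parametric_intervalIntegral_of_continuous' ?_ 0 (2 * π)
    have h2' : Function.uncurry (fun c t => gg h h1 h2 (D (pr c) t) t * pd1 D (pr c, t)) =
        (fun q : ℝ × ℝ => gg h h1 h2 (D q.1 q.2) q.2 * pd1 D q) ∘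
          (fun q : ℝ × ℝ => (pr q.1, q.2)) := rfl
    rw [h2']
    refine B.continuousOn_integrand.comp_continuous ?_ ?_
    · exact (hprc.comp continuous_fst).prodMk continuous_snd
    · intro q
      exact ⟨hprm _, mem_univ _⟩
  · intro c hc
    have : pr c = c := by
      simp only [hpr]
      rw [min_eq_left hc.2, max_eq_right hc.1]
    simp only [this]

/-- the functional -/
def EE (h h1 h2 : ℝ → ℝ) (D : ℝ → ℝ → ℝ) (c : ℝ) : ℝ :=
  ∫ t in (0:ℝ)..(2 * π), GG h h1 h2 (D c t) t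

lemma continuous_GG (B : Bir h h1 h2 P D) {c : ℝ} (hc : c ∈ Ioo (0:ℝ) 1) :
    Continuous fun t => GG h h1 h2 (D c t) t := by
  have a3 := B.continuous_D hc
  have a4 := B.continuous_h
  have a5 := B.continuous_h1
  have a6 := B.h2_cont
  have a7 : Continuous fun t => Ap (D c t) := continuous_Ap.comp a3
  unfold GG
  fun_prop

lemma tendsto_EE (B : Bir h h1 h2 P D) : Tendsto (EE h h1 h2 D) (𝓝[>] 0) (𝓝 0) := by
  have a4 := B.continuous_h
  have a5 := B.continuous_h1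
  have a6 := B.h2_cont
  have hev : ∀ᶠ c in 𝓝[>] (0:ℝ), c ∈ Ioo (0:ℝ) 1 := Ioo_mem_nhdsGT one_pos
  have hz : (0:ℝ) = ∫ _ in (0:ℝ)..(2 * π), (0:ℝ) := by simp
  have hz2 : 𝓝 (0:ℝ) = 𝓝 (∫ _ in (0:ℝ)..(2 * π), (0:ℝ)) := by rw [← hz]
  rw [hz2]
  unfold EE
  refine intervalIntegral.tendsto_integral_filter_of_dominated_convergence
    (fun t => |h t * (h t + h2 t)| * (2 * |h1 t ^ 2 - h t * h2 t| + 2 * |h1 t ^ 2|)) ?_ ?_ ?_ ?_
  · filter_upwards [hev] with c hc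
    exact (B.continuous_GG hc).aestronglyMeasurable
  · filter_upwards [hev] with c hc
    refine Filter.Eventually.of_forall fun t _ => ?_
    have hD := B.D_mem c hc t
    rw [Real.norm_eq_abs]
    unfold GG
    rw [abs_mul]
    refine mul_le_mul_of_nonneg_left ?_ (abs_nonneg _)
    have b1 : |Ap (D c t)| ≤ 2 := by
      unfold Ap
      have := Real.sin_le_one (4 * D c t)
      have := Real.neg_one_le_sin (4 * D c t)
      have := Real.pi_lt_four
      rw [abs_le]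
      constructor <;> linarith [hD.1, hD.2]
    have b2 : |2 * sin (D c t) ^ 3 * cos (D c t)| ≤ 2 := by
      rw [abs_mul, abs_mul, abs_pow]
      have c1 := Real.abs_sin_le_one (D c t)
      have c2 := Real.abs_cos_le_one (D c t)
      have c3 : |sin (D c t)| ^ 3 ≤ 1 := pow_le_one₀ (abs_nonneg _) c1
      have c4 : |(2:ℝ)| = 2 := by norm_num
      rw [c4]
      nlinarith [abs_nonneg (sin (D c t)), abs_nonneg (cos (D c t)),
        pow_nonneg (abs_nonneg (sin (D c t))) 3]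
    calc |Ap (D c t) * (h1 t ^ 2 - h t * h2 t) - 2 * sin (D c t) ^ 3 * cos (D c t) * h1 t ^ 2|
        ≤ |Ap (D c t) * (h1 t ^ 2 - h t * h2 t)| +
          |2 * sin (D c t) ^ 3 * cos (D c t) * h1 t ^ 2| := abs_sub _ _
      _ = |Ap (D c t)| * |h1 t ^ 2 - h t * h2 t| +
          |2 * sin (D c t) ^ 3 * cos (D c t)| * |h1 t ^ 2| := by rw [abs_mul, abs_mul]
      _ ≤ _ := add_le_add (mul_le_mul_of_nonneg_right b1 (abs_nonneg _))
          (mul_le_mul_of_nonneg_right b2 (abs_nonneg _))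
  · exact (by fun_prop : Continuous fun t => |h t * (h t + h2 t)| *
      (2 * |h1 t ^ 2 - h t * h2 t| + 2 * |h1 t ^ 2|)).intervalIntegrable _ _
  · refine Filter.Eventually.of_forall fun t _ => ?_
    have hGc : Continuous fun δ => GG h h1 h2 δ t :=
      continuous_iff_continuousAt.2 fun δ => (hasDerivAt_GG h h1 h2 δ t).continuousAt
    have hG0 : GG h h1 h2 0 t = 0 := by
      unfold GG Ap
      simp
    have := (hGc.tendsto 0).comp (B.D_lim t)
    rw [hG0] at this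
    exact this

lemma EE_sub (B : Bir h h1 h2 P D) {c₁ c₂ : ℝ} (k1 : 0 < c₁) (k12 : c₁ ≤ c₂) (k2 : c₂ < 1) :
    EE h h1 h2 D c₂ - EE h h1 h2 D c₁ =
      ∫ c in c₁..c₂, (∫ t in (0:ℝ)..(2 * π), gg h h1 h2 (D c t) t * pd1 D (c, t)) := by
  have m1 : c₁ ∈ Ioo (0:ℝ) 1 := ⟨k1, by linarith⟩
  have m2 : c₂ ∈ Ioo (0:ℝ) 1 := ⟨by linarith, k2⟩
  rw [B.double_integral k1 k12 k2, intervalIntegral.integral_sub
    ((B.continuous_GG m2).intervalIntegrable _ _) ((B.continuous_GG m1).intervalIntegrable _ _)]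
  rfl

lemma EE_mono (B : Bir h h1 h2 P D) {c₁ c₂ : ℝ} (k1 : 0 < c₁) (k12 : c₁ ≤ c₂) (k2 : c₂ < 1) :
    EE h h1 h2 D c₁ ≤ EE h h1 h2 D c₂ := by
  have := B.EE_sub k1 k12 k2
  have : 0 ≤ ∫ c in c₁..c₂, (∫ t in (0:ℝ)..(2 * π), gg h h1 h2 (D c t) t * pd1 D (c, t)) := by
    refine intervalIntegral.integral_nonneg k12 fun x hx => ?_
    exact B.leaf_integral_nonneg ⟨by linarith [hx.1], by linarith [hx.2]⟩
  linarith

lemma EE_nonneg (B : Bir h h1 h2 P D) {c : ℝ} (hc : c ∈ Ioo (0:ℝ) 1) :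
    0 ≤ EE h h1 h2 D c := by
  refine le_of_tendsto B.tendsto_EE ?_
  filter_upwards [Ioo_mem_nhdsGT hc.1] with x hx
  exact B.EE_mono hx.1 hx.2.le hc.2

theorem hopf_nonneg (B : Bir h h1 h2 P D) {c₀ : ℝ} (hc₀ : c₀ ∈ Ioo (0:ℝ) 1) :
    0 ≤ ∫ t in (0:ℝ)..(2 * π), h t * (h t + h2 t) *
      (Ap (D c₀ t) * (h1 t ^ 2 - h t * h2 t) -
        2 * sin (D c₀ t) ^ 3 * cos (D c₀ t) * h1 t ^ 2) :=
  B.EE_nonneg hc₀

theorem hopf_eq_zero (B : Bir h h1 h2 P D) {c₀ : ℝ} (hc₀ : c₀ ∈ Ioo (0:ℝ) 1)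
    (h0 : ∫ t in (0:ℝ)..(2 * π), h t * (h t + h2 t) *
      (Ap (D c₀ t) * (h1 t ^ 2 - h t * h2 t) -
        2 * sin (D c₀ t) ^ 3 * cos (D c₀ t) * h1 t ^ 2) = 0) {c : ℝ} (hc : c ∈ Ioc 0 c₀) (t : ℝ) :
    h1 t * sin (D c t) = h t * cos (D c t) * deriv (D c) t := by
  have hE0 : EE h h1 h2 D c₀ = 0 := h0
  have hc' : c ∈ Ioo (0:ℝ) 1 := ⟨hc.1, hc.2.trans_lt hc₀.2⟩
  -- the leaf integral vanishes
  have hl : ∫ t in (0:ℝ)..(2 * π), gg h h1 h2 (D c t) t * pd1 D (c, t) = 0 := by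
    have hc1 : 0 < c / 2 := by linarith [hc.1]
    have hc2 : c / 2 ≤ c₀ := by linarith [hc.2, hc.1]
    obtain ⟨f, hf, hfe⟩ := B.exists_continuous_extension hc1 hc2 hc₀.2
    have e0 : EE h h1 h2 D (c / 2) = 0 :=
      le_antisymm (by rw [← hE0]; exact B.EE_mono hc1 hc2 hc₀.2)
        (B.EE_nonneg ⟨hc1, by linarith [hc₀.2]⟩)
    have e1 : ∫ t in (c / 2)..c₀, f t = 0 := by
      have e2 := B.EE_sub hc1 hc2 hc₀.2
      rw [e0, hE0, sub_zero] at e2
      rw [e2]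
      refine intervalIntegral.integral_congr fun t ht => ?_
      rw [uIcc_of_le hc2] at ht
      exact hfe t ht
    by_contra hne
    have hpos : 0 < f c := by
      rw [hfe c ⟨by linarith [hc.1], hc.2⟩]
      exact lt_of_le_of_ne (B.leaf_integral_nonneg hc') (Ne.symm hne)
    have : 0 < ∫ t in (c / 2)..c₀, f t := by
      refine intervalIntegral.integral_pos (by linarith [hc.1, hc.2]) hf.continuousOn ?_ ?_
      · intro t ht
        rw [hfe t ⟨ht.1.le, ht.2⟩]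
        exact B.leaf_integral_nonneg ⟨by linarith [ht.1], by linarith [ht.2, hc₀.2]⟩
      · exact ⟨c, ⟨by linarith [hc.1], hc.2⟩, hpos⟩
    rw [e1] at this
    exact lt_irrefl _ this
  rw [B.leaf_integral hc'] at hl
  have hz : ∀ t ∈ Icc 0 (2 * π), dfct h h1 h2 D c t = 0 := by
    intro t ht
    by_contra hne
    have hpos : 0 < dfct h h1 h2 D c t :=
      lt_of_le_of_ne (B.dfct_nonneg hc' t) (Ne.symm hne)
    have : 0 < ∫ t in (0:ℝ)..(2 * π), dfct h h1 h2 D c t :=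
      intervalIntegral.integral_pos (by positivity) (B.continuous_dfct hc').continuousOn
        (fun t _ => B.dfct_nonneg hc' t) ⟨t, ht, hpos⟩
    rw [hl] at this
    exact lt_irrefl _ this
  have hper : Function.Periodic (dfct h h1 h2 D c) (2 * π) := B.dfct_per hc'
  obtain ⟨s, hs, hse⟩ := hper.exists_mem_Ico₀ (by positivity) t
  have h3 : dfct h h1 h2 D c t = 0 := by
    rw [hse]
    exact hz s ⟨hs.1, hs.2.le⟩
  obtain ⟨p1, p2⟩ := B.slopes hc' t
  have p3 := B.pd1_D_pos hc' t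
  have p4 := B.sin_pos' hc' t
  have p5 := B.rho_pos t
  rw [(B.hDt hc' t).deriv]
  unfold dfct at h3
  rcases div_eq_zero_iff.1 h3 with h6 | h6
  · rcases mul_eq_zero.1 h6 with h7 | h7
    · exact absurd h7 (by positivity)
    · have h8 := pow_eq_zero_iff (two_ne_zero) |>.1 h7
      linarith
  · exact absurd h6 (mul_pos p2 p1).ne'

end Bir

end Pool.Agent.MP_ae5b4e_an.Birk
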