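import Mathlib
import Pool.Agent.Lib.MP_ae5b4e_an.Birk.Defs

/-!
MP_ae5b4e_an, theorem on `3`-periodic leaves: the leaf of `3`-periodic triangles.
-/

noncomputable section

namespace Pool.Agent.MP_ae5b4e_an.Birk

open Real Set Filter Topology MeasureTheory ComplexConjugate

/-- A closed family of triangles, in the parameter `s` = sum of the three normal angles.
`d t` is the half angle at the vertex with normal angle `t`; the vertices of the triangle `s` have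
the normal angles `Ψ s, Ψ (s + 2 π), Ψ (s + 4 π)`, and `Y = Ψ'`. -/
structure Leaf3 (d d' Ψ Y : ℝ → ℝ) : Prop where
  d_deriv : ∀ t, HasDerivAt d (d' t) t
  d'_cont : Continuous d'
  d_per : ∀ t, d (t + 2 * π) = d t
  d_mem : ∀ t, d t ∈ Ioo 0 (π / 2)
  Ψ_deriv : ∀ s, HasDerivAt Ψ (Y s) s
  Y_cont : Continuous Y
  Y_pos : ∀ s, 0 < Y s
  link : ∀ s, Ψ (s + 2 * π) - Ψ s = d (Ψ s) + d (Ψ (s + 2 * π))
  turn : ∀ s, Ψ (s + 6 * π) = Ψ s + 2 * π
  sum : ∀ s, Ψ s + Ψ (s + 2 * π) + Ψ (s + 4 * π) = s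
  surj : Function.Surjective Ψ

/-- The direction `exp (2 i Ψ s)`. -/
def EE2 (Ψ : ℝ → ℝ) (s : ℝ) : ℂ := Complex.exp (2 * Ψ s * Complex.I)

/-- The energy `∑ A' / y * μ²` of the velocity `V` on the triangle `s`. -/
def Kin (d Ψ Y : ℝ → ℝ) (s : ℝ) (V : ℂ) : ℝ :=
  Ap (d (Ψ s)) / Y s * (V * conj (EE2 Ψ s)).im ^ 2 +
  Ap (d (Ψ (s + 2 * π))) / Y (s + 2 * π) * (V * conj (EE2 Ψ (s + 2 * π))).im ^ 2 +
  Ap (d (Ψ (s + 4 * π))) / Y (s + 4 * π) * (V * conj (EE2 Ψ (s + 4 * π))).im ^ 2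

end Pool.Agent.MP_ae5b4e_an.Birk
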