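import Mathlib
import Pool.Agent.Lib.MP_ae5b4e_an.Birk.Cone

/-!
MP_ae5b4e_an, theorem on `3`-periodic leaves: the pointwise inequality between the energy, the
area form and the gauge.
-/

noncomputable section

namespace Pool.Agent.MP_ae5b4e_an.Birk

open Complex ComplexConjugate

variable {x y z : ℝ} {E1 E2 E3 : ℂ}

lemma al_pos (hx : 0 < x) (hy : 0 < y) (hz : 0 < z) : 0 < al x y z := by
  unfold al
  positivity

lemma SS_eq (he : x * y + y * z + z * x = 1) (hx : 0 < x) (hy : 0 < y) (hz : 0 < z)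
    (n1 n2 n3 : ℝ) :
    SS x y z n1 n2 n3 =
      al y z x * al z x y * (2 * x / (1 + x ^ 2)) ^ 2 * ((n2 + n3) / 2) +
      al z x y * al x y z * (2 * y / (1 + y ^ 2)) ^ 2 * ((n1 + n3) / 2) +
      al x y z * al y z x * (2 * z / (1 + z ^ 2)) ^ 2 * ((n1 + n2) / 2) := by
  have h1z : 1 + z ^ 2 = (x + z) * (y + z) := by linear_combination (-1) * he
  have h1y : 1 + y ^ 2 = (x + y) * (y + z) := by linear_combination (-1) * he
  have h1x : 1 + x ^ 2 = (x + y) * (x + z) := by linear_combination (-1) * he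
  unfold SS DD al
  have he2 : y * z + z * x + x * y = 1 := by linarith
  have he3 : z * x + x * y + y * z = 1 := by linarith
  rw [he, he2, he3, h1x, h1y, h1z]
  obtain ⟨s1, hs1⟩ : ∃ s, s = y + z := ⟨_, rfl⟩
  obtain ⟨s2, hs2⟩ : ∃ s, s = x + z := ⟨_, rfl⟩
  obtain ⟨s3, hs3⟩ : ∃ s, s = x + y := ⟨_, rfl⟩
  have hc1 : z + x = s2 := by rw [hs2]; ring
  have hc2 : y + x = s3 := by rw [hs3]; ring
  have hc3 : z + y = s1 := by rw [hs1]; ring
  rw [hc1, hc2, hc3, ← hs1, ← hs2, ← hs3]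
  have p1 : s1 ≠ 0 := by rw [hs1]; positivity
  have p2 : s2 ≠ 0 := by rw [hs2]; positivity
  have p3 : s3 ≠ 0 := by rw [hs3]; positivity
  clear hs1 hs2 hs3 hc1 hc2 hc3
  field_simp
  ring

lemma im_cross (a V A B : ℂ) :
    (a * conj A).im * (V * conj B).im - (a * conj B).im * (V * conj A).im =
      -(om a V * (A * conj B).im) := by
  simp only [om_def, mul_im, conj_re, conj_im]
  ring

lemma Shape.im12 (S : Shape x y z E1 E2 E3) : (E1 * conj E2).im = 2 * z / (1 + z ^ 2) := by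
  have : E1 * conj E2 = fz z := by
    have h := S.e12
    have h2 := S.n2
    linear_combination (conj E2) * h + (fz z) * h2
  rw [this, fz]
  simp only [add_im, ofReal_im, mul_im, ofReal_re, I_im, I_re, mul_one, mul_zero, add_zero,
    zero_add]

lemma Shape.im23 (S : Shape x y z E1 E2 E3) : (E2 * conj E3).im = 2 * x / (1 + x ^ 2) :=
  S.cyc.im12

lemma Shape.im31 (S : Shape x y z E1 E2 E3) : (E3 * conj E1).im = 2 * y / (1 + y ^ 2) :=
  S.cyc.cyc.im12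

lemma cauchy3 {m1 m2 m3 a1 a2 a3 v1 v2 v3 s1 s2 s3 o : ℝ} (h1 : 0 ≤ m1) (h2 : 0 ≤ m2)
    (h3 : 0 ≤ m3) (h12 : a1 * v2 - a2 * v1 = -(o * s3)) (h23 : a2 * v3 - a3 * v2 = -(o * s1))
    (h31 : a3 * v1 - a1 * v3 = -(o * s2)) :
    o ^ 2 * (m2 * m3 * s1 ^ 2 + m3 * m1 * s2 ^ 2 + m1 * m2 * s3 ^ 2) ≤
      (m1 * a1 ^ 2 + m2 * a2 ^ 2 + m3 * a3 ^ 2) * (m1 * v1 ^ 2 + m2 * v2 ^ 2 + m3 * v3 ^ 2) := by
  have key : (m1 * a1 ^ 2 + m2 * a2 ^ 2 + m3 * a3 ^ 2) *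
      (m1 * v1 ^ 2 + m2 * v2 ^ 2 + m3 * v3 ^ 2) -
      o ^ 2 * (m2 * m3 * s1 ^ 2 + m3 * m1 * s2 ^ 2 + m1 * m2 * s3 ^ 2) =
      (m1 * a1 * v1 + m2 * a2 * v2 + m3 * a3 * v3) ^ 2 := by
    have e1 : o ^ 2 * s3 ^ 2 = (a1 * v2 - a2 * v1) ^ 2 := by rw [h12]; ring
    have e2 : o ^ 2 * s1 ^ 2 = (a2 * v3 - a3 * v2) ^ 2 := by rw [h23]; ring
    have e3 : o ^ 2 * s2 ^ 2 = (a3 * v1 - a1 * v3) ^ 2 := by rw [h31]; ring
    linear_combination (-(m1 * m2)) * e1 - (m2 * m3) * e2 - (m3 * m1) * e3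
  nlinarith [sq_nonneg (m1 * a1 * v1 + m2 * a2 * v2 + m3 * a3 * v3)]

lemma amgm_aux {u v o : ℝ} (hu : 0 ≤ u) (hv : 0 ≤ v) (h : 4 * o ^ 2 ≤ u * v) :
    4 * o ≤ u + v := by
  by_contra hc
  push Not at hc
  have h1 : (u + v) ^ 2 < (4 * o) ^ 2 := by
    apply pow_lt_pow_left₀ hc (by positivity) (by norm_num)
  nlinarith [sq_nonneg (u - v)]

/-- The pointwise inequality between energy, area form and gauge. -/
theorem pointwise_alg (S : Shape x y z E1 E2 E3) {w1 w2 w3 : ℝ} (h1 : 0 ≤ w1) (h2 : 0 ≤ w2)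
    (h3 : 0 ≤ w3) {n1 n2 n3 : ℝ} (hn1 : n1 = w2 * (z * (x + y)) + w3 * (y * (x + z)))
    (hn2 : n2 = w1 * (z * (x + y)) + w3 * (x * (y + z)))
    (hn3 : n3 = w1 * (y * (x + z)) + w2 * (x * (y + z)))
    {y1 y2 y3 : ℝ} (hy1 : y1 = (n2 + n3) / 2) (hy2 : y2 = (n1 + n3) / 2)
    (hy3 : y3 = (n1 + n2) / 2) (p1 : 0 < y1) (p2 : 0 < y2) (p3 : 0 < y3)
    {A1 A2 A3 : ℝ} (hA1 : Real.pi / 4 * al x y z ≤ A1) (hA2 : Real.pi / 4 * al y z x ≤ A2)
    (hA3 : Real.pi / 4 * al z x y ≤ A3) (a V : ℂ) :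
    Real.pi * om a V * (1 - ‖zeta x y z E1 E2 E3‖ ^ 2) ≤
      (1 - ‖zeta x y z E1 E2 E3‖ ^ 2) *
        (A1 / y1 * (V * conj E1).im ^ 2 + A2 / y2 * (V * conj E2).im ^ 2 +
          A3 / y3 * (V * conj E3).im ^ 2) +
      Real.pi / 2 * Rf x y z n1 n2 n3 E1 E2 E3 a := by
  have hx := S.hx
  have hy := S.hy
  have hz := S.hz
  have hB := Bf_nonneg S h1 h2 h3 hn1 hn2 hn3 a
  have hk : 1 - ‖zeta x y z E1 E2 E3‖ ^ 2 = kap x y z := zeta_norm S
  have hkp : 0 < kap x y z := by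
    unfold kap
    have := EE_pos hx hy hz
    positivity
  rw [hk]
  have a1 := al_pos hx hy hz
  have a2 := al_pos hy hz hx
  have a3 := al_pos hz hx hy
  have hSS := SS_eq S.he hx hy hz n1 n2 n3
  rw [← hy1, ← hy2, ← hy3, ← S.im12, ← S.im23, ← S.im31] at hSS
  have c12 := im_cross a V E1 E2
  have c23 := im_cross a V E2 E3
  have c31 := im_cross a V E3 E1
  have i1 : 0 < (E2 * conj E3).im := by rw [S.im23]; positivity
  have i2 : 0 < (E3 * conj E1).im := by rw [S.im31]; positivity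
  have i3 : 0 < (E1 * conj E2).im := by rw [S.im12]; positivity
  unfold Bf at hB
  rw [← hy1, ← hy2, ← hy3] at hB
  generalize Rf x y z n1 n2 n3 E1 E2 E3 a = R at hB ⊢
  generalize al x y z = α1 at *
  generalize al y z x = α2 at *
  generalize al z x y = α3 at *
  generalize kap x y z = κ at *
  generalize SS x y z n1 n2 n3 = T at *
  generalize (a * conj E1).im = u1 at *
  generalize (a * conj E2).im = u2 at *
  generalize (a * conj E3).im = u3 at *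
  generalize (V * conj E1).im = v1 at *
  generalize (V * conj E2).im = v2 at *
  generalize (V * conj E3).im = v3 at *
  generalize (E2 * conj E3).im = s1 at *
  generalize (E3 * conj E1).im = s2 at *
  generalize (E1 * conj E2).im = s3 at *
  generalize om a V = o at *
  have hT : 0 < T := by rw [hSS]; positivity
  have hpi := Real.pi_pos
  -- replace the weights by the lower bounds
  have hmono : Real.pi / 4 * (α1 / y1 * v1 ^ 2 + α2 / y2 * v2 ^ 2 + α3 / y3 * v3 ^ 2) ≤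
      A1 / y1 * v1 ^ 2 + A2 / y2 * v2 ^ 2 + A3 / y3 * v3 ^ 2 := by
    have e1 : Real.pi / 4 * (α1 / y1 * v1 ^ 2) ≤ A1 / y1 * v1 ^ 2 := by
      have : Real.pi / 4 * (α1 / y1 * v1 ^ 2) = (Real.pi / 4 * α1) / y1 * v1 ^ 2 := by ring
      rw [this]
      gcongr
    have e2 : Real.pi / 4 * (α2 / y2 * v2 ^ 2) ≤ A2 / y2 * v2 ^ 2 := by
      have : Real.pi / 4 * (α2 / y2 * v2 ^ 2) = (Real.pi / 4 * α2) / y2 * v2 ^ 2 := by ring
      rw [this]
      gcongr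
    have e3 : Real.pi / 4 * (α3 / y3 * v3 ^ 2) ≤ A3 / y3 * v3 ^ 2 := by
      have : Real.pi / 4 * (α3 / y3 * v3 ^ 2) = (Real.pi / 4 * α3) / y3 * v3 ^ 2 := by ring
      rw [this]
      gcongr
    linarith
  obtain ⟨Sv, hSv⟩ : ∃ S, S = α1 / y1 * v1 ^ 2 + α2 / y2 * v2 ^ 2 + α3 / y3 * v3 ^ 2 := ⟨_, rfl⟩
  obtain ⟨Sa, hSa⟩ : ∃ S, S = α1 / y1 * u1 ^ 2 + α2 / y2 * u2 ^ 2 + α3 / y3 * u3 ^ 2 := ⟨_, rfl⟩
  have hSv0 : 0 ≤ Sv := by rw [hSv]; positivity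
  have hSa0 : 0 ≤ Sa := by rw [hSa]; positivity
  have hCS : o ^ 2 * (T / (y1 * y2 * y3)) ≤ Sa * Sv := by
    have h := cauchy3 (m1 := α1 / y1) (m2 := α2 / y2) (m3 := α3 / y3) (by positivity)
      (by positivity) (by positivity) c12 c23 c31
    rw [← hSv, ← hSa] at h
    refine le_trans (le_of_eq ?_) h
    rw [hSS]
    field_simp
  have hB2 : 2 * κ * (y1 * y2 * y3) * Sa ≤ R * T := by
    have : κ * (y1 * y2 * y3) * Sa = κ * (α1 * (y2 * y3) * u1 ^ 2 + α2 * (y3 * y1) * u2 ^ 2 +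
        α3 * (y1 * y2) * u3 ^ 2) := by
      rw [hSa]
      field_simp
    have h8 : 2 * κ * (y1 * y2 * y3) * Sa = 2 * (κ * (y1 * y2 * y3) * Sa) := by ring
    rw [h8, this]
    linarith
  have hR : 2 * κ * (Sa * (y1 * y2 * y3) / T) ≤ R := by
    have : 2 * κ * (Sa * (y1 * y2 * y3) / T) = (2 * κ * (y1 * y2 * y3) * Sa) / T := by ring
    rw [this, div_le_iff₀ hT]
    exact hB2
  have h4 : 4 * o ≤ Sv + 4 * (Sa * (y1 * y2 * y3) / T) := by
    refine amgm_aux hSv0 (by positivity) ?_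
    have : Sv * (4 * (Sa * (y1 * y2 * y3) / T)) = 4 * ((Sa * Sv) * (y1 * y2 * y3) / T) := by ring
    rw [this]
    have h5 : o ^ 2 ≤ (Sa * Sv) * (y1 * y2 * y3) / T := by
      rw [le_div_iff₀ hT]
      calc o ^ 2 * T = o ^ 2 * (T / (y1 * y2 * y3)) * (y1 * y2 * y3) := by field_simp
        _ ≤ Sa * Sv * (y1 * y2 * y3) := by gcongr
    linarith
  have h6 : κ * (4 * o) ≤ κ * (Sv + 4 * (Sa * (y1 * y2 * y3) / T)) := by gcongr
  rw [← hSv] at hmono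
  have h7 : κ * (Real.pi / 4 * Sv) ≤
      κ * (A1 / y1 * v1 ^ 2 + A2 / y2 * v2 ^ 2 + A3 / y3 * v3 ^ 2) := by gcongr
  have h8 : Real.pi * (κ * (4 * o)) ≤ Real.pi * (κ * (Sv + 4 * (Sa * (y1 * y2 * y3) / T))) :=
    mul_le_mul_of_nonneg_left h6 hpi.le
  have h9 : Real.pi * (2 * κ * (Sa * (y1 * y2 * y3) / T)) ≤ Real.pi * R :=
    mul_le_mul_of_nonneg_left hR hpi.le
  linarith

end Pool.Agent.MP_ae5b4e_an.Birk
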