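import Mathlib
import Pool.Agent.Lib.MP_ae5b4e_an.Birk.Leaf3
import Pool.Agent.Lib.MP_ae5b4e_an.Birk.Beltrami
import Pool.Agent.Lib.MP_ae5b4e_an.Birk.Pointwise

/-!
MP_ae5b4e_an, theorem on `3`-periodic leaves: the gauge on the family of triangles.
-/

noncomputable section

namespace Pool.Agent.MP_ae5b4e_an.Birk

open Real Set Filter Topology MeasureTheory ComplexConjugate

variable {d d' Ψ Y : ℝ → ℝ}

/-- Cotangent of the half angle at the time `s`. -/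
def ct (d Ψ : ℝ → ℝ) (s : ℝ) : ℝ := cos (d (Ψ s)) / sin (d (Ψ s))

lemma Leaf3.sin_pos (L : Leaf3 d d' Ψ Y) (t : ℝ) : 0 < sin (d t) :=
  Real.sin_pos_of_pos_of_lt_pi (L.d_mem t).1 (by linarith [(L.d_mem t).2, pi_pos])

lemma Leaf3.cos_pos (L : Leaf3 d d' Ψ Y) (t : ℝ) : 0 < cos (d t) :=
  Real.cos_pos_of_mem_Ioo ⟨by linarith [(L.d_mem t).1, pi_pos], (L.d_mem t).2⟩

lemma Leaf3.ct_pos (L : Leaf3 d d' Ψ Y) (s : ℝ) : 0 < ct d Ψ s :=
  div_pos (L.cos_pos _) (L.sin_pos _)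

lemma Leaf3.link2 (L : Leaf3 d d' Ψ Y) (s : ℝ) :
    Ψ (s + 4 * π) - Ψ (s + 2 * π) = d (Ψ (s + 2 * π)) + d (Ψ (s + 4 * π)) := by
  have h := L.link (s + 2 * π)
  rw [show s + 2 * π + 2 * π = s + 4 * π by ring] at h
  exact h

lemma Leaf3.link3 (L : Leaf3 d d' Ψ Y) (s : ℝ) :
    Ψ s + 2 * π - Ψ (s + 4 * π) = d (Ψ (s + 4 * π)) + d (Ψ s) := by
  have h := L.link (s + 4 * π)
  rw [show s + 4 * π + 2 * π = s + 6 * π by ring, L.turn, L.d_per] at h
  exact h

lemma Leaf3.d_sum (L : Leaf3 d d' Ψ Y) (s : ℝ) :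
    d (Ψ s) + d (Ψ (s + 2 * π)) + d (Ψ (s + 4 * π)) = π := by
  have h1 := L.link s
  have h2 := L.link2 s
  have h3 := L.link3 s
  linarith

lemma fz_cot {t : ℝ} (ht : sin t ≠ 0) : fz (cos t / sin t) = Complex.exp (2 * t * Complex.I) := by
  have h : sin t ^ 2 + cos t ^ 2 = 1 := sin_sq_add_cos_sq t
  have h1 : ((cos t / sin t) ^ 2 - 1) / (1 + (cos t / sin t) ^ 2) = cos (2 * t) := by
    have h3 : 1 + (cos t / sin t) ^ 2 = 1 / sin t ^ 2 := by
      field_simp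
      linarith
    rw [h3, cos_two_mul]
    field_simp
    linear_combination (-1) * h
  have h2 : 2 * (cos t / sin t) / (1 + (cos t / sin t) ^ 2) = sin (2 * t) := by
    have h3 : 1 + (cos t / sin t) ^ 2 = 1 / sin t ^ 2 := by
      field_simp
      linarith
    rw [h3, sin_two_mul]
    field_simp
  unfold fz
  rw [h1, h2]
  have : (2 * (t : ℂ) * Complex.I) = ((2 * t : ℝ) : ℂ) * Complex.I := by push_cast; ring
  rw [this, Complex.exp_mul_I]
  push_cast
  ring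

lemma cot_identity {A B C : ℝ} (hA : sin A ≠ 0) (hB : sin B ≠ 0) (hC : sin C ≠ 0)
    (h : A + B + C = π) :
    cos A / sin A * (cos B / sin B) + cos B / sin B * (cos C / sin C) +
      cos C / sin C * (cos A / sin A) = 1 := by
  have hC' : C = π - (A + B) := by linarith
  have h1 : sin C = sin A * cos B + cos A * sin B := by rw [hC', sin_pi_sub, sin_add]
  have h2 : cos C = -(cos A * cos B - sin A * sin B) := by rw [hC', cos_pi_sub, cos_add]
  have key : cos A * cos B * sin C + cos B * cos C * sin A + cos C * cos A * sin B =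
      sin A * sin B * sin C := by
    rw [h1, h2]
    have hA2 := sin_sq_add_cos_sq A
    have hB2 := sin_sq_add_cos_sq B
    ring
  field_simp
  linear_combination key

lemma EE2_mul_conj (Ψ : ℝ → ℝ) (s : ℝ) : EE2 Ψ s * conj (EE2 Ψ s) = 1 := by
  unfold EE2
  rw [← Complex.exp_conj, ← Complex.exp_add]
  simp only [map_mul, Complex.conj_ofReal, Complex.conj_I, map_ofNat]
  rw [show 2 * (Ψ s : ℂ) * Complex.I + 2 * (Ψ s : ℂ) * -Complex.I = 0 by ring, Complex.exp_zero]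

lemma exp_rel {a b c : ℝ} (h : a = b + c - π) :
    Complex.exp (2 * a * Complex.I) =
      Complex.exp (2 * b * Complex.I) * Complex.exp (2 * c * Complex.I) := by
  rw [← Complex.exp_add, h]
  push_cast
  rw [show 2 * ((b : ℂ) + c - π) * Complex.I = (2 * b * Complex.I + 2 * c * Complex.I) -
    2 * π * Complex.I by ring, Complex.exp_sub, Complex.exp_two_pi_mul_I, div_one]

lemma exp_rel' {a b c : ℝ} (h : a = b + c + π) :
    Complex.exp (2 * a * Complex.I) =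
      Complex.exp (2 * b * Complex.I) * Complex.exp (2 * c * Complex.I) := by
  rw [← Complex.exp_add, h]
  push_cast
  rw [show 2 * ((b : ℂ) + c + π) * Complex.I = (2 * b * Complex.I + 2 * c * Complex.I) +
    2 * π * Complex.I by ring, Complex.exp_add _ (2 * π * Complex.I), Complex.exp_two_pi_mul_I,
    mul_one]

/-- The shape of the triangle `s`. -/
lemma Leaf3.shape (L : Leaf3 d d' Ψ Y) (s : ℝ) :
    Shape (ct d Ψ s) (ct d Ψ (s + 2 * π)) (ct d Ψ (s + 4 * π)) (EE2 Ψ s) (EE2 Ψ (s + 2 * π))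
      (EE2 Ψ (s + 4 * π)) where
  hx := L.ct_pos s
  hy := L.ct_pos _
  hz := L.ct_pos _
  he := cot_identity (L.sin_pos _).ne' (L.sin_pos _).ne' (L.sin_pos _).ne' (L.d_sum s)
  n1 := EE2_mul_conj Ψ s
  e12 := by
    unfold ct EE2
    rw [fz_cot (L.sin_pos _).ne']
    exact exp_rel (by linarith [L.link s, L.d_sum s])
  e23 := by
    unfold ct EE2
    rw [fz_cot (L.sin_pos _).ne']
    exact exp_rel (by linarith [L.link2 s, L.d_sum s])
  e31 := by
    unfold ct EE2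
    rw [fz_cot (L.sin_pos _).ne']
    exact exp_rel' (by linarith [L.link s, L.link2 s, L.d_sum s])

lemma Leaf3.Y_sum (L : Leaf3 d d' Ψ Y) (s : ℝ) : Y s + Y (s + 2 * π) + Y (s + 4 * π) = 1 := by
  have h1 : HasDerivAt (fun s => Ψ s + Ψ (s + 2 * π) + Ψ (s + 4 * π))
      (Y s + Y (s + 2 * π) + Y (s + 4 * π)) s :=
    ((L.Ψ_deriv s).add ((L.Ψ_deriv (s + 2 * π)).comp_add_const s (2 * π))).add
      ((L.Ψ_deriv (s + 4 * π)).comp_add_const s (4 * π))
  have h2 : (fun s => Ψ s + Ψ (s + 2 * π) + Ψ (s + 4 * π)) = fun s => s := funext L.sum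
  rw [h2] at h1
  exact h1.unique (hasDerivAt_id s)

lemma Leaf3.dot (L : Leaf3 d d' Ψ Y) (s : ℝ) :
    HasDerivAt (fun s => d (Ψ s)) (d' (Ψ s) * Y s) s :=
  (L.d_deriv (Ψ s)).comp s (L.Ψ_deriv s)

lemma Leaf3.link_dot (L : Leaf3 d d' Ψ Y) (s : ℝ) :
    Y (s + 2 * π) - Y s = d' (Ψ s) * Y s + d' (Ψ (s + 2 * π)) * Y (s + 2 * π) := by
  have h1 : HasDerivAt (fun s => Ψ (s + 2 * π) - Ψ s) (Y (s + 2 * π) - Y s) s :=
    ((L.Ψ_deriv (s + 2 * π)).comp_add_const s (2 * π)).sub (L.Ψ_deriv s)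
  have h2 : HasDerivAt (fun s => d (Ψ s) + d (Ψ (s + 2 * π)))
      (d' (Ψ s) * Y s + d' (Ψ (s + 2 * π)) * Y (s + 2 * π)) s :=
    (L.dot s).add ((L.dot (s + 2 * π)).comp_add_const s (2 * π))
  have h3 : (fun s => Ψ (s + 2 * π) - Ψ s) = fun s => d (Ψ s) + d (Ψ (s + 2 * π)) :=
    funext L.link
  rw [h3] at h1
  exact h1.unique h2

lemma Leaf3.Y_per (L : Leaf3 d d' Ψ Y) (s : ℝ) : Y (s + 6 * π) = Y s := by
  have h1 : HasDerivAt (fun s => Ψ (s + 6 * π)) (Y (s + 6 * π)) s :=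
    (L.Ψ_deriv (s + 6 * π)).comp_add_const s (6 * π)
  have h2 : (fun s => Ψ (s + 6 * π)) = fun s => Ψ s + 2 * π := funext L.turn
  rw [h2] at h1
  exact h1.unique ((L.Ψ_deriv s).add_const _)

lemma Leaf3.d'_per (L : Leaf3 d d' Ψ Y) (t : ℝ) : d' (t + 2 * π) = d' t := by
  have h1 : HasDerivAt (fun t => d (t + 2 * π)) (d' (t + 2 * π)) t :=
    (L.d_deriv (t + 2 * π)).comp_add_const t (2 * π)
  have h2 : (fun t => d (t + 2 * π)) = d := funext L.d_per
  rw [h2] at h1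
  exact h1.unique (L.d_deriv t)

/-- The derivatives of the half angles. -/
lemma Leaf3.dots (L : Leaf3 d d' Ψ Y) (s : ℝ) :
    d' (Ψ s) * Y s = Y (s + 2 * π) - Y (s + 4 * π) ∧
      d' (Ψ (s + 2 * π)) * Y (s + 2 * π) = Y (s + 4 * π) - Y s ∧
      d' (Ψ (s + 4 * π)) * Y (s + 4 * π) = Y s - Y (s + 2 * π) := by
  have h1 := L.link_dot s
  have h2 := L.link_dot (s + 2 * π)
  have h3 := L.link_dot (s + 4 * π)
  rw [show s + 2 * π + 2 * π = s + 4 * π by ring] at h2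
  rw [show s + 4 * π + 2 * π = s + 6 * π by ring, L.turn, L.Y_per, L.d'_per] at h3
  refine ⟨?_, ?_, ?_⟩ <;> linarith

end Pool.Agent.MP_ae5b4e_an.Birk
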