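import Mathlib
import Pool.Agent.Lib.MP_ae5b4e_an.Birk.GaugeApp

/-!
MP_ae5b4e_an, theorem on `3`-periodic leaves: the gauge on the family of triangles, second part.
-/

noncomputable section

namespace Pool.Agent.MP_ae5b4e_an.Birk

open Real Set Filter Topology MeasureTheory ComplexConjugate

variable {d d' Ψ Y : ℝ → ℝ}

lemma ct_hasDerivAt (L : Leaf3 d d' Ψ Y) (s : ℝ) :
    HasDerivAt (ct d Ψ) (-(1 + ct d Ψ s ^ 2) * (d' (Ψ s) * Y s)) s := by
  have h1 := L.dot s
  have h2 := (h1.cos).div (h1.sin) (L.sin_pos (Ψ s)).ne'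
  have h3 : HasDerivAt (ct d Ψ) _ s := h2
  refine h3.congr_deriv ?_
  have hs := (L.sin_pos (Ψ s)).ne'
  unfold ct
  field_simp
  ring

lemma EE2_hasDerivAt (L : Leaf3 d d' Ψ Y) (s : ℝ) :
    HasDerivAt (EE2 Ψ) (2 * (Y s : ℂ) * Complex.I * EE2 Ψ s) s := by
  have h1 : HasDerivAt (fun s => (Ψ s : ℂ)) (Y s : ℂ) s := (L.Ψ_deriv s).ofReal_comp
  have h2 : HasDerivAt (fun s => 2 * (Ψ s : ℂ) * Complex.I) (2 * (Y s : ℂ) * Complex.I) s :=
    (h1.const_mul 2).mul_const Complex.I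
  have h3 : HasDerivAt (EE2 Ψ) _ s := h2.cexp
  refine h3.congr_deriv ?_
  unfold EE2
  ring

lemma ct_per (L : Leaf3 d d' Ψ Y) (s : ℝ) : ct d Ψ (s + 6 * π) = ct d Ψ s := by
  unfold ct
  rw [L.turn, L.d_per]

lemma EE2_per (L : Leaf3 d d' Ψ Y) (s : ℝ) : EE2 Ψ (s + 6 * π) = EE2 Ψ s := by
  unfold EE2
  rw [L.turn]
  push_cast
  rw [show 2 * ((Ψ s : ℂ) + 2 * π) * Complex.I = 2 * (Ψ s : ℂ) * Complex.I +
    (2 * π * Complex.I + 2 * π * Complex.I) by ring, Complex.exp_add, Complex.exp_add,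
    Complex.exp_two_pi_mul_I]
  ring

/-- The gauge along the family. -/
def ze (d Ψ : ℝ → ℝ) (s : ℝ) : ℂ :=
  zeta (ct d Ψ s) (ct d Ψ (s + 2 * π)) (ct d Ψ (s + 4 * π)) (EE2 Ψ s) (EE2 Ψ (s + 2 * π))
    (EE2 Ψ (s + 4 * π))

/-- Its derivative. -/
def zed (d Ψ Y : ℝ → ℝ) (s : ℝ) : ℂ :=
  zetad (ct d Ψ s) (ct d Ψ (s + 2 * π)) (ct d Ψ (s + 4 * π)) (1 - 2 * Y s)
    (1 - 2 * Y (s + 2 * π)) (1 - 2 * Y (s + 4 * π)) (EE2 Ψ s) (EE2 Ψ (s + 2 * π))
    (EE2 Ψ (s + 4 * π))

lemma ze_per (L : Leaf3 d d' Ψ Y) (s : ℝ) : ze d Ψ (s + 2 * π) = ze d Ψ s := by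
  unfold ze
  rw [show s + 2 * π + 2 * π = s + 4 * π by ring, show s + 2 * π + 4 * π = s + 6 * π by ring,
    ct_per L, EE2_per L, zeta_cyc]

lemma ze_hasDerivAt (L : Leaf3 d d' Ψ Y) (s : ℝ) :
    HasDerivAt (ze d Ψ) (zed d Ψ Y s) s := by
  obtain ⟨e1, e2, e3⟩ := L.dots s
  have hY := L.Y_sum s
  have hx := (ct_hasDerivAt L s).ofReal_comp
  have hy := ((ct_hasDerivAt L (s + 2 * π)).comp_add_const s (2 * π)).ofReal_comp
  have hz := ((ct_hasDerivAt L (s + 4 * π)).comp_add_const s (4 * π)).ofReal_comp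
  have h1 := EE2_hasDerivAt L s
  have h2 := (EE2_hasDerivAt L (s + 2 * π)).comp_add_const s (2 * π)
  have h3 := (EE2_hasDerivAt L (s + 4 * π)).comp_add_const s (4 * π)
  rw [e1] at hx
  rw [e2] at hy
  rw [e3] at hz
  have hsum : ((ct d Ψ s : ℂ) + ct d Ψ (s + 2 * π) + ct d Ψ (s + 4 * π)) ≠ 0 := by
    have : (ct d Ψ s + ct d Ψ (s + 2 * π) + ct d Ψ (s + 4 * π) : ℝ) ≠ 0 := by
      have := L.ct_pos s
      have := L.ct_pos (s + 2 * π)
      have := L.ct_pos (s + 4 * π)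
      positivity
    exact_mod_cast this
  have hS := ((hx.mul (h2.mul h3)).add (hy.mul (h3.mul h1))).add (hz.mul (h1.mul h2))
  have hD := (hx.add hy).add hz
  have hq : HasDerivAt (ze d Ψ) _ s := hS.div hD hsum
  refine hq.congr_deriv ?_
  simp only [Pi.add_apply, Pi.mul_apply]
  unfold zed zetad zeta
  generalize ct d Ψ s = x at *
  generalize ct d Ψ (s + 2 * π) = y at *
  generalize ct d Ψ (s + 4 * π) = z at *
  generalize EE2 Ψ s = E1
  generalize EE2 Ψ (s + 2 * π) = E2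
  generalize EE2 Ψ (s + 4 * π) = E3
  have hY3 : Y (s + 4 * π) = 1 - Y s - Y (s + 2 * π) := by linarith
  rw [hY3]
  push_cast
  field_simp
  ring

lemma Leaf3.Ψ_cont (L : Leaf3 d d' Ψ Y) : Continuous Ψ :=
  continuous_iff_continuousAt.2 fun s => (L.Ψ_deriv s).continuousAt

lemma Leaf3.d_cont (L : Leaf3 d d' Ψ Y) : Continuous d :=
  continuous_iff_continuousAt.2 fun s => (L.d_deriv s).continuousAt

lemma zed_cont (L : Leaf3 d d' Ψ Y) : Continuous (zed d Ψ Y) := by
  have hct : Continuous (ct d Ψ) :=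
    continuous_iff_continuousAt.2 fun s => (ct_hasDerivAt L s).continuousAt
  have hE : Continuous (EE2 Ψ) :=
    continuous_iff_continuousAt.2 fun s => (EE2_hasDerivAt L s).continuousAt
  have hz : Continuous (ze d Ψ) :=
    continuous_iff_continuousAt.2 fun s => (ze_hasDerivAt L s).continuousAt
  have hY := L.Y_cont
  have t2 : Continuous fun s : ℝ => s + 2 * π := by fun_prop
  have t4 : Continuous fun s : ℝ => s + 4 * π := by fun_prop
  have c2 := hct.comp t2
  have c4 := hct.comp t4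
  have E2 := hE.comp t2
  have E4 := hE.comp t4
  have Y2 := hY.comp t2
  have Y4 := hY.comp t4
  simp only [Function.comp_def] at c2 c4 E2 E4 Y2 Y4
  have hz' : Continuous fun s => zeta (ct d Ψ s) (ct d Ψ (s + 2 * π)) (ct d Ψ (s + 4 * π))
    (EE2 Ψ s) (EE2 Ψ (s + 2 * π)) (EE2 Ψ (s + 4 * π)) := hz
  unfold zed zetad
  refine Continuous.div ?_ (by fun_prop) ?_
  · fun_prop
  · intro s
    have : (ct d Ψ s + ct d Ψ (s + 2 * π) + ct d Ψ (s + 4 * π) : ℝ) ≠ 0 := by
      have := L.ct_pos s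
      have := L.ct_pos (s + 2 * π)
      have := L.ct_pos (s + 4 * π)
      positivity
    exact_mod_cast this

/-- Algebra of the closing conditions. -/
lemma side_alg {k1 k2 k3 K1 K2 K3 A B C : ℝ} (hA : 0 < sin A) (hB : 0 < sin B) (hC : 0 < sin C)
    (h : A + B + C = π)
    (c12 : k1 * cos A + K1 * sin A = k2 * cos B - K2 * sin B)
    (c23 : k2 * cos B + K2 * sin B = k3 * cos C - K3 * sin C)
    (c31 : k3 * cos C + K3 * sin C = k1 * cos A - K1 * sin A) :
    (k2 * sin B + K2 * cos B) - (-k1 * sin A + K1 * cos A) =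
      cos C * (k1 * sin A + k2 * sin B + k3 * sin C) / (sin A * sin B) := by
  have hC' : C = π - (A + B) := by linarith
  have h1 : sin C = sin A * cos B + cos A * sin B := by rw [hC', sin_pi_sub, sin_add]
  have h2 : cos C = -(cos A * cos B - sin A * sin B) := by rw [hC', cos_pi_sub, cos_add]
  have e1 : K1 * sin A = k2 * cos B - k3 * cos C := by linarith
  have e2 : K2 * sin B = k3 * cos C - k1 * cos A := by linarith
  have e1' : K1 = (k2 * cos B - k3 * cos C) / sin A := by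
    rw [eq_div_iff hA.ne']; exact e1
  have e2' : K2 = (k3 * cos C - k1 * cos A) / sin B := by
    rw [eq_div_iff hB.ne']; exact e2
  rw [e1', e2']
  have hA2 := sin_sq_add_cos_sq A
  have hB2 := sin_sq_add_cos_sq B
  have h1' : sin A * cos B + cos A * sin B = sin C := h1.symm
  have h2' : sin A * sin B - cos A * cos B = cos C := by rw [h2]; ring
  field_simp
  have key : k2 * sin B * sin A * sin B + (k3 * cos C - k1 * cos A) * cos B * sin A -
      (-(k1 * sin A * sin A * sin B) + (k2 * cos B - k3 * cos C) * cos A * sin B) =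
      cos C * (k1 * sin A + k2 * sin B + k3 * sin C) := by
    have t1 : k1 * (sin A * sin A * sin B - cos A * cos B * sin A) = k1 * (sin A * cos C) := by
      rw [← h2']; ring
    have t2 : k2 * (sin B * sin A * sin B - cos B * cos A * sin B) = k2 * (sin B * cos C) := by
      rw [← h2']; ring
    have t3 : k3 * cos C * (cos B * sin A + cos A * sin B) = k3 * cos C * sin C := by
      rw [← h1']; ring
    linear_combination t1 + t2 + t3
  linear_combination key

end Pool.Agent.MP_ae5b4e_an.Birk
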