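import Mathlib
import Pool.Agent.Lib.MP_ae5b4e_an.Birk.GaugeApp2

/-!
MP_ae5b4e_an, theorem on `3`-periodic leaves: the velocities of the triangles lie in the cone.
-/

noncomputable section

namespace Pool.Agent.MP_ae5b4e_an.Birk

open Real Set Filter Topology MeasureTheory ComplexConjugate

variable {d d' Ψ Y : ℝ → ℝ}

/-- The closing condition for a support function on the family of triangles. -/
def Closes (d Ψ k k1 : ℝ → ℝ) : Prop :=
  ∀ s, k (Ψ s) * cos (d (Ψ s)) + k1 (Ψ s) * sin (d (Ψ s)) =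
    k (Ψ (s + 2 * π)) * cos (d (Ψ (s + 2 * π))) - k1 (Ψ (s + 2 * π)) * sin (d (Ψ (s + 2 * π)))

lemma side_dot (L : Leaf3 d d' Ψ Y) {h h1 h2 : ℝ → ℝ} (hh : ∀ t, HasDerivAt h (h1 t) t)
    (hh1 : ∀ t, HasDerivAt h1 (h2 t) t) (hper : ∀ t, h (t + 2 * π) = h t)
    (h1per : ∀ t, h1 (t + 2 * π) = h1 t) (hc : Closes d Ψ h h1) (s : ℝ) :
    (h (Ψ s) + h2 (Ψ s)) * Y s * sin (d (Ψ s)) +
      (h (Ψ (s + 2 * π)) + h2 (Ψ (s + 2 * π))) * Y (s + 2 * π) * sin (d (Ψ (s + 2 * π))) =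
    (1 - 2 * Y (s + 4 * π)) * (cos (d (Ψ (s + 4 * π))) *
      (h (Ψ s) * sin (d (Ψ s)) + h (Ψ (s + 2 * π)) * sin (d (Ψ (s + 2 * π))) +
        h (Ψ (s + 4 * π)) * sin (d (Ψ (s + 4 * π)))) /
      (sin (d (Ψ s)) * sin (d (Ψ (s + 2 * π))))) := by
  have c12 := hc s
  have c23 := hc (s + 2 * π)
  have c31 := hc (s + 4 * π)
  rw [show s + 2 * π + 2 * π = s + 4 * π by ring] at c23
  rw [show s + 4 * π + 2 * π = s + 6 * π by ring, L.turn, hper, h1per, L.d_per] at c31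
  have halg := side_alg (L.sin_pos (Ψ s)) (L.sin_pos (Ψ (s + 2 * π)))
    (L.sin_pos (Ψ (s + 4 * π))) (L.d_sum s) c12 c23 c31
  rw [← halg]
  obtain ⟨e1, e2, e3⟩ := L.dots s
  have hY := L.Y_sum s
  have hd := L.dot s
  have hd2 := L.dot (s + 2 * π)
  have a1 : HasDerivAt (fun s => h (Ψ s)) (h1 (Ψ s) * Y s) s := (hh _).comp s (L.Ψ_deriv s)
  have b1 : HasDerivAt (fun s => h1 (Ψ s)) (h2 (Ψ s) * Y s) s := (hh1 _).comp s (L.Ψ_deriv s)
  have a2 : HasDerivAt (fun s => h (Ψ s)) (h1 (Ψ (s + 2 * π)) * Y (s + 2 * π)) (s + 2 * π) :=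
    (hh _).comp (s + 2 * π) (L.Ψ_deriv (s + 2 * π))
  have b2 : HasDerivAt (fun s => h1 (Ψ s)) (h2 (Ψ (s + 2 * π)) * Y (s + 2 * π)) (s + 2 * π) :=
    (hh1 _).comp (s + 2 * π) (L.Ψ_deriv (s + 2 * π))
  have p1 : HasDerivAt (fun s => h (Ψ s) * cos (d (Ψ s)) + h1 (Ψ s) * sin (d (Ψ s))) _ s :=
    (a1.mul hd.cos).add (b1.mul hd.sin)
  have p2 : HasDerivAt (fun s => h (Ψ s) * cos (d (Ψ s)) - h1 (Ψ s) * sin (d (Ψ s))) _
      (s + 2 * π) := (a2.mul hd2.cos).sub (b2.mul hd2.sin)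
  have p3 := p2.comp_add_const s (2 * π)
  have hfun : (fun s => h (Ψ s) * cos (d (Ψ s)) + h1 (Ψ s) * sin (d (Ψ s))) =
      fun s => h (Ψ (s + 2 * π)) * cos (d (Ψ (s + 2 * π))) -
        h1 (Ψ (s + 2 * π)) * sin (d (Ψ (s + 2 * π))) := funext hc
  rw [hfun] at p1
  have key := p1.unique p3
  have hY3 : Y (s + 4 * π) = 1 - Y s - Y (s + 2 * π) := by linarith
  rw [e1, e2, hY3] at key
  rw [hY3]
  linear_combination key

/-- The velocities lie in the cone. -/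
theorem Leaf3.weights (L : Leaf3 d d' Ψ Y) {h h1 h2 : ℝ → ℝ}
    (hh : ∀ t, HasDerivAt h (h1 t) t)
    (hh1 : ∀ t, HasDerivAt h1 (h2 t) t) (hρ : ∀ t, 0 < h t + h2 t)
    (hper : ∀ t, h (t + 2 * π) = h t)
    (h1per : ∀ t, h1 (t + 2 * π) = h1 t) (hc : Closes d Ψ h h1) (s : ℝ) :
    ∃ w1 w2 w3 : ℝ, 0 ≤ w1 ∧ 0 ≤ w2 ∧ 0 ≤ w3 ∧
      1 - 2 * Y s = w2 * (ct d Ψ (s + 4 * π) * (ct d Ψ s + ct d Ψ (s + 2 * π))) +
        w3 * (ct d Ψ (s + 2 * π) * (ct d Ψ s + ct d Ψ (s + 4 * π))) ∧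
      1 - 2 * Y (s + 2 * π) = w1 * (ct d Ψ (s + 4 * π) * (ct d Ψ s + ct d Ψ (s + 2 * π))) +
        w3 * (ct d Ψ s * (ct d Ψ (s + 2 * π) + ct d Ψ (s + 4 * π))) ∧
      1 - 2 * Y (s + 4 * π) = w1 * (ct d Ψ (s + 2 * π) * (ct d Ψ s + ct d Ψ (s + 4 * π))) +
        w2 * (ct d Ψ s * (ct d Ψ (s + 2 * π) + ct d Ψ (s + 4 * π))) := by
  have hh2per : ∀ t, h2 (t + 2 * π) = h2 t := fun t => by
    have h1' : HasDerivAt (fun t => h1 (t + 2 * π)) (h2 (t + 2 * π)) t :=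
      (hh1 (t + 2 * π)).comp_add_const t (2 * π)
    have h2' : (fun t => h1 (t + 2 * π)) = h1 := funext h1per
    rw [h2'] at h1'
    exact h1'.unique (hh1 t)
  have q3 := side_dot L hh hh1 hper h1per hc s
  have q1 := side_dot L hh hh1 hper h1per hc (s + 2 * π)
  have q2 := side_dot L hh hh1 hper h1per hc (s + 4 * π)
  rw [show s + 2 * π + 2 * π = s + 4 * π by ring, show s + 2 * π + 4 * π = s + 6 * π by ring,
    L.turn, L.Y_per, hper, L.d_per] at q1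
  rw [show s + 4 * π + 2 * π = s + 6 * π by ring,
    show s + 4 * π + 4 * π = (s + 2 * π) + 6 * π by ring,
    L.turn, L.turn, L.Y_per, L.Y_per, hper, hper, hh2per, L.d_per, L.d_per] at q2
  have s1 := L.sin_pos (Ψ s)
  have s2 := L.sin_pos (Ψ (s + 2 * π))
  have s3 := L.sin_pos (Ψ (s + 4 * π))
  have c1 := L.cos_pos (Ψ s)
  have c2 := L.cos_pos (Ψ (s + 2 * π))
  have c3 := L.cos_pos (Ψ (s + 4 * π))
  have hdsum := L.d_sum s
  have W1 := mul_pos (hρ (Ψ s)) (L.Y_pos s)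
  have W2 := mul_pos (hρ (Ψ (s + 2 * π))) (L.Y_pos (s + 2 * π))
  have W3 := mul_pos (hρ (Ψ (s + 4 * π))) (L.Y_pos (s + 4 * π))
  have hY := L.Y_sum s
  have t1 : sin (d (Ψ s)) = sin (d (Ψ (s + 2 * π))) * cos (d (Ψ (s + 4 * π))) +
      cos (d (Ψ (s + 2 * π))) * sin (d (Ψ (s + 4 * π))) := by
    rw [show d (Ψ s) = π - (d (Ψ (s + 2 * π)) + d (Ψ (s + 4 * π))) by linarith, sin_pi_sub,
      sin_add]
  have t2 : sin (d (Ψ (s + 2 * π))) = sin (d (Ψ s)) * cos (d (Ψ (s + 4 * π))) +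
      cos (d (Ψ s)) * sin (d (Ψ (s + 4 * π))) := by
    rw [show d (Ψ (s + 2 * π)) = π - (d (Ψ s) + d (Ψ (s + 4 * π))) by linarith, sin_pi_sub,
      sin_add]
  have t3 : sin (d (Ψ (s + 4 * π))) = sin (d (Ψ s)) * cos (d (Ψ (s + 2 * π))) +
      cos (d (Ψ s)) * sin (d (Ψ (s + 2 * π))) := by
    rw [show d (Ψ (s + 4 * π)) = π - (d (Ψ s) + d (Ψ (s + 2 * π))) by linarith, sin_pi_sub,
      sin_add]
  unfold ct
  generalize (h (Ψ s) + h2 (Ψ s)) * Y s = V1 at *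
  generalize (h (Ψ (s + 2 * π)) + h2 (Ψ (s + 2 * π))) * Y (s + 2 * π) = V2 at *
  generalize (h (Ψ (s + 4 * π)) + h2 (Ψ (s + 4 * π))) * Y (s + 4 * π) = V3 at *
  obtain ⟨M, hM⟩ : ∃ M, M = h (Ψ s) * sin (d (Ψ s)) +
    h (Ψ (s + 2 * π)) * sin (d (Ψ (s + 2 * π))) +
    h (Ψ (s + 4 * π)) * sin (d (Ψ (s + 4 * π))) := ⟨_, rfl⟩
  rw [← hM] at q3
  rw [show h (Ψ (s + 2 * π)) * sin (d (Ψ (s + 2 * π))) +
    h (Ψ (s + 4 * π)) * sin (d (Ψ (s + 4 * π))) + h (Ψ s) * sin (d (Ψ s)) = M by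
      rw [hM]; ring] at q1
  rw [show h (Ψ (s + 4 * π)) * sin (d (Ψ (s + 4 * π))) + h (Ψ s) * sin (d (Ψ s)) +
    h (Ψ (s + 2 * π)) * sin (d (Ψ (s + 2 * π))) = M by rw [hM]; ring] at q2
  generalize sin (d (Ψ s)) = sA at *
  generalize sin (d (Ψ (s + 2 * π))) = sB at *
  generalize sin (d (Ψ (s + 4 * π))) = sC at *
  generalize cos (d (Ψ s)) = cA at *
  generalize cos (d (Ψ (s + 2 * π))) = cB at *
  generalize cos (d (Ψ (s + 4 * π))) = cC at *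
  generalize Y s = y1 at *
  generalize Y (s + 2 * π) = y2 at *
  generalize Y (s + 4 * π) = y3 at *
  -- `M > 0`
  have m1 : 0 < (1 - 2 * y3) * M := by
    have h3 : 0 < V1 * sA + V2 * sB := by positivity
    rw [q3] at h3
    have h4 : (1 - 2 * y3) * (cC * M / (sA * sB)) = (1 - 2 * y3) * M * (cC / (sA * sB)) := by ring
    rw [h4] at h3
    exact pos_of_mul_pos_left h3 (by positivity)
  have m2 : 0 < (1 - 2 * y1) * M := by
    have h3 : 0 < V2 * sB + V3 * sC := by positivity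
    rw [q1] at h3
    have h4 : (1 - 2 * y1) * (cA * M / (sB * sC)) = (1 - 2 * y1) * M * (cA / (sB * sC)) := by ring
    rw [h4] at h3
    exact pos_of_mul_pos_left h3 (by positivity)
  have m3 : 0 < (1 - 2 * y2) * M := by
    have h3 : 0 < V3 * sC + V1 * sA := by positivity
    rw [q2] at h3
    have h4 : (1 - 2 * y2) * (cB * M / (sC * sA)) = (1 - 2 * y2) * M * (cB / (sC * sA)) := by ring
    rw [h4] at h3
    exact pos_of_mul_pos_left h3 (by positivity)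
  have hMpos : 0 < M := by
    have : M = (1 - 2 * y3) * M + (1 - 2 * y1) * M + (1 - 2 * y2) * M := by
      linear_combination (2 * M) * hY
    rw [this]
    positivity
  have r1 : cA / sA * (cB / sB + cC / sC) = cA / (sB * sC) := by
    field_simp
    linarith
  have r2 : cB / sB * (cA / sA + cC / sC) = cB / (sA * sC) := by
    field_simp
    linarith
  have r3 : cC / sC * (cA / sA + cB / sB) = cC / (sA * sB) := by
    field_simp
    linarith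
  rw [r1, r2, r3]
  have n1 : 1 - 2 * y1 = sB * sC * (V2 * sB + V3 * sC) / (cA * M) := by
    rw [q1]
    field_simp
  have n2 : 1 - 2 * y2 = sC * sA * (V3 * sC + V1 * sA) / (cB * M) := by
    rw [q2]
    field_simp
  have n3 : 1 - 2 * y3 = sA * sB * (V1 * sA + V2 * sB) / (cC * M) := by
    rw [q3]
    field_simp
  refine ⟨V1 * (sA * sB * sC) * sA ^ 2 / (cB * cC * M), V2 * (sA * sB * sC) * sB ^ 2 / (cA * cC * M),
    V3 * (sA * sB * sC) * sC ^ 2 / (cA * cB * M), by positivity, by positivity, by positivity,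
    ?_, ?_, ?_⟩
  · rw [n1]
    field_simp
  · rw [n2]
    field_simp
    ring
  · rw [n3]
    field_simp

end Pool.Agent.MP_ae5b4e_an.Birk
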