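import Mathlib
import Pool.Agent.Lib.MP_ae5b4e_an.Birk.Hopf
import Pool.Agent.Lib.MP_ae5b4e_an.Birk.Weights

/-!
MP_ae5b4e_an, theorem on `3`-periodic leaves: change of the origin.
-/

noncomputable section

namespace Pool.Agent.MP_ae5b4e_an.Birk

open Real Set Filter Topology MeasureTheory ComplexConjugate

/-- The support function of the point `(o1, o2)`. -/
def gO (o1 o2 t : ℝ) : ℝ := o1 * cos t + o2 * sin t

/-- Its derivative. -/
def gO1 (o1 o2 t : ℝ) : ℝ := -(o1 * sin t) + o2 * cos t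

lemma gO_hasDerivAt (o1 o2 t : ℝ) : HasDerivAt (gO o1 o2) (gO1 o1 o2 t) t := by
  have h : HasDerivAt (fun t => o1 * cos t + o2 * sin t) (o1 * (-sin t) + o2 * cos t) t :=
    ((hasDerivAt_cos t).const_mul o1).add ((hasDerivAt_sin t).const_mul o2)
  have h' : HasDerivAt (gO o1 o2) _ t := h
  refine h'.congr_deriv ?_
  unfold gO1
  ring

lemma gO1_hasDerivAt (o1 o2 t : ℝ) : HasDerivAt (gO1 o1 o2) (-gO o1 o2 t) t := by
  have h : HasDerivAt (fun t => -(o1 * sin t) + o2 * cos t) (-(o1 * cos t) + o2 * (-sin t)) t :=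
    ((hasDerivAt_sin t).const_mul o1).neg.add ((hasDerivAt_cos t).const_mul o2)
  have h' : HasDerivAt (gO1 o1 o2) _ t := h
  refine h'.congr_deriv ?_
  unfold gO
  ring

lemma gO_cont (o1 o2 : ℝ) : Continuous (gO o1 o2) := by unfold gO; fun_prop

lemma gO1_cont (o1 o2 : ℝ) : Continuous (gO1 o1 o2) := by unfold gO1; fun_prop

lemma gO_per (o1 o2 t : ℝ) : gO o1 o2 (t + 2 * π) = gO o1 o2 t := by
  unfold gO
  rw [cos_add_two_pi, sin_add_two_pi]

lemma gO1_per (o1 o2 t : ℝ) : gO1 o1 o2 (t + 2 * π) = gO1 o1 o2 t := by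
  unfold gO1
  rw [cos_add_two_pi, sin_add_two_pi]

lemma gO_add (o1 o2 t d : ℝ) : gO o1 o2 (t + d) = gO o1 o2 t * cos d + gO1 o1 o2 t * sin d := by
  unfold gO gO1
  rw [cos_add, sin_add]
  ring

lemma gO_sub (o1 o2 t d : ℝ) : gO o1 o2 (t - d) = gO o1 o2 t * cos d - gO1 o1 o2 t * sin d := by
  unfold gO gO1
  rw [cos_sub, sin_sub]
  ring

variable {h h1 h2 : ℝ → ℝ} {P D : ℝ → ℝ → ℝ}

/-- Change of the origin. -/
lemma Bir.translate (B : Bir h h1 h2 P D) (o1 o2 : ℝ) :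
    Bir (fun t => h t - gO o1 o2 t) (fun t => h1 t - gO1 o1 o2 t) (fun t => h2 t + gO o1 o2 t)
      (fun c t => P c t - gO o1 o2 t) D where
  h_deriv t := (B.h_deriv t).sub (gO_hasDerivAt o1 o2 t)
  h1_deriv t := by
    have := (B.h1_deriv t).sub (gO1_hasDerivAt o1 o2 t)
    rw [sub_neg_eq_add] at this
    exact this
  h2_cont := B.h2_cont.add (gO_cont o1 o2)
  h_per t := by rw [B.h_per, gO_per]
  rho_pos t := by
    have := B.rho_pos t
    linarith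
  P_smooth := by
    refine B.P_smooth.sub ?_
    have : ContDiff ℝ 1 (fun q : ℝ × ℝ => gO o1 o2 q.2) := by
      unfold gO
      fun_prop
    exact this.contDiffOn
  D_smooth := B.D_smooth
  P_per c hc t := by rw [B.P_per c hc, gO_per]
  D_per := B.D_per
  D_mem := B.D_mem
  D_mono := B.D_mono
  D_lim := B.D_lim
  eq_plus c hc t := by
    rw [B.eq_plus c hc t, gO_add]
    ring
  eq_minus c hc t := by
    rw [B.eq_minus c hc t, gO_sub]
    ring

lemma Bir.closes (B : Bir h h1 h2 P D) {c₀ : ℝ} (hc₀ : c₀ ∈ Ioo (0:ℝ) 1) {d' Ψ Y : ℝ → ℝ}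
    (L : Leaf3 (D c₀) d' Ψ Y) : Closes (D c₀) Ψ h h1 := by
  intro s
  rw [← B.eq_plus c₀ hc₀, ← B.eq_minus c₀ hc₀]
  congr 1
  linarith [L.link s]

lemma gO_closes {d d' Ψ Y : ℝ → ℝ} (L : Leaf3 d d' Ψ Y) (o1 o2 : ℝ) :
    Closes d Ψ (gO o1 o2) (gO1 o1 o2) := by
  intro s
  rw [← gO_add, ← gO_sub]
  congr 1
  linarith [L.link s]

lemma gO_mul_gO1 (o1 o2 : ℝ) (Ψ : ℝ → ℝ) (s : ℝ) :
    ((((1 / 2 : ℝ) : ℂ) * ((o1 : ℂ) + o2 * Complex.I) ^ 2) * conj (EE2 Ψ s)).im =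
      gO o1 o2 (Ψ s) * gO1 o1 o2 (Ψ s) := by
  have h1 : EE2 Ψ s = (((cos (2 * Ψ s) : ℝ) : ℂ) + ((sin (2 * Ψ s) : ℝ) : ℂ) * Complex.I) := by
    unfold EE2
    have : 2 * (Ψ s : ℂ) * Complex.I = ((2 * Ψ s : ℝ) : ℂ) * Complex.I := by push_cast; ring
    rw [this, Complex.exp_mul_I]
    push_cast
    ring
  have h2 : (((1 / 2 : ℝ) : ℂ) * ((o1 : ℂ) + o2 * Complex.I) ^ 2) =
      (((o1 ^ 2 - o2 ^ 2) / 2 : ℝ) : ℂ) + ((o1 * o2 : ℝ) : ℂ) * Complex.I := by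
    push_cast
    linear_combination (((o2 : ℂ) ^ 2) / 2) * Complex.I_sq
  rw [h1, h2]
  simp only [map_add, map_mul, Complex.conj_ofReal, Complex.conj_I, Complex.mul_im,
    Complex.add_re, Complex.add_im, Complex.ofReal_re, Complex.ofReal_im, Complex.mul_re,
    Complex.I_re, Complex.I_im, Complex.neg_re, Complex.neg_im]
  unfold gO gO1
  rw [cos_two_mul, sin_two_mul]
  have := sin_sq_add_cos_sq (Ψ s)
  linear_combination (o1 * o2) * this

end Pool.Agent.MP_ae5b4e_an.Birk
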