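import Mathlib
import Pool.Agent.Lib.MP_ae5b4e_an.Birk.Translate

/-!
MP_ae5b4e_an, theorem on `3`-periodic leaves: support functions `k` with `k k'` a trigonometric
monomial are those of ellipses.
-/

noncomputable section

namespace Pool.Agent.MP_ae5b4e_an.Birk

open Real Set Filter Topology MeasureTheory ComplexConjugate

/-- If `(h g)' = A cos 2t + B sin 2t` for a nonzero `g = o1 cos + o2 sin`, then `h + h''` is
not positive. -/
lemma no_first_order {h h1 h2 : ℝ → ℝ} (hh : ∀ t, HasDerivAt h (h1 t) t)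
    (hh1 : ∀ t, HasDerivAt h1 (h2 t) t) (hρ : ∀ t, 0 < h t + h2 t) {o1 o2 A B : ℝ}
    (ho : 0 < o1 ^ 2 + o2 ^ 2)
    (hAB : ∀ t, h1 t * gO o1 o2 t + h t * gO1 o1 o2 t = A * cos (2 * t) + B * sin (2 * t)) :
    False := by
  -- primitive
  have hN : ∀ t, HasDerivAt (fun t => h t * gO o1 o2 t - (A / 2 * sin (2 * t) -
      B / 2 * cos (2 * t))) 0 t := by
    intro t
    have e1 : HasDerivAt (fun t : ℝ => 2 * t) 2 t := by
      simpa using (hasDerivAt_id t).const_mul (2:ℝ)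
    have e2 : HasDerivAt (fun t => sin (2 * t)) (cos (2 * t) * 2) t := e1.sin
    have e3 : HasDerivAt (fun t => cos (2 * t)) (-sin (2 * t) * 2) t := e1.cos
    have e4 := ((hh t).mul (gO_hasDerivAt o1 o2 t)).sub
      ((e2.const_mul (A / 2)).sub (e3.const_mul (B / 2)))
    refine e4.congr_deriv ?_
    linear_combination hAB t
  have hconst : ∀ t, h t * gO o1 o2 t - (A / 2 * sin (2 * t) - B / 2 * cos (2 * t)) =
      h 0 * gO o1 o2 0 - (A / 2 * sin (2 * 0) - B / 2 * cos (2 * 0)) := fun t =>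
    is_const_of_deriv_eq_zero (fun x => (hN x).differentiableAt) (fun x => (hN x).deriv) t 0
  obtain ⟨X, hX⟩ : ∃ X, X = h 0 * gO o1 o2 0 - (A / 2 * sin (2 * 0) - B / 2 * cos (2 * 0)) :=
    ⟨_, rfl⟩
  rw [← hX] at hconst
  have hN2 : ∀ t, h t * gO o1 o2 t = (X - B / 2) * cos t ^ 2 + A * (sin t * cos t) +
      (X + B / 2) * sin t ^ 2 := by
    intro t
    have e1 := hconst t
    rw [sin_two_mul, cos_two_mul] at e1
    have := sin_sq_add_cos_sq t
    linear_combination e1 + (-X - B / 2) * this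
  -- a zero of `g`
  obtain ⟨t0, ht0⟩ : ∃ t0 : ℝ, (o1 = √(o1 ^ 2 + o2 ^ 2) * sin t0 ∧ -o2 = √(o1 ^ 2 + o2 ^ 2) * cos t0) := by
    obtain ⟨z, hz⟩ : ∃ z : ℂ, z = ⟨-o2, o1⟩ := ⟨_, rfl⟩
    have hz0 : ‖z‖ = √(o1 ^ 2 + o2 ^ 2) := by
      rw [hz, Complex.norm_def, Complex.normSq_mk]
      congr 1
      ring
    refine ⟨Complex.arg z, ?_, ?_⟩
    · rw [← hz0, Complex.norm_mul_sin_arg, hz]
    · rw [← hz0, Complex.norm_mul_cos_arg, hz]
  obtain ⟨R, hR⟩ : ∃ R, R = √(o1 ^ 2 + o2 ^ 2) := ⟨_, rfl⟩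
  rw [← hR] at ht0
  have hRpos : 0 < R := by rw [hR]; exact sqrt_pos.2 ho
  have hR2 : R ^ 2 = o1 ^ 2 + o2 ^ 2 := by rw [hR]; exact sq_sqrt ho.le
  have hg0 : gO o1 o2 t0 = 0 := by
    unfold gO
    have e1 := ht0.1
    have e2 := ht0.2
    have e3 : R * (o1 * cos t0 + o2 * sin t0) = 0 := by
      linear_combination o1 * (-e2) - o2 * e1
    exact (mul_eq_zero.1 e3).resolve_left hRpos.ne'
  have hrel : (X - B / 2) * o2 ^ 2 - A * (o1 * o2) + (X + B / 2) * o1 ^ 2 = 0 := by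
    have e1 := hN2 t0
    rw [hg0, mul_zero] at e1
    have e2 := ht0.1
    have e3 := ht0.2
    have e4 : o2 = -(R * cos t0) := by linarith
    rw [e2, e4]
    linear_combination (-R ^ 2) * e1
  -- the linear factor
  obtain ⟨m1, hm1⟩ : ∃ m1, m1 = (o1 * ((X - B / 2) - (X + B / 2)) + o2 * A) / R ^ 2 := ⟨_, rfl⟩
  obtain ⟨m2, hm2⟩ : ∃ m2, m2 = (o2 * ((X + B / 2) - (X - B / 2)) + o1 * A) / R ^ 2 := ⟨_, rfl⟩
  have f1 : o1 * m1 = X - B / 2 := by
    rw [hm1, hR2]
    field_simp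
    linear_combination (-2 : ℝ) * hrel
  have f2 : o2 * m2 = X + B / 2 := by
    rw [hm2, hR2]
    field_simp
    linear_combination (-2 : ℝ) * hrel
  have f3 : o1 * m2 + o2 * m1 = A := by
    rw [hm1, hm2, hR2]
    field_simp
    ring
  have hw : ∀ t, gO o1 o2 t * (h t - gO m1 m2 t) = 0 := by
    intro t
    have e1 := hN2 t
    rw [← f1, ← f2, ← f3] at e1
    unfold gO at e1 ⊢
    linear_combination e1
  -- differentiate
  have hw1 : ∀ t, gO1 o1 o2 t * (h t - gO m1 m2 t) + gO o1 o2 t * (h1 t - gO1 m1 m2 t) = 0 := by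
    intro t
    have e1 := (gO_hasDerivAt o1 o2 t).mul ((hh t).sub (gO_hasDerivAt m1 m2 t))
    have e2 : (fun t => gO o1 o2 t * (h t - gO m1 m2 t)) = fun _ => 0 := funext hw
    have e3 : HasDerivAt (fun t => gO o1 o2 t * (h t - gO m1 m2 t)) _ t := e1
    rw [e2] at e3
    exact e3.unique (hasDerivAt_const t 0)
  have hw2 : ∀ t, 2 * gO1 o1 o2 t * (h1 t - gO1 m1 m2 t) - gO o1 o2 t * (h t - gO m1 m2 t) +
      gO o1 o2 t * (h2 t + gO m1 m2 t) = 0 := by
    intro t
    have e1 := ((gO1_hasDerivAt o1 o2 t).mul ((hh t).sub (gO_hasDerivAt m1 m2 t))).add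
      ((gO_hasDerivAt o1 o2 t).mul ((hh1 t).sub (gO1_hasDerivAt m1 m2 t)))
    have e2 : (fun t => gO1 o1 o2 t * (h t - gO m1 m2 t) + gO o1 o2 t * (h1 t - gO1 m1 m2 t)) =
      fun _ => 0 := funext hw1
    have e3 : HasDerivAt (fun t => gO1 o1 o2 t * (h t - gO m1 m2 t) +
      gO o1 o2 t * (h1 t - gO1 m1 m2 t)) _ t := e1
    rw [e2] at e3
    have e4 := e3.unique (hasDerivAt_const t 0)
    simp only [Pi.sub_apply] at e4
    linear_combination e4
  -- a point where `g` does not vanish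
  have hgne : gO o1 o2 (t0 + π / 2) ≠ 0 := by
    have e1 : gO o1 o2 (t0 + π / 2) = -R := by
      unfold gO
      rw [cos_add_pi_div_two, sin_add_pi_div_two]
      have e2 := ht0.1
      have e3 := ht0.2
      have e4 : R * (o1 * -sin t0 + o2 * cos t0) = R * (-R) := by
        have e5 := sin_sq_add_cos_sq t0
        have e6 : o2 = -(R * cos t0) := by linarith
        rw [e2, e6]
        linear_combination (-R ^ 2) * e5
      exact mul_left_cancel₀ hRpos.ne' e4
    rw [e1]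
    exact neg_ne_zero.2 hRpos.ne'
  have g0 := hw (t0 + π / 2)
  have g1 := hw1 (t0 + π / 2)
  have g2 := hw2 (t0 + π / 2)
  have k0 : h (t0 + π / 2) - gO m1 m2 (t0 + π / 2) = 0 := (mul_eq_zero.1 g0).resolve_left hgne
  rw [k0, mul_zero, zero_add] at g1
  have k1 := (mul_eq_zero.1 g1).resolve_left hgne
  rw [k0, k1, mul_zero, mul_zero, sub_zero, zero_add] at g2
  have k2 := (mul_eq_zero.1 g2).resolve_left hgne
  have := hρ (t0 + π / 2)
  linarith

/-- A support function with `k k'` equal to the derivative of `(C1 cos 2t + C2 sin 2t) / 2`. -/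
lemma conic_of_constant {k k1 k2 : ℝ → ℝ} (hk : ∀ t, HasDerivAt k (k1 t) t)
    (hk1 : ∀ t, HasDerivAt k1 (k2 t) t) (hk2c : Continuous k2) (kper : ∀ t, k (t + 2 * π) = k t)
    (k1per : ∀ t, k1 (t + 2 * π) = k1 t)
    (hρ : ∀ t, 0 < k t + k2 t) {C1 C2 : ℝ}
    (hC : ∀ t, k t * k1 t = C2 * cos (2 * t) - C1 * sin (2 * t)) :
    ∃ X : ℝ, (∀ t, 0 < k t) ∧ 0 < X ^ 2 - (C1 ^ 2 + C2 ^ 2) ∧
      ∀ t, k t ^ 2 = X + (C1 * cos (2 * t) + C2 * sin (2 * t)) := by
  have hd : ∀ t, HasDerivAt (fun t => k t ^ 2 - (C1 * cos (2 * t) + C2 * sin (2 * t))) 0 t := by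
    intro t
    have e1 : HasDerivAt (fun t : ℝ => 2 * t) 2 t := by
      simpa using (hasDerivAt_id t).const_mul (2:ℝ)
    have e2 : HasDerivAt (fun t => sin (2 * t)) (cos (2 * t) * 2) t := e1.sin
    have e3 : HasDerivAt (fun t => cos (2 * t)) (-sin (2 * t) * 2) t := e1.cos
    have e4 := ((hk t).pow 2).sub ((e3.const_mul C1).add (e2.const_mul C2))
    refine e4.congr_deriv ?_
    have := hC t
    simp only [Nat.cast_ofNat, Nat.add_one_sub_one, pow_one]
    linear_combination 2 * this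
  obtain ⟨X, hX⟩ : ∃ X, X = k 0 ^ 2 - (C1 * cos (2 * 0) + C2 * sin (2 * 0)) := ⟨_, rfl⟩
  have hN : ∀ t, k t ^ 2 = X + (C1 * cos (2 * t) + C2 * sin (2 * t)) := by
    intro t
    have e1 : k t ^ 2 - (C1 * cos (2 * t) + C2 * sin (2 * t)) =
      k 0 ^ 2 - (C1 * cos (2 * 0) + C2 * sin (2 * 0)) :=
      is_const_of_deriv_eq_zero (fun x => (hd x).differentiableAt) (fun x => (hd x).deriv) t 0
    linarith
  -- second derivative
  have hN2 : ∀ t, k1 t ^ 2 + k t * k2 t = -2 * (C1 * cos (2 * t) + C2 * sin (2 * t)) := by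
    intro t
    have e1 : HasDerivAt (fun t : ℝ => 2 * t) 2 t := by
      simpa using (hasDerivAt_id t).const_mul (2:ℝ)
    have e2 : HasDerivAt (fun t => sin (2 * t)) (cos (2 * t) * 2) t := e1.sin
    have e3 : HasDerivAt (fun t => cos (2 * t)) (-sin (2 * t) * 2) t := e1.cos
    have e4 : HasDerivAt (fun t => k t * k1 t) (k1 t * k1 t + k t * k2 t) t :=
      (hk t).mul (hk1 t)
    have e5 : HasDerivAt (fun t => C2 * cos (2 * t) - C1 * sin (2 * t))
      (C2 * (-sin (2 * t) * 2) - C1 * (cos (2 * t) * 2)) t :=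
      (e3.const_mul C2).sub (e2.const_mul C1)
    have e6 : (fun t => k t * k1 t) = fun t => C2 * cos (2 * t) - C1 * sin (2 * t) := funext hC
    rw [e6] at e4
    have e7 := e4.unique e5
    linear_combination e7
  have hcube : ∀ t, k t ^ 3 * (k t + k2 t) = X ^ 2 - (C1 ^ 2 + C2 ^ 2) := by
    intro t
    have e1 := hN t
    have e2 := hN2 t
    have e3 := hC t
    have e4 := sin_sq_add_cos_sq (2 * t)
    obtain ⟨N, hNN⟩ : ∃ N, N = k t ^ 2 := ⟨_, rfl⟩
    have e5 : k t ^ 3 * (k t + k2 t) = N ^ 2 + N * (k1 t ^ 2 + k t * k2 t) -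
        (k t * k1 t) ^ 2 := by rw [hNN]; ring
    rw [e5, e2, e3, hNN, e1]
    linear_combination (-(C1 ^ 2 + C2 ^ 2)) * e4
  have hkc : Continuous k := continuous_iff_continuousAt.2 fun s => (hk s).continuousAt
  have hint : 0 < ∫ t in (0:ℝ)..(2 * π), k t := by
    have e1 : ∫ t in (0:ℝ)..(2 * π), k2 t = 0 := by
      rw [intervalIntegral.integral_eq_sub_of_hasDerivAt (fun s _ => hk1 s)
        (hk2c.intervalIntegrable _ _)]
      have := k1per 0
      rw [zero_add] at this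
      rw [this, sub_self]
    have e2 : ∫ t in (0:ℝ)..(2 * π), (k t + k2 t) = ∫ t in (0:ℝ)..(2 * π), k t := by
      rw [intervalIntegral.integral_add (hkc.intervalIntegrable _ _)
        (hk2c.intervalIntegrable _ _), e1, add_zero]
    rw [← e2]
    exact intervalIntegral.intervalIntegral_pos_of_pos
      ((hkc.add hk2c).intervalIntegrable _ _) hρ (by positivity)
  have hpos : 0 < X ^ 2 - (C1 ^ 2 + C2 ^ 2) := by
    by_contra hneg
    push Not at hneg
    have hk0 : ∀ t, k t ≤ 0 := by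
      intro t
      by_contra hc
      push Not at hc
      have h1 := hcube t
      have h2 : 0 < k t ^ 3 * (k t + k2 t) := mul_pos (pow_pos hc 3) (hρ t)
      linarith
    have h3 : 0 ≤ ∫ t in (0:ℝ)..(2 * π), -k t :=
      intervalIntegral.integral_nonneg_of_forall (by positivity) fun t => by
        have := hk0 t
        linarith
    rw [intervalIntegral.integral_neg] at h3
    linarith
  refine ⟨X, ?_, hpos, hN⟩
  intro t
  have h1 := hcube t
  have h2 : 0 < k t ^ 3 := by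
    by_contra hc
    push Not at hc
    have h3 : k t ^ 3 * (k t + k2 t) ≤ 0 := mul_nonpos_of_nonpos_of_nonneg hc (hρ t).le
    linarith
  exact (Odd.pow_pos_iff (by decide)).1 h2

end Pool.Agent.MP_ae5b4e_an.Birk
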