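import Mathlib
import Pool.Agent.Lib.MP_ae5b4e_an.Birk.Leaf3

/-!
MP_ae5b4e_an, theorem on `3`-periodic leaves, module U: the closed curve attached to a function on
the `3`-periodic leaf.
-/

noncomputable section

namespace Pool.Agent.MP_ae5b4e_an.Birk

open Real Set Filter Topology MeasureTheory ComplexConjugate

variable {d d' Ψ Y : ℝ → ℝ}

theorem curve_EE2_eq (Ψ : ℝ → ℝ) (s : ℝ) :
    EE2 Ψ s = ((cos (2 * Ψ s) : ℝ) : ℂ) + ((sin (2 * Ψ s) : ℝ) : ℂ) * Complex.I := by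
  unfold EE2
  rw [Complex.exp_mul_I]
  push_cast
  rfl

theorem curve_EE2_re (Ψ : ℝ → ℝ) (s : ℝ) : (EE2 Ψ s).re = cos (2 * Ψ s) := by
  rw [curve_EE2_eq, Complex.add_re, Complex.ofReal_re, Complex.re_ofReal_mul, Complex.I_re, mul_zero,
    add_zero]

theorem curve_EE2_im (Ψ : ℝ → ℝ) (s : ℝ) : (EE2 Ψ s).im = sin (2 * Ψ s) := by
  rw [curve_EE2_eq, Complex.add_im, Complex.ofReal_im, Complex.im_ofReal_mul, Complex.I_im, mul_one,
    zero_add]

theorem curve_EE2_hasDerivAt {Ψ Y : ℝ → ℝ} {s : ℝ} (h : HasDerivAt Ψ (Y s) s) :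
    HasDerivAt (EE2 Ψ) (EE2 Ψ s * (2 * (Y s : ℂ) * Complex.I)) s := by
  have h1 : HasDerivAt (fun s => ((Ψ s : ℝ) : ℂ)) ((Y s : ℝ) : ℂ) s := h.ofReal_comp
  have h2 : HasDerivAt (fun s => 2 * ((Ψ s : ℝ) : ℂ) * Complex.I) (2 * (Y s : ℂ) * Complex.I) s :=
    (h1.const_mul 2).mul_const Complex.I
  exact h2.cexp

theorem Leaf3.curve_s12 (L : Leaf3 d d' Ψ Y) (s : ℝ) :
    Ψ (s + 2 * π) = Ψ s + d (Ψ s) + d (Ψ (s + 2 * π)) := by
  have := L.link s; linarith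

theorem Leaf3.curve_s23 (L : Leaf3 d d' Ψ Y) (s : ℝ) :
    Ψ (s + 4 * π) = Ψ (s + 2 * π) + d (Ψ (s + 2 * π)) + d (Ψ (s + 4 * π)) := by
  have := L.link (s + 2 * π)
  rw [show s + 2 * π + 2 * π = s + 4 * π by ring] at this
  linarith

theorem Leaf3.curve_s31 (L : Leaf3 d d' Ψ Y) (s : ℝ) :
    Ψ s + 2 * π = Ψ (s + 4 * π) + d (Ψ (s + 4 * π)) + d (Ψ s) := by
  have h1 := L.link (s + 4 * π)
  rw [show s + 4 * π + 2 * π = s + 6 * π by ring, L.turn s, L.d_per] at h1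
  linarith

theorem Leaf3.curve_dsum (L : Leaf3 d d' Ψ Y) (s : ℝ) :
    d (Ψ s) + d (Ψ (s + 2 * π)) + d (Ψ (s + 4 * π)) = π := by
  have h1 := L.curve_s12 s
  have h2 := L.curve_s23 s
  have h3 := L.curve_s31 s
  linarith

theorem Leaf3.curve_D_pos (L : Leaf3 d d' Ψ Y) (s : ℝ) : 0 < sin (2 * d (Ψ s)) := by
  have h := L.d_mem (Ψ s)
  exact sin_pos_of_pos_of_lt_pi (by linarith [h.1]) (by linarith [h.2])

/-- the vertices `exp (2 i Ψ)` weighted by `sin 2d` sum up to zero -/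
theorem Leaf3.curve_E_sum (L : Leaf3 d d' Ψ Y) (s : ℝ) :
    ((sin (2 * d (Ψ s)) : ℝ) : ℂ) * EE2 Ψ s +
      ((sin (2 * d (Ψ (s + 2 * π))) : ℝ) : ℂ) * EE2 Ψ (s + 2 * π) +
      ((sin (2 * d (Ψ (s + 4 * π))) : ℝ) : ℂ) * EE2 Ψ (s + 4 * π) = 0 := by
  have h1 : 2 * Ψ (s + 2 * π) = 2 * Ψ s - 2 * d (Ψ (s + 4 * π)) + 2 * π := by
    have := L.curve_s12 s; have := L.curve_dsum s; linarith
  have h2 : 2 * Ψ (s + 4 * π) = 2 * Ψ s + 2 * d (Ψ (s + 2 * π)) + 2 * π := by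
    have := L.curve_s31 s; have := L.curve_dsum s; linarith
  have h3 : 2 * d (Ψ s) = 2 * π - (2 * d (Ψ (s + 2 * π)) + 2 * d (Ψ (s + 4 * π))) := by
    have := L.curve_dsum s; linarith
  have e1 : sin (2 * d (Ψ s)) = - (sin (2 * d (Ψ (s + 2 * π))) * cos (2 * d (Ψ (s + 4 * π))) +
      cos (2 * d (Ψ (s + 2 * π))) * sin (2 * d (Ψ (s + 4 * π)))) := by
    rw [h3, sin_two_pi_sub, sin_add]
  apply Complex.ext
  · simp only [Complex.add_re, Complex.re_ofReal_mul, curve_EE2_re, Complex.zero_re]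
    rw [h1, h2, cos_add_two_pi, cos_add_two_pi, cos_sub, cos_add, e1]
    ring
  · simp only [Complex.add_im, Complex.im_ofReal_mul, curve_EE2_im, Complex.zero_im]
    rw [h1, h2, sin_add_two_pi, sin_add_two_pi, sin_sub, sin_add, e1]
    ring

set_option linter.unusedVariables false in
theorem Leaf3.exists_curve (L : Leaf3 d d' Ψ Y) {Q Q' : ℝ → ℝ}
    (hQ : ∀ t, HasDerivAt Q (Q' t) t) (hQ'c : Continuous Q') (hQper : ∀ t, Q (t + 2 * π) = Q t)
    (hsum : ∀ s, sin (2 * d (Ψ s)) * Q (Ψ s) +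
      sin (2 * d (Ψ (s + 2 * π))) * Q (Ψ (s + 2 * π)) +
      sin (2 * d (Ψ (s + 4 * π))) * Q (Ψ (s + 4 * π)) = 0) :
    ∃ υ υ' : ℝ → ℂ, (∀ s, HasDerivAt υ (υ' s) s) ∧ Continuous υ' ∧
      (∀ s, υ (s + 2 * π) = υ s) ∧ ∀ s, (υ s * conj (EE2 Ψ s)).im = Q (Ψ s) := by
  -- the derivatives of the ingredients
  have hΨ : ∀ s, HasDerivAt Ψ (Y s) s := L.Ψ_deriv
  have hΨc : Continuous Ψ := continuous_iff_continuousAt.2 fun s => (hΨ s).continuousAt
  have hdc : Continuous d := continuous_iff_continuousAt.2 fun s => (L.d_deriv s).continuousAt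
  have hQc : Continuous Q := continuous_iff_continuousAt.2 fun s => (hQ s).continuousAt
  have hEc : Continuous (EE2 Ψ) :=
    continuous_iff_continuousAt.2 fun s => (curve_EE2_hasDerivAt (hΨ s)).continuousAt
  have hshift : ∀ (f : ℝ → ℂ) (f' : ℝ → ℂ) (c : ℝ), (∀ s, HasDerivAt f (f' s) s) →
      ∀ s, HasDerivAt (fun s => f (s + c)) (f' (s + c)) s := by
    intro f f' c h s
    exact (h (s + c)).comp_add_const s c
  set q : ℝ → ℂ := fun s => ((Q (Ψ s) : ℝ) : ℂ) with hq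
  set q' : ℝ → ℂ := fun s => ((Q' (Ψ s) * Y s : ℝ) : ℂ) with hq'
  set E' : ℝ → ℂ := fun s => EE2 Ψ s * (2 * (Y s : ℂ) * Complex.I) with hE'
  set D : ℝ → ℂ := fun s => ((sin (2 * d (Ψ s)) : ℝ) : ℂ) with hD
  set D' : ℝ → ℂ := fun s => ((cos (2 * d (Ψ s)) * (2 * (d' (Ψ s) * Y s)) : ℝ) : ℂ) with hD'
  have dq : ∀ s, HasDerivAt q (q' s) s := by
    intro s
    exact ((hQ (Ψ s)).comp s (hΨ s)).ofReal_comp
  have dE : ∀ s, HasDerivAt (EE2 Ψ) (E' s) s := fun s => curve_EE2_hasDerivAt (hΨ s)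
  have dD : ∀ s, HasDerivAt D (D' s) s := by
    intro s
    have h1 : HasDerivAt (fun s => 2 * d (Ψ s)) (2 * (d' (Ψ s) * Y s)) s :=
      (((L.d_deriv (Ψ s)).comp s (hΨ s))).const_mul 2
    exact h1.sin.ofReal_comp
  have hD0 : ∀ s, D s ≠ 0 := by
    intro s
    have := (L.curve_D_pos s).ne'
    simp only [hD]
    exact_mod_cast this
  have qc : Continuous q := Complex.continuous_ofReal.comp (hQc.comp hΨc)
  have q'c : Continuous q' :=
    Complex.continuous_ofReal.comp ((hQ'c.comp hΨc).mul L.Y_cont)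
  have E'c : Continuous E' := by
    have := L.Y_cont
    simp only [hE']
    fun_prop
  have Dc : Continuous D := by
    simp only [hD]
    fun_prop
  have D'c : Continuous D' := by
    have h1 := L.Y_cont
    have h2 := L.d'_cont
    simp only [hD']
    fun_prop
  refine ⟨fun s => (q (s + 2 * π) * EE2 Ψ s - q s * EE2 Ψ (s + 2 * π)) / D (s + 4 * π),
    fun s => (((q' (s + 2 * π) * EE2 Ψ s + q (s + 2 * π) * E' s) -
      (q' s * EE2 Ψ (s + 2 * π) + q s * E' (s + 2 * π))) * D (s + 4 * π) -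
      (q (s + 2 * π) * EE2 Ψ s - q s * EE2 Ψ (s + 2 * π)) * D' (s + 4 * π)) /
      D (s + 4 * π) ^ 2, ?_, ?_, ?_, ?_⟩
  · intro s
    exact (((hshift q q' (2 * π) dq s).mul (dE s)).sub
      ((dq s).mul (hshift (EE2 Ψ) E' (2 * π) dE s))).div (hshift D D' (4 * π) dD s)
      (hD0 (s + 4 * π))
  · apply Continuous.div
    · fun_prop
    · fun_prop
    · intro s
      exact pow_ne_zero _ (hD0 _)
  · intro s
    have e1 : s + 2 * π + 2 * π = s + 4 * π := by ring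
    have e2 : s + 2 * π + 4 * π = s + 6 * π := by ring
    have e3 : D (s + 6 * π) = D s := by
      simp only [hD]
      rw [L.turn s, L.d_per]
    have hs : D s * q s + D (s + 2 * π) * q (s + 2 * π) + D (s + 4 * π) * q (s + 4 * π) = 0 := by
      simp only [hD, hq]
      exact_mod_cast hsum s
    have hE : D s * EE2 Ψ s + D (s + 2 * π) * EE2 Ψ (s + 2 * π) +
        D (s + 4 * π) * EE2 Ψ (s + 4 * π) = 0 := L.curve_E_sum s
    show (q (s + 2 * π + 2 * π) * EE2 Ψ (s + 2 * π) - q (s + 2 * π) * EE2 Ψ (s + 2 * π + 2 * π)) /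
      D (s + 2 * π + 4 * π) = (q (s + 2 * π) * EE2 Ψ s - q s * EE2 Ψ (s + 2 * π)) / D (s + 4 * π)
    rw [e1, e2, e3, div_eq_div_iff (hD0 s) (hD0 (s + 4 * π))]
    linear_combination EE2 Ψ (s + 2 * π) * hs - q (s + 2 * π) * hE
  · intro s
    have h3 : sin (2 * Ψ (s + 2 * π)) * cos (2 * Ψ s) - cos (2 * Ψ (s + 2 * π)) * sin (2 * Ψ s) =
        - sin (2 * d (Ψ (s + 4 * π))) := by
      rw [← sin_sub]
      have : 2 * Ψ (s + 2 * π) - 2 * Ψ s = 2 * π - 2 * d (Ψ (s + 4 * π)) := by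
        have := L.curve_s12 s; have := L.curve_dsum s; linarith
      rw [this, sin_two_pi_sub]
    have hne : sin (2 * d (Ψ (s + 4 * π))) ≠ 0 := (L.curve_D_pos (s + 4 * π)).ne'
    have key : (fun s => (q (s + 2 * π) * EE2 Ψ s - q s * EE2 Ψ (s + 2 * π)) / D (s + 4 * π)) s *
        conj (EE2 Ψ s) = ((1 / sin (2 * d (Ψ (s + 4 * π))) : ℝ) : ℂ) *
        ((((Q (Ψ (s + 2 * π))) : ℝ) : ℂ) * (EE2 Ψ s * conj (EE2 Ψ s)) -
          (((Q (Ψ s)) : ℝ) : ℂ) * (EE2 Ψ (s + 2 * π) * conj (EE2 Ψ s))) := by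
      simp only [hq, hD]
      push_cast
      ring
    rw [key, Complex.im_ofReal_mul, Complex.sub_im, Complex.im_ofReal_mul, Complex.im_ofReal_mul,
      Complex.mul_conj, Complex.ofReal_im, Complex.mul_im, Complex.conj_re, Complex.conj_im,
      curve_EE2_re, curve_EE2_im, curve_EE2_re, curve_EE2_im]
    have h4 : cos (2 * Ψ (s + 2 * π)) * -sin (2 * Ψ s) + sin (2 * Ψ (s + 2 * π)) * cos (2 * Ψ s) =
        - sin (2 * d (Ψ (s + 4 * π))) := by linarith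
    rw [h4]
    field_simp
    ring

end Pool.Agent.MP_ae5b4e_an.Birk
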