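import Mathlib
import Pool.Agent.Lib.MP_ae5b4e_an.Birk.Leaf3

/-!
MP_ae5b4e_an, theorem on `3`-periodic leaves: the exact energy identity.
-/

noncomputable section

namespace Pool.Agent.MP_ae5b4e_an.Birk

open Real Set Filter Topology MeasureTheory ComplexConjugate

variable {d d' Ψ Y : ℝ → ℝ}

namespace Leaf3

theorem d_sum (L : Leaf3 d d' Ψ Y) (s : ℝ) :
    d (Ψ s) + d (Ψ (s + 2 * π)) + d (Ψ (s + 4 * π)) = π := by
  have h1 := L.link s
  have h2 := L.link (s + 2 * π)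
  have h3 := L.link (s + 4 * π)
  rw [show s + 2 * π + 2 * π = s + 4 * π by ring] at h2
  rw [show s + 4 * π + 2 * π = s + 6 * π by ring, L.turn s, L.d_per] at h3
  linarith

theorem closed_sum (L : Leaf3 d d' Ψ Y) {k k1 : ℝ → ℝ}
    (kper : ∀ t, k (t + 2 * π) = k t) (k1per : ∀ t, k1 (t + 2 * π) = k1 t)
    (hclose : ∀ s, k (Ψ s) * cos (d (Ψ s)) + k1 (Ψ s) * sin (d (Ψ s)) =
      k (Ψ (s + 2 * π)) * cos (d (Ψ (s + 2 * π))) -
        k1 (Ψ (s + 2 * π)) * sin (d (Ψ (s + 2 * π)))) (s : ℝ) :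
    sin (2 * d (Ψ s)) * (k (Ψ s) * k1 (Ψ s)) +
      sin (2 * d (Ψ (s + 2 * π))) * (k (Ψ (s + 2 * π)) * k1 (Ψ (s + 2 * π))) +
      sin (2 * d (Ψ (s + 4 * π))) * (k (Ψ (s + 4 * π)) * k1 (Ψ (s + 4 * π))) = 0 := by
  have h1 := hclose s
  have h2 := hclose (s + 2 * π)
  have h3 := hclose (s + 4 * π)
  rw [show s + 2 * π + 2 * π = s + 4 * π by ring] at h2
  rw [show s + 4 * π + 2 * π = s + 6 * π by ring, L.turn s, L.d_per, kper, k1per] at h3
  rw [sin_two_mul, sin_two_mul, sin_two_mul]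
  linear_combination
    (1 / 2) * (k (Ψ s) * cos (d (Ψ s)) + k1 (Ψ s) * sin (d (Ψ s)) +
      (k (Ψ (s + 2 * π)) * cos (d (Ψ (s + 2 * π))) -
        k1 (Ψ (s + 2 * π)) * sin (d (Ψ (s + 2 * π))))) * h1 +
    (1 / 2) * (k (Ψ (s + 2 * π)) * cos (d (Ψ (s + 2 * π))) +
        k1 (Ψ (s + 2 * π)) * sin (d (Ψ (s + 2 * π))) +
      (k (Ψ (s + 4 * π)) * cos (d (Ψ (s + 4 * π))) -
        k1 (Ψ (s + 4 * π)) * sin (d (Ψ (s + 4 * π))))) * h2 +
    (1 / 2) * (k (Ψ (s + 4 * π)) * cos (d (Ψ (s + 4 * π))) +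
        k1 (Ψ (s + 4 * π)) * sin (d (Ψ (s + 4 * π))) +
      (k (Ψ s) * cos (d (Ψ s)) - k1 (Ψ s) * sin (d (Ψ s)))) * h3

end Leaf3

namespace Energy

lemma hasDerivAt_Ap (x : ℝ) : HasDerivAt Ap (2 * sin x ^ 2 * cos x ^ 2) x := by
  have h : HasDerivAt (fun x : ℝ => (4 * x - sin (4 * x)) / 16)
      ((4 * 1 - cos (4 * x) * (4 * 1)) / 16) x :=
    (((hasDerivAt_id x).const_mul 4).sub (((hasDerivAt_id x).const_mul 4).sin)).div_const 16
  have e : (4 * 1 - cos (4 * x) * (4 * 1)) / 16 = 2 * sin x ^ 2 * cos x ^ 2 := by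
    rw [show 4 * x = 2 * (2 * x) by ring, cos_two_mul, cos_two_mul, sin_sq]
    ring
  rw [e] at h
  exact h

/-- `Re (V * conj (exp (2 i Ψ s)))`. -/
def zr (Ψ : ℝ → ℝ) (V : ℂ) (s : ℝ) : ℝ := V.re * cos (2 * Ψ s) + V.im * sin (2 * Ψ s)

/-- `Im (V * conj (exp (2 i Ψ s)))`. -/
def zi (Ψ : ℝ → ℝ) (V : ℂ) (s : ℝ) : ℝ := V.im * cos (2 * Ψ s) - V.re * sin (2 * Ψ s)

lemma mul_conj_im (Ψ : ℝ → ℝ) (V : ℂ) (s : ℝ) : (V * conj (EE2 Ψ s)).im = zi Ψ V s := by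
  have e : EE2 Ψ s = Complex.exp (((2 * Ψ s : ℝ) : ℂ) * Complex.I) := by
    unfold EE2; push_cast; rfl
  rw [e, Complex.mul_im, Complex.conj_re, Complex.conj_im, Complex.exp_ofReal_mul_I_re,
    Complex.exp_ofReal_mul_I_im]
  unfold zi
  ring

lemma om_eq (Ψ : ℝ → ℝ) (V W : ℂ) (s : ℝ) :
    om V W = zr Ψ V s * zi Ψ W s - zi Ψ V s * zr Ψ W s := by
  rw [om_def]
  unfold zr zi
  have h := sin_sq_add_cos_sq (2 * Ψ s)
  linear_combination (-(V.re * W.im - V.im * W.re)) * h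

variable (L : Leaf3 d d' Ψ Y)

include L in
lemma hasDerivAt_zr {υ υ' : ℝ → ℂ} (hυ : ∀ s, HasDerivAt υ (υ' s) s) (s : ℝ) :
    HasDerivAt (fun s => zr Ψ (υ s) s) (zr Ψ (υ' s) s + 2 * Y s * zi Ψ (υ s) s) s := by
  have ha : HasDerivAt (fun s => (υ s).re) (υ' s).re s :=
    Complex.reCLM.hasFDerivAt.comp_hasDerivAt s (hυ s)
  have hb : HasDerivAt (fun s => (υ s).im) (υ' s).im s :=
    Complex.imCLM.hasFDerivAt.comp_hasDerivAt s (hυ s)
  have h2 : HasDerivAt (fun s => 2 * Ψ s) (2 * Y s) s := (L.Ψ_deriv s).const_mul 2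
  have h3 : HasDerivAt (fun s => (υ s).re * cos (2 * Ψ s) + (υ s).im * sin (2 * Ψ s)) _ s :=
    (ha.mul h2.cos).add (hb.mul h2.sin)
  exact h3.congr_deriv (by unfold zr zi; ring)

include L in
lemma cont_Ψ : Continuous Ψ := continuous_iff_continuousAt.2 fun s => (L.Ψ_deriv s).continuousAt

include L in
lemma cont_d : Continuous d := continuous_iff_continuousAt.2 fun s => (L.d_deriv s).continuousAt

lemma cont_Ap : Continuous Ap := by unfold Ap; fun_prop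

lemma integral_six {φ : ℝ → ℝ} (hφ : Continuous φ) :
    ∫ s in (0:ℝ)..(6 * π), φ s =
      ∫ s in (0:ℝ)..(2 * π), (φ s + φ (s + 2 * π) + φ (s + 4 * π)) := by
  have i1 : IntervalIntegrable (fun s => φ s) volume 0 (2 * π) :=
    (hφ.intervalIntegrable _ _)
  have i2 : IntervalIntegrable (fun s => φ (s + 2 * π)) volume 0 (2 * π) :=
    ((hφ.comp (continuous_id.add continuous_const)).intervalIntegrable _ _)
  have i3 : IntervalIntegrable (fun s => φ (s + 4 * π)) volume 0 (2 * π) :=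
    ((hφ.comp (continuous_id.add continuous_const)).intervalIntegrable _ _)
  rw [intervalIntegral.integral_add (i1.add i2) i3, intervalIntegral.integral_add i1 i2,
    intervalIntegral.integral_comp_add_right (fun s => φ s),
    intervalIntegral.integral_comp_add_right (fun s => φ s)]
  rw [← intervalIntegral.integral_add_adjacent_intervals (hφ.intervalIntegrable 0 (4 * π))
      (hφ.intervalIntegrable (4 * π) (6 * π)),
    ← intervalIntegral.integral_add_adjacent_intervals (hφ.intervalIntegrable 0 (2 * π))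
      (hφ.intervalIntegrable (2 * π) (4 * π))]
  have e1 : (0:ℝ) + 2 * π = 2 * π := by ring
  have e2 : 2 * π + 2 * π = 4 * π := by ring
  have e3 : (0:ℝ) + 4 * π = 4 * π := by ring
  have e4 : 2 * π + 4 * π = 6 * π := by ring
  rw [e1, e2, e3, e4]

include L in
lemma hasDerivAt_zi {υ υ' : ℝ → ℂ} (hυ : ∀ s, HasDerivAt υ (υ' s) s) (s : ℝ) :
    HasDerivAt (fun s => zi Ψ (υ s) s) (zi Ψ (υ' s) s - 2 * Y s * zr Ψ (υ s) s) s := by
  have ha : HasDerivAt (fun s => (υ s).re) (υ' s).re s :=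
    Complex.reCLM.hasFDerivAt.comp_hasDerivAt s (hυ s)
  have hb : HasDerivAt (fun s => (υ s).im) (υ' s).im s :=
    Complex.imCLM.hasFDerivAt.comp_hasDerivAt s (hυ s)
  have h2 : HasDerivAt (fun s => 2 * Ψ s) (2 * Y s) s := (L.Ψ_deriv s).const_mul 2
  have h3 : HasDerivAt (fun s => (υ s).im * cos (2 * Ψ s) - (υ s).re * sin (2 * Ψ s)) _ s :=
    (hb.mul h2.cos).sub (ha.mul h2.sin)
  exact h3.congr_deriv (by unfold zr zi; ring)

/-- the vertex identity (pure algebra) -/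
lemma vertex_alg (k k1 k2 y r v e sn cs A : ℝ) (hy : y ≠ 0) :
    k * (k + k2) * (A * (k1 ^ 2 - k * k2) - 2 * sn ^ 3 * cs * k1 ^ 2) * y =
      2 * A * (r * (y * (k1 ^ 2 + k * k2 + 2 * r)) - k * k1 * v) -
      A / y * (y * (k1 ^ 2 + k * k2 + 2 * r)) ^ 2 -
      (2 * sn ^ 2 * cs ^ 2 * (e * y) * (k * k1 * (k ^ 2 - k1 ^ 2 - 2 * r)) +
        A * ((k1 ^ 2 + k * k2) * y * (k ^ 2 - k1 ^ 2 - 2 * r) +
          k * k1 * (-2 * k1 * (k + k2) * y - 2 * v))) -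
      sn * cs * (k * k1) * (2 * sn ^ 2 * k1 * (k + k2) * y - v * (cs ^ 2 - sn ^ 2) -
        2 * sn * cs * (e * y) * (k ^ 2 - k1 ^ 2 - 2 * r)) -
      sn * cs * (cs ^ 2 - sn ^ 2) * (k * k1) * v := by
  field_simp
  ring

include L in
lemma two_Ψ2 (s : ℝ) : 2 * Ψ (s + 2 * π) = 2 * Ψ s - 2 * d (Ψ (s + 4 * π)) + 2 * π := by
  have h1 := L.link s
  have h2 := L.d_sum s
  linarith

include L in
lemma two_Ψ3 (s : ℝ) : 2 * Ψ (s + 4 * π) = 2 * Ψ s + 2 * d (Ψ (s + 2 * π)) + 2 * π := by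
  have h1 := L.link s
  have h2 := L.link (s + 2 * π)
  rw [show s + 2 * π + 2 * π = s + 4 * π by ring] at h2
  have h3 := L.d_sum s
  linarith

include L in
lemma zr_2 (V : ℂ) (s : ℝ) : zr Ψ V (s + 2 * π) =
    zr Ψ V s * cos (2 * d (Ψ (s + 4 * π))) - zi Ψ V s * sin (2 * d (Ψ (s + 4 * π))) := by
  unfold zr zi
  rw [two_Ψ2 L, cos_add_two_pi, sin_add_two_pi, cos_sub, sin_sub]
  ring

include L in
lemma zi_2 (V : ℂ) (s : ℝ) : zi Ψ V (s + 2 * π) =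
    zr Ψ V s * sin (2 * d (Ψ (s + 4 * π))) + zi Ψ V s * cos (2 * d (Ψ (s + 4 * π))) := by
  unfold zr zi
  rw [two_Ψ2 L, cos_add_two_pi, sin_add_two_pi, cos_sub, sin_sub]
  ring

include L in
lemma zr_3 (V : ℂ) (s : ℝ) : zr Ψ V (s + 4 * π) =
    zr Ψ V s * cos (2 * d (Ψ (s + 2 * π))) + zi Ψ V s * sin (2 * d (Ψ (s + 2 * π))) := by
  unfold zr zi
  rw [two_Ψ3 L, cos_add_two_pi, sin_add_two_pi, cos_add, sin_add]
  ring

include L in
lemma zi_3 (V : ℂ) (s : ℝ) : zi Ψ V (s + 4 * π) =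
    -(zr Ψ V s * sin (2 * d (Ψ (s + 2 * π)))) + zi Ψ V s * cos (2 * d (Ψ (s + 2 * π))) := by
  unfold zr zi
  rw [two_Ψ3 L, cos_add_two_pi, sin_add_two_pi, cos_add, sin_add]
  ring

lemma rotp (Ψ : ℝ → ℝ) (V : ℂ) (s x : ℝ) :
    zr Ψ V s * cos (2 * x) + zi Ψ V s * sin (2 * x) =
      V.re * cos (2 * Ψ s + 2 * x) + V.im * sin (2 * Ψ s + 2 * x) := by
  unfold zr zi
  rw [cos_add, sin_add]
  ring

lemma rotm (Ψ : ℝ → ℝ) (V : ℂ) (s x : ℝ) :
    zr Ψ V s * cos (2 * x) - zi Ψ V s * sin (2 * x) =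
      V.re * cos (2 * Ψ s - 2 * x) + V.im * sin (2 * Ψ s - 2 * x) := by
  unfold zr zi
  rw [cos_sub, sin_sub]
  ring

/-- trigonometry of the three half angles -/
lemma trig_sum {a b c : ℝ} (h : a + b + c = π) :
    sin (2 * a) = -(sin (2 * b) * cos (2 * c) + cos (2 * b) * sin (2 * c)) ∧
    cos (2 * a) = cos (2 * b) * cos (2 * c) - sin (2 * b) * sin (2 * c) := by
  have e : 2 * a = 2 * π - (2 * b + 2 * c) := by linarith
  rw [e, sin_two_pi_sub, cos_two_pi_sub, sin_add, cos_add]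
  exact ⟨rfl, rfl⟩

lemma Ap_eq (x : ℝ) : Ap x = x / 4 - sin (2 * x) * cos (2 * x) / 8 := by
  unfold Ap
  rw [show 4 * x = 2 * (2 * x) by ring, sin_two_mul]
  ring

/-- `2 ∑ A = π/2 + S/2` -/
lemma Ap_sum {a b c : ℝ} (h : a + b + c = π) :
    2 * (Ap a + Ap b + Ap c) = π / 2 + sin (2 * a) * sin (2 * b) * sin (2 * c) / 2 := by
  obtain ⟨h1, h2⟩ := trig_sum h
  have hb := sin_sq_add_cos_sq (2 * b)
  have hc := sin_sq_add_cos_sq (2 * c)
  rw [Ap_eq, Ap_eq, Ap_eq, h1, h2]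
  generalize sin (2 * b) = sb at *
  generalize cos (2 * b) = cb at *
  generalize sin (2 * c) = sc at *
  generalize cos (2 * c) = cc at *
  have e : a = π - b - c := by linarith
  rw [e]
  linear_combination (sc * cc / 4) * hb + (sb * cb / 4) * hc

/-- the mixed sum -/
lemma mixed_sum {a b c : ℝ} (h : a + b + c = π) (r q v m : ℝ) :
    sin (2 * a) * cos (2 * a) * (q * v) +
      sin (2 * b) * cos (2 * b) *
        ((r * sin (2 * c) + q * cos (2 * c)) * (v * cos (2 * c) - m * sin (2 * c))) +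
      sin (2 * c) * cos (2 * c) *
        ((-(r * sin (2 * b)) + q * cos (2 * b)) * (v * cos (2 * b) + m * sin (2 * b))) =
      sin (2 * a) * sin (2 * b) * sin (2 * c) * (r * m - q * v) := by
  obtain ⟨h1, h2⟩ := trig_sum h
  rw [h1, h2]
  ring

end Energy

open Energy in
theorem Leaf3.energy (L : Leaf3 d d' Ψ Y) {k k1 k2 : ℝ → ℝ}
    (hk : ∀ t, HasDerivAt k (k1 t) t) (hk1 : ∀ t, HasDerivAt k1 (k2 t) t)
    (hk2c : Continuous k2) (kper : ∀ t, k (t + 2 * π) = k t)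
    (hclose : ∀ s, k (Ψ s) * cos (d (Ψ s)) + k1 (Ψ s) * sin (d (Ψ s)) =
      k (Ψ (s + 2 * π)) * cos (d (Ψ (s + 2 * π))) -
        k1 (Ψ (s + 2 * π)) * sin (d (Ψ (s + 2 * π))))
    {υ υ' : ℝ → ℂ} (hυ : ∀ s, HasDerivAt υ (υ' s) s) (hυ'c : Continuous υ')
    (hυper : ∀ s, υ (s + 2 * π) = υ s)
    (him : ∀ s, (υ s * conj (EE2 Ψ s)).im = k (Ψ s) * k1 (Ψ s)) :
    ∫ t in (0:ℝ)..(2 * π), k t * (k t + k2 t) *
      (Ap (d t) * (k1 t ^ 2 - k t * k2 t) - 2 * sin (d t) ^ 3 * cos (d t) * k1 t ^ 2) =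
    ∫ s in (0:ℝ)..(2 * π), (π / 2 * om (υ s) (υ' s) - Kin d Ψ Y s (υ' s)) := by
  -- continuity
  have cΨ : Continuous Ψ := cont_Ψ L
  have cd : Continuous d := cont_d L
  have cd' : Continuous d' := L.d'_cont
  have cY : Continuous Y := L.Y_cont
  have ck : Continuous k := continuous_iff_continuousAt.2 fun s => (hk s).continuousAt
  have ck1 : Continuous k1 := continuous_iff_continuousAt.2 fun s => (hk1 s).continuousAt
  have cυ : Continuous υ := continuous_iff_continuousAt.2 fun s => (hυ s).continuousAt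
  have cAp : Continuous Ap := cont_Ap
  -- periodicity of the derivatives
  have k1per : ∀ t, k1 (t + 2 * π) = k1 t := by
    intro t
    have h1 : HasDerivAt (fun t => k (t + 2 * π)) (k1 (t + 2 * π)) t :=
      (hk (t + 2 * π)).comp_add_const t (2 * π)
    have h2 : (fun t => k (t + 2 * π)) = k := funext kper
    rw [h2] at h1
    exact h1.unique (hk t)
  have k2per : ∀ t, k2 (t + 2 * π) = k2 t := by
    intro t
    have h1 : HasDerivAt (fun t => k1 (t + 2 * π)) (k2 (t + 2 * π)) t :=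
      (hk1 (t + 2 * π)).comp_add_const t (2 * π)
    have h2 : (fun t => k1 (t + 2 * π)) = k1 := funext k1per
    rw [h2] at h1
    exact h1.unique (hk1 t)
  have υ'per : ∀ s, υ' (s + 2 * π) = υ' s := by
    intro s
    have h1 : HasDerivAt (fun t => υ (t + 2 * π)) (υ' (s + 2 * π)) s :=
      (hυ (s + 2 * π)).comp_add_const s (2 * π)
    have h2 : (fun t => υ (t + 2 * π)) = υ := funext hυper
    rw [h2] at h1
    exact h1.unique (hυ s)
  have hυper4 : ∀ s, υ (s + 4 * π) = υ s := fun s => by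
    rw [show s + 4 * π = s + 2 * π + 2 * π by ring, hυper, hυper]
  have υ'per4 : ∀ s, υ' (s + 4 * π) = υ' s := fun s => by
    rw [show s + 4 * π = s + 2 * π + 2 * π by ring, υ'per, υ'per]
  have hυper6 : ∀ s, υ (s + 6 * π) = υ s := fun s => by
    rw [show s + 6 * π = s + 4 * π + 2 * π by ring, hυper, hυper4]
  -- the imaginary part
  have hq : ∀ s, zi Ψ (υ s) s = k (Ψ s) * k1 (Ψ s) := fun s => by
    rw [← mul_conj_im, him]
  -- derivative of k ∘ Ψ, k1 ∘ Ψ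
  have dk : ∀ s, HasDerivAt (fun s => k (Ψ s)) (k1 (Ψ s) * Y s) s := fun s =>
    (hk (Ψ s)).comp s (L.Ψ_deriv s)
  have dk1 : ∀ s, HasDerivAt (fun s => k1 (Ψ s)) (k2 (Ψ s) * Y s) s := fun s =>
    (hk1 (Ψ s)).comp s (L.Ψ_deriv s)
  have dd : ∀ s, HasDerivAt (fun s => d (Ψ s)) (d' (Ψ s) * Y s) s := fun s =>
    (L.d_deriv (Ψ s)).comp s (L.Ψ_deriv s)
  -- the speed
  have hmu : ∀ s, zi Ψ (υ' s) s =
      Y s * (k1 (Ψ s) ^ 2 + k (Ψ s) * k2 (Ψ s) + 2 * zr Ψ (υ s) s) := by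
    intro s
    have h1 := hasDerivAt_zi L hυ s
    have h2 : HasDerivAt (fun s => zi Ψ (υ s) s)
        (k1 (Ψ s) * Y s * k1 (Ψ s) + k (Ψ s) * (k2 (Ψ s) * Y s)) s := by
      rw [show (fun s => zi Ψ (υ s) s) = fun s => k (Ψ s) * k1 (Ψ s) from funext hq]
      exact (dk s).mul (dk1 s)
    have h3 := h1.unique h2
    linear_combination h3
  -- K
  set K : ℝ → ℝ := fun s => k (Ψ s) ^ 2 - k1 (Ψ s) ^ 2 - 2 * zr Ψ (υ s) s with hK
  have dK : ∀ s, HasDerivAt K (-2 * k1 (Ψ s) * (k (Ψ s) + k2 (Ψ s)) * Y s -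
      2 * zr Ψ (υ' s) s) s := by
    intro s
    have h1 : HasDerivAt (fun s => k (Ψ s) ^ 2 - k1 (Ψ s) ^ 2 - 2 * zr Ψ (υ s) s) _ s :=
      (((dk s).pow 2).sub ((dk1 s).pow 2)).sub ((hasDerivAt_zr L hυ s).const_mul 2)
    refine h1.congr_deriv ?_
    rw [hq]
    push_cast
    ring
  set AG : ℝ → ℝ := fun s => Ap (d (Ψ s)) * (k (Ψ s) * k1 (Ψ s) * K s) with hAG
  set AG' : ℝ → ℝ := fun s =>
    2 * sin (d (Ψ s)) ^ 2 * cos (d (Ψ s)) ^ 2 * (d' (Ψ s) * Y s) *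
        (k (Ψ s) * k1 (Ψ s) * (k (Ψ s) ^ 2 - k1 (Ψ s) ^ 2 - 2 * zr Ψ (υ s) s)) +
        Ap (d (Ψ s)) * ((k1 (Ψ s) ^ 2 + k (Ψ s) * k2 (Ψ s)) * Y s *
          (k (Ψ s) ^ 2 - k1 (Ψ s) ^ 2 - 2 * zr Ψ (υ s) s) +
          k (Ψ s) * k1 (Ψ s) * (-2 * k1 (Ψ s) * (k (Ψ s) + k2 (Ψ s)) * Y s -
            2 * zr Ψ (υ' s) s)) with hAG'
  have dAG : ∀ s, HasDerivAt AG (AG' s) s := by
    intro s
    have h1 : HasDerivAt (fun s => Ap (d (Ψ s)))
        (2 * sin (d (Ψ s)) ^ 2 * cos (d (Ψ s)) ^ 2 * (d' (Ψ s) * Y s)) s :=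
      HasDerivAt.comp (h₂ := Ap) (h := fun s => d (Ψ s)) s (hasDerivAt_Ap (d (Ψ s))) (dd s)
    have h2 : HasDerivAt (fun s => Ap (d (Ψ s)) * (k (Ψ s) * k1 (Ψ s) * K s)) _ s :=
      h1.mul (((dk s).mul (dk1 s)).mul (dK s))
    refine h2.congr_deriv ?_
    simp only [hAG', hK, Pi.mul_apply]
    ring
  -- F
  set F : ℝ → ℝ := fun s => k (Ψ s) ^ 2 * cos (d (Ψ s)) ^ 2 + k1 (Ψ s) ^ 2 * sin (d (Ψ s)) ^ 2 -
    zr Ψ (υ s) s * (cos (d (Ψ s)) ^ 2 - sin (d (Ψ s)) ^ 2) with hF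
  set F' : ℝ → ℝ := fun s => 2 * sin (d (Ψ s)) ^ 2 * k1 (Ψ s) * (k (Ψ s) + k2 (Ψ s)) * Y s -
    zr Ψ (υ' s) s * (cos (d (Ψ s)) ^ 2 - sin (d (Ψ s)) ^ 2) -
        2 * sin (d (Ψ s)) * cos (d (Ψ s)) * (d' (Ψ s) * Y s) *
          (k (Ψ s) ^ 2 - k1 (Ψ s) ^ 2 - 2 * zr Ψ (υ s) s) with hF'
  have dF : ∀ s, HasDerivAt F (F' s) s := by
    intro s
    have h1 : HasDerivAt (fun s => k (Ψ s) ^ 2 * cos (d (Ψ s)) ^ 2 +
        k1 (Ψ s) ^ 2 * sin (d (Ψ s)) ^ 2 -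
        zr Ψ (υ s) s * (cos (d (Ψ s)) ^ 2 - sin (d (Ψ s)) ^ 2)) _ s :=
      ((((dk s).pow 2).mul (((dd s).cos).pow 2)).add
        (((dk1 s).pow 2).mul (((dd s).sin).pow 2))).sub
        ((hasDerivAt_zr L hυ s).mul ((((dd s).cos).pow 2).sub (((dd s).sin).pow 2)))
    refine h1.congr_deriv ?_
    simp only [hF', hq, Pi.mul_apply, Pi.pow_apply, Pi.sub_apply]
    have hp := sin_sq_add_cos_sq (d (Ψ s))
    push_cast
    ring
  have Fper : ∀ s, F (s + 2 * π) = F s := by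
    intro s
    have h1 : 2 * Ψ (s + 2 * π) - 2 * d (Ψ (s + 2 * π)) = 2 * Ψ s + 2 * d (Ψ s) := by
      have := L.link s
      linarith
    have h2 := rotp Ψ (υ s) s (d (Ψ s))
    have h3 := rotm Ψ (υ (s + 2 * π)) (s + 2 * π) (d (Ψ (s + 2 * π)))
    rw [h1, hυper s] at h3
    rw [← h2, hq s] at h3
    have h4 := hq (s + 2 * π)
    rw [hυper s] at h4
    rw [h4] at h3
    have h5 := hclose s
    simp only [hF, hυper s]
    rw [cos_two_mul', cos_two_mul', sin_two_mul, sin_two_mul] at h3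
    linear_combination (-(k (Ψ s) * cos (d (Ψ s)) + k1 (Ψ s) * sin (d (Ψ s)) +
      (k (Ψ (s + 2 * π)) * cos (d (Ψ (s + 2 * π))) -
        k1 (Ψ (s + 2 * π)) * sin (d (Ψ (s + 2 * π)))))) * h5 - h3
  have F'per : ∀ s, F' (s + 2 * π) = F' s := by
    intro s
    have h1 : HasDerivAt (fun t => F (t + 2 * π)) (F' (s + 2 * π)) s :=
      (dF (s + 2 * π)).comp_add_const s (2 * π)
    have h2 : (fun t => F (t + 2 * π)) = F := funext Fper
    rw [h2] at h1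
    exact h1.unique (dF s)
  have F'per4 : ∀ s, F' (s + 4 * π) = F' s := fun s => by
    rw [show s + 4 * π = s + 2 * π + 2 * π by ring, F'per, F'per]
  -- the integrand
  set G : ℝ → ℝ := fun t => k t * (k t + k2 t) *
      (Ap (d t) * (k1 t ^ 2 - k t * k2 t) - 2 * sin (d t) ^ 3 * cos (d t) * k1 t ^ 2) with hG
  have cG : Continuous G := by
    simp only [hG]
    fun_prop
  have Gper : Function.Periodic G (2 * π) := by
    intro t
    simp only [hG, kper t, k1per t, k2per t, L.d_per t]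
  have hsub : ∫ t in (0:ℝ)..(2 * π), G t = ∫ s in (0:ℝ)..(6 * π), G (Ψ s) * Y s := by
    have h0 : ∫ s in (0:ℝ)..(6 * π), G (Ψ s) * Y s = ∫ x in (Ψ 0)..(Ψ (6 * π)), G x :=
      intervalIntegral.integral_comp_mul_deriv (fun x _ => L.Ψ_deriv x) cY.continuousOn cG
    rw [h0]
    have h6 := L.turn 0
    rw [zero_add] at h6
    rw [h6]
    have := Gper.intervalIntegral_add_eq 0 (Ψ 0)
    rw [zero_add] at this
    exact this
  -- vertex identity
  have hvert : ∀ s, G (Ψ s) * Y s = 2 * Ap (d (Ψ s)) * om (υ s) (υ' s) -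
      Ap (d (Ψ s)) / Y s * zi Ψ (υ' s) s ^ 2 - AG' s -
      (1 / 2) * sin (2 * d (Ψ s)) * zi Ψ (υ s) s * F' s -
      (1 / 4) * (sin (2 * d (Ψ s)) * cos (2 * d (Ψ s)) *
        (zi Ψ (υ s) s * zr Ψ (υ' s) s)) * 2 := by
    intro s
    have h1 := vertex_alg (k (Ψ s)) (k1 (Ψ s)) (k2 (Ψ s)) (Y s) (zr Ψ (υ s) s) (zr Ψ (υ' s) s)
      (d' (Ψ s)) (sin (d (Ψ s))) (cos (d (Ψ s))) (Ap (d (Ψ s))) (L.Y_pos s).ne'
    rw [om_eq Ψ _ _ s, hq, hmu]
    simp only [hG, hAG', hF']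
    rw [h1, cos_two_mul', sin_two_mul]
    ring
  have cAG' : Continuous AG' := by
    have c1 : Continuous fun s => zr Ψ (υ s) s := by unfold zr; fun_prop
    have c2 : Continuous fun s => zr Ψ (υ' s) s := by unfold zr; fun_prop
    simp only [hAG']
    fun_prop
  have hsum3 : ∀ s, G (Ψ s) * Y s + G (Ψ (s + 2 * π)) * Y (s + 2 * π) +
      G (Ψ (s + 4 * π)) * Y (s + 4 * π) =
      (π / 2 * om (υ s) (υ' s) - Kin d Ψ Y s (υ' s)) -
        (AG' s + AG' (s + 2 * π) + AG' (s + 4 * π)) := by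
    intro s
    rw [hvert s, hvert (s + 2 * π), hvert (s + 4 * π), hυper, υ'per, hυper4, υ'per4, F'per,
      F'per4]
    have hds := L.d_sum s
    have hA := Ap_sum hds
    have hm := mixed_sum hds (zr Ψ (υ s) s) (zi Ψ (υ s) s) (zr Ψ (υ' s) s) (zi Ψ (υ' s) s)
    have hc := L.closed_sum kper k1per hclose s
    rw [← hq s, ← hq (s + 2 * π), ← hq (s + 4 * π), hυper, hυper4] at hc
    rw [← zr_2 L, ← zi_2 L, ← zr_3 L, ← zi_3 L, ← om_eq] at hm
    unfold Kin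
    rw [mul_conj_im, mul_conj_im, mul_conj_im]
    linear_combination (om (υ s) (υ' s)) * hA - (1 / 2) * F' s * hc - (1 / 2) * hm
  have hint : ∫ s in (0:ℝ)..(2 * π), (AG' s + AG' (s + 2 * π) + AG' (s + 4 * π)) = 0 := by
    rw [← integral_six cAG', intervalIntegral.integral_eq_sub_of_hasDerivAt (fun s _ => dAG s)
      (cAG'.intervalIntegrable _ _)]
    have h6 := L.turn 0
    rw [zero_add] at h6
    have h7 : υ (6 * π) = υ 0 := by
      have := hυper6 0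
      rwa [zero_add] at this
    simp only [hAG, hK, zr]
    rw [h6, h7, kper, k1per, L.d_per]
    rw [show 2 * (Ψ 0 + 2 * π) = 2 * Ψ 0 + 2 * π + 2 * π by ring, cos_add_two_pi,
      cos_add_two_pi, sin_add_two_pi, sin_add_two_pi]
    ring
  have cH : Continuous fun s => G (Ψ s) * Y s := by fun_prop
  have cAGs : Continuous fun s => AG' s + AG' (s + 2 * π) + AG' (s + 4 * π) := by fun_prop
  have e1 : ∀ s, π / 2 * om (υ s) (υ' s) - Kin d Ψ Y s (υ' s) =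
      (G (Ψ s) * Y s + G (Ψ (s + 2 * π)) * Y (s + 2 * π) +
      G (Ψ (s + 4 * π)) * Y (s + 4 * π)) + (AG' s + AG' (s + 2 * π) + AG' (s + 4 * π)) := by
    intro s
    linear_combination -(hsum3 s)
  have cHs : Continuous fun s => G (Ψ s) * Y s + G (Ψ (s + 2 * π)) * Y (s + 2 * π) +
      G (Ψ (s + 4 * π)) * Y (s + 4 * π) := by fun_prop
  rw [hsub, integral_six cH]
  rw [intervalIntegral.integral_congr (g := fun s => (G (Ψ s) * Y s +
      G (Ψ (s + 2 * π)) * Y (s + 2 * π) +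
      G (Ψ (s + 4 * π)) * Y (s + 4 * π)) + (AG' s + AG' (s + 2 * π) + AG' (s + 4 * π)))
      (f := fun s => π / 2 * om (υ s) (υ' s) - Kin d Ψ Y s (υ' s)) (fun s _ => e1 s)]
  rw [intervalIntegral.integral_add (cHs.intervalIntegrable _ _) (cAGs.intervalIntegrable _ _),
    hint, add_zero]

end Pool.Agent.MP_ae5b4e_an.Birk
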