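import Mathlib
import Pool.Agent.Lib.MP_ae5b4e_an.Birk.Translate
import Pool.Agent.Lib.MP_ae5b4e_an.Birk.Curve
import Pool.Agent.Lib.MP_ae5b4e_an.Birk.Energy

/-!
MP_ae5b4e_an, theorem on `3`-periodic leaves: the three-dimensional space of closed curves and the
positivity of the energy form on it.
-/

noncomputable section

namespace Pool.Agent.MP_ae5b4e_an.Birk

open Real Set Filter Topology MeasureTheory ComplexConjugate

variable {h h1 h2 : ℝ → ℝ} {P D : ℝ → ℝ → ℝ} {c₀ : ℝ} {d' Ψ Y : ℝ → ℝ}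

lemma Bir.curve0 (B : Bir h h1 h2 P D) (hc₀ : c₀ ∈ Ioo (0:ℝ) 1) (L : Leaf3 (D c₀) d' Ψ Y) :
    ∃ υ υ' : ℝ → ℂ, (∀ s, HasDerivAt υ (υ' s) s) ∧ Continuous υ' ∧
      (∀ s, υ (s + 2 * π) = υ s) ∧
      ∀ s, (υ s * conj (EE2 Ψ s)).im = h (Ψ s) * h1 (Ψ s) := by
  refine L.exists_curve (Q := fun t => h t * h1 t) (Q' := fun t => h1 t * h1 t + h t * h2 t)
    (fun t => (B.h_deriv t).mul (B.h1_deriv t)) ?_ ?_ ?_
  · exact (B.continuous_h1.mul B.continuous_h1).add (B.continuous_h.mul B.h2_cont)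
  · intro t
    simp only [B.h_per, B.h1_per]
  · exact L.closed_sum B.h_per B.h1_per (B.closes hc₀ L)

lemma Bir.curveO (B : Bir h h1 h2 P D) (hc₀ : c₀ ∈ Ioo (0:ℝ) 1) (L : Leaf3 (D c₀) d' Ψ Y)
    (o1 o2 : ℝ) :
    ∃ υ υ' : ℝ → ℂ, (∀ s, HasDerivAt υ (υ' s) s) ∧ Continuous υ' ∧
      (∀ s, υ (s + 2 * π) = υ s) ∧
      ∀ s, (υ s * conj (EE2 Ψ s)).im =
        -(h1 (Ψ s) * gO o1 o2 (Ψ s) + h (Ψ s) * gO1 o1 o2 (Ψ s)) := by
  refine L.exists_curve (Q := fun t => -(h1 t * gO o1 o2 t + h t * gO1 o1 o2 t))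
    (Q' := fun t => -((h2 t * gO o1 o2 t + h1 t * gO1 o1 o2 t) +
      (h1 t * gO1 o1 o2 t + h t * (-gO o1 o2 t))))
    (fun t => (((B.h1_deriv t).mul (gO_hasDerivAt o1 o2 t)).add
      ((B.h_deriv t).mul (gO1_hasDerivAt o1 o2 t))).neg) ?_ ?_ ?_
  · have e0 := B.continuous_h
    have e1 := B.continuous_h1
    have e2 := B.h2_cont
    have e3 := gO_cont o1 o2
    have e4 := gO1_cont o1 o2
    fun_prop
  · intro t
    simp only [B.h_per, B.h1_per, gO_per, gO1_per]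
  · intro s
    have B' := B.translate o1 o2
    have t1 := L.closed_sum B.h_per B.h1_per (B.closes hc₀ L) s
    have t2 := L.closed_sum (k := fun t => h t - gO o1 o2 t) (k1 := fun t => h1 t - gO1 o1 o2 t)
      B'.h_per B'.h1_per (B'.closes hc₀ L) s
    have t3 := L.closed_sum (gO_per o1 o2) (gO1_per o1 o2) (gO_closes L o1 o2) s
    linear_combination t2 - t1 - t3

/-- The three curves. -/
lemma Bir.curves (B : Bir h h1 h2 P D) (hc₀ : c₀ ∈ Ioo (0:ℝ) 1) (L : Leaf3 (D c₀) d' Ψ Y) :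
    ∃ υ υ' : Fin 3 → ℝ → ℂ, (∀ j s, HasDerivAt (υ j) (υ' j s) s) ∧ (∀ j, Continuous (υ' j)) ∧
      (∀ j s, υ j (s + 2 * π) = υ j s) ∧
      ∀ (x : Fin 3 → ℝ) s, ((∑ j, (x j : ℂ) * υ j s) * conj (EE2 Ψ s)).im =
        x 0 * (h (Ψ s) * h1 (Ψ s)) -
          (h1 (Ψ s) * gO (x 1) (x 2) (Ψ s) + h (Ψ s) * gO1 (x 1) (x 2) (Ψ s)) := by
  obtain ⟨a, a', ha, hac, hap, hai⟩ := B.curve0 hc₀ L
  obtain ⟨b, b', hb, hbc, hbp, hbi⟩ := B.curveO hc₀ L 1 0
  obtain ⟨c, c', hc, hcc, hcp, hci⟩ := B.curveO hc₀ L 0 1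
  refine ⟨![a, b, c], ![a', b', c'], ?_, ?_, ?_, ?_⟩
  · intro j s
    fin_cases j
    · exact ha s
    · exact hb s
    · exact hc s
  · intro j
    fin_cases j
    · exact hac
    · exact hbc
    · exact hcc
  · intro j s
    fin_cases j
    · exact hap s
    · exact hbp s
    · exact hcp s
  · intro x s
    simp only [Fin.sum_univ_three, Matrix.cons_val_zero, Matrix.cons_val_one, Matrix.cons_val]
    have e : ((x 0 : ℂ) * a s + (x 1 : ℂ) * b s + (x 2 : ℂ) * c s) * conj (EE2 Ψ s) =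
        (x 0 : ℂ) * (a s * conj (EE2 Ψ s)) + (x 1 : ℂ) * (b s * conj (EE2 Ψ s)) +
          (x 2 : ℂ) * (c s * conj (EE2 Ψ s)) := by ring
    rw [e]
    simp only [Complex.add_im, Complex.im_ofReal_mul, hai, hbi, hci]
    unfold gO gO1
    ring

lemma continuous_Kin (L : Leaf3 (D c₀) d' Ψ Y) {X : Type*} [TopologicalSpace X] {f : X → ℝ}
    {V : X → ℂ} (hf : Continuous f) (hV : Continuous V) :
    Continuous fun x => Kin (D c₀) Ψ Y (f x) (V x) := by
  have hd := L.d_cont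
  have hΨ := L.Ψ_cont
  have hY := L.Y_cont
  have hE : Continuous (EE2 Ψ) :=
    continuous_iff_continuousAt.2 fun s => (EE2_hasDerivAt L s).continuousAt
  have hAp : Continuous Ap := by unfold Ap; fun_prop
  have key : ∀ (g : X → ℝ), Continuous g → Continuous fun x =>
      Ap (D c₀ (Ψ (g x))) / Y (g x) * (V x * conj (EE2 Ψ (g x))).im ^ 2 := by
    intro g hg
    refine Continuous.mul (Continuous.div ?_ (hY.comp hg) fun x => (L.Y_pos _).ne') ?_
    · exact hAp.comp (hd.comp (hΨ.comp hg))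
    · exact (Complex.continuous_im.comp (hV.mul (Complex.continuous_conj.comp (hE.comp hg)))).pow 2
  unfold Kin
  exact ((key f hf).add (key _ (hf.add continuous_const))).add (key _ (hf.add continuous_const))

lemma Kin_smul (d Ψ Y : ℝ → ℝ) (s t : ℝ) (V : ℂ) :
    Kin d Ψ Y s ((t : ℂ) * V) = t ^ 2 * Kin d Ψ Y s V := by
  unfold Kin
  have e : ∀ W : ℂ, ((t : ℂ) * V * W).im = t * (V * W).im := fun W => by
    rw [mul_assoc, Complex.im_ofReal_mul]
  rw [e, e, e]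
  ring

lemma om_smul_smul (a b : ℂ) (t : ℝ) : om ((t : ℂ) * a) ((t : ℂ) * b) = t ^ 2 * om a b := by
  simp only [om_def, Complex.re_ofReal_mul, Complex.im_ofReal_mul]
  ring

lemma integral_om_const {u u' : ℝ → ℂ} (hu : ∀ s, HasDerivAt u (u' s) s) (hu'c : Continuous u')
    (hper : ∀ s, u (s + 2 * π) = u s) (C : ℂ) :
    ∫ s in (0:ℝ)..(2 * π), om C (u' s) = 0 := by
  have h1 : ∀ s, HasDerivAt (fun s => om C (u s)) (om C (u' s)) s := fun s => by
    have h3 : HasDerivAt (fun s => conj C * u s) (conj C * u' s) s := (hu s).const_mul _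
    exact (Complex.imCLM.hasFDerivAt (x := conj C * u s)).comp_hasDerivAt s h3
  have hcont : Continuous fun s => om C (u' s) := by
    unfold om
    exact Complex.continuous_im.comp (continuous_const.mul hu'c)
  rw [intervalIntegral.integral_eq_sub_of_hasDerivAt (fun s _ => h1 s)
    (hcont.intervalIntegrable _ _)]
  have := hper 0
  rw [zero_add] at this
  rw [this, sub_self]

/-- The energy form is nonnegative when the first coordinate is not zero. -/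
lemma Bir.form_nonneg_aux (B : Bir h h1 h2 P D) (hc₀ : c₀ ∈ Ioo (0:ℝ) 1)
    (L : Leaf3 (D c₀) d' Ψ Y) {u u' : ℝ → ℂ} (hu : ∀ s, HasDerivAt u (u' s) s)
    (hu'c : Continuous u') (hper : ∀ s, u (s + 2 * π) = u s) {x0 x1 x2 : ℝ} (hx0 : x0 ≠ 0)
    (him : ∀ s, (u s * conj (EE2 Ψ s)).im = x0 * (h (Ψ s) * h1 (Ψ s)) -
          (h1 (Ψ s) * gO x1 x2 (Ψ s) + h (Ψ s) * gO1 x1 x2 (Ψ s))) :
    0 ≤ ∫ s in (0:ℝ)..(2 * π), (π / 2 * om (u s) (u' s) - Kin (D c₀) Ψ Y s (u' s)) := by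
  obtain ⟨o1, ho1⟩ : ∃ o1, o1 = x1 / x0 := ⟨_, rfl⟩
  obtain ⟨o2, ho2⟩ : ∃ o2, o2 = x2 / x0 := ⟨_, rfl⟩
  obtain ⟨C, hC⟩ : ∃ C : ℂ, C = (((1 / 2 : ℝ) : ℂ) * ((o1 : ℂ) + o2 * Complex.I) ^ 2) :=
    ⟨_, rfl⟩
  have B' := B.translate o1 o2
  have hk := B'.hopf_nonneg hc₀
  have hυ : ∀ s, HasDerivAt (fun s => ((x0⁻¹ : ℝ) : ℂ) * u s + C) (((x0⁻¹ : ℝ) : ℂ) * u' s) s :=
    fun s => ((hu s).const_mul _).add_const C
  have hEn := L.energy B'.h_deriv B'.h1_deriv B'.h2_cont B'.h_per (B'.closes hc₀ L) hυ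
    (continuous_const.mul hu'c) (fun s => by simp only [hper]) (fun s => by
      rw [add_mul, Complex.add_im, hC, gO_mul_gO1, mul_assoc, Complex.im_ofReal_mul, him]
      have e1 : gO x1 x2 (Ψ s) = x0 * gO o1 o2 (Ψ s) := by
        unfold gO; rw [ho1, ho2]; field_simp
      have e2 : gO1 x1 x2 (Ψ s) = x0 * gO1 o1 o2 (Ψ s) := by
        unfold gO1; rw [ho1, ho2]; field_simp
      rw [e1, e2]
      field_simp
      ring)
  rw [hEn] at hk
  have hucont : Continuous u := continuous_iff_continuousAt.2 fun s => (hu s).continuousAt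
  have hK : Continuous fun s => Kin (D c₀) Ψ Y s (u' s) := continuous_Kin L continuous_id hu'c
  have homc : Continuous fun s => om (u s) (u' s) := by
    unfold om
    exact Complex.continuous_im.comp ((Complex.continuous_conj.comp hucont).mul hu'c)
  have homC : Continuous fun s => om C (u' s) := by
    unfold om
    exact Complex.continuous_im.comp (continuous_const.mul hu'c)
  have e3 : (∫ s in (0:ℝ)..(2 * π), (π / 2 * om (((x0⁻¹ : ℝ) : ℂ) * u s + C)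
      (((x0⁻¹ : ℝ) : ℂ) * u' s) - Kin (D c₀) Ψ Y s (((x0⁻¹ : ℝ) : ℂ) * u' s))) =
      ∫ s in (0:ℝ)..(2 * π), (x0⁻¹ ^ 2 * (π / 2 * om (u s) (u' s) - Kin (D c₀) Ψ Y s (u' s)) +
        π / 2 * x0⁻¹ * om C (u' s)) := by
    congr 1
    funext s
    rw [Kin_smul]
    have : om (((x0⁻¹ : ℝ) : ℂ) * u s + C) (((x0⁻¹ : ℝ) : ℂ) * u' s) =
        x0⁻¹ ^ 2 * om (u s) (u' s) + x0⁻¹ * om C (u' s) := by
      simp only [om_def, Complex.add_re, Complex.add_im, Complex.re_ofReal_mul,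
        Complex.im_ofReal_mul]
      ring
    rw [this]
    ring
  rw [e3, intervalIntegral.integral_add, intervalIntegral.integral_const_mul,
    intervalIntegral.integral_const_mul, integral_om_const hu hu'c hper, mul_zero, add_zero] at hk
  · have hpos : 0 < x0⁻¹ ^ 2 := by positivity
    exact nonneg_of_mul_nonneg_right hk hpos
  · exact (continuous_const.mul ((continuous_const.mul homc).sub hK)).intervalIntegrable _ _
  · exact (continuous_const.mul homC).intervalIntegrable _ _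

/-- The energy form is nonnegative on the space of curves. -/
lemma Bir.form_nonneg (B : Bir h h1 h2 P D) (hc₀ : c₀ ∈ Ioo (0:ℝ) 1)
    (L : Leaf3 (D c₀) d' Ψ Y) {υ υ' : Fin 3 → ℝ → ℂ} (hυ : ∀ j s, HasDerivAt (υ j) (υ' j s) s)
    (hυ'c : ∀ j, Continuous (υ' j)) (hper : ∀ j s, υ j (s + 2 * π) = υ j s)
    (him : ∀ (x : Fin 3 → ℝ) s, ((∑ j, (x j : ℂ) * υ j s) * conj (EE2 Ψ s)).im =
        x 0 * (h (Ψ s) * h1 (Ψ s)) -
          (h1 (Ψ s) * gO (x 1) (x 2) (Ψ s) + h (Ψ s) * gO1 (x 1) (x 2) (Ψ s)))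
    (x : Fin 3 → ℝ) :
    0 ≤ ∫ s in (0:ℝ)..(2 * π), (π / 2 * om (∑ j, (x j : ℂ) * υ j s) (∑ j, (x j : ℂ) * υ' j s) -
        Kin (D c₀) Ψ Y s (∑ j, (x j : ℂ) * υ' j s)) := by
  have hne : ∀ x : Fin 3 → ℝ, x 0 ≠ 0 → 0 ≤ ∫ s in (0:ℝ)..(2 * π),
      (π / 2 * om (∑ j, (x j : ℂ) * υ j s) (∑ j, (x j : ℂ) * υ' j s) -
        Kin (D c₀) Ψ Y s (∑ j, (x j : ℂ) * υ' j s)) := by
    intro x hx
    refine B.form_nonneg_aux hc₀ L (fun s => ?_) ?_ (fun s => ?_) hx (him x)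
    · exact HasDerivAt.fun_sum fun j _ => (hυ j s).const_mul _
    · exact continuous_finsetSum _ fun j _ => continuous_const.mul (hυ'c j)
    · simp only [hper]
  by_cases hx : x 0 = 0
  swap
  · exact hne x hx
  -- limit
  have hυc : ∀ j, Continuous (υ j) := fun j =>
    continuous_iff_continuousAt.2 fun s => (hυ j s).continuousAt
  have hcx : ∀ j : Fin 3, Continuous fun q : ℝ × ℝ => ((x j + q.1 : ℝ) : ℂ) := fun j =>
    Complex.continuous_ofReal.comp (continuous_const.add continuous_fst)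
  have hU : Continuous fun q : ℝ × ℝ => ∑ j, ((x j + q.1 : ℝ) : ℂ) * υ j q.2 :=
    continuous_finsetSum _ fun j _ => (hcx j).mul ((hυc j).comp continuous_snd)
  have hU' : Continuous fun q : ℝ × ℝ => ∑ j, ((x j + q.1 : ℝ) : ℂ) * υ' j q.2 :=
    continuous_finsetSum _ fun j _ => (hcx j).mul ((hυ'c j).comp continuous_snd)
  have hF : Continuous fun q : ℝ × ℝ =>
      π / 2 * om (∑ j, ((x j + q.1 : ℝ) : ℂ) * υ j q.2) (∑ j, ((x j + q.1 : ℝ) : ℂ) * υ' j q.2) -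
        Kin (D c₀) Ψ Y q.2 (∑ j, ((x j + q.1 : ℝ) : ℂ) * υ' j q.2) := by
    refine Continuous.sub (continuous_const.mul ?_) (continuous_Kin L continuous_snd hU')
    unfold om
    exact Complex.continuous_im.comp ((Complex.continuous_conj.comp hU).mul hU')
  have hI : Continuous fun t : ℝ => ∫ s in (0:ℝ)..(2 * π),
      (π / 2 * om (∑ j, ((x j + t : ℝ) : ℂ) * υ j s) (∑ j, ((x j + t : ℝ) : ℂ) * υ' j s) -
        Kin (D c₀) Ψ Y s (∑ j, ((x j + t : ℝ) : ℂ) * υ' j s)) :=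
    intervalIntegral.continuous_parametric_intervalIntegral_of_continuous' (f := fun t s =>
      (π / 2 * om (∑ j, ((x j + t : ℝ) : ℂ) * υ j s) (∑ j, ((x j + t : ℝ) : ℂ) * υ' j s) -
        Kin (D c₀) Ψ Y s (∑ j, ((x j + t : ℝ) : ℂ) * υ' j s))) hF 0 (2 * π)
  have hlim := (hI.tendsto 0).mono_left (nhdsWithin_le_nhds (s := {0}ᶜ))
  simp only [add_zero] at hlim
  refine ge_of_tendsto hlim ?_
  filter_upwards [self_mem_nhdsWithin] with t ht
  have := hne (fun j => x j + t) (by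
    simp only [hx, zero_add]
    exact ht)
  exact this

end Pool.Agent.MP_ae5b4e_an.Birk
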