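import Mathlib
import Pool.Agent.Lib.MP_ae5b4e_an.Birk.Weights
import Pool.Agent.Lib.MP_ae5b4e_an.Birk.ApLower

/-!
MP_ae5b4e_an, theorem on `3`-periodic leaves: the gauge inequality for the energy.
-/

noncomputable section

namespace Pool.Agent.MP_ae5b4e_an.Birk

open Real Set Filter Topology MeasureTheory ComplexConjugate

variable {d d' Ψ Y : ℝ → ℝ}

lemma al_le_Ap {t y z : ℝ} (ht : t ∈ Ioo 0 (π / 2))
    (he : cos t / sin t * y + y * z + z * (cos t / sin t) = 1) (hy : 0 < y) (hz : 0 < z) :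
    π / 4 * al (cos t / sin t) y z ≤ Ap t := by
  have hs : 0 < sin t := Real.sin_pos_of_pos_of_lt_pi ht.1 (by linarith [ht.2, pi_pos])
  have hc : 0 < cos t := Real.cos_pos_of_mem_Ioo ⟨by linarith [ht.1, pi_pos], ht.2⟩
  have h1 := Ap_ge (t := t) ⟨ht.1.le, ht.2.le⟩
  refine le_trans (le_of_eq ?_) h1
  have hx : 0 < cos t / sin t := div_pos hc hs
  have h2 : (cos t / sin t + z) * (cos t / sin t + y) = 1 / sin t ^ 2 := by
    have h3 : (cos t / sin t + z) * (cos t / sin t + y) = (cos t / sin t) ^ 2 + 1 := by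
      linear_combination he
    rw [h3]
    have := sin_sq_add_cos_sq t
    field_simp
    linarith
  unfold al
  rw [he]
  have h4 : 4 * ((y + z) * (cos t / sin t + z) * (cos t / sin t + y)) ^ 3 =
      4 * (y + z) ^ 3 * (1 / sin t ^ 2) ^ 3 := by
    rw [← h2]; ring
  rw [h4]
  have h5 := sin_sq_add_cos_sq t
  have h6 : y + z ≠ 0 := by positivity
  field_simp
  linear_combination (32 : ℝ) * h5

/-- The gauge inequality. -/
theorem Leaf3.gauge (L : Leaf3 d d' Ψ Y) {h h1 h2 : ℝ → ℝ}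
    (hh : ∀ t, HasDerivAt h (h1 t) t)
    (hh1 : ∀ t, HasDerivAt h1 (h2 t) t) (hρ : ∀ t, 0 < h t + h2 t)
    (hper : ∀ t, h (t + 2 * π) = h t)
    (h1per : ∀ t, h1 (t + 2 * π) = h1 t) (hc : Closes d Ψ h h1) :
    ∃ (β : ℝ → ℝ) (κ : ℝ → ℂ) (β' : ℝ → ℝ) (κ' : ℝ → ℂ),
      (∀ s, HasDerivAt β (β' s) s) ∧ (∀ s, HasDerivAt κ (κ' s) s) ∧ Continuous β' ∧
      Continuous κ' ∧ (∀ s, β (s + 2 * π) = β s) ∧ (∀ s, κ (s + 2 * π) = κ s) ∧
      (∀ s, 0 < β s) ∧ (∀ s, β s ^ 2 - ‖κ s‖ ^ 2 = 1) ∧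
      ∀ (s : ℝ) (b V : ℂ), π * om (β s * b + κ s * conj b) V ≤
        Kin d Ψ Y s V + π / 2 * (15 / 8 * ‖b‖ ^ 2 +
          om (β s * b + κ s * conj b) (β' s * b + κ' s * conj b)) := by
  refine gauge_of_zeta (ζ := ze d Ψ) (ζ' := zed d Ψ Y) (ze_hasDerivAt L) (zed_cont L) (ze_per L)
    ?_ (Kin d Ψ Y) (15 / 8) ?_
  · intro s
    have hS := L.shape s
    have := zeta_norm hS
    unfold ze
    rw [this]
    have := EE_pos hS.hx hS.hy hS.hz
    have := hS.hx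
    have := hS.hy
    have := hS.hz
    positivity
  · intro s a V
    have hS := L.shape s
    obtain ⟨w1, w2, w3, p1, p2, p3, q1, q2, q3⟩ := L.weights hh hh1 hρ hper h1per hc s
    have hY := L.Y_sum s
    have he := hS.he
    have hA1 : π / 4 * al (ct d Ψ s) (ct d Ψ (s + 2 * π)) (ct d Ψ (s + 4 * π)) ≤
        Ap (d (Ψ s)) := al_le_Ap (L.d_mem _) he hS.hy hS.hz
    have hA2 : π / 4 * al (ct d Ψ (s + 2 * π)) (ct d Ψ (s + 4 * π)) (ct d Ψ s) ≤
        Ap (d (Ψ (s + 2 * π))) := al_le_Ap (L.d_mem _) hS.cyc.he hS.hz hS.hx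
    have hA3 : π / 4 * al (ct d Ψ (s + 4 * π)) (ct d Ψ s) (ct d Ψ (s + 2 * π)) ≤
        Ap (d (Ψ (s + 4 * π))) := al_le_Ap (L.d_mem _) hS.cyc.cyc.he hS.hx hS.hy
    have key := pointwise_alg hS p1 p2 p3 q1 q2 q3 (y1 := Y s) (y2 := Y (s + 2 * π))
      (y3 := Y (s + 4 * π)) (by linarith) (by linarith) (by linarith) (L.Y_pos _) (L.Y_pos _)
      (L.Y_pos _) hA1 hA2 hA3 a V
    unfold Rf at key
    rw [show 1 - 2 * Y s + (1 - 2 * Y (s + 2 * π)) + (1 - 2 * Y (s + 4 * π)) = 1 by linarith,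
      mul_one] at key
    exact key

end Pool.Agent.MP_ae5b4e_an.Birk
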