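import Mathlib
import Pool.Agent.Lib.MP_ae5b4e_an.Birk.Defs

/-!
MP_ae5b4e_an, module W: a Wirtinger-type inequality for the area of closed curves, by Parseval's
identity.
-/

noncomputable section

namespace Pool.Agent.MP_ae5b4e_an.Birk

open Real Set Filter Topology MeasureTheory ComplexConjugate

/-- The (unnormalised) Fourier coefficient over one period. -/
def ft (f : ℝ → ℂ) (k : ℤ) : ℂ :=
  ∫ s in (0:ℝ)..(2 * π), Complex.exp (-(k * s * Complex.I)) * f s

lemma ft_natCast (f : ℝ → ℂ) (k : ℕ) :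
    ft f (k : ℤ) = ∫ s in (0:ℝ)..(2 * π), Complex.exp (-(k * s * Complex.I)) * f s := by
  simp [ft]

lemma cont_exp (k : ℤ) : Continuous fun s : ℝ => Complex.exp (-(k * s * Complex.I)) := by
  fun_prop

lemma ft_add {f g : ℝ → ℂ} (hf : Continuous f) (hg : Continuous g) (k : ℤ) :
    ft (fun s => f s + g s) k = ft f k + ft g k := by
  unfold ft
  rw [← intervalIntegral.integral_add]
  · congr 1; ext s; ring
  · exact ((cont_exp k).mul hf).intervalIntegrable _ _
  · exact ((cont_exp k).mul hg).intervalIntegrable _ _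

lemma ft_sub {f g : ℝ → ℂ} (hf : Continuous f) (hg : Continuous g) (k : ℤ) :
    ft (fun s => f s - g s) k = ft f k - ft g k := by
  unfold ft
  rw [← intervalIntegral.integral_sub]
  · congr 1; ext s; ring
  · exact ((cont_exp k).mul hf).intervalIntegrable _ _
  · exact ((cont_exp k).mul hg).intervalIntegrable _ _

lemma ft_const_mul (c : ℂ) (f : ℝ → ℂ) (k : ℤ) :
    ft (fun s => c * f s) k = c * ft f k := by
  unfold ft
  rw [← intervalIntegral.integral_const_mul]
  congr 1; ext s; ring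

/-- Parseval's identity for a continuous function. -/
lemma parseval {f : ℝ → ℂ} (hf : Continuous f) :
    HasSum (fun k : ℤ => ‖ft f k‖ ^ 2) (2 * π * ∫ s in (0:ℝ)..(2 * π), ‖f s‖ ^ 2) := by
  have hab : (0:ℝ) < 2 * π := by positivity
  have hL2 : MemLp f 2 (volume.restrict (Ioc (0:ℝ) (2 * π))) := by
    have h1 : MemLp f 2 (volume.restrict (Icc (0:ℝ) (2 * π))) := by
      obtain ⟨C, hC⟩ := isCompact_Icc.exists_bound_of_continuousOn
        (s := Icc (0:ℝ) (2 * π)) hf.continuousOn
      refine MemLp.of_bound hf.aestronglyMeasurable C ?_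
      exact (ae_restrict_iff' measurableSet_Icc).2 (ae_of_all _ hC)
    exact h1.mono_measure (Measure.restrict_mono Ioc_subset_Icc_self le_rfl)
  have h := hasSum_sq_fourierCoeffOn hab hL2
  have hc : ∀ k : ℤ, fourierCoeffOn hab f k = ((2 * π : ℝ) : ℂ)⁻¹ * ft f k := by
    intro k
    rw [fourierCoeffOn_eq_integral]
    have : (1 / (2 * π - 0) : ℝ) • (∫ x in (0:ℝ)..(2 * π),
        (fourier (-k) (x : AddCircle (2 * π - 0))) • f x) =
        ((2 * π : ℝ) : ℂ)⁻¹ * ∫ x in (0:ℝ)..(2 * π),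
        (fourier (-k) (x : AddCircle (2 * π - 0))) • f x := by
      rw [Complex.real_smul]
      simp
    rw [this]
    unfold ft
    congr 1
    apply intervalIntegral.integral_congr
    intro x _
    simp only
    rw [fourier_coe_apply, smul_eq_mul]
    congr 2
    push_cast
    have hpi : (π : ℂ) ≠ 0 := by exact_mod_cast Real.pi_ne_zero
    field_simp
    ring
  have h2 := h.mul_left ((2 * π) ^ 2)
  have e1 : (fun k : ℤ => ‖ft f k‖ ^ 2) =
      fun i : ℤ => (2 * π) ^ 2 * ‖fourierCoeffOn hab f i‖ ^ 2 := by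
    funext k
    rw [hc, norm_mul, norm_inv, Complex.norm_real, Real.norm_of_nonneg hab.le, mul_pow]
    field_simp
  have e2 : 2 * π * ∫ s in (0:ℝ)..(2 * π), ‖f s‖ ^ 2 =
      (2 * π) ^ 2 * (2 * π - 0)⁻¹ • ∫ s in (0:ℝ)..(2 * π), ‖f s‖ ^ 2 := by
    rw [sub_zero, smul_eq_mul]
    field_simp
  rw [e1, e2]
  exact h2

/-- Integration by parts for Fourier coefficients of a periodic function. -/
lemma ft_deriv {f f' : ℝ → ℂ} (hf : ∀ s, HasDerivAt f (f' s) s) (hf' : Continuous f')
    (hper : f (2 * π) = f 0) (k : ℤ) : ft f' k = (k * Complex.I) * ft f k := by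
  have hfc : Continuous f := continuous_iff_continuousAt.2 fun s => (hf s).continuousAt
  have h1 : ∀ s : ℝ, HasDerivAt (fun s : ℝ => Complex.exp (-(k * s * Complex.I)))
      (Complex.exp (-(k * s * Complex.I)) * (-(k * Complex.I))) s := by
    intro s
    have h2 : HasDerivAt (fun s : ℝ => (-(k * s * Complex.I) : ℂ)) (-(k * Complex.I)) s := by
      have h3 : HasDerivAt (fun s : ℝ => (s : ℂ)) 1 s := Complex.ofRealCLM.hasDerivAt
      have h4 := ((h3.const_mul (k : ℂ)).mul_const Complex.I).neg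
      rw [mul_one] at h4
      exact h4
    exact h2.cexp
  have h5 : ∫ s in (0:ℝ)..(2 * π), (Complex.exp (-(k * s * Complex.I)) * (-(k * Complex.I)) * f s +
      Complex.exp (-(k * s * Complex.I)) * f' s) = 0 := by
    rw [intervalIntegral.integral_eq_sub_of_hasDerivAt
      (f := fun s => Complex.exp (-(k * s * Complex.I)) * f s)
      (fun s _ => (h1 s).mul (hf s))]
    · have h6 : Complex.exp (-(k * ((2 * π : ℝ) : ℂ) * Complex.I)) = 1 := by
        rw [Complex.exp_eq_one_iff]
        exact ⟨-k, by push_cast; ring⟩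
      have h7 : Complex.exp (-(k * ((0 : ℝ) : ℂ) * Complex.I)) = 1 := by simp
      simp only [h6, h7, hper, sub_self]
    · exact Continuous.intervalIntegrable (by fun_prop) _ _
  rw [intervalIntegral.integral_add] at h5
  · unfold ft
    have h8 : ∫ s in (0:ℝ)..(2 * π), Complex.exp (-(k * s * Complex.I)) * (-(k * Complex.I)) * f s =
        -(k * Complex.I) * ∫ s in (0:ℝ)..(2 * π), Complex.exp (-(k * s * Complex.I)) * f s := by
      rw [← intervalIntegral.integral_const_mul]
      congr 1; ext s; ring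
    rw [h8] at h5
    linear_combination h5
  · exact Continuous.intervalIntegrable (by fun_prop) _ _
  · exact Continuous.intervalIntegrable (by fun_prop) _ _

lemma norm_sq_sub (a b : ℂ) (m : ℝ) :
    ‖b - Complex.I * (m / 2) * a‖ ^ 2 = ‖b‖ ^ 2 + m ^ 2 / 4 * ‖a‖ ^ 2 - m * om a b := by
  rw [om_def, ← Complex.normSq_eq_norm_sq, ← Complex.normSq_eq_norm_sq,
    ← Complex.normSq_eq_norm_sq, Complex.normSq_apply, Complex.normSq_apply, Complex.normSq_apply]
  simp
  ring

lemma continuous_om {f g : ℝ → ℂ} (hf : Continuous f) (hg : Continuous g) :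
    Continuous fun s => om (f s) (g s) := by
  unfold om
  exact Complex.continuous_im.comp ((Complex.continuous_conj.comp hf).mul hg)

theorem wirtinger_area (m : ℕ) (hm : 1 ≤ m) (e e' : ℝ → ℂ) (he : ∀ s, HasDerivAt e (e' s) s)
    (he'c : Continuous e') (hper : ∀ s, e (s + 2 * π) = e s)
    (hmode : ∀ k : ℕ, 1 ≤ k → k ≤ 2 * m - 1 →
      ∫ s in (0:ℝ)..(2 * π), Complex.exp (-(k * s * Complex.I)) * e s = 0) :
    ∃ c : ℂ, (∫ s in (0:ℝ)..(2 * π), ‖e s - c‖ ^ 2) + (∫ s in (0:ℝ)..(2 * π), om (e s) (e' s)) ≤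
      (1 / m) * ∫ s in (0:ℝ)..(2 * π), ‖e' s‖ ^ 2 := by
  have hec : Continuous e := continuous_iff_continuousAt.2 fun s => (he s).continuousAt
  have hper0 : e (2 * π) = e 0 := by simpa using hper 0
  have hpi : (0:ℝ) < 2 * π := by positivity
  have hmpos : (0:ℝ) < m := by exact_mod_cast hm
  refine ⟨((2 * π : ℝ) : ℂ)⁻¹ * ft e 0, ?_⟩
  set c : ℂ := ((2 * π : ℝ) : ℂ)⁻¹ * ft e 0 with hc
  -- the mean
  have hmean : 2 * π * ∫ s in (0:ℝ)..(2 * π), ‖e s - c‖ ^ 2 =
      2 * π * (∫ s in (0:ℝ)..(2 * π), ‖e s‖ ^ 2) - ‖ft e 0‖ ^ 2 := by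
    have hft0 : ft e 0 = ∫ s in (0:ℝ)..(2 * π), e s := by simp [ft]
    have h1 : ∀ s, ‖e s - c‖ ^ 2 = ‖e s‖ ^ 2 - 2 * (conj c * e s).re + ‖c‖ ^ 2 := by
      intro s
      rw [← Complex.normSq_eq_norm_sq, ← Complex.normSq_eq_norm_sq,
        ← Complex.normSq_eq_norm_sq, Complex.normSq_apply, Complex.normSq_apply,
        Complex.normSq_apply]
      simp
      ring
    simp_rw [h1]
    rw [intervalIntegral.integral_add, intervalIntegral.integral_sub]
    · have h2 : ∫ s in (0:ℝ)..(2 * π), 2 * (conj c * e s).re = 2 * (conj c * ft e 0).re := by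
        rw [intervalIntegral.integral_const_mul]
        congr 1
        have h3 : ∫ s in (0:ℝ)..(2 * π), (conj c * e s).re =
            (∫ s in (0:ℝ)..(2 * π), conj c * e s).re := by
          have := Complex.reCLM.intervalIntegral_comp_comm (μ := volume) (a := 0) (b := 2 * π)
            (f := fun s => conj c * e s)
            (Continuous.intervalIntegrable (by fun_prop) _ _)
          simpa using this
        rw [h3, intervalIntegral.integral_const_mul, hft0]
      rw [h2, intervalIntegral.integral_const]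
      have h4 : ft e 0 = ((2 * π : ℝ) : ℂ) * c := by
        rw [hc, ← mul_assoc, mul_inv_cancel₀ (by exact_mod_cast hpi.ne'), one_mul]
      have h5 : (conj c * ft e 0).re = 2 * π * ‖c‖ ^ 2 := by
        rw [h4, ← Complex.normSq_eq_norm_sq, Complex.normSq_apply]
        simp
        ring
      have h6 : ‖ft e 0‖ ^ 2 = (2 * π) ^ 2 * ‖c‖ ^ 2 := by
        rw [h4, norm_mul, mul_pow, Complex.norm_real, Real.norm_of_nonneg hpi.le]
      rw [h5, h6]
      simp only [sub_zero, smul_eq_mul]
      ring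
    · exact Continuous.intervalIntegrable (by fun_prop) _ _
    · exact Continuous.intervalIntegrable (by
        exact continuous_const.mul (Complex.continuous_re.comp (continuous_const.mul hec))) _ _
    · exact Continuous.intervalIntegrable (by
        exact (hec.norm.pow 2).sub (continuous_const.mul
          (Complex.continuous_re.comp (continuous_const.mul hec)))) _ _
    · exact Continuous.intervalIntegrable (by fun_prop) _ _
  -- the function `g = e' - i (m/2) e`
  have hgc : Continuous fun s => e' s - Complex.I * (m / 2) * e s := by fun_prop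
  have hgft : ∀ k : ℤ, ‖ft (fun s => e' s - Complex.I * (m / 2) * e s) k‖ ^ 2 =
      ((k : ℝ) - m / 2) ^ 2 * ‖ft e k‖ ^ 2 := by
    intro k
    rw [ft_sub he'c (by fun_prop) k, ft_const_mul, ft_deriv he he'c hper0 k]
    have : (k : ℂ) * Complex.I * ft e k - Complex.I * (m / 2) * ft e k =
        Complex.I * (((k : ℝ) - m / 2 : ℝ) : ℂ) * ft e k := by
      push_cast; ring
    rw [this, norm_mul, norm_mul, Complex.norm_I, one_mul, Complex.norm_real, mul_pow,
      Real.norm_eq_abs, sq_abs]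
  have hP1 := parseval hgc
  have hP0 := parseval hec
  have hP00 : HasSum (fun k : ℤ => if k = 0 then ‖ft e 0‖ ^ 2 else 0) (‖ft e 0‖ ^ 2) :=
    hasSum_ite_eq 0 _
  simp_rw [hgft] at hP1
  have hS := (hP1.sub (hP0.mul_left (((m:ℝ)) ^ 2 / 4))).sub ((hP0.sub hP00).mul_left (m:ℝ))
  have hnn := hS.nonneg (fun k => by
    by_cases hk0 : k = 0
    · subst hk0
      simp only [if_true, Int.cast_zero]
      ring_nf
      exact le_rfl
    · simp only [hk0, if_false]
      by_cases hk : 1 ≤ k ∧ k ≤ 2 * (m:ℤ) - 1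
      · have hz : ft e k = 0 := by
          obtain ⟨j, rfl⟩ := Int.eq_ofNat_of_zero_le (by omega : (0:ℤ) ≤ k)
          have := hmode j (by omega) (by omega)
          rw [ft_natCast]
          exact this
        rw [hz]; simp
      · have hcoef : 0 ≤ ((k : ℝ) - m / 2) ^ 2 - (m:ℝ) ^ 2 / 4 - m := by
          have hk' : k ≤ -1 ∨ 2 * (m:ℤ) ≤ k := by omega
          rcases hk' with h | h
          · have h' : (k:ℝ) ≤ -1 := by exact_mod_cast h
            nlinarith
          · have h' : 2 * (m:ℝ) ≤ k := by exact_mod_cast h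
            have hm1 : (1:ℝ) ≤ m := by exact_mod_cast hm
            nlinarith
        have := mul_nonneg hcoef (sq_nonneg ‖ft e k‖)
        nlinarith)
  have hg2 : ∫ s in (0:ℝ)..(2 * π), ‖e' s - Complex.I * (m / 2) * e s‖ ^ 2 =
      (∫ s in (0:ℝ)..(2 * π), ‖e' s‖ ^ 2) + (m:ℝ) ^ 2 / 4 * (∫ s in (0:ℝ)..(2 * π), ‖e s‖ ^ 2) -
        m * ∫ s in (0:ℝ)..(2 * π), om (e s) (e' s) := by
    have h1 : ∀ s, ‖e' s - Complex.I * (m / 2) * e s‖ ^ 2 =
        ‖e' s‖ ^ 2 + (m:ℝ) ^ 2 / 4 * ‖e s‖ ^ 2 - m * om (e s) (e' s) := fun s => by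
      have := norm_sq_sub (e s) (e' s) m
      simpa using this
    simp_rw [h1]
    rw [intervalIntegral.integral_sub, intervalIntegral.integral_add,
      intervalIntegral.integral_const_mul, intervalIntegral.integral_const_mul]
    · exact Continuous.intervalIntegrable (by fun_prop) _ _
    · exact Continuous.intervalIntegrable (by fun_prop) _ _
    · exact Continuous.intervalIntegrable (by fun_prop) _ _
    · exact Continuous.intervalIntegrable (continuous_const.mul (continuous_om hec he'c)) _ _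
  rw [hg2] at hnn
  have key : (m:ℝ) * ((∫ s in (0:ℝ)..(2 * π), ‖e s - c‖ ^ 2) +
      ∫ s in (0:ℝ)..(2 * π), om (e s) (e' s)) ≤ ∫ s in (0:ℝ)..(2 * π), ‖e' s‖ ^ 2 := by
    have h9 : 0 ≤ 2 * π * ((∫ s in (0:ℝ)..(2 * π), ‖e' s‖ ^ 2) -
        m * ((∫ s in (0:ℝ)..(2 * π), ‖e s - c‖ ^ 2) +
      ∫ s in (0:ℝ)..(2 * π), om (e s) (e' s))) := by
      have : 2 * π * ((∫ s in (0:ℝ)..(2 * π), ‖e' s‖ ^ 2) -
        m * ((∫ s in (0:ℝ)..(2 * π), ‖e s - c‖ ^ 2) +
        ∫ s in (0:ℝ)..(2 * π), om (e s) (e' s))) =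
        2 * π * (∫ s in (0:ℝ)..(2 * π), ‖e' s‖ ^ 2) -
          m * (2 * π * (∫ s in (0:ℝ)..(2 * π), ‖e s - c‖ ^ 2)) -
          m * (2 * π * ∫ s in (0:ℝ)..(2 * π), om (e s) (e' s)) := by ring
      rw [this, hmean]
      linarith
    have h10 := (mul_nonneg_iff_of_pos_left hpi).1 h9
    linarith
  rw [one_div, inv_mul_eq_div, le_div_iff₀ hmpos]
  linarith

end Pool.Agent.MP_ae5b4e_an.Birk
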