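import Mathlib
import Pool.Agent.Lib.MP_ae5b4e_an.Birk.Defs
import Pool.Agent.Lib.MP_ae5b4e_an.Birk.Wirt

/-!
MP_ae5b4e_an, module I: the index lemma, by a Galerkin argument.
-/

noncomputable section

namespace Pool.Agent.MP_ae5b4e_an.Birk

open Real Set Filter Topology MeasureTheory ComplexConjugate

/-! ### Integrals of real and imaginary parts -/

lemma int_re {f : ℝ → ℂ} (hf : Continuous f) :
    ∫ s in (0:ℝ)..(2 * π), (f s).re = (∫ s in (0:ℝ)..(2 * π), f s).re := by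
  have := Complex.reCLM.intervalIntegral_comp_comm (μ := volume) (a := 0) (b := 2 * π)
    (f := f) (hf.intervalIntegrable _ _)
  simpa using this

lemma int_im {f : ℝ → ℂ} (hf : Continuous f) :
    ∫ s in (0:ℝ)..(2 * π), (f s).im = (∫ s in (0:ℝ)..(2 * π), f s).im := by
  have := Complex.imCLM.intervalIntegral_comp_comm (μ := volume) (a := 0) (b := 2 * π)
    (f := f) (hf.intervalIntegrable _ _)
  simpa using this

/-! ### Trigonometric polynomials with modes `2, ..., N + 1` -/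

/-- The trigonometric polynomial with modes `2, ..., N + 1` and coefficients `c`. -/
def tp {N : ℕ} (c : Fin N → ℂ) (s : ℝ) : ℂ :=
  ∑ i, c i * Complex.exp (((i : ℕ) + 2 : ℂ) * s * Complex.I)

/-- The coefficients of the derivative. -/
def dc {N : ℕ} (c : Fin N → ℂ) : Fin N → ℂ := fun i => c i * (((i : ℕ) + 2 : ℂ) * Complex.I)

lemma tp_cont {N : ℕ} (c : Fin N → ℂ) : Continuous (tp c) := by
  unfold tp
  fun_prop

lemma tp_hasDerivAt {N : ℕ} (c : Fin N → ℂ) (s : ℝ) : HasDerivAt (tp c) (tp (dc c) s) s := by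
  unfold tp
  have h : ∀ i ∈ (Finset.univ : Finset (Fin N)),
      HasDerivAt (fun s : ℝ => c i * Complex.exp (((i : ℕ) + 2 : ℂ) * s * Complex.I))
        (dc c i * Complex.exp (((i : ℕ) + 2 : ℂ) * s * Complex.I)) s := by
    intro i _
    have h3 : HasDerivAt (fun s : ℝ => (s : ℂ)) 1 s := Complex.ofRealCLM.hasDerivAt
    have h4 := (((h3.const_mul ((i : ℕ) + 2 : ℂ)).mul_const Complex.I).cexp).const_mul (c i)
    exact h4.congr_deriv (by unfold dc; ring)
  exact HasDerivAt.fun_sum h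

lemma tp_per {N : ℕ} (c : Fin N → ℂ) (s : ℝ) : tp c (s + 2 * π) = tp c s := by
  unfold tp
  apply Finset.sum_congr rfl
  intro i _
  congr 1
  rw [Complex.exp_eq_exp_iff_exists_int]
  refine ⟨(i : ℕ) + 2, ?_⟩
  push_cast
  ring

lemma ft_exp (k l : ℤ) : ft (fun s => Complex.exp (l * s * Complex.I)) k =
    if k = l then ((2 * π : ℝ) : ℂ) else 0 := by
  unfold ft
  have h1 : ∀ s : ℝ, Complex.exp (-(k * s * Complex.I)) * Complex.exp (l * s * Complex.I) =
      Complex.exp ((((l - k : ℤ) : ℂ) * Complex.I) * s) := by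
    intro s
    rw [← Complex.exp_add]
    congr 1
    push_cast
    ring
  simp_rw [h1]
  by_cases h : k = l
  · simp [h]
  · rw [if_neg h, integral_exp_mul_complex]
    · have h2 : Complex.exp ((((l - k : ℤ) : ℂ) * Complex.I) * ((2 * π : ℝ) : ℂ)) = 1 := by
        rw [Complex.exp_eq_one_iff]
        exact ⟨l - k, by push_cast; ring⟩
      rw [h2]
      simp
    · intro h0
      rcases mul_eq_zero.1 h0 with h0 | h0
      · have : l - k = 0 := by exact_mod_cast h0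
        omega
      · exact Complex.I_ne_zero h0

lemma ft_tp {N : ℕ} (c : Fin N → ℂ) (j : Fin N) :
    ft (tp c) (((j : ℕ) : ℤ) + 2) = ((2 * π : ℝ) : ℂ) * c j := by
  have h1 : ft (tp c) (((j : ℕ) : ℤ) + 2) =
      ∑ i, c i * ft (fun s => Complex.exp (((((i : ℕ) : ℤ) + 2 : ℤ) : ℂ) * s * Complex.I))
        (((j : ℕ) : ℤ) + 2) := by
    unfold ft tp
    simp_rw [← intervalIntegral.integral_const_mul]
    rw [← intervalIntegral.integral_finsetSum]
    · congr 1
      ext s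
      rw [Finset.mul_sum]
      apply Finset.sum_congr rfl
      intro i _
      push_cast
      ring
    · intro i _
      exact Continuous.intervalIntegrable (by fun_prop) _ _
  rw [h1]
  simp_rw [ft_exp]
  rw [Finset.sum_eq_single j]
  · simp; ring
  · intro i _ hij
    rw [if_neg, mul_zero]
    intro h
    apply hij
    ext
    omega
  · intro h; exact absurd (Finset.mem_univ j) h

lemma int_conj_tp_mul {N : ℕ} (c : Fin N → ℂ) {g : ℝ → ℂ} (hg : Continuous g) :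
    ∫ s in (0:ℝ)..(2 * π), conj (tp c s) * g s =
      ∑ i : Fin N, conj (c i) * ft g (((i : ℕ) : ℤ) + 2) := by
  unfold ft tp
  simp_rw [← intervalIntegral.integral_const_mul]
  rw [← intervalIntegral.integral_finsetSum]
  · congr 1
    ext s
    rw [map_sum, Finset.sum_mul]
    apply Finset.sum_congr rfl
    intro i _
    rw [map_mul, ← Complex.exp_conj]
    simp only [map_mul, Complex.conj_I, Complex.conj_ofReal, map_add, map_natCast, map_ofNat]
    push_cast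
    rw [mul_assoc]
    congr 3
    ring
  · intro i _
    exact Continuous.intervalIntegrable (by fun_prop) _ _

lemma int_norm_tp {N : ℕ} (c : Fin N → ℂ) :
    ∫ s in (0:ℝ)..(2 * π), ‖tp c s‖ ^ 2 = 2 * π * ∑ i, ‖c i‖ ^ 2 := by
  have h := int_conj_tp_mul c (tp_cont c)
  simp_rw [ft_tp, Complex.conj_mul'] at h
  have h2 : ∑ i : Fin N, conj (c i) * (((2 * π : ℝ) : ℂ) * c i) =
      ((2 * π * ∑ i, ‖c i‖ ^ 2 : ℝ) : ℂ) := by
    push_cast
    rw [Finset.mul_sum]
    apply Finset.sum_congr rfl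
    intro i _
    rw [← Complex.conj_mul']
    ring
  rw [h2] at h
  have h3 : ∫ s in (0:ℝ)..(2 * π), ((‖tp c s‖ : ℂ) ^ 2) =
      ((∫ s in (0:ℝ)..(2 * π), ‖tp c s‖ ^ 2 : ℝ) : ℂ) := by
    rw [← intervalIntegral.integral_ofReal]
    congr 1
    ext s
    push_cast
    rfl
  rw [h3] at h
  exact_mod_cast h

lemma int_om_tp {N : ℕ} (c : Fin N → ℂ) :
    ∫ s in (0:ℝ)..(2 * π), om (tp c s) (tp (dc c) s) =
      2 * π * ∑ i : Fin N, ((i : ℕ) + 2 : ℝ) * ‖c i‖ ^ 2 := by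
  have h := int_conj_tp_mul c (tp_cont (dc c))
  simp_rw [ft_tp] at h
  have h2 : ∑ i : Fin N, conj (c i) * (((2 * π : ℝ) : ℂ) * dc c i) =
      ((2 * π * ∑ i : Fin N, ((i : ℕ) + 2 : ℝ) * ‖c i‖ ^ 2 : ℝ) : ℂ) * Complex.I := by
    push_cast
    rw [Finset.mul_sum, Finset.sum_mul]
    apply Finset.sum_congr rfl
    intro i _
    rw [← Complex.conj_mul']
    unfold dc
    ring
  rw [h2] at h
  unfold om
  rw [int_im (f := fun s => conj (tp c s) * tp (dc c) s)
    ((Complex.continuous_conj.comp (tp_cont c)).mul (tp_cont (dc c))), h]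
  simp [-Complex.ofReal_sum]

lemma int_om_tp_ge {N : ℕ} (c : Fin N → ℂ) :
    2 * ∫ s in (0:ℝ)..(2 * π), ‖tp c s‖ ^ 2 ≤
      ∫ s in (0:ℝ)..(2 * π), om (tp c s) (tp (dc c) s) := by
  rw [int_om_tp, int_norm_tp]
  have hpi : (0:ℝ) < 2 * π := by positivity
  have : 2 * ∑ i : Fin N, ‖c i‖ ^ 2 ≤ ∑ i : Fin N, ((i : ℕ) + 2 : ℝ) * ‖c i‖ ^ 2 := by
    rw [Finset.mul_sum]
    apply Finset.sum_le_sum
    intro i _
    apply mul_le_mul_of_nonneg_right _ (sq_nonneg _)
    have : (0:ℝ) ≤ ((i : ℕ) : ℝ) := Nat.cast_nonneg _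
    linarith
  nlinarith

/-! ### Algebra of the form `om` -/

lemma om_BB (β : ℝ) (κ a b : ℂ) (h : β ^ 2 - ‖κ‖ ^ 2 = 1) :
    om (β * a + κ * conj a) (β * b + κ * conj b) = om a b := by
  rw [← Complex.normSq_eq_norm_sq, Complex.normSq_apply] at h
  rw [om_def, om_def]
  simp
  linear_combination (a.re * b.im - a.im * b.re) * h

lemma re_B (β : ℝ) (κ b : ℂ) (hβ : 0 < β) (h : β ^ 2 - ‖κ‖ ^ 2 = 1) {M : ℝ} (hM : β ≤ M) :
    ‖b‖ ^ 2 / (2 * M) ≤ (conj b * (β * b + κ * conj b)).re := by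
  have hM0 : 0 < M := lt_of_lt_of_le hβ hM
  have hκ : ‖κ‖ < β := by
    have : ‖κ‖ ^ 2 < β ^ 2 := by linarith
    exact lt_of_pow_lt_pow_left₀ 2 hβ.le this
  have h1 : (conj b * (β * b + κ * conj b)).re = β * ‖b‖ ^ 2 + (κ * (conj b) ^ 2).re := by
    rw [← Complex.normSq_eq_norm_sq, Complex.normSq_apply]
    simp [pow_two]
    ring
  have h2 : -(‖κ‖ * ‖b‖ ^ 2) ≤ (κ * (conj b) ^ 2).re := by
    have h3 := Complex.abs_re_le_norm (κ * (conj b) ^ 2)
    rw [norm_mul, norm_pow, Complex.norm_conj] at h3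
    exact (abs_le.1 h3).1
  rw [h1]
  have h4 : 1 / (2 * M) ≤ β - ‖κ‖ := by
    rw [div_le_iff₀ (by positivity)]
    have h5 : (β - ‖κ‖) * (β + ‖κ‖) = 1 := by ring_nf; linarith
    have h6 : 0 < β - ‖κ‖ := by linarith
    calc 1 = (β - ‖κ‖) * (β + ‖κ‖) := h5.symm
      _ ≤ (β - ‖κ‖) * (2 * M) := by
        apply mul_le_mul_of_nonneg_left _ h6.le
        linarith
  have h7 : ‖b‖ ^ 2 / (2 * M) = 1 / (2 * M) * ‖b‖ ^ 2 := by ring
  rw [h7]
  have h8 := mul_le_mul_of_nonneg_right h4 (sq_nonneg ‖b‖)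
  linarith

lemma norm_B_le (β : ℝ) (κ b : ℂ) {M : ℝ} (h : |β| + ‖κ‖ ≤ M) :
    ‖β * b + κ * conj b‖ ≤ M * ‖b‖ := by
  calc ‖β * b + κ * conj b‖ ≤ ‖(β : ℂ) * b‖ + ‖κ * conj b‖ := norm_add_le _ _
    _ = (|β| + ‖κ‖) * ‖b‖ := by
      rw [norm_mul, norm_mul, Complex.norm_conj, Complex.norm_real, Real.norm_eq_abs]; ring
    _ ≤ M * ‖b‖ := mul_le_mul_of_nonneg_right h (norm_nonneg _)

/-- Coercivity of the quadratic form of `B`. -/
lemma coercive {β : ℝ → ℝ} {κ : ℝ → ℂ} (hβc : Continuous β) (hκc : Continuous κ)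
    (hβpos : ∀ s, 0 < β s) (hdet : ∀ s, β s ^ 2 - ‖κ s‖ ^ 2 = 1)
    {M : ℝ} (hM : ∀ s ∈ Icc (0:ℝ) (2 * π), β s ≤ M) {b g : ℝ → ℂ} (hb : Continuous b)
    (hg : Continuous g)
    (h : ∫ s in (0:ℝ)..(2 * π), conj (b s) * (g s - (β s * b s + κ s * conj (b s))) = 0) :
    ∫ s in (0:ℝ)..(2 * π), ‖b s‖ ^ 2 ≤ 4 * M ^ 2 * ∫ s in (0:ℝ)..(2 * π), ‖g s‖ ^ 2 := by
  have hpi : (0:ℝ) ≤ 2 * π := by positivity
  have hM0 : 0 < M := lt_of_lt_of_le (hβpos 0) (hM 0 ⟨le_rfl, hpi⟩)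
  have hbc : Continuous fun s => conj (b s) := Complex.continuous_conj.comp hb
  have hBc : Continuous fun s => (β s : ℂ) * b s + κ s * conj (b s) :=
    ((Complex.continuous_ofReal.comp hβc).mul hb).add (hκc.mul hbc)
  have h1 : ∫ s in (0:ℝ)..(2 * π), (conj (b s) * (β s * b s + κ s * conj (b s))).re =
      ∫ s in (0:ℝ)..(2 * π), (conj (b s) * g s).re := by
    have e1 := int_re (f := fun s => conj (b s) * (β s * b s + κ s * conj (b s))) (hbc.mul hBc)
    have e2 := int_re (f := fun s => conj (b s) * g s) (hbc.mul hg)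
    rw [e1, e2]
    congr 1
    simp_rw [mul_sub] at h
    have e3 : ∫ s in (0:ℝ)..(2 * π), (conj (b s) * g s -
        conj (b s) * (β s * b s + κ s * conj (b s))) =
        (∫ s in (0:ℝ)..(2 * π), conj (b s) * g s) -
        ∫ s in (0:ℝ)..(2 * π), conj (b s) * (β s * b s + κ s * conj (b s)) :=
      intervalIntegral.integral_sub ((hbc.mul hg).intervalIntegrable _ _)
        ((hbc.mul hBc).intervalIntegrable _ _)
    rw [e3] at h
    exact (sub_eq_zero.1 h).symm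
  have h2 : ∫ s in (0:ℝ)..(2 * π), ‖b s‖ ^ 2 / (2 * M) ≤
      ∫ s in (0:ℝ)..(2 * π), (conj (b s) * (β s * b s + κ s * conj (b s))).re := by
    apply intervalIntegral.integral_mono_on hpi
    · exact Continuous.intervalIntegrable (by fun_prop) _ _
    · exact (Complex.continuous_re.comp (hbc.mul hBc)).intervalIntegrable _ _
    · intro s hs
      exact re_B _ _ _ (hβpos s) (hdet s) (hM s hs)
  have h3 : ∫ s in (0:ℝ)..(2 * π), (conj (b s) * g s).re ≤
      ∫ s in (0:ℝ)..(2 * π), (‖b s‖ ^ 2 / (4 * M) + M * ‖g s‖ ^ 2) := by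
    apply intervalIntegral.integral_mono_on hpi
    · exact (Complex.continuous_re.comp (hbc.mul hg)).intervalIntegrable _ _
    · exact Continuous.intervalIntegrable (by fun_prop) _ _
    · intro s _
      have h4 : (conj (b s) * g s).re ≤ ‖b s‖ * ‖g s‖ := by
        have := Complex.re_le_norm (conj (b s) * g s)
        rwa [norm_mul, Complex.norm_conj] at this
      refine h4.trans ?_
      have h5 : ‖b s‖ ^ 2 / (4 * M) + M * ‖g s‖ ^ 2 - ‖b s‖ * ‖g s‖ =
          (‖b s‖ - 2 * M * ‖g s‖) ^ 2 / (4 * M) := by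
        field_simp
        ring
      have h6 : 0 ≤ (‖b s‖ - 2 * M * ‖g s‖) ^ 2 / (4 * M) := by positivity
      linarith
  rw [intervalIntegral.integral_add, intervalIntegral.integral_div,
    intervalIntegral.integral_const_mul] at h3
  · rw [intervalIntegral.integral_div] at h2
    set X := ∫ s in (0:ℝ)..(2 * π), ‖b s‖ ^ 2
    set Y := ∫ s in (0:ℝ)..(2 * π), ‖g s‖ ^ 2
    have h7 : X / (2 * M) ≤ X / (4 * M) + M * Y := by linarith
    have h8 : X / (2 * M) - X / (4 * M) = X / (4 * M) := by field_simp; ring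
    have h9 : X / (4 * M) ≤ M * Y := by linarith
    rw [div_le_iff₀ (by positivity)] at h9
    nlinarith
  · exact Continuous.intervalIntegrable (by fun_prop) _ _
  · exact Continuous.intervalIntegrable (by fun_prop) _ _

/-! ### The energy estimate -/

lemma conj_hasDerivAt {u : ℝ → ℂ} {u' : ℂ} {s : ℝ} (hu : HasDerivAt u u' s) :
    HasDerivAt (fun s => conj (u s)) (conj u') s := by
  exact (Complex.conjCLE.toContinuousLinearMap.hasFDerivAt (x := u s)).comp_hasDerivAt s hu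

lemma om_hasDerivAt {u a : ℝ → ℂ} {u' a' : ℂ} {s : ℝ} (hu : HasDerivAt u u' s)
    (ha : HasDerivAt a a' s) :
    HasDerivAt (fun s => om (u s) (a s)) (om u' (a s) + om (u s) a') s := by
  have h1 := (conj_hasDerivAt hu).mul ha
  have h2 : HasDerivAt (fun s => (conj (u s) * a s).im)
      (Complex.imCLM (conj u' * a s + conj (u s) * a')) s :=
    (Complex.imCLM.hasFDerivAt (x := conj (u s) * a s)).comp_hasDerivAt s h1
  exact h2.congr_deriv (by simp [om])

lemma om_alg (u u' a : ℂ) (β β' : ℝ) (κ κ' b b' : ℂ) (hdet : β ^ 2 - ‖κ‖ ^ 2 = 1)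
    (ha : a = β * b + κ * conj b) :
    om (u - a) (u' - (β' * b + κ' * conj b + (β * b' + κ * conj b'))) =
      om u u' - om u (β' * b + κ' * conj b + (β * b' + κ * conj b')) - om a u' +
      om a (β' * b + κ' * conj b) + om b b' := by
  have h1 := om_BB β κ b b' hdet
  rw [← ha] at h1
  rw [← h1]
  simp only [om_def, Complex.sub_re, Complex.sub_im, Complex.add_re, Complex.add_im]
  ring

lemma om_swap (a b : ℂ) : om a b = - om b a := by
  rw [om_def, om_def]; ring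

lemma B_hasDerivAt {β : ℝ → ℝ} {κ b : ℝ → ℂ} {β' : ℝ} {κ' b' : ℂ} {s : ℝ}
    (hβ : HasDerivAt β β' s) (hκ : HasDerivAt κ κ' s) (hb : HasDerivAt b b' s) :
    HasDerivAt (fun s => (β s : ℂ) * b s + κ s * conj (b s))
      (β' * b s + κ' * conj (b s) + (β s * b' + κ s * conj b')) s := by
  have h1 := (hβ.ofReal_comp.mul hb).add (hκ.mul (conj_hasDerivAt hb))
  exact h1.congr_deriv (by ring)

/-- The energy estimate. -/
lemma energy {K : ℝ → ℂ → ℝ} {β β' : ℝ → ℝ} {κ κ' : ℝ → ℂ}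
    (hβ : ∀ s, HasDerivAt β (β' s) s) (hκ : ∀ s, HasDerivAt κ (κ' s) s)
    (hβ'c : Continuous β') (hκ'c : Continuous κ')
    (hdet : ∀ s, β s ^ 2 - ‖κ s‖ ^ 2 = 1) {r : ℝ}
    (hGI : ∀ (s : ℝ) (b V : ℂ), π * om (β s * b + κ s * conj b) V ≤
      K s V + π / 2 * (r * ‖b‖ ^ 2 +
        om (β s * b + κ s * conj b) (β' s * b + κ' s * conj b)))
    {u u' b b' : ℝ → ℂ} (hu : ∀ s, HasDerivAt u (u' s) s) (hu'c : Continuous u')
    (hb : ∀ s, HasDerivAt b (b' s) s) (hb'c : Continuous b')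
    (hper : om (u (2 * π)) (β (2 * π) * b (2 * π) + κ (2 * π) * conj (b (2 * π))) =
      om (u 0) (β 0 * b 0 + κ 0 * conj (b 0)))
    (hK : Continuous fun s => K s (u' s)) :
    ∫ s in (0:ℝ)..(2 * π), (π / 2 * om (u s) (u' s) - K s (u' s)) ≤
      π / 2 * ((∫ s in (0:ℝ)..(2 * π), om (u s - (β s * b s + κ s * conj (b s)))
        (u' s - (β' s * b s + κ' s * conj (b s) + (β s * b' s + κ s * conj (b' s))))) +
        r * (∫ s in (0:ℝ)..(2 * π), ‖b s‖ ^ 2) - ∫ s in (0:ℝ)..(2 * π), om (b s) (b' s)) := by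
  have hpi : (0:ℝ) ≤ 2 * π := by positivity
  have huc : Continuous u := continuous_iff_continuousAt.2 fun s => (hu s).continuousAt
  have hbc : Continuous b := continuous_iff_continuousAt.2 fun s => (hb s).continuousAt
  have hβc : Continuous β := continuous_iff_continuousAt.2 fun s => (hβ s).continuousAt
  have hκc : Continuous κ := continuous_iff_continuousAt.2 fun s => (hκ s).continuousAt
  set a : ℝ → ℂ := fun s => (β s : ℂ) * b s + κ s * conj (b s) with ha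
  set a' : ℝ → ℂ := fun s =>
    β' s * b s + κ' s * conj (b s) + (β s * b' s + κ s * conj (b' s)) with ha'
  have hcj : Continuous fun s => conj (b s) := Complex.continuous_conj.comp hbc
  have hcj' : Continuous fun s => conj (b' s) := Complex.continuous_conj.comp hb'c
  have hβC : Continuous fun s => (β s : ℂ) := Complex.continuous_ofReal.comp hβc
  have hβ'C : Continuous fun s => (β' s : ℂ) := Complex.continuous_ofReal.comp hβ'c
  have hac : Continuous a := (hβC.mul hbc).add (hκc.mul hcj)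
  have ha'c : Continuous a' := ((hβ'C.mul hbc).add (hκ'c.mul hcj)).add
    ((hβC.mul hb'c).add (hκc.mul hcj'))
  have hda : ∀ s, HasDerivAt a (a' s) s := fun s => B_hasDerivAt (hβ s) (hκ s) (hb s)
  -- total derivative
  have hT : ∫ s in (0:ℝ)..(2 * π), (om (u' s) (a s) + om (u s) (a' s)) = 0 := by
    rw [intervalIntegral.integral_eq_sub_of_hasDerivAt
      (f := fun s => om (u s) (a s)) (fun s _ => om_hasDerivAt (hu s) (hda s))]
    · simp only [ha]
      rw [hper, sub_self]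
    · exact ((continuous_om hu'c hac).add (continuous_om huc ha'c)).intervalIntegrable _ _
  have hee : Continuous fun s => om (u s - a s) (u' s - a' s) :=
    continuous_om (huc.sub hac) (hu'c.sub ha'c)
  have hbb : Continuous fun s => om (b s) (b' s) := continuous_om hbc hb'c
  have hnb : Continuous fun s => ‖b s‖ ^ 2 := by fun_prop
  have htt : Continuous fun s => om (u' s) (a s) + om (u s) (a' s) :=
    (continuous_om hu'c hac).add (continuous_om huc ha'c)
  have hmain : ∫ s in (0:ℝ)..(2 * π), (π / 2 * om (u s) (u' s) - K s (u' s)) ≤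
      ∫ s in (0:ℝ)..(2 * π), (π / 2 * (om (u s - a s) (u' s - a' s) + r * ‖b s‖ ^ 2 -
        om (b s) (b' s) + (om (u' s) (a s) + om (u s) (a' s)))) := by
    apply intervalIntegral.integral_mono_on hpi
    · exact ((continuous_const.mul (continuous_om huc hu'c)).sub hK).intervalIntegrable _ _
    · exact (continuous_const.mul (((hee.add (continuous_const.mul hnb)).sub hbb).add
        htt)).intervalIntegrable _ _
    · intro s _
      have h1 := hGI s (b s) (u' s)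
      have h2 := om_alg (u s) (u' s) (a s) (β s) (β' s) (κ s) (κ' s) (b s) (b' s) (hdet s) rfl
      have h3 : om (u' s) (a s) = - om (a s) (u' s) := om_swap _ _
      have h4 : om (u s - a s) (u' s - a' s) = om (u s) (u' s) - om (u s) (a' s) -
          om (a s) (u' s) + om (a s) (β' s * b s + κ' s * conj (b s)) + om (b s) (b' s) := h2
      rw [h4, h3]
      have h5 : π * om (a s) (u' s) ≤ K s (u' s) + π / 2 * (r * ‖b s‖ ^ 2 +
        om (a s) (β' s * b s + κ' s * conj (b s))) := h1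
      linarith
  refine hmain.trans (le_of_eq ?_)
  rw [intervalIntegral.integral_const_mul]
  congr 1
  have e1 : ∫ s in (0:ℝ)..(2 * π), (om (u s - a s) (u' s - a' s) + r * ‖b s‖ ^ 2 -
        om (b s) (b' s) + (om (u' s) (a s) + om (u s) (a' s))) =
      (∫ s in (0:ℝ)..(2 * π), (om (u s - a s) (u' s - a' s) + r * ‖b s‖ ^ 2 -
        om (b s) (b' s))) + ∫ s in (0:ℝ)..(2 * π), (om (u' s) (a s) + om (u s) (a' s)) :=
    intervalIntegral.integral_add (((hee.add (continuous_const.mul hnb)).sub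
      hbb).intervalIntegrable _ _) (htt.intervalIntegrable _ _)
  have e2 : ∫ s in (0:ℝ)..(2 * π), (om (u s - a s) (u' s - a' s) + r * ‖b s‖ ^ 2 -
        om (b s) (b' s)) =
      (∫ s in (0:ℝ)..(2 * π), (om (u s - a s) (u' s - a' s) + r * ‖b s‖ ^ 2)) -
        ∫ s in (0:ℝ)..(2 * π), om (b s) (b' s) :=
    intervalIntegral.integral_sub ((hee.add (continuous_const.mul hnb)).intervalIntegrable _ _)
      (hbb.intervalIntegrable _ _)
  have e3 : ∫ s in (0:ℝ)..(2 * π), (om (u s - a s) (u' s - a' s) + r * ‖b s‖ ^ 2) =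
      (∫ s in (0:ℝ)..(2 * π), om (u s - a s) (u' s - a' s)) +
        ∫ s in (0:ℝ)..(2 * π), r * ‖b s‖ ^ 2 :=
    intervalIntegral.integral_add (hee.intervalIntegrable _ _)
      ((continuous_const.mul hnb).intervalIntegrable _ _)
  rw [e1, e2, e3, hT, intervalIntegral.integral_const_mul, add_zero]

/-! ### Real linear combinations -/

/-- Real linear combination of three functions. -/
def lc (υ : Fin 3 → ℝ → ℂ) (x : Fin 3 → ℝ) (s : ℝ) : ℂ := ∑ j, (x j : ℂ) * υ j s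

lemma lc_cont {υ : Fin 3 → ℝ → ℂ} (h : ∀ j, Continuous (υ j)) (x : Fin 3 → ℝ) :
    Continuous (lc υ x) := by
  unfold lc
  exact continuous_finsetSum _ fun j _ => continuous_const.mul (h j)

lemma lc_hasDerivAt {υ υ' : Fin 3 → ℝ → ℂ} (hυ : ∀ j s, HasDerivAt (υ j) (υ' j s) s)
    (x : Fin 3 → ℝ) (s : ℝ) : HasDerivAt (lc υ x) (lc υ' x s) s := by
  unfold lc
  exact HasDerivAt.fun_sum fun j _ => (hυ j s).const_mul _

lemma lc_per {υ : Fin 3 → ℝ → ℂ} (h : ∀ j s, υ j (s + 2 * π) = υ j s) (x : Fin 3 → ℝ) (s : ℝ) :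
    lc υ x (s + 2 * π) = lc υ x s := by
  unfold lc
  simp_rw [h]

lemma lc_add (υ : Fin 3 → ℝ → ℂ) (x y : Fin 3 → ℝ) (s : ℝ) :
    lc υ (x + y) s = lc υ x s + lc υ y s := by
  unfold lc
  rw [← Finset.sum_add_distrib]
  apply Finset.sum_congr rfl
  intro j _
  simp
  ring

lemma lc_smul (υ : Fin 3 → ℝ → ℂ) (t : ℝ) (x : Fin 3 → ℝ) (s : ℝ) :
    lc υ (t • x) s = t * lc υ x s := by
  unfold lc
  rw [Finset.mul_sum]
  apply Finset.sum_congr rfl
  intro j _
  simp
  ring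

lemma norm_lc_le (υ : Fin 3 → ℝ → ℂ) {x : Fin 3 → ℝ} (hx : ‖x‖ ≤ 1) (s : ℝ) :
    ‖lc υ x s‖ ≤ ∑ j, ‖υ j s‖ := by
  unfold lc
  refine (norm_sum_le _ _).trans (Finset.sum_le_sum fun j _ => ?_)
  rw [norm_mul, Complex.norm_real]
  have h1 : ‖x j‖ ≤ 1 := (norm_le_pi_norm x j).trans hx
  calc ‖x j‖ * ‖υ j s‖ ≤ 1 * ‖υ j s‖ := mul_le_mul_of_nonneg_right h1 (norm_nonneg _)
    _ = ‖υ j s‖ := one_mul _

lemma tp_add {N : ℕ} (c d : Fin N → ℂ) (s : ℝ) : tp (c + d) s = tp c s + tp d s := by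
  unfold tp
  rw [← Finset.sum_add_distrib]
  apply Finset.sum_congr rfl
  intro j _
  simp
  ring

lemma tp_smul {N : ℕ} (t : ℝ) (c : Fin N → ℂ) (s : ℝ) : tp (t • c) s = t * tp c s := by
  unfold tp
  rw [Finset.mul_sum]
  apply Finset.sum_congr rfl
  intro j _
  simp
  ring

/-- The real-linear map to the modes `1, ..., 2m - 1`. -/
def modes (υ : Fin 3 → ℝ → ℂ) (β : ℝ → ℝ) (κ : ℝ → ℂ) (hυ : ∀ j, Continuous (υ j))
    (hβ : Continuous β) (hκ : Continuous κ) (N L : ℕ) :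
    ((Fin 3 → ℝ) × (Fin N → ℂ)) →ₗ[ℝ] (Fin L → ℂ) where
  toFun z k := ft (fun s => lc υ z.1 s - (β s * tp z.2 s + κ s * conj (tp z.2 s))) ((k : ℕ) + 1)
  map_add' z w := by
    funext k
    have hc : ∀ z : (Fin 3 → ℝ) × (Fin N → ℂ), Continuous
        (fun s => lc υ z.1 s - (β s * tp z.2 s + κ s * conj (tp z.2 s))) := fun z =>
      (lc_cont hυ _).sub (((Complex.continuous_ofReal.comp hβ).mul (tp_cont _)).add
        (hκ.mul (Complex.continuous_conj.comp (tp_cont _))))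
    simp only [Pi.add_apply]
    rw [← ft_add (hc z) (hc w)]
    congr 1
    funext s
    simp only [Prod.fst_add, Prod.snd_add, lc_add, tp_add, map_add]
    ring
  map_smul' t z := by
    funext k
    simp only [Pi.smul_apply, RingHom.id_apply, Complex.real_smul]
    rw [← ft_const_mul]
    congr 1
    funext s
    simp only [Prod.smul_fst, Prod.smul_snd, lc_smul, tp_smul, map_mul, Complex.conj_ofReal]
    ring

lemma int_norm_sub_const {u : ℝ → ℂ} (hu : Continuous u) (c : ℂ) :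
    ∫ s in (0:ℝ)..(2 * π), ‖u s - c‖ ^ 2 =
      (∫ s in (0:ℝ)..(2 * π), ‖u s‖ ^ 2) -
        2 * (conj c * ∫ s in (0:ℝ)..(2 * π), u s).re + 2 * π * ‖c‖ ^ 2 := by
  have h1 : ∀ s, ‖u s - c‖ ^ 2 = ‖u s‖ ^ 2 - 2 * (conj c * u s).re + ‖c‖ ^ 2 := by
    intro s
    rw [← Complex.normSq_eq_norm_sq, ← Complex.normSq_eq_norm_sq,
      ← Complex.normSq_eq_norm_sq, Complex.normSq_apply, Complex.normSq_apply,
      Complex.normSq_apply]
    simp
    ring
  simp_rw [h1]
  have hc1 : Continuous fun s => ‖u s‖ ^ 2 := by fun_prop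
  have hc2 : Continuous fun s => conj c * u s := by fun_prop
  have hc3 : Continuous fun s => 2 * (conj c * u s).re :=
    continuous_const.mul (Complex.continuous_re.comp hc2)
  have e1 : ∫ s in (0:ℝ)..(2 * π), (‖u s‖ ^ 2 - 2 * (conj c * u s).re + ‖c‖ ^ 2) =
      (∫ s in (0:ℝ)..(2 * π), (‖u s‖ ^ 2 - 2 * (conj c * u s).re)) +
        ∫ _ in (0:ℝ)..(2 * π), ‖c‖ ^ 2 :=
    intervalIntegral.integral_add ((hc1.sub hc3).intervalIntegrable _ _)
      (continuous_const.intervalIntegrable _ _)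
  have e2 : ∫ s in (0:ℝ)..(2 * π), (‖u s‖ ^ 2 - 2 * (conj c * u s).re) =
      (∫ s in (0:ℝ)..(2 * π), ‖u s‖ ^ 2) - ∫ s in (0:ℝ)..(2 * π), 2 * (conj c * u s).re :=
    intervalIntegral.integral_sub (hc1.intervalIntegrable _ _) (hc3.intervalIntegrable _ _)
  rw [e1, e2, intervalIntegral.integral_const_mul, int_re hc2,
    intervalIntegral.integral_const_mul, intervalIntegral.integral_const]
  simp

lemma norm_sq_add_le (a b : ℂ) : ‖a + b‖ ^ 2 ≤ 2 * ‖a‖ ^ 2 + 2 * ‖b‖ ^ 2 := by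
  have h := norm_add_le a b
  have h0 := norm_nonneg (a + b)
  nlinarith [sq_nonneg (‖a‖ - ‖b‖), norm_nonneg a, norm_nonneg b]

/-- One Galerkin step. -/
lemma galerkin
    (K : ℝ → ℂ → ℝ) (β : ℝ → ℝ) (κ : ℝ → ℂ) (β' : ℝ → ℝ) (κ' : ℝ → ℂ)
    (hβ : ∀ s, HasDerivAt β (β' s) s) (hκ : ∀ s, HasDerivAt κ (κ' s) s)
    (hβ'c : Continuous β') (hκ'c : Continuous κ')
    (hβper : ∀ s, β (s + 2 * π) = β s) (hκper : ∀ s, κ (s + 2 * π) = κ s)
    (hβpos : ∀ s, 0 < β s) (hdet : ∀ s, β s ^ 2 - ‖κ s‖ ^ 2 = 1)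
    (r : ℝ) (hr : r < 2)
    (hGI : ∀ (s : ℝ) (b V : ℂ), π * om (β s * b + κ s * conj b) V ≤
      K s V + π / 2 * (r * ‖b‖ ^ 2 +
        om (β s * b + κ s * conj b) (β' s * b + κ' s * conj b)))
    (υ υ' : Fin 3 → ℝ → ℂ) (hυ : ∀ j s, HasDerivAt (υ j) (υ' j s) s)
    (hυ'c : ∀ j, Continuous (υ' j)) (hυper : ∀ j s, υ j (s + 2 * π) = υ j s)
    (hK : ∀ x : Fin 3 → ℝ, Continuous fun s => K s (lc υ' x s))
    (hQ : ∀ x : Fin 3 → ℝ, 0 ≤ ∫ s in (0:ℝ)..(2 * π),
      (π / 2 * om (lc υ x s) (lc υ' x s) - K s (lc υ' x s)))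
    {M : ℝ} (hM1 : ∀ s ∈ Icc (0:ℝ) (2 * π), |β s| + ‖κ s‖ ≤ M)
    (hM2 : ∀ s ∈ Icc (0:ℝ) (2 * π), |β' s| + ‖κ' s‖ ≤ M)
    (hM3 : ∀ s ∈ Icc (0:ℝ) (2 * π), ∑ j, ‖υ j s‖ ≤ M)
    (hM4 : ∀ s ∈ Icc (0:ℝ) (2 * π), ∑ j, ‖υ' j s‖ ≤ M) :
    ∃ C : ℝ, 0 ≤ C ∧ ∀ m : ℕ, 1 ≤ m → ∃ x : Fin 3 → ℝ, ‖x‖ = 1 ∧ ∃ c : ℂ,
      ∫ s in (0:ℝ)..(2 * π), ‖lc υ x s - c‖ ^ 2 ≤ C / m := by
  have hpi : (0:ℝ) ≤ 2 * π := by positivity
  have hpi0 : (0:ℝ) < 2 * π := by positivity
  have h0mem : (0:ℝ) ∈ Icc (0:ℝ) (2 * π) := ⟨le_rfl, hpi⟩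
  have hβc : Continuous β := continuous_iff_continuousAt.2 fun s => (hβ s).continuousAt
  have hκc : Continuous κ := continuous_iff_continuousAt.2 fun s => (hκ s).continuousAt
  have hυc : ∀ j, Continuous (υ j) := fun j =>
    continuous_iff_continuousAt.2 fun s => (hυ j s).continuousAt
  have hβC : Continuous fun s => (β s : ℂ) := Complex.continuous_ofReal.comp hβc
  have hβ'C : Continuous fun s => (β' s : ℂ) := Complex.continuous_ofReal.comp hβ'c
  have hβM : ∀ s ∈ Icc (0:ℝ) (2 * π), β s ≤ M := fun s hs =>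
    ((le_abs_self _).trans (le_add_of_nonneg_right (norm_nonneg _))).trans (hM1 s hs)
  have hM0 : 0 < M := lt_of_lt_of_le (hβpos 0) (hβM 0 h0mem)
  have h2r : 0 < 2 - r := by linarith
  -- constants
  set Cu : ℝ := 2 * π * M ^ 2 with hCu
  set Cb : ℝ := 4 * M ^ 2 * Cu with hCb
  set Cb' : ℝ := 4 * M ^ 2 * (2 * Cu + 2 * (M ^ 2 * Cb)) with hCb'
  set Ce : ℝ := 2 * Cu + 2 * (2 * (M ^ 2 * Cb) + 2 * (M ^ 2 * Cb')) with hCe
  have hCu0 : 0 ≤ Cu := by positivity
  have hCb0 : 0 ≤ Cb := by positivity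
  have hCb'0 : 0 ≤ Cb' := by positivity
  have hCe0 : 0 ≤ Ce := by positivity
  refine ⟨2 * Ce + 2 * (M ^ 2 * (Ce / (2 - r))), by positivity, ?_⟩
  intro m hm
  have hmpos : (0:ℝ) < m := by exact_mod_cast hm
  -- a nonzero element of the kernel
  obtain ⟨z, hz, hz0⟩ : ∃ z : (Fin 3 → ℝ) × (Fin (2 * m - 2) → ℂ),
      modes υ β κ hυc hβc hκc (2 * m - 2) (2 * m - 1) z = 0 ∧ z ≠ 0 := by
    have hne : LinearMap.ker (modes υ β κ hυc hβc hκc (2 * m - 2) (2 * m - 1)) ≠ ⊥ := by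
      apply LinearMap.ker_ne_bot_of_finrank_lt
      rw [Module.finrank_prod, Module.finrank_pi, Module.finrank_pi_fintype,
        Module.finrank_pi_fintype]
      simp only [Complex.finrank_real_complex, Finset.sum_const, Finset.card_univ,
        Fintype.card_fin, smul_eq_mul]
      omega
    obtain ⟨z, hz, hz0⟩ := (Submodule.ne_bot_iff _).1 hne
    exact ⟨z, LinearMap.mem_ker.1 hz, hz0⟩
  have hker : ∀ z : (Fin 3 → ℝ) × (Fin (2 * m - 2) → ℂ),
      modes υ β κ hυc hβc hκc (2 * m - 2) (2 * m - 1) z = 0 → ∀ k : ℕ, 1 ≤ k → k ≤ 2 * m - 1 →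
      ft (fun s => lc υ z.1 s - (β s * tp z.2 s + κ s * conj (tp z.2 s))) (k : ℤ) = 0 := by
    intro z hz k hk1 hk2
    have h1 := congrFun hz ⟨k - 1, by omega⟩
    have h2 : (((k - 1 : ℕ) : ℤ) + 1) = (k : ℤ) := by omega
    have h3 : modes υ β κ hυc hβc hκc (2 * m - 2) (2 * m - 1) z ⟨k - 1, by omega⟩ =
      ft (fun s => lc υ z.1 s - (β s * tp z.2 s + κ s * conj (tp z.2 s)))
        (((k - 1 : ℕ) : ℤ) + 1) := rfl
    rw [h3, h2] at h1
    exact h1
  have hBcont : ∀ c : Fin (2 * m - 2) → ℂ,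
      Continuous (fun s => (β s : ℂ) * tp c s + κ s * conj (tp c s)) := fun c =>
    (hβC.mul (tp_cont c)).add (hκc.mul (Complex.continuous_conj.comp (tp_cont c)))
  have hz1 : z.1 ≠ 0 := by
    intro hx
    have hco := coercive hβc hκc hβpos hdet hβM (tp_cont z.2) (lc_cont hυc z.1) (by
      rw [int_conj_tp_mul z.2 (g := fun s => lc υ z.1 s -
        (β s * tp z.2 s + κ s * conj (tp z.2 s))) ((lc_cont hυc z.1).sub (hBcont z.2))]
      apply Finset.sum_eq_zero
      intro i _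
      have := hker z hz (i + 2) (by omega) (by have := i.2; omega)
      push_cast at this
      rw [this, mul_zero])
    have h1 : ∀ s, lc υ z.1 s = 0 := by
      intro s
      rw [hx]
      simp [lc]
    simp_rw [h1] at hco
    rw [int_norm_tp] at hco
    simp only [norm_zero, ne_eq, OfNat.ofNat_ne_zero, not_false_eq_true, zero_pow,
      intervalIntegral.integral_zero, mul_zero] at hco
    have h2 : ∑ i, ‖z.2 i‖ ^ 2 ≤ 0 := by
      by_contra hcon
      rw [not_le] at hcon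
      have := mul_pos hpi0 hcon
      linarith
    have h3 : z.2 = 0 := by
      funext i
      have h4 := (Finset.sum_eq_zero_iff_of_nonneg (fun i _ => sq_nonneg ‖z.2 i‖)).1
        (le_antisymm h2 (Finset.sum_nonneg fun i _ => sq_nonneg _)) i (Finset.mem_univ i)
      simpa using h4
    exact hz0 (Prod.ext hx h3)
  -- normalise
  have hnx : 0 < ‖z.1‖ := norm_pos_iff.2 hz1
  obtain ⟨w, hw, hw1⟩ : ∃ w : (Fin 3 → ℝ) × (Fin (2 * m - 2) → ℂ),
      modes υ β κ hυc hβc hκc (2 * m - 2) (2 * m - 1) w = 0 ∧ ‖w.1‖ = 1 := by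
    refine ⟨‖z.1‖⁻¹ • z, by rw [map_smul, hz, smul_zero], ?_⟩
    rw [Prod.smul_fst, norm_smul, norm_inv, norm_norm, inv_mul_cancel₀ hnx.ne']
  have hmode := hker w hw
  obtain ⟨x, c⟩ := w
  simp only at hw1 hmode
  refine ⟨x, hw1, ?_⟩
  set u : ℝ → ℂ := lc υ x with hu
  set u' : ℝ → ℂ := lc υ' x with hu'
  set b : ℝ → ℂ := tp c with hb
  set b' : ℝ → ℂ := tp (dc c) with hb'
  have huc : Continuous u := lc_cont hυc x
  have hu'c : Continuous u' := lc_cont hυ'c x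
  have hbc : Continuous b := tp_cont c
  have hb'c : Continuous b' := tp_cont _
  have hdu : ∀ s, HasDerivAt u (u' s) s := lc_hasDerivAt hυ x
  have hdb : ∀ s, HasDerivAt b (b' s) s := tp_hasDerivAt c
  set a : ℝ → ℂ := fun s => (β s : ℂ) * b s + κ s * conj (b s) with ha
  set a1 : ℝ → ℂ := fun s => (β' s : ℂ) * b s + κ' s * conj (b s) with ha1
  set a2 : ℝ → ℂ := fun s => (β s : ℂ) * b' s + κ s * conj (b' s) with ha2
  have hac : Continuous a := (hβC.mul hbc).add (hκc.mul (Complex.continuous_conj.comp hbc))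
  have ha1c : Continuous a1 :=
    (hβ'C.mul hbc).add (hκ'c.mul (Complex.continuous_conj.comp hbc))
  have ha2c : Continuous a2 :=
    (hβC.mul hb'c).add (hκc.mul (Complex.continuous_conj.comp hb'c))
  have hda : ∀ s, HasDerivAt a (a1 s + a2 s) s := fun s => B_hasDerivAt (hβ s) (hκ s) (hdb s)
  have hde : ∀ s, HasDerivAt (fun s => u s - a s) (u' s - (a1 s + a2 s)) s :=
    fun s => (hdu s).sub (hda s)
  have he'c : Continuous fun s => u' s - (a1 s + a2 s) := hu'c.sub (ha1c.add ha2c)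
  have hec : Continuous fun s => u s - a s := huc.sub hac
  have heper : ∀ s, u (s + 2 * π) - a (s + 2 * π) = u s - a s := by
    intro s
    simp only [ha, hu, hb]
    rw [lc_per hυper, hβper, hκper, tp_per]
  have heper0 : u (2 * π) - a (2 * π) = u 0 - a 0 := by
    have := heper 0
    simpa using this
  -- modes of `e'`
  have hmode' : ∀ k : ℕ, 1 ≤ k → k ≤ 2 * m - 1 →
      ft (fun s => u' s - (a1 s + a2 s)) (k : ℤ) = 0 := by
    intro k hk1 hk2
    rw [ft_deriv hde he'c heper0, hmode k hk1 hk2, mul_zero]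
  -- bounds
  have bound_u : ∫ s in (0:ℝ)..(2 * π), ‖u s‖ ^ 2 ≤ Cu := by
    have h1 : ∫ s in (0:ℝ)..(2 * π), ‖u s‖ ^ 2 ≤ ∫ _ in (0:ℝ)..(2 * π), M ^ 2 := by
      apply intervalIntegral.integral_mono_on hpi
      · exact (huc.norm.pow 2).intervalIntegrable _ _
      · exact continuous_const.intervalIntegrable _ _
      · intro s hs
        exact pow_le_pow_left₀ (norm_nonneg _) ((norm_lc_le υ hw1.le s).trans (hM3 s hs)) 2
    rw [intervalIntegral.integral_const] at h1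
    simpa [hCu] using h1
  have bound_u' : ∫ s in (0:ℝ)..(2 * π), ‖u' s‖ ^ 2 ≤ Cu := by
    have h1 : ∫ s in (0:ℝ)..(2 * π), ‖u' s‖ ^ 2 ≤ ∫ _ in (0:ℝ)..(2 * π), M ^ 2 := by
      apply intervalIntegral.integral_mono_on hpi
      · exact (hu'c.norm.pow 2).intervalIntegrable _ _
      · exact continuous_const.intervalIntegrable _ _
      · intro s hs
        exact pow_le_pow_left₀ (norm_nonneg _) ((norm_lc_le υ' hw1.le s).trans (hM4 s hs)) 2
    rw [intervalIntegral.integral_const] at h1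
    simpa [hCu] using h1
  -- `b`
  have bound_b : ∫ s in (0:ℝ)..(2 * π), ‖b s‖ ^ 2 ≤ Cb := by
    have hco := coercive hβc hκc hβpos hdet hβM hbc huc (by
      rw [hb, int_conj_tp_mul c hec]
      apply Finset.sum_eq_zero
      intro i _
      have := hmode (i + 2) (by omega) (by have := i.2; omega)
      push_cast at this
      rw [this, mul_zero])
    exact hco.trans (mul_le_mul_of_nonneg_left bound_u (by positivity))
  have bound_a1 : ∫ s in (0:ℝ)..(2 * π), ‖a1 s‖ ^ 2 ≤ M ^ 2 * Cb := by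
    have h1 : ∫ s in (0:ℝ)..(2 * π), ‖a1 s‖ ^ 2 ≤ ∫ s in (0:ℝ)..(2 * π), M ^ 2 * ‖b s‖ ^ 2 := by
      apply intervalIntegral.integral_mono_on hpi
      · exact (ha1c.norm.pow 2).intervalIntegrable _ _
      · exact (continuous_const.mul (hbc.norm.pow 2)).intervalIntegrable _ _
      · intro s hs
        rw [← mul_pow]
        exact pow_le_pow_left₀ (norm_nonneg _) (norm_B_le _ _ _ (hM2 s hs)) 2
    rw [intervalIntegral.integral_const_mul] at h1
    exact h1.trans (mul_le_mul_of_nonneg_left bound_b (by positivity))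
  have bound_a : ∫ s in (0:ℝ)..(2 * π), ‖a s‖ ^ 2 ≤ M ^ 2 * ∫ s in (0:ℝ)..(2 * π), ‖b s‖ ^ 2 := by
    have h1 : ∫ s in (0:ℝ)..(2 * π), ‖a s‖ ^ 2 ≤ ∫ s in (0:ℝ)..(2 * π), M ^ 2 * ‖b s‖ ^ 2 := by
      apply intervalIntegral.integral_mono_on hpi
      · exact (hac.norm.pow 2).intervalIntegrable _ _
      · exact (continuous_const.mul (hbc.norm.pow 2)).intervalIntegrable _ _
      · intro s hs
        rw [← mul_pow]
        exact pow_le_pow_left₀ (norm_nonneg _) (norm_B_le _ _ _ (hM1 s hs)) 2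
    rwa [intervalIntegral.integral_const_mul] at h1
  have two_sum : ∀ {f g : ℝ → ℂ}, Continuous f → Continuous g →
      ∫ s in (0:ℝ)..(2 * π), ‖f s + g s‖ ^ 2 ≤
        2 * (∫ s in (0:ℝ)..(2 * π), ‖f s‖ ^ 2) + 2 * ∫ s in (0:ℝ)..(2 * π), ‖g s‖ ^ 2 := by
    intro f g hf hg
    have h1 : ∫ s in (0:ℝ)..(2 * π), ‖f s + g s‖ ^ 2 ≤
        ∫ s in (0:ℝ)..(2 * π), (2 * ‖f s‖ ^ 2 + 2 * ‖g s‖ ^ 2) := by
      apply intervalIntegral.integral_mono_on hpi
      · exact ((hf.add hg).norm.pow 2).intervalIntegrable _ _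
      · exact ((continuous_const.mul (hf.norm.pow 2)).add
          (continuous_const.mul (hg.norm.pow 2))).intervalIntegrable _ _
      · intro s _
        exact norm_sq_add_le _ _
    have h2 : ∫ s in (0:ℝ)..(2 * π), (2 * ‖f s‖ ^ 2 + 2 * ‖g s‖ ^ 2) =
        (∫ s in (0:ℝ)..(2 * π), 2 * ‖f s‖ ^ 2) + ∫ s in (0:ℝ)..(2 * π), 2 * ‖g s‖ ^ 2 :=
      intervalIntegral.integral_add
        ((continuous_const.mul (hf.norm.pow 2)).intervalIntegrable _ _)
        ((continuous_const.mul (hg.norm.pow 2)).intervalIntegrable _ _)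
    rw [h2, intervalIntegral.integral_const_mul, intervalIntegral.integral_const_mul] at h1
    exact h1
  have two_sub : ∀ {f g : ℝ → ℂ}, Continuous f → Continuous g →
      ∫ s in (0:ℝ)..(2 * π), ‖f s - g s‖ ^ 2 ≤
        2 * (∫ s in (0:ℝ)..(2 * π), ‖f s‖ ^ 2) + 2 * ∫ s in (0:ℝ)..(2 * π), ‖g s‖ ^ 2 := by
    intro f g hf hg
    have := two_sum hf hg.neg
    simpa [sub_eq_add_neg] using this
  -- `b'`
  have bound_b' : ∫ s in (0:ℝ)..(2 * π), ‖b' s‖ ^ 2 ≤ Cb' := by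
    have hco := coercive hβc hκc hβpos hdet hβM hb'c (g := fun s => u' s - a1 s)
      (hu'c.sub ha1c) (by
      rw [hb']
      have e1 : ∀ s, conj (tp (dc c) s) * (u' s - a1 s - (β s * tp (dc c) s +
          κ s * conj (tp (dc c) s))) = conj (tp (dc c) s) * (u' s - (a1 s + a2 s)) := by
        intro s
        simp only [ha2, hb']
        ring
      simp_rw [e1]
      rw [int_conj_tp_mul (dc c) he'c]
      apply Finset.sum_eq_zero
      intro i _
      have := hmode' (i + 2) (by omega) (by have := i.2; omega)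
      push_cast at this
      rw [this, mul_zero])
    refine hco.trans (mul_le_mul_of_nonneg_left ?_ (by positivity))
    refine (two_sub hu'c ha1c).trans ?_
    linarith
  have bound_a2 : ∫ s in (0:ℝ)..(2 * π), ‖a2 s‖ ^ 2 ≤ M ^ 2 * Cb' := by
    have h1 : ∫ s in (0:ℝ)..(2 * π), ‖a2 s‖ ^ 2 ≤ ∫ s in (0:ℝ)..(2 * π), M ^ 2 * ‖b' s‖ ^ 2 := by
      apply intervalIntegral.integral_mono_on hpi
      · exact (ha2c.norm.pow 2).intervalIntegrable _ _
      · exact (continuous_const.mul (hb'c.norm.pow 2)).intervalIntegrable _ _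
      · intro s hs
        rw [← mul_pow]
        exact pow_le_pow_left₀ (norm_nonneg _) (norm_B_le _ _ _ (hM1 s hs)) 2
    rw [intervalIntegral.integral_const_mul] at h1
    exact h1.trans (mul_le_mul_of_nonneg_left bound_b' (by positivity))
  have bound_e' : ∫ s in (0:ℝ)..(2 * π), ‖u' s - (a1 s + a2 s)‖ ^ 2 ≤ Ce := by
    refine (two_sub (g := fun s => a1 s + a2 s) hu'c (ha1c.add ha2c)).trans ?_
    have := two_sum ha1c ha2c
    linarith
  -- module W
  obtain ⟨c0, hc0⟩ := wirtinger_area m hm (fun s => u s - a s) (fun s => u' s - (a1 s + a2 s))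
    hde he'c heper (fun k hk1 hk2 => by
      have := hmode k hk1 hk2
      rw [ft_natCast] at this
      exact this)
  -- energy
  have hen := energy hβ hκ hβ'c hκ'c hdet hGI hdu hu'c hdb hb'c (by
    have e1 : u (2 * π) = u 0 := by
      have := lc_per hυper x 0
      simpa [hu] using this
    have e2 : β (2 * π) = β 0 := by simpa using hβper 0
    have e3 : κ (2 * π) = κ 0 := by simpa using hκper 0
    have e4 : b (2 * π) = b 0 := by
      have := tp_per c 0
      simpa [hb] using this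
    rw [e1, e2, e3, e4]) (hK x)
  have hge := int_om_tp_ge c
  have hQx := hQ x
  set E := ∫ s in (0:ℝ)..(2 * π), om (u s - a s) (u' s - (a1 s + a2 s)) with hE
  set X := ∫ s in (0:ℝ)..(2 * π), ‖b s‖ ^ 2 with hX
  set Y := ∫ s in (0:ℝ)..(2 * π), om (b s) (b' s) with hY
  set F := ∫ s in (0:ℝ)..(2 * π), ‖u s - a s - c0‖ ^ 2 with hF
  have hen' : 0 ≤ π / 2 * (E + r * X - Y) := hQx.trans hen
  have hen2 : 0 ≤ E + r * X - Y := (mul_nonneg_iff_of_pos_left (by positivity)).1 hen'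
  have hc0' : F + E ≤ Ce / m := by
    refine hc0.trans ?_
    rw [one_div, inv_mul_eq_div]
    exact div_le_div_of_nonneg_right bound_e' hmpos.le
  have hF0 : 0 ≤ F := intervalIntegral.integral_nonneg hpi fun s _ => sq_nonneg _
  have hX0 : 0 ≤ X := intervalIntegral.integral_nonneg hpi fun s _ => sq_nonneg _
  have hsum : F + (2 - r) * X ≤ Ce / m := by linarith
  have hF1 : F ≤ Ce / m := by nlinarith
  have hX1 : X ≤ Ce / (2 - r) / m := by
    have : (2 - r) * X ≤ Ce / m := by linarith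
    rw [div_div, mul_comm (2 - r) (m:ℝ), ← div_div, le_div_iff₀ h2r]
    linarith
  refine ⟨c0, ?_⟩
  have hfin : ∫ s in (0:ℝ)..(2 * π), ‖u s - c0‖ ^ 2 ≤
      2 * F + 2 * ∫ s in (0:ℝ)..(2 * π), ‖a s‖ ^ 2 := by
    have h1 := two_sum (f := fun s => u s - a s - c0) (g := a) (hec.sub continuous_const) hac
    have h2 : ∀ s, u s - a s - c0 + a s = u s - c0 := fun s => by ring
    simp_rw [h2] at h1
    exact h1
  refine hfin.trans ?_
  have h3 : 2 * ∫ s in (0:ℝ)..(2 * π), ‖a s‖ ^ 2 ≤ 2 * (M ^ 2 * (Ce / (2 - r) / m)) := by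
    have := mul_le_mul_of_nonneg_left hX1 (by positivity : (0:ℝ) ≤ M ^ 2)
    linarith
  calc 2 * F + 2 * ∫ s in (0:ℝ)..(2 * π), ‖a s‖ ^ 2 ≤
      2 * (Ce / m) + 2 * (M ^ 2 * (Ce / (2 - r) / m)) := by linarith
    _ = (2 * Ce + 2 * (M ^ 2 * (Ce / (2 - r)))) / m := by ring

theorem index_lemma
    (K : ℝ → ℂ → ℝ) (β : ℝ → ℝ) (κ : ℝ → ℂ) (β' : ℝ → ℝ) (κ' : ℝ → ℂ)
    (hβ : ∀ s, HasDerivAt β (β' s) s) (hκ : ∀ s, HasDerivAt κ (κ' s) s)
    (hβ'c : Continuous β') (hκ'c : Continuous κ')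
    (hβper : ∀ s, β (s + 2 * π) = β s) (hκper : ∀ s, κ (s + 2 * π) = κ s)
    (hβpos : ∀ s, 0 < β s) (hdet : ∀ s, β s ^ 2 - ‖κ s‖ ^ 2 = 1)
    (r : ℝ) (hr : r < 2)
    (hGI : ∀ (s : ℝ) (b V : ℂ), π * om (β s * b + κ s * conj b) V ≤
      K s V + π / 2 * (r * ‖b‖ ^ 2 +
        om (β s * b + κ s * conj b) (β' s * b + κ' s * conj b)))
    (υ υ' : Fin 3 → ℝ → ℂ) (hυ : ∀ j s, HasDerivAt (υ j) (υ' j s) s)
    (hυ'c : ∀ j, Continuous (υ' j)) (hυper : ∀ j s, υ j (s + 2 * π) = υ j s)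
    (hK : ∀ x : Fin 3 → ℝ, Continuous fun s => K s (∑ j, (x j : ℂ) * υ' j s))
    (hQ : ∀ x : Fin 3 → ℝ, 0 ≤ ∫ s in (0:ℝ)..(2 * π),
      (π / 2 * om (∑ j, (x j : ℂ) * υ j s) (∑ j, (x j : ℂ) * υ' j s) -
        K s (∑ j, (x j : ℂ) * υ' j s))) :
    ∃ x : Fin 3 → ℝ, x ≠ 0 ∧ ∀ s, ∑ j, (x j : ℂ) * υ' j s = 0 := by
  have hpi : (0:ℝ) ≤ 2 * π := by positivity
  have hpi0 : (0:ℝ) < 2 * π := by positivity
  have hβc : Continuous β := continuous_iff_continuousAt.2 fun s => (hβ s).continuousAt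
  have hκc : Continuous κ := continuous_iff_continuousAt.2 fun s => (hκ s).continuousAt
  have hυc : ∀ j, Continuous (υ j) := fun j =>
    continuous_iff_continuousAt.2 fun s => (hυ j s).continuousAt
  obtain ⟨M, hM⟩ : ∃ M : ℝ, ∀ s ∈ Icc (0:ℝ) (2 * π),
      ‖(|β s| + ‖κ s‖) + (|β' s| + ‖κ' s‖) + (∑ j, ‖υ j s‖) + ∑ j, ‖υ' j s‖‖ ≤ M := by
    apply isCompact_Icc.exists_bound_of_continuousOn
    apply Continuous.continuousOn
    have h1 : Continuous fun s => |β s| := hβc.abs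
    have h2 : Continuous fun s => |β' s| := hβ'c.abs
    exact (((h1.add hκc.norm).add (h2.add hκ'c.norm)).add
      (continuous_finsetSum _ fun j _ => (hυc j).norm)).add
      (continuous_finsetSum _ fun j _ => (hυ'c j).norm)
  have nn1 : ∀ s, 0 ≤ |β s| + ‖κ s‖ := fun s => by positivity
  have nn2 : ∀ s, 0 ≤ |β' s| + ‖κ' s‖ := fun s => by positivity
  have nn3 : ∀ s, 0 ≤ ∑ j, ‖υ j s‖ := fun s => by positivity
  have nn4 : ∀ s, 0 ≤ ∑ j, ‖υ' j s‖ := fun s => by positivity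
  have hM' : ∀ s ∈ Icc (0:ℝ) (2 * π),
      (|β s| + ‖κ s‖) + (|β' s| + ‖κ' s‖) + (∑ j, ‖υ j s‖) + ∑ j, ‖υ' j s‖ ≤ M :=
    fun s hs => (le_abs_self _).trans (hM s hs)
  obtain ⟨C, hC0, hC⟩ := galerkin K β κ β' κ' hβ hκ hβ'c hκ'c hβper hκper hβpos hdet r hr hGI
    υ υ' hυ hυ'c hυper hK hQ (M := M)
    (fun s hs => by linarith [hM' s hs, nn2 s, nn3 s, nn4 s])
    (fun s hs => by linarith [hM' s hs, nn1 s, nn3 s, nn4 s])
    (fun s hs => by linarith [hM' s hs, nn1 s, nn2 s, nn4 s])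
    (fun s hs => by linarith [hM' s hs, nn1 s, nn2 s, nn3 s])
  -- the variance
  set μ : (Fin 3 → ℝ) → ℂ := fun x => ((2 * π : ℝ) : ℂ)⁻¹ * ∫ s in (0:ℝ)..(2 * π), lc υ x s
    with hμ
  set G : (Fin 3 → ℝ) → ℝ := fun x => ∫ s in (0:ℝ)..(2 * π), ‖lc υ x s - μ x‖ ^ 2 with hG
  have hlc2 : Continuous (Function.uncurry fun (x : Fin 3 → ℝ) (s : ℝ) => lc υ x s) := by
    unfold lc Function.uncurry
    apply continuous_finsetSum
    intro j _
    exact (Complex.continuous_ofReal.comp ((continuous_apply j).comp continuous_fst)).mul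
      ((hυc j).comp continuous_snd)
  have hμc : Continuous μ := by
    apply continuous_const.mul
    exact intervalIntegral.continuous_parametric_intervalIntegral_of_continuous' hlc2 _ _
  have hGc : Continuous G := by
    apply intervalIntegral.continuous_parametric_intervalIntegral_of_continuous'
      (f := fun (x : Fin 3 → ℝ) (s : ℝ) => ‖lc υ x s - μ x‖ ^ 2)
    exact ((hlc2.sub (hμc.comp continuous_fst)).norm).pow 2
  have hGle : ∀ x (c : ℂ), G x ≤ ∫ s in (0:ℝ)..(2 * π), ‖lc υ x s - c‖ ^ 2 := by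
    intro x c
    have h1 := int_norm_sub_const (lc_cont hυc x) c
    have h2 := int_norm_sub_const (lc_cont hυc x) (μ x)
    have h3 : ∫ s in (0:ℝ)..(2 * π), lc υ x s = ((2 * π : ℝ) : ℂ) * μ x := by
      rw [hμ]
      simp only
      rw [← mul_assoc, mul_inv_cancel₀ (by exact_mod_cast hpi0.ne'), one_mul]
    rw [h3] at h1 h2
    have h4 : 0 ≤ 2 * π * ‖c - μ x‖ ^ 2 := by positivity
    have h5 : 2 * π * ‖c - μ x‖ ^ 2 = (∫ s in (0:ℝ)..(2 * π), ‖lc υ x s - c‖ ^ 2) - G x := by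
      rw [hG]
      simp only
      rw [h1, h2, ← Complex.normSq_eq_norm_sq, ← Complex.normSq_eq_norm_sq,
        ← Complex.normSq_eq_norm_sq, Complex.normSq_apply, Complex.normSq_apply,
        Complex.normSq_apply]
      simp
      ring
    linarith
  obtain ⟨x0, hx0, hmin⟩ := (isCompact_sphere (0 : Fin 3 → ℝ) 1).exists_isMinOn
    (NormedSpace.sphere_nonempty.2 zero_le_one) hGc.continuousOn
  have hx0' : ‖x0‖ = 1 := by simpa using hx0
  have hG0 : G x0 ≤ 0 := by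
    apply le_of_tendsto_of_tendsto' tendsto_const_nhds
      (g := fun n : ℕ => C / ((n + 1 : ℕ) : ℝ)) (b := atTop)
    · exact ((tendsto_const_div_atTop_nhds_zero_nat C).comp (tendsto_add_atTop_nat 1))
    · intro n
      obtain ⟨x, hx, c, hc⟩ := hC (n + 1) (by omega)
      have h1 : G x0 ≤ G x := hmin (by simpa using hx)
      exact h1.trans ((hGle x c).trans hc)
  have hGnn : 0 ≤ G x0 := intervalIntegral.integral_nonneg hpi fun s _ => sq_nonneg _
  have hG00 : G x0 = 0 := le_antisymm hG0 hGnn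
  have hIcc : ∀ s ∈ Icc (0:ℝ) (2 * π), lc υ x0 s = μ x0 := by
    intro s hs
    by_contra hne
    have hpos : 0 < ‖lc υ x0 s - μ x0‖ ^ 2 := by
      have : 0 < ‖lc υ x0 s - μ x0‖ := norm_pos_iff.2 (sub_ne_zero.2 hne)
      positivity
    have h1 := intervalIntegral.integral_lt_integral_of_continuousOn_of_le_of_exists_lt
      (f := fun _ => (0:ℝ)) (g := fun s => ‖lc υ x0 s - μ x0‖ ^ 2) hpi0
      continuousOn_const (((lc_cont hυc x0).sub continuous_const).norm.pow 2).continuousOn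
      (fun s _ => sq_nonneg _) ⟨s, hs, hpos⟩
    rw [intervalIntegral.integral_zero] at h1
    have h2 : G x0 = ∫ s in (0:ℝ)..(2 * π), ‖lc υ x0 s - μ x0‖ ^ 2 := rfl
    rw [← h2, hG00] at h1
    exact lt_irrefl _ h1
  have hall : ∀ s, lc υ x0 s = μ x0 := by
    intro s
    have hp : Function.Periodic (lc υ x0) (2 * π) := fun s => lc_per hυper x0 s
    obtain ⟨y, hy, hsy⟩ := hp.exists_mem_Ico₀ hpi0 s
    rw [hsy]
    exact hIcc y (Ico_subset_Icc_self hy)
  refine ⟨x0, ?_, ?_⟩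
  · intro h
    rw [h] at hx0'
    simp at hx0'
  · intro s
    have h1 := lc_hasDerivAt hυ x0 s
    have h2 : lc υ x0 = fun _ => μ x0 := funext hall
    rw [h2] at h1
    exact h1.unique (hasDerivAt_const s (μ x0))

end Pool.Agent.MP_ae5b4e_an.Birk
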