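import Mathlib
import Pool.Agent.Lib.MP_ae5b4e_an.Birk.Leaf3

/-!
MP_ae5b4e_an, module T: `C¹` parametrisation of the family of `3`-periodic triangles.
-/

noncomputable section

namespace Pool.Agent.MP_ae5b4e_an.Birk

open Real Set Filter Topology MeasureTheory ComplexConjugate

/-- A `C¹` function with positive derivative at bounded distance from a linear function has a
`C¹` inverse. -/
lemma exists_inv_of_deriv_pos {F F' : ℝ → ℝ} (hF : ∀ t, HasDerivAt F (F' t) t)
    (hpos : ∀ t, 0 < F' t) {c K : ℝ} (hc : 0 < c) (hb : ∀ t, |F t - c * t| ≤ K) :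
    ∃ G : ℝ → ℝ, Continuous G ∧ (∀ s, F (G s) = s) ∧ (∀ t, G (F t) = t) ∧
      ∀ s, HasDerivAt G (F' (G s))⁻¹ s := by
  have hcont : Continuous F := continuous_iff_continuousAt.2 fun t => (hF t).continuousAt
  have hmono : StrictMono F := by
    apply strictMono_of_deriv_pos
    intro t
    rw [(hF t).deriv]
    exact hpos t
  have htop : Tendsto F atTop atTop := by
    have h1 : Tendsto (fun t : ℝ => c * t - K) atTop atTop :=
      tendsto_atTop_add_const_right _ _ (tendsto_id.const_mul_atTop hc)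
    refine tendsto_atTop_mono (fun t => ?_) h1
    have := (abs_le.1 (hb t)).1
    linarith
  have hbot : Tendsto F atBot atBot := by
    have h1 : Tendsto (fun t : ℝ => c * t + K) atBot atBot :=
      tendsto_atBot_add_const_right _ _ (tendsto_id.const_mul_atBot hc)
    refine tendsto_atBot_mono (fun t => ?_) h1
    have := (abs_le.1 (hb t)).2
    linarith
  have hsurj : Function.Surjective F := hcont.surjective htop hbot
  let e := StrictMono.orderIsoOfSurjective F hmono hsurj
  have he : ∀ t, e t = F t := fun t => rfl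
  have h1 : ∀ s, F (e.symm s) = s := fun s => by
    rw [← he]
    exact e.apply_symm_apply s
  have h2 : ∀ t, e.symm (F t) = t := fun t => by
    rw [← he]
    exact e.symm_apply_apply t
  refine ⟨fun s => e.symm s, e.symm.continuous, h1, h2, fun s => ?_⟩
  exact HasDerivAt.of_local_left_inverse e.symm.continuous.continuousAt (hF (e.symm s))
    (hpos _).ne' (Eventually.of_forall h1)

/-- **Module T.** -/
theorem exists_leaf3 {d d' : ℝ → ℝ} (hd : ∀ t, HasDerivAt d (d' t) t) (hd'c : Continuous d')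
    (hper : ∀ t, d (t + 2 * π) = d t) (hmem : ∀ t, d t ∈ Ioo 0 (π / 2))
    (hlt : ∀ t, |d' t| < 1)
    (h3 : ∀ t, ∃ t2 t3, t2 - d t2 = t + d t ∧ t3 - d t3 = t2 + d t2 ∧
      t + 2 * π - d t = t3 + d t3) :
    ∃ Ψ Y : ℝ → ℝ, Leaf3 d d' Ψ Y := by
  have hA : ∀ t, HasDerivAt (fun t => t - d t) (1 - d' t) t := fun t => (hasDerivAt_id t).sub (hd t)
  have hApos : ∀ t, 0 < 1 - d' t := fun t => by
    have := (abs_lt.1 (hlt t)).2
    linarith
  have hCpos : ∀ t, 0 < 1 + d' t := fun t => by
    have := (abs_lt.1 (hlt t)).1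
    linarith
  obtain ⟨B, hBc, hB1, hB2, hB3⟩ := exists_inv_of_deriv_pos (c := 1) (K := π) hA hApos one_pos
    (fun t => by
      have := hmem t
      have h0 := this.1
      have h1 := this.2
      have := Real.pi_pos
      rw [abs_le]
      constructor <;> linarith)
  have hB2' : ∀ t, B (t - d t) = t := hB2
  have hB1' : ∀ s, B s - d (B s) = s := hB1
  -- the map `T`
  let T : ℝ → ℝ := fun t => B (t + d t)
  let T' : ℝ → ℝ := fun t => (1 - d' (T t))⁻¹ * (1 + d' t)
  have hT1 : ∀ t, T t - d (T t) = t + d t := fun t => hB1' _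
  have hTd : ∀ t, HasDerivAt T (T' t) t := fun t =>
    (hB3 (t + d t)).comp t ((hasDerivAt_id t).add (hd t))
  have hTuniq : ∀ t u, u - d u = t + d t → u = T t := fun t u h => by
    show u = B (t + d t)
    rw [← h, hB2']
  have hT'pos : ∀ t, 0 < T' t := fun t => mul_pos (inv_pos.2 (hApos _)) (hCpos t)
  have hdc : Continuous d := continuous_iff_continuousAt.2 fun t => (hd t).continuousAt
  have hTc : Continuous T := continuous_iff_continuousAt.2 fun t => (hTd t).continuousAt
  have hT'c : Continuous T' := by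
    refine Continuous.mul (Continuous.inv₀ ?_ fun t => (hApos _).ne') ?_
    · exact continuous_const.sub (hd'c.comp hTc)
    · exact continuous_const.add hd'c
  have hTper : ∀ t, T (t + 2 * π) = T t + 2 * π := fun t => by
    symm
    apply hTuniq
    rw [hper, hper]
    have := hT1 t
    linarith
  have hT3 : ∀ t, T (T (T t)) = t + 2 * π := fun t => by
    obtain ⟨t2, t3, e1, e2, e3⟩ := h3 t
    have f1 : t2 = T t := hTuniq _ _ e1
    have f2 : t3 = T t2 := hTuniq _ _ e2
    have f3 : t + 2 * π = T t3 := hTuniq _ _ (by rw [hper]; exact e3)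
    rw [f3, f2, f1]
  -- the map `Φ`
  let Φ : ℝ → ℝ := fun t => t + T t + T (T t)
  let Φ' : ℝ → ℝ := fun t => 1 + T' t + T' (T t) * T' t
  have hΦd : ∀ t, HasDerivAt Φ (Φ' t) t := fun t =>
    ((hasDerivAt_id t).add (hTd t)).add ((hTd (T t)).comp t (hTd t))
  have hΦ'pos : ∀ t, 0 < Φ' t := fun t => by
    have h1 := hT'pos t
    have h2 := mul_pos (hT'pos (T t)) (hT'pos t)
    show 0 < 1 + T' t + T' (T t) * T' t
    linarith
  have hΦ'c : Continuous Φ' :=
    (continuous_const.add hT'c).add ((hT'c.comp hTc).mul hT'c)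
  obtain ⟨Ψ, hΨc, hΨ1, hΨ2, hΨ3⟩ := exists_inv_of_deriv_pos (c := 3) (K := 3 * π) hΦd hΦ'pos
    (by norm_num)
    (fun t => by
      have a1 := hT1 t
      have a2 := hT1 (T t)
      have b0 := hmem t
      have b1 := hmem (T t)
      have b2 := hmem (T (T t))
      have := Real.pi_pos
      have e : Φ t = t + T t + T (T t) := rfl
      rw [e, abs_le]
      obtain ⟨b00, b01⟩ := b0
      obtain ⟨b10, b11⟩ := b1
      obtain ⟨b20, b21⟩ := b2
      constructor <;> linarith)
  have hΨ1' : ∀ s, Ψ s + T (Ψ s) + T (T (Ψ s)) = s := hΨ1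
  have hstep : ∀ s, Ψ (s + 2 * π) = T (Ψ s) := fun s => by
    have h1 : Φ (T (Ψ s)) = s + 2 * π := by
      show T (Ψ s) + T (T (Ψ s)) + T (T (T (Ψ s))) = s + 2 * π
      rw [hT3]
      have := hΨ1' s
      linarith
    rw [← h1, hΨ2]
  have hstep2 : ∀ s, Ψ (s + 4 * π) = T (T (Ψ s)) := fun s => by
    rw [← hstep, ← hstep]
    congr 1
    ring
  refine ⟨Ψ, fun s => (Φ' (Ψ s))⁻¹, ?_⟩
  refine
    { d_deriv := hd
      d'_cont := hd'c
      d_per := hper
      d_mem := hmem
      Ψ_deriv := hΨ3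
      Y_cont := (hΦ'c.comp hΨc).inv₀ fun s => (hΦ'pos _).ne'
      Y_pos := fun s => inv_pos.2 (hΦ'pos _)
      link := fun s => ?_
      turn := fun s => ?_
      sum := fun s => ?_
      surj := fun t => ⟨Φ t, hΨ2 t⟩ }
  · rw [hstep]
    have := hT1 (Ψ s)
    linarith
  · have e : s + 6 * π = (s + 4 * π) + 2 * π := by ring
    rw [e, hstep, hstep2, hT3]
  · rw [hstep, hstep2]
    exact hΨ1' s

end Pool.Agent.MP_ae5b4e_an.Birk
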