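import Mathlib
import Pool.Agent.Lib.MP_ae5b4e_an.Birk.Family3
import Pool.Agent.Lib.MP_ae5b4e_an.Birk.GaugeFinal
import Pool.Agent.Lib.MP_ae5b4e_an.Birk.Index
import Pool.Agent.Lib.MP_ae5b4e_an.Birk.Conic
import Pool.Agent.Lib.MP_ae5b4e_an.Birk.Param

/-!
MP_ae5b4e_an, theorem on `3`-periodic leaves: the main argument.
-/

noncomputable section

namespace Pool.Agent.MP_ae5b4e_an.Birk

open Real Set Filter Topology MeasureTheory ComplexConjugate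

variable {h h1 h2 : ℝ → ℝ} {P D : ℝ → ℝ → ℝ} {c₀ : ℝ} {d' Ψ Y : ℝ → ℝ}

/-- Values of `Im (C * conj (EE2 Ψ s))` for a constant `C`. -/
lemma im_const (C : ℂ) (Ψ : ℝ → ℝ) (s : ℝ) :
    (C * conj (EE2 Ψ s)).im = C.im * cos (2 * Ψ s) - C.re * sin (2 * Ψ s) := by
  have h1 : EE2 Ψ s = (((cos (2 * Ψ s) : ℝ) : ℂ) + ((sin (2 * Ψ s) : ℝ) : ℂ) * Complex.I) := by
    unfold EE2
    have : 2 * (Ψ s : ℂ) * Complex.I = ((2 * Ψ s : ℝ) : ℂ) * Complex.I := by push_cast; ring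
    rw [this, Complex.exp_mul_I]
    push_cast
    ring
  rw [h1]
  simp only [map_add, map_mul, Complex.conj_ofReal, Complex.conj_I, Complex.mul_im,
    Complex.add_re, Complex.add_im, Complex.ofReal_re, Complex.ofReal_im, Complex.mul_re,
    Complex.I_re, Complex.I_im, Complex.neg_re, Complex.neg_im]
  ring

/-- There is an origin for which the support function is that of an ellipse centred there, and
equality holds in the Hopf inequality. -/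
theorem Bir.exists_center (B : Bir h h1 h2 P D) (hc₀ : c₀ ∈ Ioo (0:ℝ) 1)
    (L : Leaf3 (D c₀) d' Ψ Y) :
    ∃ o1 o2 C1 C2 : ℝ, (∀ t, (h t - gO o1 o2 t) * (h1 t - gO1 o1 o2 t) =
        C2 * cos (2 * t) - C1 * sin (2 * t)) ∧
      ∀ c ∈ Ioc 0 c₀, ∀ t, (h1 t - gO1 o1 o2 t) * sin (D c t) =
        (h t - gO o1 o2 t) * cos (D c t) * deriv (D c) t := by
  obtain ⟨υ, υ', hυ, hυ'c, hυper, him⟩ := B.curves hc₀ L
  obtain ⟨β, κ, β', κ', g1, g2, g3, g4, g5, g6, g7, g8, g9⟩ :=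
    L.gauge B.h_deriv B.h1_deriv B.rho_pos B.h_per B.h1_per (B.closes hc₀ L)
  have hidx := index_lemma (Kin (D c₀) Ψ Y) β κ β' κ' g1 g2 g3 g4 g5 g6 g7 g8 (15 / 8)
    (by norm_num) g9 υ υ' hυ hυ'c hυper
    (fun x => continuous_Kin L continuous_id
      (continuous_finsetSum _ fun j _ => continuous_const.mul (hυ'c j)))
    (B.form_nonneg hc₀ L hυ hυ'c hυper him)
  obtain ⟨x, hx, hx0⟩ := hidx
  -- the curve is constant
  obtain ⟨U, hU⟩ : ∃ U : ℝ → ℂ, U = fun s => ∑ j, (x j : ℂ) * υ j s := ⟨_, rfl⟩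
  have hUd : ∀ s, HasDerivAt U 0 s := fun s => by
    have h1 : HasDerivAt (fun s => ∑ j, (x j : ℂ) * υ j s) (∑ j, (x j : ℂ) * υ' j s) s :=
      HasDerivAt.fun_sum fun j _ => (hυ j s).const_mul _
    rw [hx0 s] at h1
    rw [hU]
    exact h1
  have hUc : ∀ s, U s = U 0 := fun s =>
    is_const_of_deriv_eq_zero (fun x => (hUd x).differentiableAt) (fun x => (hUd x).deriv) s 0
  obtain ⟨C0, hC0⟩ : ∃ C0, C0 = U 0 := ⟨_, rfl⟩
  have him2 : ∀ s, (C0 * conj (EE2 Ψ s)).im = x 0 * (h (Ψ s) * h1 (Ψ s)) -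
          (h1 (Ψ s) * gO (x 1) (x 2) (Ψ s) + h (Ψ s) * gO1 (x 1) (x 2) (Ψ s)) := fun s => by
    rw [hC0, ← hUc s, hU]
    exact him x s
  have hx00 : x 0 ≠ 0 := by
    intro h00
    have ho : 0 < x 1 ^ 2 + x 2 ^ 2 := by
      by_contra hneg
      push Not at hneg
      have e1 : x 1 = 0 := by nlinarith [sq_nonneg (x 1), sq_nonneg (x 2)]
      have e2 : x 2 = 0 := by nlinarith [sq_nonneg (x 1), sq_nonneg (x 2)]
      apply hx
      funext j
      fin_cases j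
      · exact h00
      · exact e1
      · exact e2
    refine no_first_order B.h_deriv B.h1_deriv B.rho_pos ho (A := -C0.im) (B := C0.re) ?_
    intro t
    obtain ⟨s, rfl⟩ := L.surj t
    have e1 := him2 s
    rw [im_const, h00] at e1
    linarith
  obtain ⟨o1, ho1⟩ : ∃ o1, o1 = x 1 / x 0 := ⟨_, rfl⟩
  obtain ⟨o2, ho2⟩ : ∃ o2, o2 = x 2 / x 0 := ⟨_, rfl⟩
  obtain ⟨C, hC⟩ : ∃ C : ℂ, C = (((x 0)⁻¹ : ℝ) : ℂ) * C0 +
    (((1 / 2 : ℝ) : ℂ) * ((o1 : ℂ) + o2 * Complex.I) ^ 2) := ⟨_, rfl⟩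
  have hkey : ∀ s, (C * conj (EE2 Ψ s)).im =
      (h (Ψ s) - gO o1 o2 (Ψ s)) * (h1 (Ψ s) - gO1 o1 o2 (Ψ s)) := fun s => by
    rw [hC, add_mul, Complex.add_im, gO_mul_gO1, mul_assoc, Complex.im_ofReal_mul, him2]
    have e1 : gO (x 1) (x 2) (Ψ s) = x 0 * gO o1 o2 (Ψ s) := by
      unfold gO; rw [ho1, ho2]; field_simp
    have e2 : gO1 (x 1) (x 2) (Ψ s) = x 0 * gO1 o1 o2 (Ψ s) := by
      unfold gO1; rw [ho1, ho2]; field_simp
    rw [e1, e2]
    field_simp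
    ring
  refine ⟨o1, o2, C.re, C.im, ?_, ?_⟩
  · intro t
    obtain ⟨s, rfl⟩ := L.surj t
    rw [← hkey s, im_const]
  · have B' := B.translate o1 o2
    have hEn := L.energy B'.h_deriv B'.h1_deriv B'.h2_cont B'.h_per (B'.closes hc₀ L)
      (υ := fun _ => C) (υ' := fun _ => 0) (fun s => hasDerivAt_const s C) continuous_const
      (fun _ => rfl) hkey
    have hz : (∫ s in (0:ℝ)..(2 * π), (π / 2 * om C 0 - Kin (D c₀) Ψ Y s 0)) = 0 := by
      have e1 : ∀ s : ℝ, π / 2 * om C 0 - Kin (D c₀) Ψ Y s 0 = 0 := fun s => by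
        unfold om Kin
        simp
      simp only [e1, intervalIntegral.integral_zero]
    rw [hz] at hEn
    intro c hc t
    exact B'.hopf_eq_zero hc₀ hEn hc t

end Pool.Agent.MP_ae5b4e_an.Birk
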