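import Mathlib
import Pool.Agent.Lib.MP_ae5b4e_an.Birk.Main3

/-!
MP_ae5b4e_an, theorem on `3`-periodic leaves: the equations of the leaves.
-/

noncomputable section

namespace Pool.Agent.MP_ae5b4e_an.Birk

open Real Set Filter Topology MeasureTheory ComplexConjugate

lemma trig_shift (X C1 C2 t d : ℝ) :
    X + (C1 * cos (2 * (t + d)) + C2 * sin (2 * (t + d))) =
      X + (C1 * cos (2 * t) + C2 * sin (2 * t)) * cos (2 * d) +
        (C2 * cos (2 * t) - C1 * sin (2 * t)) * sin (2 * d) := by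
  rw [mul_add, cos_add, sin_add]
  ring

/-- The leaf in the case of equality. -/
lemma leaf_conic {k k1 Dc p : ℝ → ℝ} {X C1 C2 : ℝ} (hk : ∀ t, HasDerivAt k (k1 t) t)
    (kper : ∀ t, k (t + 2 * π) = k t) (hkpos : ∀ t, 0 < k t)
    (hD : Differentiable ℝ Dc) (hDmem : ∀ t, Dc t ∈ Ioo 0 (π / 2)) (hp : Continuous p)
    (hplus : ∀ t, p (t + Dc t) = k t * cos (Dc t) + k1 t * sin (Dc t))
    (heq : ∀ t, k1 t * sin (Dc t) = k t * cos (Dc t) * deriv Dc t)
    (hN : ∀ t, k t ^ 2 = X + (C1 * cos (2 * t) + C2 * sin (2 * t)))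
    (hC : ∀ t, k t * k1 t = C2 * cos (2 * t) - C1 * sin (2 * t))
    (hΔ : 0 < X ^ 2 - (C1 ^ 2 + C2 ^ 2)) :
    ∃ l, 0 < l ∧ (∀ φ, l < X + (C1 * cos (2 * φ) + C2 * sin (2 * φ))) ∧
      ∀ φ, 0 < p φ ∧ p φ ^ 2 = X + (C1 * cos (2 * φ) + C2 * sin (2 * φ)) - l := by
  have hs : ∀ t, 0 < sin (Dc t) := fun t =>
    Real.sin_pos_of_pos_of_lt_pi (hDmem t).1 (by linarith [(hDmem t).2, pi_pos])
  have hc : ∀ t, 0 < cos (Dc t) := fun t =>
    Real.cos_pos_of_mem_Ioo ⟨by linarith [(hDmem t).1, pi_pos], (hDmem t).2⟩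
  have hDc : Continuous Dc := hD.continuous
  -- `sin D / k` is constant
  have hquot : ∀ t, HasDerivAt (fun t => sin (Dc t) / k t) 0 t := fun t => by
    have e1 := ((hD t).hasDerivAt.sin).div (hk t) (hkpos t).ne'
    refine e1.congr_deriv ?_
    rw [div_eq_zero_iff]
    left
    have := heq t
    linear_combination -this
  have hconst : ∀ t, sin (Dc t) / k t = sin (Dc 0) / k 0 := fun t =>
    is_const_of_deriv_eq_zero (fun x => (hquot x).differentiableAt) (fun x => (hquot x).deriv) t 0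
  obtain ⟨m, hm⟩ : ∃ m, m = sin (Dc 0) / k 0 := ⟨_, rfl⟩
  have hmpos : 0 < m := by rw [hm]; exact div_pos (hs 0) (hkpos 0)
  have hsin : ∀ t, sin (Dc t) = m * k t := fun t => by
    rw [hm, ← hconst t, div_mul_cancel₀ _ (hkpos t).ne']
  have hsq : ∀ t, m ^ 2 * (X + (C1 * cos (2 * t) + C2 * sin (2 * t))) < 1 := fun t => by
    rw [← hN t]
    have e1 := hsin t
    have e2 := sin_sq_add_cos_sq (Dc t)
    have e3 := hc t
    have e4 : m ^ 2 * k t ^ 2 = sin (Dc t) ^ 2 := by rw [e1]; ring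
    rw [e4]
    nlinarith
  refine ⟨m ^ 2 * (X ^ 2 - (C1 ^ 2 + C2 ^ 2)), by positivity, ?_, ?_⟩
  · intro φ
    have e1 := hsq (φ + π / 2)
    rw [show 2 * (φ + π / 2) = 2 * φ + π by ring, cos_add_pi, sin_add_pi] at e1
    obtain ⟨c, hcc⟩ : ∃ c, c = C1 * cos (2 * φ) + C2 * sin (2 * φ) := ⟨_, rfl⟩
    have e2 : C1 * -cos (2 * φ) + C2 * -sin (2 * φ) = -c := by rw [hcc]; ring
    rw [e2] at e1
    have e3 : c ^ 2 ≤ C1 ^ 2 + C2 ^ 2 := by
      have := sin_sq_add_cos_sq (2 * φ)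
      rw [hcc]
      nlinarith [sq_nonneg (C1 * sin (2 * φ) - C2 * cos (2 * φ))]
    have e4 := hN φ
    rw [← hcc] at e4 ⊢
    have e5 : 0 < X + c := by rw [← e4]; exact pow_pos (hkpos φ) 2
    have hm2 : 0 < m ^ 2 := by positivity
    calc m ^ 2 * (X ^ 2 - (C1 ^ 2 + C2 ^ 2)) ≤ m ^ 2 * (X ^ 2 - c ^ 2) := by gcongr
      _ = (m ^ 2 * (X + -c)) * (X + c) := by ring
      _ < 1 * (X + c) := by gcongr
      _ = X + c := one_mul _
  · -- the equation
    have hsurj : ∀ φ, ∃ t, t + Dc t = φ := fun φ => by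
      have hcont : ContinuousOn (fun t => t + Dc t) (Icc (φ - π / 2) φ) :=
        (continuous_id.add hDc).continuousOn
      have h1 := intermediate_value_Icc (by linarith [pi_pos]) hcont
      obtain ⟨t, -, ht⟩ := h1 (show φ ∈ Icc (φ - π / 2 + Dc (φ - π / 2)) (φ + Dc φ) from
        ⟨by linarith [(hDmem (φ - π / 2)).2], by linarith [(hDmem φ).1]⟩)
      exact ⟨t, ht⟩
    have hsqp : ∀ φ, p φ ^ 2 = X + (C1 * cos (2 * φ) + C2 * sin (2 * φ)) -
        m ^ 2 * (X ^ 2 - (C1 ^ 2 + C2 ^ 2)) := fun φ => by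
      obtain ⟨t, rfl⟩ := hsurj φ
      rw [hplus, trig_shift, ← hC t]
      have e1 := hN t
      have e2 := hC t
      have e3 := hsin t
      have e4 := sin_sq_add_cos_sq (Dc t)
      obtain ⟨c, hcc⟩ : ∃ c, c = C1 * cos (2 * t) + C2 * sin (2 * t) := ⟨_, rfl⟩
      rw [← hcc] at e1 ⊢
      have e5 : (k t * k1 t) ^ 2 + c ^ 2 = C1 ^ 2 + C2 ^ 2 := by
        rw [e2, hcc]
        have := sin_sq_add_cos_sq (2 * t)
        linear_combination (C1 ^ 2 + C2 ^ 2) * this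
      have e6 := (hkpos t).ne'
      have e7 : k t ^ 2 * (m ^ 2 * (X ^ 2 - (C1 ^ 2 + C2 ^ 2))) =
          sin (Dc t) ^ 2 * (X ^ 2 - (C1 ^ 2 + C2 ^ 2)) := by rw [e3]; ring
      have e8 : c = k t ^ 2 - X := by linarith
      have key : k t ^ 2 * ((k t * cos (Dc t) + k1 t * sin (Dc t)) ^ 2 -
          (X + c * cos (2 * Dc t) + k t * k1 t * sin (2 * Dc t) -
            m ^ 2 * (X ^ 2 - (C1 ^ 2 + C2 ^ 2)))) = 0 := by
        have : k t ^ 2 * ((k t * cos (Dc t) + k1 t * sin (Dc t)) ^ 2 -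
          (X + c * cos (2 * Dc t) + k t * k1 t * sin (2 * Dc t) -
            m ^ 2 * (X ^ 2 - (C1 ^ 2 + C2 ^ 2)))) =
          k t ^ 2 * ((k t * cos (Dc t) + k1 t * sin (Dc t)) ^ 2 -
          (X + c * cos (2 * Dc t) + k t * k1 t * sin (2 * Dc t))) +
          k t ^ 2 * (m ^ 2 * (X ^ 2 - (C1 ^ 2 + C2 ^ 2))) := by ring
        rw [this, e7, ← e5, cos_two_mul, sin_two_mul, e8]
        have e9 : cos (Dc t) ^ 2 = 1 - sin (Dc t) ^ 2 := by linarith
        linear_combination (k t ^ 2 * (k t ^ 2 - 2 * (k t ^ 2 - X))) * e9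
      have h2 := (mul_eq_zero.1 key).resolve_left (pow_ne_zero 2 e6)
      linarith
    have hlt : ∀ φ, m ^ 2 * (X ^ 2 - (C1 ^ 2 + C2 ^ 2)) <
        X + (C1 * cos (2 * φ) + C2 * sin (2 * φ)) := by
      intro φ
      have e1 := hsq (φ + π / 2)
      rw [show 2 * (φ + π / 2) = 2 * φ + π by ring, cos_add_pi, sin_add_pi] at e1
      obtain ⟨c, hcc⟩ : ∃ c, c = C1 * cos (2 * φ) + C2 * sin (2 * φ) := ⟨_, rfl⟩
      have e2 : C1 * -cos (2 * φ) + C2 * -sin (2 * φ) = -c := by rw [hcc]; ring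
      rw [e2] at e1
      have e3 : c ^ 2 ≤ C1 ^ 2 + C2 ^ 2 := by
        have := sin_sq_add_cos_sq (2 * φ)
        rw [hcc]
        nlinarith [sq_nonneg (C1 * sin (2 * φ) - C2 * cos (2 * φ))]
      have e4 := hN φ
      rw [← hcc] at e4 ⊢
      have e5 : 0 < X + c := by rw [← e4]; exact pow_pos (hkpos φ) 2
      have hm2 : 0 < m ^ 2 := by positivity
      calc m ^ 2 * (X ^ 2 - (C1 ^ 2 + C2 ^ 2)) ≤ m ^ 2 * (X ^ 2 - c ^ 2) := by gcongr
        _ = (m ^ 2 * (X + -c)) * (X + c) := by ring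
        _ < 1 * (X + c) := by gcongr
        _ = X + c := one_mul _
    have hne : ∀ φ, p φ ≠ 0 := fun φ h0 => by
      have e1 := hsqp φ
      have e2 := hlt φ
      rw [h0] at e1
      simp only [ne_eq, OfNat.ofNat_ne_zero, not_false_eq_true, zero_pow] at e1
      linarith
    -- a point where `p` is positive
    obtain ⟨t0, -, ht0⟩ := exists_hasDerivAt_eq_zero (f := k) (f' := k1)
      (show (0:ℝ) < 2 * π by positivity)
      (continuous_iff_continuousAt.2 fun s => (hk s).continuousAt).continuousOn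
      (by have := kper 0; rw [zero_add] at this; exact this.symm) (fun x _ => hk x)
    have hp0 : 0 < p (t0 + Dc t0) := by
      rw [hplus, ht0, zero_mul, add_zero]
      exact mul_pos (hkpos t0) (hc t0)
    intro φ
    refine ⟨?_, hsqp φ⟩
    by_contra hneg
    push Not at hneg
    have hlt' : p φ < 0 := lt_of_le_of_ne hneg (hne φ)
    have hmem : (0:ℝ) ∈ p '' (uIcc φ (t0 + Dc t0)) := by
      refine intermediate_value_uIcc hp.continuousOn ?_
      rw [mem_uIcc]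
      left
      exact ⟨hlt'.le, hp0.le⟩
    obtain ⟨ψ, -, hψ⟩ := hmem
    exact hne ψ hψ

end Pool.Agent.MP_ae5b4e_an.Birk
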