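import Mathlib
import Pool.Agent.Lib.MP_ae5b4e_an.Birk.Leaves3

/-!
MP_ae5b4e_an, theorem on `3`-periodic leaves: the final form.
-/

noncomputable section

namespace Pool.Agent.MP_ae5b4e_an.Birk

open Real Set Filter Topology MeasureTheory ComplexConjugate

lemma exists_polar {x y : ℝ} (hxy : x ≠ 0 ∨ y ≠ 0) :
    ∃ r θ : ℝ, 0 < r ∧ r * cos θ = x ∧ r * sin θ = y := by
  have hz : (⟨x, y⟩ : ℂ) ≠ 0 := by
    intro h0
    rw [Complex.ext_iff] at h0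
    simp only [Complex.zero_re, Complex.zero_im] at h0
    rcases hxy with h | h
    · exact h h0.1
    · exact h h0.2
  exact ⟨‖(⟨x, y⟩ : ℂ)‖, Complex.arg ⟨x, y⟩, norm_pos_iff.2 hz, Complex.norm_mul_cos_arg _,
    Complex.norm_mul_sin_arg _⟩

lemma posdef_of_pos {A b E : ℝ}
    (h : ∀ φ, 0 < A * cos φ ^ 2 + 2 * b * (cos φ * sin φ) + E * sin φ ^ 2) :
    0 < A ∧ b ^ 2 < A * E := by
  have hA : 0 < A := by simpa using h 0
  refine ⟨hA, ?_⟩
  obtain ⟨r, θ, hr, h1, h2⟩ := exists_polar (x := -b) (y := A) (Or.inr hA.ne')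
  have e1 : r ^ 2 * (A * cos θ ^ 2 + 2 * b * (cos θ * sin θ) + E * sin θ ^ 2) =
      A * (r * cos θ) ^ 2 + 2 * b * ((r * cos θ) * (r * sin θ)) + E * (r * sin θ) ^ 2 := by ring
  have e2 := mul_pos (pow_pos hr 2) (h θ)
  rw [e1, h1, h2] at e2
  have e3 : A * (-b) ^ 2 + 2 * b * (-b * A) + E * A ^ 2 = A * (A * E - b ^ 2) := by ring
  rw [e3] at e2
  have := (mul_pos_iff_of_pos_left hA).1 e2
  linarith

/-- The curve with polar radius `1 / p`. -/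
lemma curve_eq {p : ℝ → ℝ} {o1 o2 a b d : ℝ} (hpos : ∀ φ, 0 < p φ - gO o1 o2 φ)
    (hsq : ∀ φ, (p φ - gO o1 o2 φ) ^ 2 =
      a * cos φ ^ 2 + 2 * b * (cos φ * sin φ) + d * sin φ ^ 2) :
    {z : ℝ × ℝ | ∃ φ, p φ * z.1 = cos φ ∧ p φ * z.2 = sin φ} =
      {z : ℝ × ℝ | (1 - (o1 * z.1 + o2 * z.2)) ^ 2 =
        a * z.1 ^ 2 + 2 * b * (z.1 * z.2) + d * z.2 ^ 2} := by
  ext ⟨x, y⟩
  simp only [mem_setOf_eq]
  constructor
  · rintro ⟨φ, hx, hy⟩
    have hp : p φ ≠ 0 := by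
      intro h0
      rw [h0, zero_mul] at hx hy
      have := sin_sq_add_cos_sq φ
      rw [← hx, ← hy] at this
      norm_num at this
    have e1 := hsq φ
    have e2 : p φ - gO o1 o2 φ = p φ * (1 - (o1 * x + o2 * y)) := by
      unfold gO
      rw [← hx, ← hy]
      ring
    rw [e2, ← hx, ← hy] at e1
    have e3 : p φ ^ 2 * (1 - (o1 * x + o2 * y)) ^ 2 =
        p φ ^ 2 * (a * x ^ 2 + 2 * b * (x * y) + d * y ^ 2) := by
      linear_combination e1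
    exact mul_left_cancel₀ (pow_ne_zero 2 hp) e3
  · intro hz
    have hne : x ≠ 0 ∨ y ≠ 0 := by
      by_contra hneg
      push Not at hneg
      rw [hneg.1, hneg.2] at hz
      norm_num at hz
    obtain ⟨r, θ, hr, hx, hy⟩ := exists_polar hne
    have e1 : (1 - r * gO o1 o2 θ) ^ 2 = (r * (p θ - gO o1 o2 θ)) ^ 2 := by
      rw [mul_pow, hsq θ]
      rw [← hx, ← hy] at hz
      unfold gO
      linear_combination hz
    rcases sq_eq_sq_iff_eq_or_eq_neg.1 e1 with e2 | e2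
    · refine ⟨θ, ?_, ?_⟩
      · have e3 : r * p θ = 1 := by linarith
        rw [← hx]
        linear_combination (cos θ) * e3
      · have e3 : r * p θ = 1 := by linarith
        rw [← hy]
        linear_combination (sin θ) * e3
    · have e3 : p (θ + π) - gO o1 o2 (θ + π) = p θ - gO o1 o2 θ := by
        have e4 := hsq (θ + π)
        rw [cos_add_pi, sin_add_pi] at e4
        have e5 : (p (θ + π) - gO o1 o2 (θ + π)) ^ 2 = (p θ - gO o1 o2 θ) ^ 2 := by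
          rw [e4, hsq θ]
          ring
        exact (pow_left_inj₀ (hpos _).le (hpos _).le two_ne_zero).1 e5
      have e6 : gO o1 o2 (θ + π) = -gO o1 o2 θ := by
        unfold gO
        rw [cos_add_pi, sin_add_pi]
        ring
      have e7 : r * p (θ + π) = -1 := by
        rw [e6] at e3
        have e8 : p (θ + π) = p θ - 2 * gO o1 o2 θ := by linarith
        rw [e8]
        linarith
      refine ⟨θ + π, ?_, ?_⟩
      · rw [cos_add_pi, ← hx]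
        linear_combination (cos θ) * e7
      · rw [sin_add_pi, ← hy]
        linear_combination (sin θ) * e7

lemma double_angle (X C1 C2 φ : ℝ) : X + (C1 * cos (2 * φ) + C2 * sin (2 * φ)) =
    (X + C1) * cos φ ^ 2 + 2 * C2 * (cos φ * sin φ) + (X - C1) * sin φ ^ 2 := by
  rw [cos_two_mul, sin_two_mul]
  have := sin_sq_add_cos_sq φ
  linear_combination (-X + C1) * this

theorem Bir.conic {h h1 h2 : ℝ → ℝ} {P D : ℝ → ℝ → ℝ} (B : Bir h h1 h2 P D) {c₀ : ℝ}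
    (hc₀ : c₀ ∈ Ioo (0:ℝ) 1)
    (h3 : ∀ t, ∃ t2 t3, t2 - D c₀ t2 = t + D c₀ t ∧ t3 - D c₀ t3 = t2 + D c₀ t2 ∧
      t + 2 * π - D c₀ t = t3 + D c₀ t3) :
    ∃ o1 o2 a b d : ℝ, 0 < a ∧ b ^ 2 < a * d ∧
      {z : ℝ × ℝ | ∃ φ, h φ * z.1 = cos φ ∧ h φ * z.2 = sin φ} =
        {z : ℝ × ℝ | (1 - (o1 * z.1 + o2 * z.2)) ^ 2 =
          a * z.1 ^ 2 + 2 * b * (z.1 * z.2) + d * z.2 ^ 2} ∧
      ∀ c ∈ Ioc 0 c₀, ∃ l, 0 < l ∧ 0 < a - l ∧ b ^ 2 < (a - l) * (d - l) ∧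
        {z : ℝ × ℝ | ∃ φ, P c φ * z.1 = cos φ ∧ P c φ * z.2 = sin φ} =
          {z : ℝ × ℝ | (1 - (o1 * z.1 + o2 * z.2)) ^ 2 =
            (a - l) * z.1 ^ 2 + 2 * b * (z.1 * z.2) + (d - l) * z.2 ^ 2} := by
  have hd'c : Continuous fun t => Hopf.pd2 D (c₀, t) :=
    Hopf.slice (Hopf.contOn_pd2 B.D_smooth) hc₀
  obtain ⟨Ψ, Y, L⟩ := exists_leaf3 (d := D c₀) (d' := fun t => Hopf.pd2 D (c₀, t))
    (fun t => B.hDt hc₀ t) hd'c (B.D_per c₀ hc₀) (B.D_mem c₀ hc₀)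
    (fun t => by
      have := B.abs_deriv_lt_one hc₀ t
      rwa [(B.hDt hc₀ t).deriv] at this) h3
  obtain ⟨o1, o2, C1, C2, hC, heq⟩ := B.exists_center hc₀ L
  have B' := B.translate o1 o2
  obtain ⟨X, hkpos, hΔ, hN⟩ := conic_of_constant B'.h_deriv B'.h1_deriv B'.h2_cont B'.h_per
    B'.h1_per B'.rho_pos hC
  have hN' : ∀ φ, (h φ - gO o1 o2 φ) ^ 2 =
      (X + C1) * cos φ ^ 2 + 2 * C2 * (cos φ * sin φ) + (X - C1) * sin φ ^ 2 := fun φ => by
    rw [hN φ, double_angle]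
  have hpd := posdef_of_pos (A := X + C1) (b := C2) (E := X - C1) (fun φ => by
    rw [← hN' φ]
    exact pow_pos (hkpos φ) 2)
  refine ⟨o1, o2, X + C1, C2, X - C1, hpd.1, hpd.2, curve_eq hkpos hN', ?_⟩
  intro c hc
  have hc' : c ∈ Ioo (0:ℝ) 1 := ⟨hc.1, hc.2.trans_lt hc₀.2⟩
  obtain ⟨l, hl, hlN, hp⟩ := leaf_conic (Dc := D c) (p := fun φ => P c φ - gO o1 o2 φ)
    B'.h_deriv B'.h_per hkpos (fun t => (B.hDt hc' t).differentiableAt) (B.D_mem c hc')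
    ((Hopf.slice B.P_smooth.continuousOn hc').sub (gO_cont o1 o2))
    (fun t => B'.eq_plus c hc' t) (fun t => heq c hc t) hN hC hΔ
  have hp2 : ∀ φ, (P c φ - gO o1 o2 φ) ^ 2 =
      (X + C1 - l) * cos φ ^ 2 + 2 * C2 * (cos φ * sin φ) + (X - C1 - l) * sin φ ^ 2 := fun φ => by
    rw [(hp φ).2, double_angle]
    have := sin_sq_add_cos_sq φ
    linear_combination l * this
  have hpd2 := posdef_of_pos (A := X + C1 - l) (b := C2) (E := X - C1 - l) (fun φ => by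
    rw [← hp2 φ]
    exact pow_pos (hp φ).1 2)
  exact ⟨l, hl, hpd2.1, hpd2.2, curve_eq (fun φ => (hp φ).1) hp2⟩

end Pool.Agent.MP_ae5b4e_an.Birk
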